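import Mathlib
import Pool.Agent.H110K2.Defs

/-!
# Kakutani equivalence is not reducible to actions of `S_∞`: the model
-/

set_option autoImplicit false

open MeasureTheory Filter Topology

namespace Pool.Agent.H468R2.KA

/-! ### parameters -/

/-- number of groups of types of `k`-words -/
def g (k : ℕ) : ℕ := 2 ^ (k + 6)
/-- number of types of `k`-words in a group -/
def h (k : ℕ) : ℕ := 2 ^ k
/-- number of types of `k`-words -/
def M (k : ℕ) : ℕ := g k * h k
/-- number of blocks -/
def R (k : ℕ) : ℕ := 2 ^ k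
/-- base of the run lengths -/
def b (k : ℕ) : ℕ := 2 ^ (k + 6)
/-- number of exponents -/
def E (k : ℕ) : ℕ := g (k + 1) + M (k + 1)
/-- number of occurrences of each letter in a block -/
def Q (k : ℕ) : ℕ := b k ^ E k
/-- number of `k`-words in a `k+1`-word -/
def L (k : ℕ) : ℕ := R k * (M k * Q k)
/-- length of `k`-words -/
def N : ℕ → ℕ
  | 0 => 1
  | k + 1 => L k * N k

theorem g_pos (k : ℕ) : 0 < g k := by unfold g; positivity
theorem h_pos (k : ℕ) : 0 < h k := by unfold h; positivity
theorem M_pos (k : ℕ) : 0 < M k := Nat.mul_pos (g_pos k) (h_pos k)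
theorem R_pos (k : ℕ) : 0 < R k := by unfold R; positivity
theorem b_pos (k : ℕ) : 0 < b k := by unfold b; positivity
theorem Q_pos (k : ℕ) : 0 < Q k := Nat.pow_pos (b_pos k)
theorem L_pos (k : ℕ) : 0 < L k := Nat.mul_pos (R_pos k) (Nat.mul_pos (M_pos k) (Q_pos k))
theorem N_pos : ∀ k : ℕ, 0 < N k
  | 0 => one_pos
  | k + 1 => Nat.mul_pos (L_pos k) (N_pos k)

/-- exponent of the run length in block `r` of the `k+1`-word of type `j`; `c` is the number of
blocks that are on -/
def ex (k c j r : ℕ) : ℕ := if r < c then g (k + 1) + j else j / h (k + 1)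

/-! ### words -/

/-- the types of the `k`-words in the `k+1`-word of type `j` -/
def pat (k c j : ℕ) : List ℕ :=
  (List.range (L k)).map (fun s => s % (M k * Q k) / b k ^ ex k c j (s / (M k * Q k)) % M k)

/-- the `k`-word of type `j` -/
def W (c : ℕ → ℕ) : ℕ → ℕ → List ℕ
  | 0, j => [j]
  | k + 1, j => (pat k (c k) j).flatMap (W c k)

/-- common subwords of subwords of `w₁` and `w₂` are short -/
def Sp (ρ η : ℝ) (w₁ w₂ : List ℕ) : Prop :=
  ∀ U V w : List ℕ, U <:+: w₁ → V <:+: w₂ → w.Sublist U → w.Sublist V →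
    (w.length : ℝ) ≤ ρ / 2 * (U.length + V.length) + η

/-- window of a cyclic word over `m` letters with runs of length `p` -/
def cyc (m p n s : ℕ) : List ℕ := (List.range n).map (fun i => (s + i) / p % m)

/-- constants -/
noncomputable def rho (k : ℕ) : ℝ := 1 / 4 - 1 / 2 ^ (k + 3)
/-- constants -/
noncomputable def eta (k : ℕ) : ℝ := 1 / 2 ^ (k + 6)

/-! ### the space and the transformations -/

/-- coordinates -/
abbrev D (k : ℕ) : Type := Fin (M k) × Fin (R k) × Fin (Q k)

/-- the space -/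
abbrev Y : Type := ∀ k, D k

/-- position in the `k+1`-word of type `j` of the `k`-word with coordinate `d` -/
def pos (k c j : ℕ) (d : D k) : ℕ :=
  (d.2.1 : ℕ) * (M k * Q k) + (d.2.2 : ℕ) / b k ^ ex k c j d.2.1 * (b k ^ ex k c j d.2.1 * M k)
    + (d.1 : ℕ) * b k ^ ex k c j d.2.1 + (d.2.2 : ℕ) % b k ^ ex k c j d.2.1

/-- first coordinate -/
def zr (k : ℕ) : D k := (⟨0, M_pos k⟩, ⟨0, R_pos k⟩, ⟨0, Q_pos k⟩)

/-- last coordinate -/
def la (k : ℕ) : D k := (⟨M k - 1, Nat.sub_lt (M_pos k) one_pos⟩,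
  ⟨R k - 1, Nat.sub_lt (R_pos k) one_pos⟩, ⟨Q k - 1, Nat.sub_lt (Q_pos k) one_pos⟩)

open Classical in
/-- next coordinate -/
noncomputable def nxt (k c j : ℕ) (d : D k) : D k :=
  if H : ∃ d' : D k, pos k c j d' = pos k c j d + 1 then H.choose else zr k

open Classical in
/-- previous coordinate -/
noncomputable def prv (k c j : ℕ) (d : D k) : D k :=
  if H : ∃ d' : D k, pos k c j d' + 1 = pos k c j d then H.choose else la k

/-- the type of the `k`-word containing `y` -/
def ty (k : ℕ) (y : Y) : ℕ := ((y k).1 : ℕ)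

open Classical in
/-- the transformation -/
noncomputable def T (c : ℕ → ℕ) (y : Y) : Y :=
  if H : ∃ k, y k ≠ la k then
    fun l => if l < Nat.find H then zr l
      else if l = Nat.find H then nxt l (c l) (ty (l + 1) y) (y l) else y l
  else y

open Classical in
/-- its inverse -/
noncomputable def S (c : ℕ → ℕ) (y : Y) : Y :=
  if H : ∃ k, y k ≠ zr k then
    fun l => if l < Nat.find H then la l
      else if l = Nat.find H then prv l (c l) (ty (l + 1) y) (y l) else y l
  else y

/-- position of `y` in its `k`-word -/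
def P (c : ℕ → ℕ) : ℕ → Y → ℕ
  | 0, _ => 0
  | k + 1, y => pos k (c k) (ty (k + 1) y) (y k) * N k + P c k y

/-- first point of the `k`-word of `y` -/
def bs (k : ℕ) (y : Y) : Y := fun l => if l < k then zr l else y l

/-- good points -/
def Gd : Set Y := {y | (∀ k, ∃ l, k ≤ l ∧ y l ≠ la l) ∧ (∀ k, ∃ l, k ≤ l ∧ y l ≠ zr l)}

/-- the order -/
def lt (c : ℕ → ℕ) (y z : Y) : Prop :=
  ∃ k, (∀ l, k < l → y l = z l) ∧
    pos k (c k) (ty (k + 1) y) (y k) < pos k (c k) (ty (k + 1) y) (z k)

/-- cylinders -/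
def cyl (k : ℕ) (a : Y) : Set Y := {y | ∀ l < k, y l = a l}

/-- `ν` is the uniform product measure on `Y` -/
structure Unif (ν : Measure Y) : Prop where
  prob : IsProbabilityMeasure ν
  cyl : ∀ k a, ν (cyl k a) = ((N k : ENNReal))⁻¹

/-- the name of the `T`-orbit of `y` -/
noncomputable def nm (c : ℕ → ℕ) (y : Y) (n : ℕ) : List ℕ :=
  (List.range n).map (fun i => ty 0 ((T c)^[i] y))

/-- the parameters given by a real sequence -/
noncomputable def cc (x : ℕ → ℝ) (k : ℕ) : ℕ := ⌊max 0 (min 1 (x k)) * R k⌋₊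

end Pool.Agent.H468R2.KA
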