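import Pool.Agent.H468R2.KA.Tasks2

/-!
# Task `A_align`
-/

set_option autoImplicit false

namespace Pool.Agent.H468R2.KA

theorem rho_nonneg' (k : ℕ) : 0 ≤ rho k := by
  unfold rho
  have h1 : (4 : ℝ) ≤ 2 ^ (k + 3) := by
    have : (2 : ℝ) ^ 2 ≤ 2 ^ (k + 3) := pow_le_pow_right₀ (by norm_num) (by omega)
    norm_num at this
    linarith
  have h2 : (1 : ℝ) / 2 ^ (k + 3) ≤ 1 / 4 := one_div_le_one_div_of_le (by norm_num) h1
  linarith

theorem rho_le' (k : ℕ) : rho k ≤ 1 / 4 := by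
  unfold rho
  have h1 : (0 : ℝ) < 1 / 2 ^ (k + 3) := by positivity
  linarith

theorem eta_pos' (k : ℕ) : 0 < eta k := by
  unfold eta
  positivity

theorem align_pieces (ρ η : ℝ) (hρ : 0 ≤ ρ) (W0 : List ℕ) (f : ℕ → List ℕ) :
    ∀ (Us : List (ℕ × List ℕ)), (∀ p ∈ Us, Sp ρ η W0 (f p.1)) → (∀ p ∈ Us, p.2 <:+: f p.1) →
      ∀ U w : List ℕ, U <:+: W0 → w.Sublist U → w.Sublist (Us.map Prod.snd).flatten →
        (w.length : ℝ) ≤ ρ / 2 * (U.length + (Us.map Prod.snd).flatten.length) +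
          Us.length * η := by
  intro Us
  induction Us with
  | nil =>
    intro _ _ U w _ _ h2
    simp only [List.map_nil, List.flatten_nil, List.sublist_nil] at h2
    subst h2
    simp only [List.length_nil, Nat.cast_zero, List.map_nil, List.flatten_nil, add_zero, zero_mul]
    positivity
  | cons p Us ih =>
    intro hS hI U w hU h1 h2
    simp only [List.map_cons, List.flatten_cons] at h2
    obtain ⟨w₁, w₂, rfl, h3, h4⟩ := List.sublist_append_iff.mp h2
    obtain ⟨U₁, U₂, rfl, h5, h6⟩ := List.append_sublist_iff.mp h1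
    have hU1 : U₁ <:+: W0 := (List.prefix_append U₁ U₂).isInfix.trans hU
    have hU2 : U₂ <:+: W0 := (List.suffix_append U₁ U₂).isInfix.trans hU
    have e1 := hS p List.mem_cons_self U₁ p.2 w₁ hU1 (hI p List.mem_cons_self) h5 h3
    have e2 := ih (fun q hq => hS q (List.mem_cons_of_mem _ hq))
      (fun q hq => hI q (List.mem_cons_of_mem _ hq)) U₂ w₂ hU2 h6 h4
    simp only [List.map_cons, List.flatten_cons, List.length_append, List.length_cons,
      Nat.cast_add, Nat.cast_one]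
    nlinarith [e1, e2]

theorem t_A_align (h1 : W_pieces) (h2 : W_len) : A_align := by
  intro c' K j l U X₁ X₂ J₂ w e hS hU hJ hw1 hw2 hl1 hl2
  obtain ⟨w12, w₂, rfl, hx, hw2X⟩ := List.sublist_append_iff.mp hw1
  obtain ⟨w₁, wU, rfl, hw1X, hwU⟩ := List.sublist_append_iff.mp hx
  obtain ⟨J12, Y₂, rfl, hy, hw2Y⟩ := List.append_sublist_iff.mp hw2
  obtain ⟨Y₁, V, rfl, hw1Y, hwV⟩ := List.append_sublist_iff.mp hy
  have l1 := hw1X.length_le
  have l2 := hw2X.length_le
  have l3 := hw1Y.length_le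
  have l4 := hw2Y.length_le
  have l1' : (w₁.length : ℝ) ≤ X₁.length := by exact_mod_cast l1
  have l2' : (w₂.length : ℝ) ≤ X₂.length := by exact_mod_cast l2
  have l3' : (w₁.length : ℝ) ≤ Y₁.length := by exact_mod_cast l3
  have l4' : (w₂.length : ℝ) ≤ Y₂.length := by exact_mod_cast l4
  simp only [List.length_append, Nat.cast_add] at hl1 hl2
  have hVinf : V <:+: l.flatMap (W c' K) := by
    refine List.IsInfix.trans ?_ hJ
    exact ⟨Y₁, Y₂, rfl⟩
  obtain ⟨Us, hU1, hU2, hU3, -⟩ := h1 (W c' K) (N K) (N_pos K) (h2 c' K) l V hVinf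
  have hlen : Us.length ≤ l.length := by
    have := hU1.length_le
    simpa using this
  have hmem : ∀ p ∈ Us, p.1 ∈ l := fun p hp =>
    hU1.subset (List.mem_map_of_mem (f := Prod.fst) hp)
  have key := align_pieces (rho K) (eta K * N K) (rho_nonneg' K) (W c' K j) (W c' K) Us
    (fun p hp => hS p.1 (hmem p hp)) hU2 U wU hU hwU (by rw [hU3]; exact hwV)
  rw [hU3] at key
  have hlen' : (Us.length : ℝ) ≤ l.length := by exact_mod_cast hlen
  have hη : 0 ≤ eta K * (N K : ℝ) := mul_nonneg (eta_pos' K).le (Nat.cast_nonneg _)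
  have hb : (Us.length : ℝ) * (eta K * N K) ≤ l.length * (eta K * N K) :=
    mul_le_mul_of_nonneg_right hlen' hη
  have hρ0 := rho_nonneg' K
  have hρ1 := rho_le' K
  have hUle : (U.length : ℝ) ≤ wU.length + e := by linarith
  have hVle : (V.length : ℝ) ≤ wU.length + e := by linarith
  have hwUle : (wU.length : ℝ) ≤ U.length := by exact_mod_cast hwU.length_le
  set u : ℝ := (U.length : ℝ)
  set v : ℝ := (V.length : ℝ)
  set x : ℝ := (wU.length : ℝ)
  set H : ℝ := l.length * (eta K * N K)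
  -- `x ≤ ρ/2 (u+v) + H`, `u, v ≤ x + e`, `x ≤ u`
  have hv : v ≤ u + e := by linarith
  have he : 0 ≤ e := by linarith
  have hx0 : (0 : ℝ) ≤ x := Nat.cast_nonneg _
  have hk : x ≤ rho K / 2 * (u + v) + H := by linarith
  have h5 : rho K / 2 * (u + v) ≤ rho K / 2 * (2 * (x + e)) :=
    mul_le_mul_of_nonneg_left (by linarith) (by positivity)
  have h6 : rho K * (x + e) ≤ 1 / 4 * (x + e) := mul_le_mul_of_nonneg_right hρ1 (by linarith)
  nlinarith [h5, h6, hk, hUle]

end Pool.Agent.H468R2.KA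

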