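import Pool.Agent.H468R2.KA.Tasks2

/-!
# Task A_bad: the complement of the very good points has small measure
-/

set_option autoImplicit false

open MeasureTheory Filter Topology
open Pool.H110K2

namespace Pool.Agent.H468R2.KA

/-- functions of finitely many coordinates are measurable -/
theorem bad_Fmeas (F : Y → List ℕ) (m : ℕ)
    (hF : ∀ y z : Y, (∀ l < m, y l = z l) → F y = F z) (l : List ℕ) :
    MeasurableSet (F ⁻¹' {l}) := by
  set r : Y → (∀ i : Fin m, D i) := fun y i => y i with hr
  have hrm : Measurable r := measurable_pi_iff.2 fun i => measurable_pi_apply _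
  have h1 : F ⁻¹' {l} = r ⁻¹' (r '' (F ⁻¹' {l})) := by
    ext y
    constructor
    · exact fun h => ⟨y, h, rfl⟩
    · rintro ⟨z, hz, h⟩
      have h2 : F z = F y := hF z y fun l hl => congrFun h ⟨l, hl⟩
      have hz' : F z = l := hz
      show F y = l
      rw [← h2, hz']
  rw [h1]
  exact hrm (Set.toFinite _).measurableSet

theorem bad_er_meas (Φ F : Y → List ℕ) (hΦ : ∀ l, MeasurableSet (Φ ⁻¹' {l}))
    (hF : ∀ l, MeasurableSet (F ⁻¹' {l})) : Measurable (fun y => (er Φ F y : ENNReal)) := by
  let _ : MeasurableSpace (List ℕ) := ⊤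
  have h1 : Measurable Φ := measurable_to_countable' hΦ
  have h2 : Measurable F := measurable_to_countable' hF
  have h3 : Measurable (fun p : List ℕ × List ℕ =>
      ((if p.1 = p.2 then 0 else p.1.length + p.2.length : ℕ) : ENNReal)) :=
    measurable_of_countable _
  exact h3.comp (h1.prodMk h2)

theorem bad_len_meas (Φ : Y → List ℕ) (hΦ : ∀ l, MeasurableSet (Φ ⁻¹' {l})) :
    Measurable (fun y => ((Φ y).length : ENNReal)) := by
  let _ : MeasurableSpace (List ℕ) := ⊤
  have h1 : Measurable Φ := measurable_to_countable' hΦ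
  have h3 : Measurable (fun p : List ℕ => (p.length : ENNReal)) := measurable_of_countable _
  exact h3.comp h1

theorem bad_bs_meas (K : ℕ) : Measurable (bs K) := by
  refine measurable_pi_iff.2 fun l => ?_
  by_cases h : l < K
  · have : (fun y : Y => bs K y l) = fun _ => zr l := by
      funext y
      simp only [bs, if_pos h]
    rw [this]
    exact measurable_const
  · have : (fun y : Y => bs K y l) = fun y => y l := by
      funext y
      simp only [bs, if_neg h]
    rw [this]
    exact measurable_pi_apply _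

/-- only the last `n₀` visits are late -/
theorem bad_last (V : Finset ℕ) (n₀ : ℕ) :
    (V.filter (fun i => (V.filter (fun j => i ≤ j)).card < n₀)).card ≤ n₀ := by
  rcases (V.filter (fun i => (V.filter (fun j => i ≤ j)).card < n₀)).eq_empty_or_nonempty
    with h | h
  · rw [h, Finset.card_empty]
    exact Nat.zero_le _
  · set S := V.filter (fun i => (V.filter (fun j => i ≤ j)).card < n₀) with hS
    have h1 : S.min' h ∈ S := Finset.min'_mem S h
    have h2 : (V.filter (fun j => S.min' h ≤ j)).card < n₀ := (Finset.mem_filter.1 h1).2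
    have h3 : S ⊆ V.filter (fun j => S.min' h ≤ j) := by
      intro j hj
      exact Finset.mem_filter.2 ⟨(Finset.mem_filter.1 hj).1, Finset.min'_le S j hj⟩
    exact (Finset.card_le_card h3).trans h2.le

theorem bad_JJ_len (c : ℕ → ℕ) (Φ : Y → List ℕ) (z : Y) (n : ℕ) :
    (JJ c Φ z n).length = ∑ i ∈ Finset.range n, (Φ ((T c)^[i] z)).length := by
  unfold JJ
  rw [List.length_flatMap, Finset.sum_range, ← List.sum_ofFn]
  congr 1
  rw [List.ofFn_eq_map]
  apply List.ext_getElem
  · simp
  · intro i h1 h2
    simp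

theorem bad_nm_len (c : ℕ → ℕ) (y : Y) (n : ℕ) : (nm c y n).length = n := by
  unfold nm
  rw [List.length_map, List.length_range]

theorem bad_bs_eq (K : ℕ) (y z : Y) (h : ∀ l, K ≤ l → z l = y l) : bs K z = bs K y := by
  funext l
  simp only [bs]
  by_cases hl : l < K
  · rw [if_pos hl, if_pos hl]
  · rw [if_neg hl, if_neg hl]
    exact h l (not_lt.1 hl)

theorem t_A_bad (hAok : A_ok) (hAint : A_int) (hav : M_av) (hMP : M_P) (hMmT : M_mT)
    (hMmP : M_mP) (hYbs : Y_bs) : A_bad := by
  classical
  intro ν hν c c' A B φ ψ hD F K m n₀ e₀ C hC hF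
  have hpr := hν.prob
  obtain ⟨hΦm, hΦi⟩ := hAint ν hν c c' A B φ ψ hD
  set Φ := Ph c' A B φ with hΦ
  have hok := hAok ν hν c c' A B φ ψ hD
  have hT : Measurable (T c) := hMmT.comp (measurable_const.prodMk measurable_id)
  have hbs := bad_bs_meas K
  have hg : ∀ i, Measurable (fun z => (T c)^[i] (bs K z)) := fun i => (hT.iterate i).comp hbs
  have hav' := hav ν hν c K
  have hNK : (N K : ENNReal) ≠ 0 := by exact_mod_cast (N_pos K).ne'
  have hNK' : (N K : ENNReal) ≠ ⊤ := ENNReal.natCast_ne_top _
  have hFm := bad_Fmeas F m hF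
  have hA0 := hD.pA
  have hB0 := hD.pB
  have hA1 : ν A ≠ ⊤ := measure_ne_top ν A
  have hB1 : ν B ≠ ⊤ := measure_ne_top ν B
  set cnt : Y → ℕ := fun z => ∑ i ∈ Finset.range (N K),
    if P c K z ≤ i ∧ (T c)^[i] (bs K z) ∈ A then 1 else 0 with hcnt
  have hcntm : Measurable cnt := by
    refine Finset.measurable_sum _ fun i _ => ?_
    refine Measurable.ite ?_ measurable_const measurable_const
    exact (measurableSet_le (hMmP c K) measurable_const).inter (hg i hD.mA)
  set Z0 : Set Y := {z | ¬ Ok c c' A B φ z} with hZ0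
  set Z1 : Set Y := {z | ¬ ∀ i < N K, Ok c c' A B φ ((T c)^[i] (bs K z))} with hZ1
  set S1 : Set Y := {z | z ∈ A ∧ cnt z < n₀} with hS1
  set S2 : Set Y := A ∩ φ ⁻¹' {y | N K < P c' K y + n₀} with hS2
  set S3 : Set Y := {z | ((e₀ : ENNReal) + 1) ≤ ∑ i ∈ Finset.range (N K),
    (er Φ F ((T c)^[i] (bs K z)) : ENNReal)} with hS3
  set S4 : Set Y := {z | ((C : ENNReal) * N K) ≤ ∑ i ∈ Finset.range (N K),
    ((Φ ((T c)^[i] (bs K z))).length : ENNReal)} with hS4
  -- null sets
  have n0 : ν Z0 = 0 := hok
  have n1 : ν Z1 = 0 := by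
    set Z := toMeasurable ν Z0 with hZ
    have hZm : MeasurableSet Z := measurableSet_toMeasurable _ _
    have hZ00 : ν Z = 0 := by rw [hZ, measure_toMeasurable, n0]
    have h1 := hav' (Z.indicator 1) (measurable_one.indicator hZm)
    rw [lintegral_indicator_one hZm, hZ00, mul_zero] at h1
    have hms : Measurable (fun y => ∑ i ∈ Finset.range (N K),
        Z.indicator (1 : Y → ENNReal) ((T c)^[i] (bs K y))) :=
      Finset.measurable_sum _ fun i _ => (measurable_one.indicator hZm).comp (hg i)
    rw [lintegral_eq_zero_iff hms] at h1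
    refine measure_mono_null ?_ h1
    intro z hz h2
    apply hz
    intro i hi
    have h3 : ∑ i ∈ Finset.range (N K),
        Z.indicator (1 : Y → ENNReal) ((T c)^[i] (bs K z)) = 0 := h2
    rw [Finset.sum_eq_zero_iff] at h3
    have h4 := h3 i (Finset.mem_range.2 hi)
    by_contra h5
    have h6 : (T c)^[i] (bs K z) ∈ Z := subset_toMeasurable ν Z0 h5
    rw [Set.indicator_of_mem h6] at h4
    exact one_ne_zero h4
  -- first bad set
  have hS1m : MeasurableSet S1 :=
    hD.mA.inter (measurableSet_lt hcntm measurable_const)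
  have m1 : ν S1 ≤ (n₀ : ENNReal) / N K := by
    rw [ENNReal.le_div_iff_mul_le (Or.inl hNK) (Or.inl hNK'), mul_comm]
    have h1 := hav' (S1.indicator 1) (measurable_one.indicator hS1m)
    rw [lintegral_indicator_one hS1m] at h1
    rw [← h1]
    calc ∫⁻ y, ∑ i ∈ Finset.range (N K), S1.indicator (1 : Y → ENNReal) ((T c)^[i] (bs K y)) ∂ν
        ≤ ∫⁻ _, (n₀ : ENNReal) ∂ν := by
          refine lintegral_mono fun y => ?_
          obtain ⟨hy, -⟩ := hYbs c K y
          have h2 : ∀ i, i < N K → ((T c)^[i] (bs K y) ∈ S1 ↔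
              (T c)^[i] (bs K y) ∈ A ∧ ((Finset.range (N K)).filter
                (fun j => i ≤ j ∧ (T c)^[j] (bs K y) ∈ A)).card < n₀) := by
            intro i hi
            obtain ⟨h3, h4⟩ := hy i hi
            have h5 : bs K ((T c)^[i] (bs K y)) = bs K y := bad_bs_eq K _ _ h4
            have h6 : cnt ((T c)^[i] (bs K y)) = ((Finset.range (N K)).filter
                (fun j => i ≤ j ∧ (T c)^[j] (bs K y) ∈ A)).card := by
              simp only [hcnt]
              rw [h3, h5, Finset.card_filter]
            show _ ∧ _ ↔ _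
            rw [h6]
          have h7 : ∑ i ∈ Finset.range (N K), S1.indicator (1 : Y → ENNReal)
              ((T c)^[i] (bs K y)) = (((Finset.range (N K)).filter
                (fun i => (T c)^[i] (bs K y) ∈ S1)).card : ENNReal) := by
            rw [Finset.card_filter, Nat.cast_sum]
            refine Finset.sum_congr rfl fun i _ => ?_
            by_cases h : (T c)^[i] (bs K y) ∈ S1
            · rw [Set.indicator_of_mem h, if_pos h]; simp
            · rw [Set.indicator_of_notMem h, if_neg h]; simp
          show ∑ i ∈ Finset.range (N K), S1.indicator (1 : Y → ENNReal)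
              ((T c)^[i] (bs K y)) ≤ (n₀ : ENNReal)
          rw [h7]
          have h8 := bad_last ((Finset.range (N K)).filter
            (fun j => (T c)^[j] (bs K y) ∈ A)) n₀
          have h9 : ((Finset.range (N K)).filter (fun i => (T c)^[i] (bs K y) ∈ S1)) ⊆
              ((Finset.range (N K)).filter (fun j => (T c)^[j] (bs K y) ∈ A)).filter
                (fun i => (((Finset.range (N K)).filter
                  (fun j => (T c)^[j] (bs K y) ∈ A)).filter (fun j => i ≤ j)).card < n₀) := by
            intro i hi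
            obtain ⟨h10, h11⟩ := Finset.mem_filter.1 hi
            obtain ⟨h12, h13⟩ := (h2 i (Finset.mem_range.1 h10)).1 h11
            refine Finset.mem_filter.2 ⟨Finset.mem_filter.2 ⟨h10, h12⟩, ?_⟩
            rw [Finset.filter_filter]
            have h14 : ((Finset.range (N K)).filter
                (fun j => (T c)^[j] (bs K y) ∈ A ∧ i ≤ j)) = ((Finset.range (N K)).filter
                (fun j => i ≤ j ∧ (T c)^[j] (bs K y) ∈ A)) :=
              Finset.filter_congr fun j _ => and_comm
            rw [h14]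
            exact h13
          exact_mod_cast (Finset.card_le_card h9).trans h8
      _ = n₀ := by rw [lintegral_const, measure_univ, mul_one]
  -- second bad set
  have m2 : ν S2 ≤ ν A / ν B * ((n₀ : ENNReal) / N K) := by
    set G : Set Y := {y | N K < P c' K y + n₀} with hG
    have hGm : MeasurableSet G :=
      measurableSet_lt measurable_const ((hMmP c' K).add measurable_const)
    have h1 := hD.sc G hGm
    have h2 : ν G ≤ (n₀ : ENNReal) / N K := hMP ν hν c' K n₀
    calc ν S2 = ν (A ∩ φ ⁻¹' G) / ν A * ν A := (ENNReal.div_mul_cancel hA0 hA1).symm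
      _ = ν (B ∩ G) / ν B * ν A := by rw [h1]
      _ ≤ ((n₀ : ENNReal) / N K) / ν B * ν A := by
          gcongr
          exact (measure_mono Set.inter_subset_right).trans h2
      _ = ν A / ν B * ((n₀ : ENNReal) / N K) := by
          rw [div_eq_mul_inv ((n₀ : ENNReal) / N K), div_eq_mul_inv (ν A)]
          ring
  -- third bad set
  have hermeas := bad_er_meas Φ F hΦm hFm
  have m3 : ν S3 ≤ (N K : ENNReal) * (∫⁻ y, (er Φ F y : ENNReal) ∂ν) /
      ((e₀ : ENNReal) + 1) := by
    have h1 := hav' (fun y => (er Φ F y : ENNReal)) hermeas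
    rw [← h1]
    refine meas_ge_le_lintegral_div ?_ (by simp) (by finiteness)
    exact (Finset.measurable_sum _ fun i _ => hermeas.comp (hg i)).aemeasurable
  -- fourth bad set
  have hlenmeas := bad_len_meas Φ hΦm
  have hC0 : (C : ENNReal) ≠ 0 := by exact_mod_cast hC.ne'
  have hC1 : (C : ENNReal) ≠ ⊤ := ENNReal.natCast_ne_top _
  have m4 : ν S4 ≤ ν A / ν B / C := by
    have h1 := hav' (fun y => ((Φ y).length : ENNReal)) hlenmeas
    have h2 : ν S4 ≤ (∫⁻ y, ∑ i ∈ Finset.range (N K),
        ((Φ ((T c)^[i] (bs K y))).length : ENNReal) ∂ν) / ((C : ENNReal) * N K) := by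
      refine meas_ge_le_lintegral_div ?_ (mul_ne_zero hC0 hNK) (ENNReal.mul_ne_top hC1 hNK')
      exact (Finset.measurable_sum _ fun i _ => hlenmeas.comp (hg i)).aemeasurable
    refine h2.trans ?_
    rw [h1]
    refine ENNReal.div_le_of_le_mul ?_
    calc (N K : ENNReal) * ∫⁻ y, ((Φ y).length : ENNReal) ∂ν
        ≤ N K * (ν A / ν B) := by gcongr
      _ = (ν A / ν B / C * C) * N K := by
          rw [ENNReal.div_mul_cancel hC0 hC1, mul_comm]
      _ = ν A / ν B / C * (C * N K) := by rw [mul_assoc]
  -- the covering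
  have hcov : A ⊆ {z | Vg c c' A B φ F K n₀ e₀ C z} ∪ (Z0 ∪ Z1 ∪ (S1 ∪ S2 ∪ S3 ∪ S4)) := by
    intro z hz
    by_contra hn
    simp only [Set.mem_union, not_or] at hn
    obtain ⟨hV, ⟨hz0, hz1⟩, ⟨⟨hs1, hs2⟩, hs3⟩, hs4⟩ := hn
    have hz0' : Ok c c' A B φ z := not_not.1 hz0
    have hz1' : ∀ i < N K, Ok c c' A B φ ((T c)^[i] (bs K z)) := not_not.1 hz1
    apply hV
    obtain ⟨hb1, hb2⟩ := hYbs c K z
    refine ⟨hz, hz0', ?_, ?_, ?_, ?_, ?_⟩
    · exact hz1' 0 (N_pos K)
    · by_contra h
      apply hs3
      show ((e₀ : ENNReal) + 1) ≤ _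
      have h1 : e₀ + 1 ≤ ∑ i ∈ Finset.range (N K), er Φ F ((T c)^[i] (bs K z)) :=
        Nat.succ_le_of_lt (not_le.1 h)
      exact_mod_cast h1
    · by_contra h
      apply hs4
      show ((C : ENNReal) * N K) ≤ _
      rw [bad_JJ_len] at h
      have h1 : C * N K ≤ ∑ i ∈ Finset.range (N K), (Φ ((T c)^[i] (bs K z))).length :=
        (not_le.1 h).le
      exact_mod_cast h1
    · have h1 : n₀ ≤ cnt z := by
        by_contra h
        exact hs1 ⟨hz, not_le.1 h⟩
      refine h1.trans ?_
      rw [bad_JJ_len]
      simp only [hcnt]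
      rw [← Finset.card_filter]
      -- inject the visits
      have h2 : ((Finset.range (N K)).filter
          (fun i => P c K z ≤ i ∧ (T c)^[i] (bs K z) ∈ A)).card ≤
          ∑ i ∈ Finset.range (N K - P c K z),
            if (T c)^[i] z ∈ A then 1 else 0 := by
        rw [← Finset.card_filter]
        refine Finset.card_le_card_of_injOn (fun i => i - P c K z) ?_ ?_
        · intro i hi
          obtain ⟨h3, h4, h5⟩ := Finset.mem_filter.1 (Finset.mem_coe.1 hi)
          rw [Finset.mem_range] at h3
          refine Finset.mem_coe.2 (Finset.mem_filter.2 ⟨Finset.mem_range.2 ?_, ?_⟩)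
          · show i - P c K z < N K - P c K z
            omega
          · show (T c)^[i - P c K z] z ∈ A
            have h6 : (T c)^[i - P c K z] z = (T c)^[i] (bs K z) := by
              have h7 : (T c)^[i - P c K z] ((T c)^[P c K z] (bs K z)) =
                  (T c)^[i] (bs K z) := by
                rw [← Function.iterate_add_apply]
                congr 2
                omega
              rwa [hb2] at h7
            rw [h6]
            exact h5
        · intro i hi j hj hij
          obtain ⟨_, h4, _⟩ := Finset.mem_filter.1 (Finset.mem_coe.1 hi)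
          obtain ⟨_, h4', _⟩ := Finset.mem_filter.1 (Finset.mem_coe.1 hj)
          have hij' : i - P c K z = j - P c K z := hij
          omega
      refine h2.trans (Finset.sum_le_sum fun i hi => ?_)
      rw [Finset.mem_range] at hi
      split_ifs with h3
      · have h4 : (T c)^[i] z = (T c)^[i + P c K z] (bs K z) := by
          rw [Function.iterate_add_apply, hb2]
        have h5 := hz1' (i + P c K z) (by omega)
        rw [← h4] at h5
        obtain ⟨_, _, h6⟩ := h5.gdA h3
        unfold Ph
        rw [if_pos h3, bad_nm_len]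
        exact h6
      · exact Nat.zero_le _
    · by_contra h
      exact hs2 ⟨hz, not_le.1 h⟩
  calc ν A ≤ ν ({z | Vg c c' A B φ F K n₀ e₀ C z} ∪ (Z0 ∪ Z1 ∪ (S1 ∪ S2 ∪ S3 ∪ S4))) :=
        measure_mono hcov
    _ ≤ ν {z | Vg c c' A B φ F K n₀ e₀ C z} + (ν Z0 + ν Z1 + (ν S1 + ν S2 + ν S3 + ν S4)) := by
        refine (measure_union_le _ _).trans (add_le_add le_rfl ?_)
        refine (measure_union_le _ _).trans (add_le_add (measure_union_le _ _) ?_)
        refine (measure_union_le _ _).trans (add_le_add ?_ le_rfl)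
        refine (measure_union_le _ _).trans (add_le_add ?_ le_rfl)
        exact measure_union_le _ _
    _ ≤ _ := by
        rw [n0, n1, zero_add, zero_add]
        gcongr

end Pool.Agent.H468R2.KA
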