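import Pool.Agent.H468R2.KA.Tasks2

/-! Task A_common: a common subword of two concatenations close to a third one. -/

set_option autoImplicit false

namespace Pool.Agent.H468R2.KA

theorem t_A_common : A_common := by
  classical
  intro n f f' G
  induction n with
  | zero => exact ⟨[], by simp, by simp, by simp, by simp⟩
  | succ n ih =>
    obtain ⟨w, h1, h2, h3, h4⟩ := ih
    rw [List.range_succ, List.flatMap_append, List.flatMap_append, List.flatMap_singleton,
      List.flatMap_singleton, Finset.sum_range_succ, Finset.sum_range_succ]
    rw [List.length_append, List.length_append]
    by_cases ha : f n = G n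
    · by_cases hb : f' n = G n
      · refine ⟨w ++ G n, ?_, ?_, ?_, ?_⟩
        · rw [ha]; exact h1.append (List.Sublist.refl _)
        · rw [hb]; exact h2.append (List.Sublist.refl _)
        · rw [if_pos ha, if_pos hb, List.length_append, ha]; omega
        · rw [if_pos ha, if_pos hb, List.length_append, hb]; omega
      · refine ⟨w, h1.trans (List.sublist_append_left _ _), h2.trans (List.sublist_append_left _ _),
          ?_, ?_⟩
        · rw [if_pos ha, if_neg hb, ha]; omega
        · rw [if_pos ha, if_neg hb]; omega
    · refine ⟨w, h1.trans (List.sublist_append_left _ _), h2.trans (List.sublist_append_left _ _),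
          ?_, ?_⟩
      · rw [if_neg ha]; omega
      · rw [if_neg ha]
        by_cases hb : f' n = G n
        · rw [if_pos hb, hb]; omega
        · rw [if_neg hb]; omega

end Pool.Agent.H468R2.KA
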