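import Pool.Agent.H468R2.KA.Tasks2

/-! Task A_count (helper531) -/

set_option autoImplicit false

open MeasureTheory Filter Topology
open Pool.H110K2

namespace Pool.Agent.H468R2.KA

namespace A_countAux

theorem ty_lt (K : ℕ) (y : Y) : ty K y < M K := (y K).1.isLt

theorem measurable_ty (K : ℕ) : Measurable (ty K) := by
  have h1 : Measurable (fun d : D K => (d.1 : ℕ)) := measurable_of_countable _
  exact h1.comp (measurable_pi_apply K)

theorem measurableSet_ty (K : ℕ) (I : Finset ℕ) : MeasurableSet {y : Y | ty K y ∈ I} := by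
  have : MeasurableSet (ty K ⁻¹' (I : Set ℕ)) := measurable_ty K (MeasurableSet.of_discrete)
  exact this

end A_countAux

open A_countAux

theorem t_A_count (hty : A_type) (hM : M_ty) : A_count := by
  intro ν hν c c' A B φ ψ hKD F k m n₀ e₀ C hc hc' hm hF hnum
  classical
  haveI := hν.prob
  have key : ∀ γ : ℕ, ∃ l : List ℕ, l.length ≤ C + 2 ∧
      ∀ z, Vg c c' A B φ F (k + 1) n₀ e₀ C z → ty (k + 1) z / h (k + 1) = γ →
        ty (k + 1) (φ z) ∈ l := by
    intro γ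
    by_cases H : ∃ z', Vg c c' A B φ F (k + 1) n₀ e₀ C z' ∧ ty (k + 1) z' / h (k + 1) = γ
    · obtain ⟨z', hz', hγ⟩ := H
      obtain ⟨l, hl, hl2⟩ := hty c c' A B φ F k m n₀ e₀ C hc hc' hm hF hnum z' hz'
      refine ⟨l, hl, fun z hz hzγ => hl2 z hz ?_⟩
      rw [hzγ, hγ]
    · exact ⟨[], Nat.zero_le _, fun z hz hzγ => absurd ⟨z, hz, hzγ⟩ H⟩
  choose l hl hl2 using key
  set I : Finset ℕ := (Finset.range (g (k + 1))).biUnion (fun γ => (l γ).toFinset) with hI
  have hcard : I.card ≤ g (k + 1) * (C + 2) := by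
    refine le_trans Finset.card_biUnion_le ?_
    refine le_trans (Finset.sum_le_card_nsmul _ _ (C + 2) ?_) ?_
    · intro γ _
      exact le_trans (List.toFinset_card_le _) (hl γ)
    · rw [Finset.card_range, smul_eq_mul]
  have hsub : {z | Vg c c' A B φ F (k + 1) n₀ e₀ C z} ⊆
      A ∩ φ ⁻¹' {y | ty (k + 1) y ∈ I} := by
    intro z hz
    refine ⟨hz.mem, ?_⟩
    change ty (k + 1) (φ z) ∈ I
    rw [hI, Finset.mem_biUnion]
    refine ⟨ty (k + 1) z / h (k + 1), ?_, ?_⟩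
    · rw [Finset.mem_range, Nat.div_lt_iff_lt_mul (h_pos _)]
      exact ty_lt _ _
    · rw [List.mem_toFinset]
      exact hl2 _ z hz rfl
  have hA0 : ν A ≠ 0 := hKD.pA
  have hAt : ν A ≠ ⊤ := measure_ne_top ν A
  have h1 : ν (A ∩ φ ⁻¹' {y | ty (k + 1) y ∈ I}) =
      ν (B ∩ {y | ty (k + 1) y ∈ I}) / ν B * ν A := by
    rw [← hKD.sc _ (measurableSet_ty _ _)]
    exact (ENNReal.div_mul_cancel hA0 hAt).symm
  have hg0 : (g (k + 1) : ENNReal) ≠ 0 := by
    exact_mod_cast (g_pos (k + 1)).ne'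
  have hgt : (g (k + 1) : ENNReal) ≠ ⊤ := ENNReal.natCast_ne_top _
  have h2 : (I.card : ENNReal) / M (k + 1) ≤ ((C + 2 : ℕ) : ENNReal) / h (k + 1) := by
    have e1 : ((M (k + 1) : ℕ) : ENNReal) = (g (k + 1) : ENNReal) * (h (k + 1) : ENNReal) := by
      rw [← Nat.cast_mul]
      rfl
    rw [e1]
    calc (I.card : ENNReal) / ((g (k + 1) : ENNReal) * (h (k + 1) : ENNReal)) ≤
        ((g (k + 1) * (C + 2) : ℕ) : ENNReal) / ((g (k + 1) : ENNReal) * (h (k + 1) : ENNReal)) := by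
          gcongr
      _ = ((C + 2 : ℕ) : ENNReal) / h (k + 1) := by
          rw [Nat.cast_mul]
          exact ENNReal.mul_div_mul_left _ _ hg0 hgt
  calc ν {z | Vg c c' A B φ F (k + 1) n₀ e₀ C z} ≤ ν (A ∩ φ ⁻¹' {y | ty (k + 1) y ∈ I}) :=
        measure_mono hsub
    _ = ν (B ∩ {y | ty (k + 1) y ∈ I}) / ν B * ν A := h1
    _ ≤ ν {y | ty (k + 1) y ∈ I} / ν B * ν A := by
        gcongr
        exact Set.inter_subset_right
    _ ≤ (((C + 2 : ℕ) : ENNReal) / h (k + 1)) / ν B * ν A := by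
        gcongr
        exact le_trans (hM ν hν (k + 1) I) h2
    _ = ν A / ν B * (((C + 2 : ℕ) : ENNReal) / h (k + 1)) := by
        simp only [div_eq_mul_inv]
        ring

end Pool.Agent.H468R2.KA
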