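import Pool.Agent.H468R2.KA.Tasks2

/-! A_int: measurability and integral of `Φ` -/

set_option autoImplicit false

open MeasureTheory Filter Topology
open Pool.H110K2

namespace Pool.Agent.H468R2.KA

theorem A_int_meas_nm {c : ℕ → ℕ} (hT : Measurable (T c)) (n : ℕ) (l : List ℕ) :
    MeasurableSet {y : Y | nm c y n = l} := by
  have hty : Measurable (fun y : Y => ty 0 y) := by
    have h1 : Measurable (fun y : Y => (y 0).1) := measurable_fst.comp (measurable_pi_apply 0)
    exact (measurable_from_top (f := fun x : Fin (M 0) => (x : ℕ))).comp h1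
  have hg : Measurable (fun (y : Y) (i : Fin n) => ty 0 ((T c)^[i] y)) := by
    rw [measurable_pi_iff]
    intro i
    exact hty.comp (hT.iterate i)
  have h3 : {y : Y | nm c y n = l} =
      (fun (y : Y) (i : Fin n) => ty 0 ((T c)^[i] y)) ⁻¹' {v | List.ofFn v = l} := by
    ext y
    have h4 : nm c y n = List.ofFn (fun i : Fin n => ty 0 ((T c)^[i] y)) := by
      unfold nm
      apply List.ext_getElem
      · simp
      · intro i h1 h2
        simp
    show nm c y n = l ↔ List.ofFn (fun i : Fin n => ty 0 ((T c)^[i] y)) = l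
    rw [h4]
  rw [h3]
  exact hg (Set.to_countable _).measurableSet

theorem t_A_int (h1 : A_kac) (h2 : M_mT) : A_int := by
  intro ν hν c c' A B φ ψ hKD
  have := hν.prob
  obtain ⟨hk1, hk2, -⟩ := h1 ν hν c' B hKD.mB hKD.pB
  have hT : Measurable (T c') := h2.comp measurable_prodMk_left
  constructor
  · intro l
    have h3 : Ph c' A B φ ⁻¹' {l} = (A ∩ ⋃ n : ℕ, ((fun y => retTime (T c') B (φ y)) ⁻¹' {n} ∩
        φ ⁻¹' {y | nm c' y n = l})) ∪ (Aᶜ ∩ {_y | [] = l}) := by
      ext y
      simp only [Set.mem_preimage, Set.mem_singleton_iff, Set.mem_union, Set.mem_inter_iff,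
        Set.mem_iUnion, Set.mem_compl_iff]
      unfold Ph
      by_cases hy : y ∈ A
      · rw [if_pos hy]
        constructor
        · intro h
          exact Or.inl ⟨hy, _, rfl, h⟩
        · rintro (⟨-, n, hn, h⟩ | ⟨h, -⟩)
          · rw [hn]
            exact h
          · exact absurd hy h
      · rw [if_neg hy]
        constructor
        · intro h
          exact Or.inr ⟨hy, h⟩
        · rintro (⟨h, -⟩ | ⟨-, h⟩)
          · exact absurd h hy
          · exact h
    rw [h3]
    refine ((hKD.mA).inter (MeasurableSet.iUnion fun n => ?_)).union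
      (hKD.mA.compl.inter (MeasurableSet.const _))
    exact ((hk2.comp hKD.mφ) (measurableSet_singleton n)).inter
      (hKD.mφ (A_int_meas_nm hT n l))
  · have hmeas : Measurable (fun z : Y => (retTime (T c') B z : ENNReal)) :=
      (measurable_from_top (f := fun n : ℕ => (n : ENNReal))).comp hk2
    have hA0 : ν A ≠ 0 := hKD.pA
    have hAt : ν A ≠ ⊤ := measure_ne_top ν A
    have hmap : Measure.map φ (ν.restrict A) = (ν A / ν B) • ν.restrict B := by
      ext F hF
      rw [Measure.map_apply hKD.mφ hF, Measure.restrict_apply (hKD.mφ hF), Measure.smul_apply,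
        Measure.restrict_apply hF, smul_eq_mul]
      have h4 := hKD.sc F hF
      have h5 : ν (φ ⁻¹' F ∩ A) = ν A * (ν (A ∩ φ ⁻¹' F) / ν A) := by
        rw [ENNReal.mul_div_cancel hA0 hAt, Set.inter_comm]
      rw [h5, h4, Set.inter_comm B F, ENNReal.div_eq_inv_mul, ENNReal.div_eq_inv_mul]
      ring
    have h6 : (fun y => ((Ph c' A B φ y).length : ENNReal)) =
        A.indicator (fun y => (retTime (T c') B (φ y) : ENNReal)) := by
      funext y
      unfold Ph
      by_cases hy : y ∈ A
      · rw [if_pos hy, Set.indicator_of_mem hy]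
        unfold nm
        simp
      · rw [if_neg hy, Set.indicator_of_notMem hy]
        simp
    rw [h6, lintegral_indicator hKD.mA,
      ← lintegral_map (f := fun z => (retTime (T c') B z : ENNReal)) hmeas hKD.mφ, hmap,
      lintegral_smul_measure, smul_eq_mul]
    calc ν A / ν B * ∫⁻ y in B, (retTime (T c') B y : ENNReal) ∂ν ≤ ν A / ν B * 1 := by gcongr
      _ = ν A / ν B := mul_one _

end Pool.Agent.H468R2.KA
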