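import Pool.Agent.H468R2.KA.Tasks2
import Pool.Agent.H110K2.P_ret_meas

set_option autoImplicit false

namespace Pool.Agent.H468R2.KA

open MeasureTheory Filter Topology
open Pool.H110K2

namespace KacAux

/-- no visit to `B` at the times `1, ..., n` -/
def Ev {X : Type*} (T : X → X) (B : Set X) (n : ℕ) : Set X := {x | ∀ j, 1 ≤ j → j ≤ n → T^[j] x ∉ B}

theorem Ev_zero {X : Type*} (T : X → X) (B : Set X) : Ev T B 0 = Set.univ := by
  ext x
  simp only [Ev, Set.mem_setOf_eq, Set.mem_univ, iff_true]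
  intro j h1 h2
  omega

theorem Ev_succ {X : Type*} (T : X → X) (B : Set X) (n : ℕ) :
    Ev T B (n + 1) = T ⁻¹' (Ev T B n \ B) := by
  ext x
  simp only [Ev, Set.mem_setOf_eq, Set.mem_preimage, Set.mem_sdiff]
  constructor
  · intro h
    refine ⟨fun j h1 h2 => ?_, ?_⟩
    · have := h (j + 1) (by omega) (by omega)
      rwa [Function.iterate_succ_apply] at this
    · have := h 1 le_rfl (by omega)
      simpa using this
  · rintro ⟨h1, h2⟩ j hj1 hj2
    obtain ⟨k, rfl⟩ : ∃ k, j = k + 1 := ⟨j - 1, by omega⟩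
    rw [Function.iterate_succ_apply]
    rcases Nat.eq_zero_or_pos k with rfl | hk
    · simpa using h2
    · exact h1 k hk (by omega)

theorem Ev_meas {X : Type*} [MeasurableSpace X] (T : X → X) (hT : Measurable T) (B : Set X)
    (hB : MeasurableSet B) : ∀ n, MeasurableSet (Ev T B n)
  | 0 => by rw [Ev_zero]; exact MeasurableSet.univ
  | n + 1 => by rw [Ev_succ]; exact hT ((Ev_meas T hT B hB n).diff hB)

theorem sum_Ev {X : Type*} [MeasurableSpace X] (μ : Measure X) [IsProbabilityMeasure μ] (T : X → X)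
    (hT : MeasurePreserving T μ μ) (B : Set X) (hB : MeasurableSet B) (n : ℕ) :
    ∑ i ∈ Finset.range n, μ (Ev T B i ∩ B) + μ (Ev T B n) = 1 := by
  induction n with
  | zero => rw [Ev_zero]; simp
  | succ n ih =>
    have hm := Ev_meas T hT.measurable B hB n
    have h1 : μ (Ev T B (n + 1)) = μ (Ev T B n \ B) := by
      rw [Ev_succ]
      exact hT.measure_preimage (hm.diff hB).nullMeasurableSet
    rw [Finset.sum_range_succ, h1, add_assoc, measure_inter_add_sdiff _ hB]
    exact ih

theorem nat_tsum (n : ℕ) : (n : ENNReal) = ∑' i : ℕ, (if i < n then (1 : ENNReal) else 0) := by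
  rw [tsum_eq_sum (s := Finset.range n)]
  · rw [Finset.sum_congr rfl (fun i hi => if_pos (Finset.mem_range.mp hi))]
    simp
  · intro i hi
    rw [if_neg]
    simpa using hi

theorem kac_ineq {X : Type*} [MeasurableSpace X] (μ : Measure X) [IsProbabilityMeasure μ] (T : X → X)
    (hT : MeasurePreserving T μ μ) (B : Set X) (hB : MeasurableSet B) :
    ∫⁻ y in B, (retTime T B y : ENNReal) ∂μ ≤ 1 := by
  have hr : Measurable (retTime T B) := ret_meas T hT.measurable B hB
  have hmi : ∀ i : ℕ, MeasurableSet {y | i < retTime T B y} := fun i =>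
    hr (measurableSet_Ioi (a := i))
  have h1 : ∫⁻ y in B, (retTime T B y : ENNReal) ∂μ =
      ∑' i : ℕ, ∫⁻ y in B, ({y | i < retTime T B y}.indicator (fun _ => (1 : ENNReal)) y) ∂μ := by
    rw [← lintegral_tsum]
    · refine lintegral_congr fun y => ?_
      rw [nat_tsum (retTime T B y)]
      refine tsum_congr fun i => ?_
      simp only [Set.indicator_apply, Set.mem_setOf_eq]
    · intro i
      exact (measurable_const.indicator (hmi i)).aemeasurable
  rw [h1]
  refine ENNReal.tsum_le_of_sum_range_le fun n => ?_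
  refine le_trans ?_ (sum_Ev μ T hT B hB n).le
  refine le_trans (Finset.sum_le_sum (g := fun i => μ (Ev T B i ∩ B)) fun i _ => ?_) le_self_add
  rw [lintegral_indicator_const (hmi i), one_mul, Measure.restrict_apply (hmi i)]
  refine measure_mono (Set.inter_subset_inter_left _ ?_)
  intro y hy j hj1 hj2 hjB
  have h3 : i < retTime T B y := hy
  have h4 : j ∉ {n | 1 ≤ n ∧ T^[n] y ∈ B} := Nat.notMem_of_lt_sInf (lt_of_le_of_lt hj2 h3)
  exact h4 ⟨hj1, hjB⟩

theorem ret_pos {X : Type*} [MeasurableSpace X] (μ : Measure X) [IsProbabilityMeasure μ] (T : X → X)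
    (hT : MeasurePreserving T μ μ) (B : Set X) (hB : MeasurableSet B) :
    ∀ᵐ y ∂(μ.restrict B), 1 ≤ retTime T B y := by
  have hc := hT.conservative
  rw [ae_restrict_iff' hB]
  filter_upwards [hc.ae_mem_imp_frequently_image_mem hB.nullMeasurableSet] with y hy hyB
  obtain ⟨n, hn1, hn2⟩ := (Filter.frequently_atTop.mp (hy hyB)) 1
  exact (Nat.sInf_mem (s := {n | 1 ≤ n ∧ T^[n] y ∈ B}) ⟨n, hn1, hn2⟩).1

end KacAux

theorem t_A_kac (h1 : M_mp) (_h2 : M_erg) (_h3 : Y_Gd) (_h4 : M_Gd) (_h5 : M_mT) (_h6 : M_mS)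
    (_h7 : F_eqv.{0}) : A_kac := by
  intro ν hν c B hB _
  have := hν.prob
  have hT := (h1 ν hν c).1
  exact ⟨KacAux.kac_ineq ν (T c) hT B hB, ret_meas (T c) hT.measurable B hB,
    KacAux.ret_pos ν (T c) hT B hB⟩

end Pool.Agent.H468R2.KA
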