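import Pool.Agent.H468R2.KA.Tasks2

set_option autoImplicit false

namespace Pool.Agent.H468R2.KA

theorem two_le_L_aux (k : ℕ) : 2 ≤ L k := by
  have h1 : 2 ≤ M k := by
    unfold M g h
    have h1 : 2 ≤ 2 ^ (k + 6) := by
      calc 2 = 2 ^ 1 := by norm_num
        _ ≤ 2 ^ (k + 6) := Nat.pow_le_pow_right (by norm_num) (by omega)
    have h2 : 1 ≤ 2 ^ k := Nat.one_le_two_pow
    nlinarith
  have h2 := R_pos k
  have h3 := Q_pos k
  unfold L
  calc 2 ≤ M k := h1
    _ ≤ M k * Q k := Nat.le_mul_of_pos_right _ h3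
    _ ≤ R k * (M k * Q k) := Nat.le_mul_of_pos_left _ h2

theorem two_pow_le_N_aux (k : ℕ) : 2 ^ k ≤ N k := by
  induction k with
  | zero => simp [N]
  | succ k ih =>
    rw [N, pow_succ, mul_comm]
    exact Nat.mul_le_mul (two_le_L_aux k) ih

theorem t_A_num : A_num := by
  intro a β ha ha1 hβ hβ1
  obtain ⟨C, hC⟩ : ∃ C : ℕ, 8 / β < C := exists_nat_gt _
  have h8 : 0 < 8 / β := by positivity
  have hC0 : (0 : ℝ) < C := h8.trans hC
  set d : ℝ := a * β / 16 with hd
  have hd0 : 0 < d := by positivity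
  have hda : d ≤ a / 16 := by rw [hd]; nlinarith
  refine ⟨C, d * a / 64, by exact_mod_cast hC0, by positivity, ?_⟩
  obtain ⟨K, hK⟩ := pow_unbounded_of_one_lt (8 * (C + 2) / β + 4 * (C + 2) / d + 3 / d)
    (show (1 : ℝ) < 2 by norm_num)
  have q1 : 0 < 8 * (C + 2) / β := by positivity
  have q2 : 0 < 4 * (C + 2) / d := by positivity
  have q3 : 0 < 3 / d := by positivity
  refine ⟨K, fun k hk => ?_⟩
  have hpow : (2 : ℝ) ^ K ≤ 2 ^ (k + 1) := pow_le_pow_right₀ (by norm_num) (by omega)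
  have hN : (2 : ℝ) ^ (k + 1) ≤ N (k + 1) := by exact_mod_cast two_pow_le_N_aux (k + 1)
  have hh : (h (k + 1) : ℝ) = 2 ^ (k + 1) := by unfold h; push_cast; rfl
  have he : eta (k + 1) = 1 / 2 ^ (k + 1) / 64 := by
    unfold eta
    rw [pow_add _ (k+1) 6]; norm_num; ring
  rw [hh, he]
  generalize (2 : ℝ) ^ (k + 1) = X at *
  have hNpos : (0 : ℝ) < N (k + 1) := by exact_mod_cast N_pos (k + 1)
  generalize (N (k + 1) : ℝ) = n at *
  have hX1 : 8 * (C + 2) / β < X := by linarith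
  have hX2 : 4 * (C + 2) / d < X := by linarith
  have hX3 : 3 / d < X := by linarith
  have hX : 0 < X := q1.trans hX1
  refine ⟨⌊d * n⌋₊, ⌊d * n / 8⌋₊, ?_, ?_⟩
  · have f1 : d * n < ⌊d * n⌋₊ + 1 := Nat.lt_floor_add_one _
    have f2 : (⌊d * n / 8⌋₊ : ℝ) ≤ d * n / 8 := Nat.floor_le (by positivity)
    have f3 : 3 ≤ d * n := by
      rw [div_lt_iff₀ hd0] at hX3
      nlinarith
    have f4 : (C + 2) * (1 / X / 64 * n) ≤ d * n / 4 := by
      rw [div_lt_iff₀ hd0] at hX2
      have : ((C : ℝ) + 2) / X ≤ d / 4 := by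
        rw [div_le_iff₀ hX]; nlinarith
      calc (C + 2) * (1 / X / 64 * n) = ((C : ℝ) + 2) / X * (n / 64) := by ring
        _ ≤ d / 4 * (n / 64) := by
          apply mul_le_mul_of_nonneg_right this (by positivity)
        _ ≤ d * n / 4 := by nlinarith [mul_pos hd0 hNpos]
    linarith
  · have f1 : (⌊d * n⌋₊ : ℝ) ≤ d * n := Nat.floor_le (by positivity)
    have f2 : d * n / 8 < ⌊d * n / 8⌋₊ + 1 := Nat.lt_floor_add_one _
    have g1 : (⌊d * n⌋₊ : ℝ) / n ≤ d := by rw [div_le_iff₀ hNpos]; exact f1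
    have hab : 0 < a / β := by positivity
    have g2 : a / β * ((⌊d * n⌋₊ : ℝ) / n) ≤ a / 16 := by
      calc a / β * ((⌊d * n⌋₊ : ℝ) / n) ≤ a / β * d := by
            apply mul_le_mul_of_nonneg_left g1 hab.le
        _ = a * a / 16 := by rw [hd]; field_simp
        _ ≤ a / 16 := by nlinarith
    have g3 : n * (d * a / 64) / (⌊d * n / 8⌋₊ + 1) ≤ a / 8 := by
      have : 0 < d * n / 8 := by positivity
      rw [div_le_iff₀ (this.trans f2)]
      nlinarith
    have g4 : a / β / C ≤ a / 8 := by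
      rw [div_lt_iff₀ hβ] at hC
      rw [div_div, div_le_iff₀ (by positivity)]
      nlinarith
    have g5 : a / β * ((C + 2) / X) ≤ a / 8 := by
      rw [div_lt_iff₀ hβ] at hX1
      have : ((C : ℝ) + 2) / X ≤ β / 8 := by
        rw [div_le_iff₀ hX]; nlinarith
      calc a / β * ((C + 2) / X) ≤ a / β * (β / 8) := by
            apply mul_le_mul_of_nonneg_left this hab.le
        _ = a / 8 := by field_simp
    linarith

end Pool.Agent.H468R2.KA
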