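import Pool.Agent.H468R2.KA.Tasks2

set_option autoImplicit false

open MeasureTheory Filter Topology
open Pool.H110K2

namespace Pool.Agent.H468R2.KA

theorem a_ok_null {ν : Measure Y} [IsProbabilityMeasure ν] {c c' : ℕ → ℕ} {A B : Set Y}
    {φ ψ : Y → Y} (h : KD ν c c' A B φ ψ) (p : Y → Prop) (hp : ∀ᵐ y ∂(ν.restrict B), p y) :
    ∀ᵐ z ∂ν, z ∈ A → p (φ z) := by
  have h0 : (ν.restrict B) {y | ¬ p y} = 0 := hp
  set F := toMeasurable (ν.restrict B) {y | ¬ p y} with hF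
  have hFm : MeasurableSet F := measurableSet_toMeasurable _ _
  have hF0 : (ν.restrict B) F = 0 := by rw [hF, measure_toMeasurable, h0]
  have hF1 : ν (B ∩ F) = 0 := by
    rw [Measure.restrict_apply hFm] at hF0
    rwa [Set.inter_comm] at hF0
  have h1 := h.sc F hFm
  rw [hF1, ENNReal.zero_div, ENNReal.div_eq_zero_iff] at h1
  have h2 : ν (A ∩ φ ⁻¹' F) = 0 := h1.resolve_right (measure_ne_top ν A)
  rw [ae_iff]
  refine measure_mono_null ?_ h2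
  intro z hz
  rw [Set.mem_setOf_eq, Classical.not_imp] at hz
  exact ⟨hz.1, subset_toMeasurable _ _ hz.2⟩

theorem t_A_ok (h1 : A_seg) (h2 : A_kac) (h3 : M_mp) (h4 : M_Gd) (_h5 : Y_Gd) : A_ok := by
  intro ν hν c c' A B φ ψ h
  haveI := hν.prob
  have hGd : ∀ᵐ z ∂ν, z ∈ Gd := (h4 ν hν).2
  have hb : ∀ᵐ y ∂(ν.restrict B), y ∈ Gd ∧ 1 ≤ retTime (T c') B y := by
    filter_upwards [ae_restrict_of_ae hGd, (h2 ν hν c' B h.mB h.pB).2.2] with y a b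
    exact ⟨a, b⟩
  have hg1 := a_ok_null h _ hb
  have hg2 := (ae_restrict_iff' h.mA).1 h.ae1
  have hg : ∀ᵐ z ∂ν, z ∈ A → (φ z ∈ Gd ∧ 1 ≤ retTime (T c') B (φ z)) ∧ φ z ∈ B ∧
      ψ (φ z) = z ∧ φ (induced (T c) A z) = induced (T c') B (φ z) := by
    filter_upwards [hg1, hg2] with z a b hz
    exact ⟨a hz, b hz⟩
  have hq := (h3 ν hν c).1.quasiMeasurePreserving
  have hall : ∀ᵐ z ∂ν, ∀ i : ℕ, ((T c)^[i] z) ∈ A →
      (φ ((T c)^[i] z) ∈ Gd ∧ 1 ≤ retTime (T c') B (φ ((T c)^[i] z))) ∧ φ ((T c)^[i] z) ∈ B ∧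
      ψ (φ ((T c)^[i] z)) = ((T c)^[i] z) ∧
        φ (induced (T c) A ((T c)^[i] z)) = induced (T c') B (φ ((T c)^[i] z)) := by
    rw [ae_all_iff]
    intro i
    exact (hq.iterate i).ae hg
  filter_upwards [hGd, hall] with z hz hz2
  refine ⟨hz, fun hA => ?_, fun n hn => ?_⟩
  · have h6 := hz2 0 hA
    exact ⟨h6.1.1, h6.2.1, h6.1.2⟩
  · obtain ⟨i, hi, hiA, hz0, hJ⟩ := h1 c c' A B φ z (fun i hi => by
      have h6 := hz2 i hi
      exact ⟨h6.2.1, h6.1.2, h6.2.2.2⟩) n hn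
    exact ⟨i, hi, hiA, (hz2 i hiA).1.1, hz0, hJ⟩

end Pool.Agent.H468R2.KA
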