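import Pool.Agent.H468R2.KA.Tasks2

set_option autoImplicit false

open Pool.H110K2

namespace Pool.Agent.H468R2.KA

theorem seg_nm_length (c : ℕ → ℕ) (y : Y) (n : ℕ) : (nm c y n).length = n := by
  simp [nm]

theorem seg_nm_add (c : ℕ → ℕ) (y : Y) (m n : ℕ) :
    nm c y (m + n) = nm c y m ++ nm c ((T c)^[m] y) n := by
  unfold nm
  rw [List.range_add, List.map_append, List.map_map]
  congr 1
  apply List.map_congr_left
  intro i _
  simp only [Function.comp]
  rw [Nat.add_comm m i, Function.iterate_add_apply]

theorem seg_JJ_succ (c : ℕ → ℕ) (Φ : Y → List ℕ) (z : Y) (n : ℕ) :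
    JJ c Φ z (n + 1) = JJ c Φ z n ++ Φ ((T c)^[n] z) := by
  unfold JJ
  rw [List.range_succ, List.flatMap_append]
  simp

theorem seg_next (T : Y → Y) (A : Set Y) (z : Y) (n n' : ℕ) (hn : n < n')
    (hA : T^[n'] z ∈ A) (h : ∀ j, n < j → j < n' → T^[j] z ∉ A) :
    induced T A (T^[n] z) = T^[n'] z := by
  have hr : retTime T A (T^[n] z) = n' - n := by
    unfold retTime
    apply le_antisymm
    · apply Nat.sInf_le
      refine ⟨by omega, ?_⟩
      rw [← Function.iterate_add_apply, Nat.sub_add_cancel hn.le]
      exact hA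
    · apply le_csInf
      · refine ⟨n' - n, by omega, ?_⟩
        rw [← Function.iterate_add_apply, Nat.sub_add_cancel hn.le]
        exact hA
      · rintro k ⟨hk1, hk2⟩
        by_contra hlt
        rw [← Function.iterate_add_apply] at hk2
        exact h (k + n) (by omega) (by omega) hk2
  unfold induced
  rw [hr, ← Function.iterate_add_apply, Nat.sub_add_cancel hn.le]

theorem t_A_seg : A_seg := by
  intro c c' A B φ z H n
  have key : ∀ n, ((∀ j < n, (T c)^[j] z ∉ A) ∧ JJ c (Ph c' A B φ) z n = []) ∨
      ∃ i < n, (T c)^[i] z ∈ A ∧ (∀ j < i, (T c)^[j] z ∉ A) ∧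
        JJ c (Ph c' A B φ) z n =
          nm c' (φ ((T c)^[i] z)) (JJ c (Ph c' A B φ) z n).length ∧
        ∀ n', n ≤ n' → (T c)^[n'] z ∈ A → (∀ j, n ≤ j → j < n' → (T c)^[j] z ∉ A) →
          (T c')^[(JJ c (Ph c' A B φ) z n).length] (φ ((T c)^[i] z)) = φ ((T c)^[n'] z) := by
    intro n
    induction n with
    | zero =>
      left
      refine ⟨fun j hj => absurd hj (Nat.not_lt_zero _), ?_⟩
      simp [JJ]
    | succ n ih =>
      rw [seg_JJ_succ]
      by_cases hn : (T c)^[n] z ∈ A
      · right
        have hPh : Ph c' A B φ ((T c)^[n] z) =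
            nm c' (φ ((T c)^[n] z)) (retTime (T c') B (φ ((T c)^[n] z))) := by
          unfold Ph; rw [if_pos hn]
        obtain ⟨-, -, h3⟩ := H n hn
        rw [hPh]
        have hnext : ∀ n', n + 1 ≤ n' → (T c)^[n'] z ∈ A →
            (∀ j, n + 1 ≤ j → j < n' → (T c)^[j] z ∉ A) →
            (T c')^[retTime (T c') B (φ ((T c)^[n] z))] (φ ((T c)^[n] z)) =
              φ ((T c)^[n'] z) := by
          intro n' h1 h2 h4
          have := seg_next (T c) A z n n' h1 h2 (fun j hj hj' => h4 j hj hj')
          rw [← this, h3]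
          rfl
        rcases ih with ⟨ha, hb⟩ | ⟨i, hi, hiA, hfirst, hJ, hN⟩
        · refine ⟨n, Nat.lt_succ_self n, hn, ha, ?_, ?_⟩
          · rw [hb, List.nil_append, seg_nm_length]
          · rw [hb, List.nil_append, seg_nm_length]
            exact hnext
        · have e1 := hN n le_rfl hn (fun j h1 h2 => absurd h2 (by omega))
          refine ⟨i, by omega, hiA, hfirst, ?_, ?_⟩
          · rw [List.length_append, seg_nm_length, seg_nm_add, e1]
            congr 1
          · intro n' h1 h2 h4
            rw [List.length_append, seg_nm_length, Nat.add_comm, Function.iterate_add_apply, e1]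
            exact hnext n' h1 h2 h4
      · have hPh : Ph c' A B φ ((T c)^[n] z) = [] := by
          unfold Ph; rw [if_neg hn]
        rw [hPh, List.append_nil]
        rcases ih with ⟨ha, hb⟩ | ⟨i, hi, hiA, hfirst, hJ, hN⟩
        · left
          refine ⟨fun j hj => ?_, hb⟩
          rcases Nat.lt_succ_iff_lt_or_eq.mp hj with h | h
          · exact ha j h
          · rw [h]; exact hn
        · right
          refine ⟨i, by omega, hiA, hfirst, hJ, ?_⟩
          intro n' h1 h2 h4
          apply hN n' (by omega) h2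
          intro j hj1 hj2
          by_cases hj : j = n
          · rw [hj]; exact hn
          · exact h4 j (by omega) hj2
  intro hne
  rcases key n with ⟨-, hb⟩ | ⟨i, hi, hiA, hfirst, hJ, -⟩
  · exact absurd hb hne
  · refine ⟨i, hi, hiA, ?_, hJ⟩
    intro hz
    by_contra hi0
    exact hfirst 0 (by omega) hz

end Pool.Agent.H468R2.KA
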