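import Pool.Agent.H468R2.KA.Tasks2

/-! task A_type (helper28) -/

set_option autoImplicit false

open MeasureTheory Filter Topology

namespace Pool.Agent.H468R2.KA

theorem A_type_JJ_add (c : ℕ → ℕ) (Φ : Y → List ℕ) (z : Y) (n r : ℕ) :
    JJ c Φ z (n + r) = JJ c Φ z n ++ JJ c Φ ((T c)^[n] z) r := by
  unfold JJ
  rw [List.range_add, List.flatMap_append]
  congr 1
  rw [List.flatMap_map]
  congr 1
  funext i
  rw [← Function.iterate_add_apply, Nat.add_comm n i]

theorem A_type_nm_add (c : ℕ → ℕ) (y : Y) (n r : ℕ) :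
    nm c y (n + r) = nm c y n ++ nm c ((T c)^[n] y) r := by
  unfold nm
  rw [List.range_add, List.map_append]
  congr 1
  rw [List.map_map]
  congr 1
  funext i
  show ty 0 ((T c)^[n + i] y) = ty 0 ((T c)^[i] ((T c)^[n] y))
  rw [← Function.iterate_add_apply, Nat.add_comm n i]

theorem A_type_nm_len (c : ℕ → ℕ) (y : Y) (n : ℕ) : (nm c y n).length = n := by
  unfold nm
  rw [List.length_map, List.length_range]

theorem A_type_er (Φ F : Y → List ℕ) (y : Y) :
    er Φ F y = if Φ y = F y then 0 else (Φ y).length + (F y).length := by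
  unfold er
  split_ifs <;> rfl

theorem A_type_list (hcov : Y_cover) (c c' : ℕ → ℕ) (A B : Set Y) (φ : Y → Y) (F : Y → List ℕ)
    (K n₀ e₀ C : ℕ) (z' : Y) (h' : Vg c c' A B φ F K n₀ e₀ C z') :
    ∃ l : List ℕ, l.length ≤ C + 2 ∧ (∀ a ∈ l, a < M K) ∧
      JJ c (Ph c' A B φ) (bs K z') (N K) <:+: l.flatMap (W c' K) := by
  by_cases hJ : JJ c (Ph c' A B φ) (bs K z') (N K) = []
  · refine ⟨[], by simp, by simp, ?_⟩
    rw [hJ]
    exact List.nil_infix
  · obtain ⟨i, _, _, hGd, _, hn⟩ := h'.okb.seg (N K) hJ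
    obtain ⟨l, h1, h2, h3⟩ := hcov c' K (φ ((T c)^[i] (bs K z')))
      (JJ c (Ph c' A B φ) (bs K z') (N K)).length hGd
    rw [← hn] at h1
    refine ⟨l, ?_, h2, h1⟩
    have h4 := h'.len
    have h5 : l.length * N K ≤ (C + 2) * N K := by
      calc l.length * N K ≤ (JJ c (Ph c' A B φ) (bs K z') (N K)).length + 2 * N K := h3
        _ ≤ C * N K + 2 * N K := Nat.add_le_add_right h4 _
        _ = (C + 2) * N K := by rw [Nat.add_mul]
    exact Nat.le_of_mul_le_mul_right h5 (N_pos K)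

theorem t_A_type (hsep : W_sep) (hname : Y_name) (hcov : Y_cover) (hoff : Y_off)
    (hbs : Y_bs) (halign : A_align) (hcommon : A_common) : A_type := by
  intro c c' A B φ F k m n₀ e₀ C hck hc'k hm hF hnum z' h'
  obtain ⟨l, hl1, hl2, hl3⟩ := A_type_list hcov c c' A B φ F (k + 1) n₀ e₀ C z' h'
  refine ⟨l, hl1, fun z hz hty => ?_⟩
  by_contra ht
  have heta : 0 ≤ eta (k + 1) * (N (k + 1) : ℝ) := by
    unfold eta
    positivity
  have hn0 : 1 ≤ n₀ := by
    by_contra hlt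
    have : n₀ = 0 := by omega
    rw [this] at hnum
    have h1 : (0 : ℝ) ≤ 2 * (e₀ : ℝ) := by positivity
    have h2 : (0 : ℝ) ≤ ((C : ℝ) + 2) * (eta (k + 1) * N (k + 1)) :=
      mul_nonneg (by positivity) heta
    push_cast at hnum
    linarith
  -- the segment of `z`
  have hlong := hz.long
  have hP : P c (k + 1) z ≤ N (k + 1) := by
    by_contra hlt
    have h0 : N (k + 1) - P c (k + 1) z = 0 := by omega
    rw [h0] at hlong
    unfold JJ at hlong
    simp at hlong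
    omega
  have hV : JJ c (Ph c' A B φ) z (N (k + 1) - P c (k + 1) z) ≠ [] := by
    intro h0
    rw [h0] at hlong
    simp at hlong
    omega
  obtain ⟨i, _, _, _, hi0, hn⟩ := hz.ok.seg _ hV
  have hi := hi0 hz.mem
  subst hi
  rw [Function.iterate_zero, id_eq] at hn
  have hJ : JJ c (Ph c' A B φ) (bs (k + 1) z) (N (k + 1)) =
      JJ c (Ph c' A B φ) (bs (k + 1) z) (P c (k + 1) z) ++
        JJ c (Ph c' A B φ) z (N (k + 1) - P c (k + 1) z) := by
    have e1 : N (k + 1) = P c (k + 1) z + (N (k + 1) - P c (k + 1) z) :=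
      (Nat.add_sub_cancel' hP).symm
    calc JJ c (Ph c' A B φ) (bs (k + 1) z) (N (k + 1))
        = JJ c (Ph c' A B φ) (bs (k + 1) z) (P c (k + 1) z + (N (k + 1) - P c (k + 1) z)) := by
          rw [← e1]
      _ = _ := by
          rw [A_type_JJ_add, (hbs c (k + 1) z).2]
  obtain ⟨r, hr⟩ := Nat.exists_eq_add_of_le hlong
  rw [hr, A_type_nm_add] at hn
  have hJ2 : JJ c (Ph c' A B φ) (bs (k + 1) z) (N (k + 1)) =
      JJ c (Ph c' A B φ) (bs (k + 1) z) (P c (k + 1) z) ++ nm c' (φ z) n₀ ++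
        nm c' ((T c')^[n₀] (φ z)) r := by
    rw [hJ, hn, List.append_assoc]
  have hU : nm c' (φ z) n₀ <:+: W c' (k + 1) (ty (k + 1) (φ z)) := hname c' (k + 1) (φ z) n₀ hz.room
  -- common subword
  obtain ⟨w, hw1, hw2, hw3, hw4⟩ := hcommon (N (k + 1))
    (fun i => Ph c' A B φ ((T c)^[i] (bs (k + 1) z)))
    (fun i => Ph c' A B φ ((T c)^[i] (bs (k + 1) z')))
    (fun i => F ((T c)^[i] (bs (k + 1) z)))
  have hE1 : (∑ i ∈ Finset.range (N (k + 1)),
      if Ph c' A B φ ((T c)^[i] (bs (k + 1) z)) = F ((T c)^[i] (bs (k + 1) z)) then 0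
      else (Ph c' A B φ ((T c)^[i] (bs (k + 1) z))).length +
        (F ((T c)^[i] (bs (k + 1) z))).length) ≤ e₀ := by
    refine le_trans (le_of_eq ?_) hz.err
    exact Finset.sum_congr rfl (fun i _ => (A_type_er _ _ _).symm)
  have hE2 : (∑ i ∈ Finset.range (N (k + 1)),
      if Ph c' A B φ ((T c)^[i] (bs (k + 1) z')) = F ((T c)^[i] (bs (k + 1) z)) then 0
      else (Ph c' A B φ ((T c)^[i] (bs (k + 1) z'))).length +
        (F ((T c)^[i] (bs (k + 1) z))).length) ≤ e₀ := by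
    refine le_trans (le_of_eq ?_) h'.err
    refine Finset.sum_congr rfl (fun i hi => ?_)
    have hFi : F ((T c)^[i] (bs (k + 1) z)) = F ((T c)^[i] (bs (k + 1) z')) := by
      apply hF
      intro l hl
      exact hoff c k z z' hck hty i (Finset.mem_range.1 hi) l (by omega)
    rw [hFi]
    exact (A_type_er _ _ _).symm
  have hsum := Nat.add_le_add hE1 hE2
  have hw3' := hw3.trans (Nat.add_le_add_left hsum _)
  have hw4' := hw4.trans (Nat.add_le_add_left hsum _)
  have hw1' : w.Sublist (JJ c (Ph c' A B φ) (bs (k + 1) z) (P c (k + 1) z) ++ nm c' (φ z) n₀ ++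
        nm c' ((T c')^[n₀] (φ z)) r) := by
    rw [← hJ2]; exact hw1
  have hlen1 : ((JJ c (Ph c' A B φ) (bs (k + 1) z) (P c (k + 1) z) ++ nm c' (φ z) n₀ ++
        nm c' ((T c')^[n₀] (φ z)) r).length : ℝ) ≤ w.length + 2 * (e₀ : ℝ) := by
    rw [← hJ2]
    have : (JJ c (Ph c' A B φ) (bs (k + 1) z) (N (k + 1))).length ≤ w.length + (e₀ + e₀) := hw3'
    have h2 : ((JJ c (Ph c' A B φ) (bs (k + 1) z) (N (k + 1))).length : ℝ) ≤
        ((w.length + (e₀ + e₀) : ℕ) : ℝ) := by exact_mod_cast this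
    rw [Nat.cast_add, Nat.cast_add] at h2
    linarith
  have hlen2 : ((JJ c (Ph c' A B φ) (bs (k + 1) z') (N (k + 1))).length : ℝ) ≤
      w.length + 2 * (e₀ : ℝ) := by
    have : (JJ c (Ph c' A B φ) (bs (k + 1) z') (N (k + 1))).length ≤ w.length + (e₀ + e₀) := hw4'
    have h2 : ((JJ c (Ph c' A B φ) (bs (k + 1) z') (N (k + 1))).length : ℝ) ≤
        ((w.length + (e₀ + e₀) : ℕ) : ℝ) := by exact_mod_cast this
    rw [Nat.cast_add, Nat.cast_add] at h2
    linarith
  have hfin := halign c' (k + 1) (ty (k + 1) (φ z)) l (nm c' (φ z) n₀)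
    (JJ c (Ph c' A B φ) (bs (k + 1) z) (P c (k + 1) z)) (nm c' ((T c')^[n₀] (φ z)) r)
    (JJ c (Ph c' A B φ) (bs (k + 1) z') (N (k + 1))) w (2 * (e₀ : ℝ)) ?_ hU hl3 hw1' hw2 hlen1 hlen2
  · rw [A_type_nm_len] at hfin
    have h1 : (l.length : ℝ) ≤ (C : ℝ) + 2 := by exact_mod_cast hl1
    have h2 := mul_le_mul_of_nonneg_right h1 heta
    linarith
  · intro a ha
    refine hsep c' (k + 1) (ty (k + 1) (φ z)) a ((φ z (k + 1)).1.isLt) (hl2 a ha) (Or.inr ⟨?_, k, rfl, hc'k⟩)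
    rintro rfl
    exact ht ha

end Pool.Agent.H468R2.KA
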