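import Pool.Agent.H468R2.KA.Tasks2

/-!
# F_bor: Borel maps into the space of ergodic automorphisms (helper677)
-/

set_option autoImplicit false

open MeasureTheory Filter Topology
open Pool.H110K2

namespace Pool.Agent.H468R2.KA

universe u

namespace FBor

open scoped symmDiff

/-- the numbers `μ (S⁻¹ A ∩ B)` as real numbers are close for close sets -/
theorem close {X : Type u} [MeasurableSpace X] (μ : Measure X) [IsProbabilityMeasure μ]
    (S : ErgAut μ) {A A' B B' : Set X} (hA : MeasurableSet A) (hA' : MeasurableSet A')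
    (hB : MeasurableSet B) (hB' : MeasurableSet B') :
    |μ.real (S.1 ⁻¹' A ∩ B) - μ.real (S.1 ⁻¹' A' ∩ B')| ≤ μ.real (A ∆ A') + μ.real (B ∆ B') := by
  have hS : Measurable (S.1 : X → X) := S.1.measurable
  have h1 := abs_measureReal_sub_le_measureReal_symmDiff (μ := μ)
    ((hS hA).inter hB).nullMeasurableSet ((hS hA').inter hB').nullMeasurableSet
  have hsub : (S.1 ⁻¹' A ∩ B) ∆ (S.1 ⁻¹' A' ∩ B') ⊆ S.1 ⁻¹' (A ∆ A') ∪ B ∆ B' := by
    intro x hx
    simp only [Set.mem_symmDiff, Set.mem_inter_iff, Set.mem_preimage, Set.mem_union] at hx ⊢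
    tauto
  have h2 : μ.real (S.1 ⁻¹' (A ∆ A')) = μ.real (A ∆ A') := by
    unfold Measure.real
    rw [S.2.toMeasurePreserving.measure_preimage (hA.symmDiff hA').nullMeasurableSet]
  calc |μ.real (S.1 ⁻¹' A ∩ B) - μ.real (S.1 ⁻¹' A' ∩ B')|
      ≤ μ.real ((S.1 ⁻¹' A ∩ B) ∆ (S.1 ⁻¹' A' ∩ B')) := h1
    _ ≤ μ.real (S.1 ⁻¹' (A ∆ A') ∪ B ∆ B') := measureReal_mono hsub
    _ ≤ μ.real (S.1 ⁻¹' (A ∆ A')) + μ.real (B ∆ B') := measureReal_union_le _ _
    _ = _ := by rw [h2]

/-- the coordinates with sets in `𝒜` -/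
def Phi {X : Type u} [MeasurableSpace X] (μ : Measure X) (𝒜 : Set (Set X)) (S : ErgAut μ) :
    (𝒜 × 𝒜) → ENNReal := fun EF => μ ((S.1 ⁻¹' EF.1.1) ∩ EF.2.1)

theorem top_eq {X : Type u} [MeasurableSpace X] (μ : Measure X) [IsProbabilityMeasure μ]
    (𝒜 : Set (Set X)) (h𝒜 : μ.MeasureDense 𝒜) :
    (inferInstance : TopologicalSpace (ErgAut μ)) =
      TopologicalSpace.induced (Phi μ 𝒜) inferInstance := by
  apply le_antisymm
  · rw [← continuous_iff_le_induced]
    refine continuous_pi fun EF => ?_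
    have h1 : Continuous (fun (S : ErgAut μ)
        (EF : {E : Set X // MeasurableSet E} × {E : Set X // MeasurableSet E}) =>
        μ ((S.1 ⁻¹' EF.1.1) ∩ EF.2.1)) := continuous_induced_dom
    exact (continuous_apply ((⟨EF.1.1, h𝒜.measurable _ EF.1.2⟩, ⟨EF.2.1, h𝒜.measurable _ EF.2.2⟩) :
      {E : Set X // MeasurableSet E} × {E : Set X // MeasurableSet E})).comp h1
  · let t : TopologicalSpace (ErgAut μ) := TopologicalSpace.induced (Phi μ 𝒜) inferInstance
    have key : Continuous[t, inferInstance] (fun (S : ErgAut μ)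
        (EF : {E : Set X // MeasurableSet E} × {E : Set X // MeasurableSet E}) =>
        μ ((S.1 ⁻¹' EF.1.1) ∩ EF.2.1)) := by
      refine continuous_pi fun EF => ?_
      obtain ⟨⟨A, hA⟩, ⟨B, hB⟩⟩ := EF
      have hreal : Continuous (fun S : ErgAut μ => μ.real (S.1 ⁻¹' A ∩ B)) := by
        refine continuous_of_uniform_approx_of_continuous fun U hU => ?_
        obtain ⟨ε, hε, hεU⟩ := Metric.mem_uniformity_dist.1 hU
        obtain ⟨A', hA', hAA'⟩ := h𝒜.approx A hA (measure_ne_top μ A) (ε / 2) (by positivity)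
        obtain ⟨B', hB', hBB'⟩ := h𝒜.approx B hB (measure_ne_top μ B) (ε / 2) (by positivity)
        refine ⟨fun S => μ.real (S.1 ⁻¹' A' ∩ B'), ?_, fun S => hεU ?_⟩
        · have h2 : Continuous (Phi μ 𝒜) := continuous_induced_dom
          have h3 : Continuous fun S : ErgAut μ => μ (S.1 ⁻¹' A' ∩ B') :=
            (continuous_apply ((⟨A', hA'⟩, ⟨B', hB'⟩) : 𝒜 × 𝒜)).comp h2
          exact ENNReal.continuousOn_toReal.comp_continuous h3 fun S => measure_ne_top _ _
        · have h4 := close μ S hA (h𝒜.measurable _ hA') hB (h𝒜.measurable _ hB')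
          have h5 : μ.real (A ∆ A') < ε / 2 := by
            unfold Measure.real
            exact (ENNReal.toReal_lt_of_lt_ofReal hAA')
          have h6 : μ.real (B ∆ B') < ε / 2 := by
            unfold Measure.real
            exact (ENNReal.toReal_lt_of_lt_ofReal hBB')
          rw [Real.dist_eq]
          linarith
      have h7 : (fun S : ErgAut μ => μ (S.1 ⁻¹' A ∩ B)) =
          fun S => ENNReal.ofReal (μ.real (S.1 ⁻¹' A ∩ B)) := by
        funext S
        rw [ofReal_measureReal]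
      show Continuous (fun S : ErgAut μ => μ (S.1 ⁻¹' A ∩ B))
      rw [h7]
      exact ENNReal.continuous_ofReal.comp hreal
    exact continuous_iff_le_induced.1 key

end FBor

open FBor in
theorem t_F_bor : F_bor.{u} := by
  intro X _ _ μ _ f hf
  obtain ⟨𝒜, hc, h𝒜⟩ := exists_countable_measureDense (μ := μ)
  have : Countable 𝒜 := hc.to_subtype
  have hb : borel (ErgAut μ) = (borel ((𝒜 × 𝒜) → ENNReal)).comap (Phi μ 𝒜) := by
    rw [← borel_comap]
    exact congrArg (fun t => @borel (ErgAut μ) t) (top_eq μ 𝒜 h𝒜)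
  rw [hb, ← BorelSpace.measurable_eq (α := (𝒜 × 𝒜) → ENNReal)]
  rw [measurable_comap_iff]
  refine measurable_pi_iff.2 fun EF => ?_
  exact hf EF.1.1 EF.2.1 (h𝒜.measurable _ EF.1.2) (h𝒜.measurable _ EF.2.2)

end Pool.Agent.H468R2.KA
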