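import Pool.Agent.H468R2.KA.Tasks2

/-!
# The Borel family of ergodic automorphisms
-/

set_option autoImplicit false

open MeasureTheory Filter Topology
open Pool.H110K2

namespace Pool.Agent.H468R2.KA

universe u

namespace FamAux

theorem two_le_L (k : ℕ) : 2 ≤ L k := by
  have h1 : 0 < R k := R_pos k
  have h2 : 0 < Q k := Q_pos k
  have h3 : 2 ≤ M k := by
    have h4 : 2 ≤ g k := by
      have : (2 : ℕ) ^ 1 ≤ 2 ^ (k + 6) := Nat.pow_le_pow_right (by norm_num) (by omega)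
      simpa [g] using this
    calc 2 ≤ g k := h4
      _ = g k * 1 := (mul_one _).symm
      _ ≤ g k * h k := Nat.mul_le_mul_left _ (h_pos k)
  calc 2 ≤ M k := h3
    _ = M k * 1 := (mul_one _).symm
    _ ≤ M k * Q k := Nat.mul_le_mul_left _ h2
    _ = 1 * (M k * Q k) := (one_mul _).symm
    _ ≤ R k * (M k * Q k) := Nat.mul_le_mul_right _ h1

theorem pow_le_N (k : ℕ) : 2 ^ k ≤ N k := by
  induction k with
  | zero => exact Nat.le_of_eq rfl
  | succ k ih =>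
    calc 2 ^ (k + 1) = 2 * 2 ^ k := by rw [pow_succ, mul_comm]
      _ ≤ L k * N k := Nat.mul_le_mul (two_le_L k) ih
      _ = N (k + 1) := rfl

theorem singleton_zero {ν : Measure Y} (hν : Unif ν) (y : Y) : ν {y} = 0 := by
  have h1 : ∀ k : ℕ, ν {y} ≤ ((2 ^ k : ℕ) : ENNReal)⁻¹ := by
    intro k
    calc ν {y} ≤ ν (cyl k y) := by
          refine measure_mono ?_
          intro z hz l _
          rw [Set.mem_singleton_iff] at hz
          rw [hz]
      _ = ((N k : ENNReal))⁻¹ := hν.cyl k y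
      _ ≤ ((2 ^ k : ℕ) : ENNReal)⁻¹ := by
          rw [ENNReal.inv_le_inv]
          exact_mod_cast pow_le_N k
  have h2 : Tendsto (fun k : ℕ => ((2 ^ k : ℕ) : ENNReal)⁻¹) atTop (𝓝 0) := by
    have h3 : Tendsto (fun k : ℕ => ((1 / 2 : ENNReal)) ^ k) atTop (𝓝 0) := by
      apply ENNReal.tendsto_pow_atTop_nhds_zero_of_lt_one
      rw [one_div]
      exact ENNReal.inv_lt_one.mpr (by norm_num)
    refine h3.congr fun k => ?_
    rw [one_div, ← ENNReal.inv_pow]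
    push_cast
    rfl
  exact le_antisymm (ge_of_tendsto' h2 h1) zero_le

section transfer

variable {X : Type u} [MeasurableSpace X] {μ : Measure X} {ν : Measure Y}
  {φ : X → Y} {ψ : Y → X}

theorem Mi.symm' (h : Mi μ ν φ ψ) : Mi ν μ ψ φ := ⟨h.mpψ, h.mpφ, h.r, h.l⟩

theorem mi_conj (h : Mi μ ν φ ψ) {t s : Y → Y} (ht : MeasurePreserving t ν ν)
    (hs : MeasurePreserving s ν ν) (hts : ∀ᵐ y ∂ν, s (t y) = y) (hst : ∀ᵐ y ∂ν, t (s y) = y) :
    Mi μ μ (fun z => ψ (t (φ z))) (fun z => ψ (s (φ z))) where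
  mpφ := h.mpψ.comp (ht.comp h.mpφ)
  mpψ := h.mpψ.comp (hs.comp h.mpφ)
  l := by
    have h1 := (ht.comp h.mpφ).quasiMeasurePreserving.ae h.r
    have h2 := h.mpφ.quasiMeasurePreserving.ae hts
    filter_upwards [h1, h2, h.l] with z e1 e2 e3
    simp only [Function.comp] at e1
    show ψ (s (φ (ψ (t (φ z))))) = z
    rw [e1, e2, e3]
  r := by
    have h1 := (hs.comp h.mpφ).quasiMeasurePreserving.ae h.r
    have h2 := h.mpφ.quasiMeasurePreserving.ae hst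
    filter_upwards [h1, h2, h.l] with z e1 e2 e3
    simp only [Function.comp] at e1
    show ψ (t (φ (ψ (s (φ z))))) = z
    rw [e1, e2, e3]

theorem fwd_comm (h : Mi μ ν φ ψ) {t : Y → Y} (ht : MeasurePreserving t ν ν) {e : X → X}
    (he : ∀ᵐ z ∂μ, e z = ψ (t (φ z))) : ∀ᵐ z ∂μ, φ (e z) = t (φ z) := by
  have h1 := (ht.comp h.mpφ).quasiMeasurePreserving.ae h.r
  filter_upwards [h1, he] with z e1 e2
  simp only [Function.comp] at e1
  rw [e2, e1]

theorem bwd_comm (h : Mi μ ν φ ψ) {t : Y → Y} {e : X → X}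
    (he : ∀ᵐ z ∂μ, e z = ψ (t (φ z))) : ∀ᵐ y ∂ν, ψ (t y) = e (ψ y) := by
  have h1 := h.mpψ.quasiMeasurePreserving.ae he
  filter_upwards [h1, h.r] with y e1 e2
  rw [e1, e2]

theorem mp_of_ae {t e : X → X} (ht : MeasurePreserving t μ μ) (hem : Measurable e)
    (he : ∀ᵐ z ∂μ, e z = t z) : MeasurePreserving e μ μ :=
  ⟨hem, by rw [Measure.map_congr he, ht.map_eq]⟩

theorem erg_transfer (h : Mi μ ν φ ψ) {t : Y → Y} (ht : Ergodic t ν) {e : X → X}
    (hem : MeasurePreserving e μ μ) (he : ∀ᵐ z ∂μ, e z = ψ (t (φ z))) : Ergodic e μ := by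
  refine ⟨hem, ⟨fun s hs hes => ?_⟩⟩
  have hs' : MeasurableSet (ψ ⁻¹' s) := h.mpψ.measurable hs
  have hb := bwd_comm h he
  have hinv : t ⁻¹' (ψ ⁻¹' s) =ᵐ[ν] ψ ⁻¹' s := by
    filter_upwards [hb] with y e1
    apply propext
    show ψ (t y) ∈ s ↔ ψ y ∈ s
    rw [e1]
    have : e (ψ y) ∈ s ↔ ψ y ∈ e ⁻¹' s := Iff.rfl
    rw [this, hes]
  have hback : s =ᵐ[μ] φ ⁻¹' (ψ ⁻¹' s) := by
    filter_upwards [h.l] with z e1
    apply propext
    show z ∈ s ↔ ψ (φ z) ∈ s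
    rw [e1]
  rw [Filter.eventuallyConst_set']
  rcases ht.quasiErgodic.ae_empty_or_univ₀ hs'.nullMeasurableSet hinv with h0 | h0
  · left
    have := h.mpφ.quasiMeasurePreserving.preimage_ae_eq h0
    exact hback.trans (by simpa using this)
  · right
    have := h.mpφ.quasiMeasurePreserving.preimage_ae_eq h0
    exact hback.trans (by simpa using this)

end transfer

end FamAux

open FamAux

theorem t_F_fam (h_ex : M_ex) (h_iso : F_iso.{u, 0}) (h_mT : M_mT) (h_cc : M_cc) (h_Gd : M_Gd)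
    (h_mp : M_mp) (h_YGd : Y_Gd) (h_erg : M_erg) (h_eqv : F_eqv.{u}) (h_bor : F_bor.{u})
    (h_tr : F_tr.{u, 0}) (h_tr' : F_tr.{0, u}) (h_up : K_up) (h_low : K_low) : F_fam.{u} := by
  intro X _ _ μ _ hμ
  obtain ⟨ν, hν⟩ := h_ex
  have := hν.prob
  obtain ⟨φ, ψ, hM⟩ := h_iso X Y μ ν hμ (fun y => singleton_zero hν y)
  have hTS : ∀ c, (∀ᵐ y ∂ν, S c (T c y) = y) ∧ ∀ᵐ y ∂ν, T c (S c y) = y := by
    intro c
    have hG : ∀ᵐ y ∂ν, y ∈ Gd := by
      have := (h_Gd ν hν).2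
      rw [ae_iff]
      exact this
    constructor
    · filter_upwards [hG] with y hy
      exact (h_YGd c y hy).2.2.1
    · filter_upwards [hG] with y hy
      exact (h_YGd c y hy).2.2.2
  have hMi : ∀ x : ℕ → ℝ, Mi μ μ (fun z => ψ (T (cc x) (φ z))) (fun z => ψ (S (cc x) (φ z))) :=
    fun x => mi_conj hM (h_mp ν hν (cc x)).1 (h_mp ν hν (cc x)).2 (hTS (cc x)).1 (hTS (cc x)).2
  choose e he hes using fun x : ℕ → ℝ => h_eqv X μ _ _ (hMi x)
  have hemp : ∀ x, MeasurePreserving (e x) μ μ := fun x =>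
    mp_of_ae (hMi x).mpφ (e x).measurable (he x)
  have herg : ∀ x, Ergodic (e x) μ := fun x => erg_transfer hM (h_erg ν hν (cc x)) (hemp x) (he x)
  refine ⟨fun x => ⟨e x, herg x⟩, ?_, ?_, ?_⟩
  · refine h_bor X μ _ fun A B hA hB => ?_
    have h1 : ∀ x : ℕ → ℝ, μ ((e x) ⁻¹' A ∩ B) =
        μ (Prod.mk x ⁻¹' {p : (ℕ → ℝ) × X | ψ (T (cc p.1) (φ p.2)) ∈ A ∧ p.2 ∈ B}) := by
      intro x
      refine measure_congr ?_
      filter_upwards [he x] with z e1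
      apply propext
      show (e x z ∈ A ∧ z ∈ B) ↔ (ψ (T (cc x) (φ z)) ∈ A ∧ z ∈ B)
      rw [e1]
    have h2 : Measurable (fun p : (ℕ → ℝ) × X => ψ (T (cc p.1) (φ p.2))) := by
      have h3 : Measurable (fun p : (ℕ → ℝ) × X => ((cc p.1, φ p.2) : (ℕ → ℕ) × Y)) :=
        (h_cc.comp measurable_fst).prodMk (hM.mpφ.measurable.comp measurable_snd)
      exact hM.mpψ.measurable.comp (Measurable.comp (g := fun p : (ℕ → ℕ) × Y => T p.1 p.2) h_mT h3)
    have h4 : MeasurableSet {p : (ℕ → ℝ) × X | ψ (T (cc p.1) (φ p.2)) ∈ A ∧ p.2 ∈ B} :=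
      (h2 hA).inter (measurable_snd hB)
    show Measurable (fun x => μ ((e x) ⁻¹' A ∩ B))
    simp_rw [h1]
    exact measurable_measure_prodMk_left h4
  · intro x y hxy
    exact h_tr X Y μ ν φ ψ hM (e x) (e y) (T (cc x)) (T (cc y)) (hemp x) (hemp y)
      (h_mp ν hν (cc x)).1 (h_mp ν hν (cc y)).1
      (fwd_comm hM (h_mp ν hν (cc x)).1 (he x)) (fwd_comm hM (h_mp ν hν (cc y)).1 (he y))
      (h_up ν hν x y hxy)
  · intro x y hxy hK
    refine h_low ν hν (cc x) (cc y) hxy ?_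
    exact h_tr' Y X ν μ ψ φ (Mi.symm' hM) (T (cc x)) (T (cc y)) (e x) (e y)
      (h_mp ν hν (cc x)).1 (h_mp ν hν (cc y)).1 (hemp x) (hemp y)
      (bwd_comm hM (he x)) (bwd_comm hM (he y)) hK

end Pool.Agent.H468R2.KA
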