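import Pool.Agent.H468R2.KA.Tasks2

/-! F_gen: every comeager set contains a pair which is generic for the construction. -/

set_option autoImplicit false

open MeasureTheory Filter Topology

namespace Pool.Agent.H468R2.KA

namespace P_F_genaux

/-- the open sets -/
def Gs (n : ℕ) : Set ((ℕ → ℝ) × (ℕ → ℝ)) :=
  {p | ∃ k, n ≤ k ∧ p.1 k < 0 ∧ 1 < p.2 k}

theorem open_Gs (n : ℕ) : IsOpen (Gs n) := by
  have h : Gs n = ⋃ k ∈ {k | n ≤ k}, ({p : (ℕ → ℝ) × (ℕ → ℝ) | p.1 k < 0} ∩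
      {p : (ℕ → ℝ) × (ℕ → ℝ) | 1 < p.2 k}) := by
    ext p
    simp only [Gs, Set.mem_setOf_eq, Set.mem_iUnion, Set.mem_inter_iff, exists_prop]
  rw [h]
  refine isOpen_biUnion fun k _ => IsOpen.inter ?_ ?_
  · exact isOpen_lt ((continuous_apply k).comp continuous_fst) continuous_const
  · exact isOpen_lt continuous_const ((continuous_apply k).comp continuous_snd)

theorem tendsto_update (x : ℕ → ℝ) (c : ℝ) :
    Tendsto (fun k => Function.update x k c) atTop (𝓝 x) := by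
  rw [tendsto_pi_nhds]
  intro i
  refine tendsto_const_nhds.congr' ?_
  filter_upwards [eventually_gt_atTop i] with k hk
  rw [Function.update_of_ne hk.ne]

theorem dense_Gs (n : ℕ) : Dense (Gs n) := by
  rintro ⟨x, y⟩
  have h := (tendsto_update x (-1)).prodMk_nhds (tendsto_update y 2)
  refine mem_closure_of_tendsto h ?_
  filter_upwards [eventually_ge_atTop n] with k hk
  refine ⟨k, hk, ?_, ?_⟩
  · simp only [Function.update_self]
    norm_num
  · simp only [Function.update_self]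
    norm_num

theorem cc_zero (x : ℕ → ℝ) (k : ℕ) (h : x k < 0) : cc x k = 0 := by
  have h1 : min 1 (x k) ≤ 0 := (min_le_right _ _).trans h.le
  have h2 : max 0 (min 1 (x k)) = 0 := max_eq_left h1
  unfold cc
  rw [h2, zero_mul, Nat.floor_zero]

theorem cc_one (y : ℕ → ℝ) (k : ℕ) (h : 1 < y k) : R k ≤ cc y k := by
  have h1 : min 1 (y k) = 1 := min_eq_left h.le
  have h2 : max (0 : ℝ) 1 = 1 := max_eq_right zero_le_one
  unfold cc
  rw [h1, h2, one_mul, Nat.floor_natCast]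

end P_F_genaux

open P_F_genaux

theorem t_F_gen : F_gen := by
  intro C hC
  have h1 : (Prod.fst : (ℕ → ℝ) × (ℕ → ℝ) → (ℕ → ℝ)) ⁻¹' C ∈ residual ((ℕ → ℝ) × (ℕ → ℝ)) :=
    tendsto_residual_of_isOpenMap continuous_fst isOpenMap_fst hC
  have h2 : (Prod.snd : (ℕ → ℝ) × (ℕ → ℝ) → (ℕ → ℝ)) ⁻¹' C ∈ residual ((ℕ → ℝ) × (ℕ → ℝ)) :=
    tendsto_residual_of_isOpenMap continuous_snd isOpenMap_snd hC
  have h3 : (⋂ n, Gs n) ∈ residual ((ℕ → ℝ) × (ℕ → ℝ)) :=
    countable_iInter_mem.2 fun n => residual_of_dense_open (open_Gs n) (dense_Gs n)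
  have h4 := dense_of_mem_residual (inter_mem (inter_mem h1 h2) h3)
  obtain ⟨p, ⟨⟨hp1, hp2⟩, hp3⟩⟩ := h4.nonempty
  refine ⟨p.1, hp1, p.2, hp2, fun n => ?_⟩
  obtain ⟨k, hk, ha, hb⟩ := Set.mem_iInter.1 hp3 n
  exact ⟨k, hk, cc_zero _ _ ha, cc_one _ _ hb⟩

end Pool.Agent.H468R2.KA
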