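import Pool.Agent.H468R2.KA.Tasks2
import Pool.Agent.Helper212.Iso

/-!
# F_iso (helper357): isomorphism of standard non-atomic probability spaces
-/

set_option autoImplicit false

open MeasureTheory Filter Topology

namespace Pool.Agent.H468R2.KA

universe u v

theorem t_F_iso : F_iso.{u, v} := by
  intro X X' _ _ _ _ μ ν _ _ hμ hν
  have : NullSingletonClass μ := ⟨hμ⟩
  have : NullSingletonClass ν := ⟨hν⟩
  obtain ⟨e, he⟩ := Pool.Agent.Helper212.Sq.exists_mp_equiv μ
  obtain ⟨f, hf⟩ := Pool.Agent.Helper212.Sq.exists_mp_equiv ν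
  have hf' : MeasurePreserving f.symm volume ν := hf.symm f
  have he' : MeasurePreserving e.symm volume μ := he.symm e
  refine ⟨f.symm ∘ e, e.symm ∘ f, hf'.comp he, he'.comp hf, ?_, ?_⟩
  · exact ae_of_all _ fun x => by simp
  · exact ae_of_all _ fun x => by simp

end Pool.Agent.H468R2.KA
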