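import Pool.Agent.H468R2.KA.Tasks2

set_option autoImplicit false

open MeasureTheory Filter Topology
open Pool.H110K2

namespace Pool.Agent.H468R2.KA

universe u v

section
variable {Z : Type v} [MulAction (Equiv.Perm ℕ) Z]

/-- the relational structure of a point -/
def Fperm_St (A : ℕ → Set Z) (z : Z) : MA.RS (ℕ × ℕ) (fun r => r.2) :=
  fun r a => ¬ @IsMeagre _ permTop ({π : Equiv.Perm ℕ | π • z ∈ A r.1} ∩ Ub r.2 a)

theorem Fperm_equiv (h1 : F_top) (A : ℕ → Set Z) (z : Z) (σ : Equiv.Perm ℕ) (r : ℕ × ℕ)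
    (a : Fin r.2 → ℕ) : Fperm_St A (σ • z) r (fun s => σ (a s)) ↔ Fperm_St A z r a := by
  unfold Fperm_St
  have h2 : {π : Equiv.Perm ℕ | π • σ • z ∈ A r.1} ∩ Ub r.2 (fun s => σ (a s)) =
      (fun π => π * σ) ⁻¹' ({π : Equiv.Perm ℕ | π • z ∈ A r.1} ∩ Ub r.2 a) := by
    ext π
    simp only [Set.mem_inter_iff, Set.mem_setOf_eq, Set.mem_preimage, Ub, Equiv.Perm.mul_apply,
      mul_smul]
  rw [h2, h1.2.2.2]

/-- one side of the comparison -/
theorem Fperm_diff [MeasurableSpace Z] (h1 : F_top) (h2 : F_vt.{0})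
    (hm : @Measurable _ _ (permMS.prod inferInstance) _ (fun p : Equiv.Perm ℕ × Z => p.1 • p.2))
    (A : ℕ → Set Z) (hA : ∀ n, MeasurableSet (A n)) (w z : Z)
    (hS : ∀ r a, Fperm_St A w r a ↔ Fperm_St A z r a) (n : ℕ) :
    @IsMeagre _ permTop {π : Equiv.Perm ℕ | π • w ∈ A n ∧ π • z ∉ A n} := by
  letI := permTop
  letI := permMS
  haveI : BaireSpace (Equiv.Perm ℕ) := h1.1
  by_contra hcon
  have hw : Measurable (fun π : Equiv.Perm ℕ => π • w) := hm.comp measurable_prodMk_right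
  have hz : Measurable (fun π : Equiv.Perm ℕ => π • z) := hm.comp measurable_prodMk_right
  have hB : MeasurableSet {p : Equiv.Perm ℕ × Unit | p.1 • w ∈ A n ∧ p.1 • z ∉ A n} := by
    have e1 : MeasurableSet {π : Equiv.Perm ℕ | π • w ∈ A n ∧ π • z ∉ A n} :=
      (hw (hA n)).inter (hz (hA n)).compl
    exact measurable_fst e1
  have h3 := (h2 Unit _ hB 0 Fin.elim0).2 ()
  obtain ⟨m, a, -, hne, hmg⟩ := h3 Set.univ isOpen_univ (by
    rw [Set.inter_univ]
    exact hcon)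
  have hopen : IsOpen (Ub m a) := h1.2.1 m a
  have hnm : ¬ IsMeagre (Ub m a) := not_isMeagre_of_isOpen hopen hne
  have hz' : ¬ Fperm_St A z (n, m) a := by
    intro h
    refine h (hmg.mono ?_)
    rintro π ⟨hπ1, hπ2⟩
    exact ⟨hπ2, fun h => h.2 hπ1⟩
  have hw' : Fperm_St A w (n, m) a := by
    intro h
    refine hnm ((h.union hmg).mono ?_)
    intro π hπ
    by_cases h4 : π • w ∈ A n
    · exact Or.inl ⟨h4, hπ⟩
    · exact Or.inr ⟨hπ, fun h => h4 h.1⟩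
  exact hz' ((hS _ _).mp hw')

theorem Fperm_iso [MeasurableSpace Z] (h1 : F_top) (h2 : F_vt.{0})
    (hm : @Measurable _ _ (permMS.prod inferInstance) _ (fun p : Equiv.Perm ℕ × Z => p.1 • p.2))
    (A : ℕ → Set Z) (hA : ∀ n, MeasurableSet (A n))
    (hsep : ∀ x y : Z, (∀ n, x ∈ A n ↔ y ∈ A n) → x = y) (z z' : Z)
    (h : MA.Iso (Fperm_St A z) (Fperm_St A z')) : ∃ π : Equiv.Perm ℕ, π • z = z' := by
  obtain ⟨σ, hσ⟩ := h
  refine ⟨σ, ?_⟩
  have hS : ∀ r a, Fperm_St A (σ • z) r a ↔ Fperm_St A z' r a := by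
    intro r a
    have e : a = fun s => σ ((fun s => σ.symm (a s)) s) := by
      funext s; simp
    rw [e, Fperm_equiv h1 A z σ r, ← hσ r]
  letI := permTop
  haveI : BaireSpace (Equiv.Perm ℕ) := h1.1
  have hM : IsMeagre (⋃ n, ({π : Equiv.Perm ℕ | π • σ • z ∈ A n ∧ π • z' ∉ A n} ∪
      {π : Equiv.Perm ℕ | π • z' ∈ A n ∧ π • σ • z ∉ A n})) := by
    refine isMeagre_iUnion fun n => ?_
    exact (Fperm_diff h1 h2 hm A hA (σ • z) z' hS n).union
      (Fperm_diff h1 h2 hm A hA z' (σ • z) (fun r a => (hS r a).symm) n)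
  have hU : ¬ IsMeagre (Set.univ : Set (Equiv.Perm ℕ)) :=
    not_isMeagre_of_isOpen isOpen_univ ⟨1, trivial⟩
  obtain ⟨π, hπ⟩ : ∃ π : Equiv.Perm ℕ, π ∉ ⋃ n, ({π : Equiv.Perm ℕ | π • σ • z ∈ A n ∧ π • z' ∉ A n} ∪
      {π : Equiv.Perm ℕ | π • z' ∈ A n ∧ π • σ • z ∉ A n}) := by
    by_contra hcon
    push Not at hcon
    refine hU (hM.mono fun π _ => hcon π)
  have key : π • σ • z = π • z' := by
    apply hsep
    intro n
    by_contra hcon
    apply hπ
    rw [Set.mem_iUnion]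
    refine ⟨n, ?_⟩
    by_cases h3 : π • σ • z ∈ A n
    · left
      refine ⟨h3, fun h4 => hcon ⟨fun _ => h4, fun _ => h3⟩⟩
    · right
      refine ⟨?_, h3⟩
      by_contra h4
      exact hcon ⟨fun h => absurd h h3, fun h => absurd h h4⟩
  exact (smul_left_cancel_iff π).mp key

end

theorem t_F_perm (h1 : F_top) (h2 : F_vt.{0}) (h3 : MA.T_ERG) : F_perm.{v} := by
  intro Z _ _ _ hm f hf hinv
  obtain ⟨A, hA, hsep⟩ := exists_seq_separating Z (p := MeasurableSet) (s₀ := ∅)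
    MeasurableSet.empty Set.univ
  have hsep' : ∀ x y : Z, (∀ n, x ∈ A n ↔ y ∈ A n) → x = y :=
    fun x y h => hsep x trivial y trivial h
  have hHm : MA.Hm (fun x : ℕ → ℝ => Fperm_St A (f x)) := by
    refine ⟨?_, ?_⟩
    · intro r a
      have hB : @MeasurableSet _ (permMS.prod inferInstance)
          {p : Equiv.Perm ℕ × (ℕ → ℝ) | p.1 • f p.2 ∈ A r.1} := by
        letI := permMS
        have e1 : Measurable (fun p : Equiv.Perm ℕ × (ℕ → ℝ) => (p.1, f p.2)) :=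
          measurable_fst.prodMk (hf.comp measurable_snd)
        exact (hm.comp e1) (hA r.1)
      exact (h2 (ℕ → ℝ) _ hB r.2 a).1
    · intro x y hxy
      obtain ⟨π, hπ⟩ := hinv x y hxy
      refine ⟨π, fun r a => ?_⟩
      show Fperm_St A (f y) r _ ↔ _
      rw [← hπ]
      exact Fperm_equiv h1 A (f x) π r a
  obtain ⟨C, hC, hiso⟩ := h3 (ℕ × ℕ) (fun r => r.2) _ hHm
  exact ⟨C, hC, fun x hx y hy => Fperm_iso h1 h2 hm A hA hsep' _ _ (hiso x hx y hy)⟩

end Pool.Agent.H468R2.KA
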