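import Pool.Agent.H468R2.KA.Tasks2
import Mathlib.Topology.Baire.BaireMeasurable

/-! Task F_top: topology of `S_∞`. -/

namespace Pool.Agent.H468R2.KA

open Topology Set

theorem F_top_basic (i j : ℕ) : @IsOpen _ permTop {π : Equiv.Perm ℕ | π i = j} :=
  TopologicalSpace.isOpen_generateFrom_of_mem ⟨i, j, rfl⟩

theorem F_top_ev1 (i : ℕ) : Continuous (fun p : (ℕ → ℕ) × (ℕ → ℕ) => p.1 i) :=
  (continuous_apply i).comp continuous_fst

theorem F_top_ev2 (i : ℕ) : Continuous (fun p : (ℕ → ℕ) × (ℕ → ℕ) => p.2 i) :=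
  (continuous_apply i).comp continuous_snd

theorem F_top_closedEmb : @IsClosedEmbedding (Equiv.Perm ℕ) ((ℕ → ℕ) × (ℕ → ℕ)) permTop _
    (fun π => ((π : ℕ → ℕ), (π.symm : ℕ → ℕ))) := by
  letI : TopologicalSpace (Equiv.Perm ℕ) := permTop
  have hc1 : Continuous (fun π : Equiv.Perm ℕ => (π : ℕ → ℕ)) := by
    refine continuous_pi fun i => continuous_discrete_rng.2 fun j => ?_
    exact F_top_basic i j
  have hc2 : Continuous (fun π : Equiv.Perm ℕ => (π.symm : ℕ → ℕ)) := by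
    refine continuous_pi fun i => continuous_discrete_rng.2 fun j => ?_
    have : (fun π : Equiv.Perm ℕ => π.symm i) ⁻¹' {j} = {π : Equiv.Perm ℕ | π j = i} := by
      ext π
      simp only [mem_preimage, mem_singleton_iff, mem_setOf_eq]
      rw [Equiv.symm_apply_eq, eq_comm]
    rw [this]
    exact F_top_basic j i
  refine ⟨⟨⟨le_antisymm ?_ ?_⟩, ?_⟩, ?_⟩
  · exact continuous_iff_le_induced.1 (hc1.prodMk hc2)
  · refine le_generateFrom ?_
    rintro _ ⟨i, j, rfl⟩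
    refine ⟨{p | p.1 i = j}, ?_, rfl⟩
    exact (isOpen_discrete ({j} : Set ℕ)).preimage (F_top_ev1 i)
  · intro π σ h
    have h1 : (π : ℕ → ℕ) = σ := (Prod.ext_iff.1 h).1
    exact Equiv.coe_fn_injective h1
  · have hr : range (fun π : Equiv.Perm ℕ => ((π : ℕ → ℕ), (π.symm : ℕ → ℕ))) =
        ⋂ i : ℕ, ({p : (ℕ → ℕ) × (ℕ → ℕ) | p.1 (p.2 i) = i} ∩ {p | p.2 (p.1 i) = i}) := by
      ext ⟨f, g⟩
      simp only [mem_range, mem_iInter, mem_inter_iff, mem_setOf_eq]
      constructor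
      · rintro ⟨π, h⟩ i
        have h1 := (Prod.ext_iff.1 h).1
        have h2 := (Prod.ext_iff.1 h).2
        simp only at h1 h2
        subst h1 h2
        simp
      · intro h
        exact ⟨⟨f, g, fun i => (h i).2, fun i => (h i).1⟩, rfl⟩
    rw [hr]
    refine isClosed_iInter fun i => IsClosed.inter ?_ ?_
    · rw [← isOpen_compl_iff]
      have : {p : (ℕ → ℕ) × (ℕ → ℕ) | p.1 (p.2 i) = i}ᶜ =
          ⋃ m : ℕ, ({p | p.2 i = m} ∩ {p | p.1 m ∈ ({i}ᶜ : Set ℕ)}) := by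
        ext p
        simp
      rw [this]
      refine isOpen_iUnion fun m => IsOpen.inter ?_ ?_
      · exact (isOpen_discrete ({m} : Set ℕ)).preimage (F_top_ev2 i)
      · exact (isOpen_discrete ({i}ᶜ : Set ℕ)).preimage (F_top_ev1 m)
    · rw [← isOpen_compl_iff]
      have : {p : (ℕ → ℕ) × (ℕ → ℕ) | p.2 (p.1 i) = i}ᶜ =
          ⋃ m : ℕ, ({p | p.1 i = m} ∩ {p | p.2 m ∈ ({i}ᶜ : Set ℕ)}) := by
        ext p
        simp
      rw [this]
      refine isOpen_iUnion fun m => IsOpen.inter ?_ ?_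
      · exact (isOpen_discrete ({m} : Set ℕ)).preimage (F_top_ev1 i)
      · exact (isOpen_discrete ({i}ᶜ : Set ℕ)).preimage (F_top_ev2 m)

theorem F_top_base (O : Set (Equiv.Perm ℕ)) (hO : @IsOpen _ permTop O) :
    ∀ π ∈ O, ∃ m : ℕ, ∀ σ : Equiv.Perm ℕ, (∀ i < m, σ (π.symm i) = i) → σ ∈ O := by
  induction hO with
  | basic U hU =>
    obtain ⟨i, j, rfl⟩ := hU
    intro π hπ
    refine ⟨j + 1, fun σ hσ => ?_⟩
    have h1 := hσ j (Nat.lt_succ_self j)
    have h2 : π.symm j = i := by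
      rw [Equiv.symm_apply_eq]; exact (hπ : π i = j).symm
    rw [h2] at h1
    exact h1
  | univ => exact fun π _ => ⟨0, fun σ _ => mem_univ σ⟩
  | inter U V _ _ hU hV =>
    intro π hπ
    obtain ⟨m1, h1⟩ := hU π hπ.1
    obtain ⟨m2, h2⟩ := hV π hπ.2
    exact ⟨max m1 m2, fun σ hσ => ⟨h1 σ fun i hi => hσ i (lt_of_lt_of_le hi (le_max_left _ _)),
      h2 σ fun i hi => hσ i (lt_of_lt_of_le hi (le_max_right _ _))⟩⟩
  | sUnion S _ hS =>
    intro π hπ
    obtain ⟨U, hU, hπU⟩ := hπ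
    obtain ⟨m, hm⟩ := hS U hU π hπU
    exact ⟨m, fun σ hσ => ⟨U, hU, hm σ hσ⟩⟩

theorem F_top_trans (σ : Equiv.Perm ℕ) :
    @Continuous _ _ permTop permTop (fun π : Equiv.Perm ℕ => π * σ) := by
  letI : TopologicalSpace (Equiv.Perm ℕ) := permTop
  refine continuous_generateFrom_iff.2 ?_
  rintro _ ⟨i, j, rfl⟩
  exact F_top_basic (σ i) j

theorem t_F_top : F_top := by
  letI tp : TopologicalSpace (Equiv.Perm ℕ) := permTop
  refine ⟨?_, ?_, ?_, ?_⟩
  · haveI : PolishSpace (Equiv.Perm ℕ) := F_top_closedEmb.polishSpace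
    letI := TopologicalSpace.upgradeIsCompletelyMetrizable (Equiv.Perm ℕ)
    infer_instance
  · intro m a
    have : Ub m a = ⋂ i : Fin m, {π : Equiv.Perm ℕ | π (a i) = i} := by
      ext π; simp [Ub]
    rw [this]
    exact isOpen_iInter_of_finite fun i => F_top_basic _ _
  · intro O hO π hπ
    obtain ⟨m, hm⟩ := F_top_base O hO π hπ
    refine ⟨m, fun i => π.symm i, fun i => ?_, fun σ hσ => hm σ fun i hi => hσ ⟨i, hi⟩⟩
    simp
  · intro A σ
    have key : ∀ (B : Set (Equiv.Perm ℕ)) (τ : Equiv.Perm ℕ), IsMeagre B →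
        IsMeagre ((fun π : Equiv.Perm ℕ => π * τ) ⁻¹' B) := by
      intro B τ hB
      refine hB.preimage_of_isOpenMap (F_top_trans τ) ?_
      intro V hV
      have : (fun π : Equiv.Perm ℕ => π * τ) '' V = (fun π : Equiv.Perm ℕ => π * τ⁻¹) ⁻¹' V := by
        ext π
        constructor
        · rintro ⟨ρ, hρ, rfl⟩
          simpa using hρ
        · intro h
          exact ⟨π * τ⁻¹, h, by simp⟩
      rw [this]
      exact hV.preimage (F_top_trans τ⁻¹)
    constructor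
    · intro h
      have h1 := key _ σ⁻¹ h
      have : (fun π : Equiv.Perm ℕ => π * σ⁻¹) ⁻¹' ((fun π : Equiv.Perm ℕ => π * σ) ⁻¹' A) = A := by
        ext π; simp
      rwa [this] at h1
    · exact key A σ

end Pool.Agent.H468R2.KA
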