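import Pool.Agent.H468R2.KA.Tasks2

set_option autoImplicit false

open MeasureTheory Filter Topology
open Pool.H110K2

namespace Pool.Agent.H468R2.KA

universe u v

namespace Ftr

variable {X : Type u} {X' : Type v} [MeasurableSpace X] [MeasurableSpace X']

theorem iter_ae {μ : Measure X} {t : X → X} (ht : MeasurePreserving t μ μ) {p : X → Prop}
    (hp : ∀ᵐ x ∂μ, p x) : ∀ᵐ x ∂μ, ∀ n, p (t^[n] x) := by
  rw [ae_all_iff]
  intro n
  exact (ht.iterate n).quasiMeasurePreserving.ae hp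

theorem conj_iter {t : X → X} {t' : X' → X'} {φ : X → X'} {x : X}
    (h : ∀ n, φ (t (t^[n] x)) = t' (φ (t^[n] x))) (n : ℕ) : φ (t^[n] x) = t'^[n] (φ x) := by
  induction n with
  | zero => rfl
  | succ n ih => rw [Function.iterate_succ_apply', h n, ih, Function.iterate_succ_apply']

theorem ret_eq {t : X → X} {t' : X' → X'} {φ : X → X'} {x : X} {A' : Set X'}
    (h : ∀ n, φ (t^[n] x) = t'^[n] (φ x)) :
    retTime t (φ ⁻¹' A') x = retTime t' A' (φ x) := by
  unfold retTime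
  congr 1
  ext n
  simp only [Set.mem_setOf_eq, Set.mem_preimage, h n]

theorem ind_eq {t : X → X} {t' : X' → X'} {φ : X → X'} {x : X} {A' : Set X'}
    (h : ∀ n, φ (t^[n] x) = t'^[n] (φ x)) :
    φ (induced t (φ ⁻¹' A') x) = induced t' A' (φ x) := by
  unfold induced
  rw [h, ret_eq h]

theorem pull {ν : Measure X'} [IsProbabilityMeasure ν] {A' B' : Set X'} {f' : X' → X'}
    (mf : Measurable f') (hA : MeasurableSet A') 
    (h3 : ∀ E, MeasurableSet E → ν (A' ∩ f' ⁻¹' E) / ν A' = ν (B' ∩ E) / ν B')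
    {p : X' → Prop} (hp : ∀ᵐ y ∂ν, p y) : ∀ᵐ y ∂(ν.restrict A'), p (f' y) := by
  set E := toMeasurable ν {y | ¬ p y} with hE
  have hE0 : ν E = 0 := by rw [hE, measure_toMeasurable]; exact hp
  have h := h3 E (measurableSet_toMeasurable _ _)
  have h4 : ν (B' ∩ E) = 0 := measure_mono_null Set.inter_subset_right hE0
  rw [h4, ENNReal.zero_div, ENNReal.div_eq_zero_iff] at h
  have h5 : ν (A' ∩ f' ⁻¹' E) = 0 := h.resolve_right (measure_ne_top ν A')
  rw [ae_restrict_iff' hA, ae_iff]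
  refine measure_mono_null ?_ h5
  intro y hy
  simp only [Set.mem_setOf_eq, Classical.not_imp] at hy
  exact ⟨hy.1, subset_toMeasurable _ _ hy.2⟩

end Ftr

open Ftr in
theorem t_F_tr : F_tr.{u, v} := by
  intro X X' _ _ _ _ μ ν _ _ φ ψ hM t s t' s' ht hs ht' hs' hct hcs hK
  obtain ⟨A', B', hA', hB', nA', nB', f', g', mf, mg, h1, h2, h3⟩ := hK
  have mφ : Measurable φ := hM.mpφ.measurable
  have mψ : Measurable ψ := hM.mpψ.measurable
  have hμA : μ (φ ⁻¹' A') = ν A' := hM.mpφ.measure_preimage hA'.nullMeasurableSet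
  have hμB : μ (φ ⁻¹' B') = ν B' := hM.mpφ.measure_preimage hB'.nullMeasurableSet
  have hφA : MeasurePreserving φ (μ.restrict (φ ⁻¹' A')) (ν.restrict A') :=
    hM.mpφ.restrict_preimage hA'
  have hφB : MeasurePreserving φ (μ.restrict (φ ⁻¹' B')) (ν.restrict B') :=
    hM.mpφ.restrict_preimage hB'
  -- pull back of null sets
  have pf : ∀ {p : X' → Prop}, (∀ᵐ y ∂ν, p y) → ∀ᵐ y ∂(ν.restrict A'), p (f' y) :=
    fun hp => pull mf hA' h3 hp
  have pg : ∀ {p : X' → Prop}, (∀ᵐ y ∂ν, p y) → ∀ᵐ y ∂(ν.restrict B'), p (g' y) := by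
    intro p hp
    refine pull mg hB' (A' := B') (B' := A') ?_ hp
    intro E hE
    rw [← h3 _ (mg hE)]
    congr 1
    have : (A' ∩ f' ⁻¹' (g' ⁻¹' E) : Set X') =ᵐ[ν] (A' ∩ E : Set X') := by
      rw [ae_restrict_iff' hA'] at h1
      filter_upwards [h1] with y hy
      apply propext
      constructor
      · rintro ⟨hyA, hyE⟩
        refine ⟨hyA, ?_⟩
        have := (hy hyA).2.1
        simp only [Set.mem_preimage, this] at hyE
        exact hyE
      · rintro ⟨hyA, hyE⟩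
        refine ⟨hyA, ?_⟩
        have := (hy hyA).2.1
        simp only [Set.mem_preimage, this]
        exact hyE
    exact measure_congr this
  have gt : ∀ᵐ x ∂μ, ∀ n, φ (t^[n] x) = t'^[n] (φ x) := by
    filter_upwards [iter_ae ht hct] with x hx
    exact conj_iter hx
  have gs : ∀ᵐ x ∂μ, (∀ n, φ (s^[n] x) = s'^[n] (φ x)) ∧ ∀ n, ψ (φ (s^[n] x)) = s^[n] x := by
    filter_upwards [iter_ae hs hcs, iter_ae hs hM.l] with x hx hx'
    exact ⟨conj_iter hx, hx'⟩
  refine ⟨φ ⁻¹' A', φ ⁻¹' B', mφ hA', mφ hB', by rwa [hμA], by rwa [hμB],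
    fun x => ψ (f' (φ x)), fun x => ψ (g' (φ x)), mψ.comp (mf.comp mφ), mψ.comp (mg.comp mφ),
    ?_, ?_, ?_⟩
  · have a1 := hφA.quasiMeasurePreserving.ae h1
    have a2 := hφA.quasiMeasurePreserving.ae (pf hM.r)
    have a3 := hφA.quasiMeasurePreserving.ae (pf (hM.mpψ.quasiMeasurePreserving.ae gs))
    filter_upwards [a1, a2, a3, ae_restrict_of_ae hM.l, ae_restrict_of_ae gt] with
      x b1 b2 b3 b4 b5
    refine ⟨?_, ?_, ?_⟩
    · show φ (ψ (f' (φ x))) ∈ B'
      rw [b2]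
      exact b1.1
    · show ψ (g' (φ (ψ (f' (φ x))))) = x
      rw [b2, b1.2.1, b4]
    · show ψ (f' (φ (induced t (φ ⁻¹' A') x))) = induced s (φ ⁻¹' B') (ψ (f' (φ x)))
      rw [ind_eq b5, b1.2.2]
      have c1 := ind_eq (A' := B') b3.1
      rw [b2] at c1
      rw [← c1]
      exact b3.2 _
  · have a1 := hφB.quasiMeasurePreserving.ae h2
    have a2 := hφB.quasiMeasurePreserving.ae (pg hM.r)
    filter_upwards [a1, a2, ae_restrict_of_ae hM.l] with x b1 b2 b4
    refine ⟨?_, ?_⟩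
    · show φ (ψ (g' (φ x))) ∈ A'
      rw [b2]
      exact b1.1
    · show ψ (f' (φ (ψ (g' (φ x))))) = x
      rw [b2, b1.2, b4]
  · intro E hE
    rw [hμA, hμB]
    have e1 : μ (φ ⁻¹' A' ∩ (fun x => ψ (f' (φ x))) ⁻¹' E) = ν (A' ∩ f' ⁻¹' (ψ ⁻¹' E)) := by
      rw [← hM.mpφ.measure_preimage (hA'.inter (mf (mψ hE))).nullMeasurableSet]
      rfl
    have e2 : μ (φ ⁻¹' B' ∩ E) = ν (B' ∩ ψ ⁻¹' E) := by
      rw [← hM.mpφ.measure_preimage (hB'.inter (mψ hE)).nullMeasurableSet]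
      refine measure_congr ?_
      filter_upwards [hM.l] with x hx
      apply propext
      constructor
      · rintro ⟨hxB, hxE⟩
        refine ⟨hxB, ?_⟩
        show ψ (φ x) ∈ E
        rw [hx]
        exact hxE
      · rintro ⟨hxB, hxE⟩
        refine ⟨hxB, ?_⟩
        have : ψ (φ x) ∈ E := hxE
        rwa [hx] at this
    rw [e1, e2]
    exact h3 _ (mψ hE)

end Pool.Agent.H468R2.KA
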