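import Pool.Agent.H468R2.KA.Tasks2

/-!
# Vaught transforms
-/

set_option autoImplicit false

open MeasureTheory Filter Topology
open Pool.H110K2

namespace Pool.Agent.H468R2.KA

universe u v

theorem F_vt_q {G : Type*} [TopologicalSpace G] [MeasurableSpace G] [BorelSpace G]
    {ι : Type*} (V : ι → Set G)
    (hbase : ∀ O : Set G, IsOpen O → ∀ π ∈ O, ∃ i, π ∈ V i ∧ V i ⊆ O)
    (A : Set G) (hA : MeasurableSet A) (O : Set G) (hO : IsOpen O) (h : ¬ IsMeagre (A ∩ O)) :
    ∃ i, V i ⊆ O ∧ (V i).Nonempty ∧ IsMeagre (V i \ A) := by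
  obtain ⟨U, hU, hAU⟩ := BaireMeasurableSet.iff_residualEq_isOpen.1 hA.baireMeasurableSet
  have hres : {x | x ∈ A ↔ x ∈ U} ∈ residual G := by
    filter_upwards [hAU] with x hx
    have hx' : (x ∈ A) = (x ∈ U) := hx
    show x ∈ A ↔ x ∈ U
    rw [hx']
  have hne : (U ∩ O).Nonempty := by
    by_contra hemp
    rw [Set.not_nonempty_iff_eq_empty] at hemp
    apply h
    show (A ∩ O)ᶜ ∈ residual G
    filter_upwards [hres] with x hx hxA
    have h1 : x ∈ U ∩ O := ⟨(show x ∈ A ↔ x ∈ U from hx).1 hxA.1, hxA.2⟩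
    rw [hemp] at h1
    exact h1
  obtain ⟨π, hπ⟩ := hne
  obtain ⟨i, hi1, hi2⟩ := hbase (U ∩ O) (hU.inter hO) π hπ
  refine ⟨i, fun x hx => (hi2 hx).2, ⟨π, hi1⟩, ?_⟩
  show (V i \ A)ᶜ ∈ residual G
  filter_upwards [hres] with x hx hxA
  exact hxA.2 ((show x ∈ A ↔ x ∈ U from hx).2 (hi2 hxA.1).1)

theorem F_vt_gen {G : Type*} [TopologicalSpace G] [MeasurableSpace G] [BorelSpace G]
    [BaireSpace G] {ι : Type*} [Countable ι] (V : ι → Set G) (hV : ∀ i, IsOpen (V i))
    (hbase : ∀ O : Set G, IsOpen O → ∀ π ∈ O, ∃ i, π ∈ V i ∧ V i ⊆ O)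
    {X : Type*} [MeasurableSpace X] (B : Set (G × X)) (hB : MeasurableSet B) :
    ∀ i, MeasurableSet {x | ¬ IsMeagre ({π | (π, x) ∈ B} ∩ V i)} := by
  have hgen : MeasurableSet[MeasurableSpace.generateFrom
      (Set.image2 (· ×ˢ ·) {s : Set G | MeasurableSet s} {t : Set X | MeasurableSet t})] B := by
    rw [generateFrom_prod]
    exact hB
  refine MeasurableSpace.generateFrom_induction
    (Set.image2 (· ×ˢ ·) {s : Set G | MeasurableSet s} {t : Set X | MeasurableSet t})
    (fun B _ => ∀ i, MeasurableSet {x | ¬ IsMeagre ({π | (π, x) ∈ B} ∩ V i)}) ?_ ?_ ?_ ?_ B hgen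
  · rintro _ ⟨A, hA, E, hE, rfl⟩ _ i
    by_cases hm : IsMeagre (A ∩ V i)
    · have : {x | ¬ IsMeagre ({π | (π, x) ∈ A ×ˢ E} ∩ V i)} = ∅ := by
        ext x
        constructor
        · intro hx
          have h0 : IsMeagre ({π | (π, x) ∈ A ×ˢ E} ∩ V i) := by
            refine hm.mono ?_
            intro π hπ
            exact ⟨hπ.1.1, hπ.2⟩
          exact absurd h0 hx
        · intro hx
          exact absurd hx (Set.notMem_empty x)
      rw [this]
      exact MeasurableSet.empty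
    · have : {x | ¬ IsMeagre ({π | (π, x) ∈ A ×ˢ E} ∩ V i)} = E := by
        ext x
        constructor
        · intro hx
          by_contra hxE
          apply hx
          have h0 : ({π | (π, x) ∈ A ×ˢ E} ∩ V i) = ∅ := by
            ext π
            constructor
            · intro hπ
              exact absurd hπ.1.2 hxE
            · intro hπ
              exact absurd hπ (Set.notMem_empty π)
          rw [h0]
          exact IsMeagre.empty
        · intro hxE hmg
          apply hm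
          refine hmg.mono ?_
          intro π hπ
          exact ⟨⟨hπ.1, hxE⟩, hπ.2⟩
      rw [this]
      exact hE
  · intro i
    have : {x : X | ¬ IsMeagre ({π : G | (π, x) ∈ (∅ : Set (G × X))} ∩ V i)} = ∅ := by
      ext x
      constructor
      · intro hx
        apply hx
        have h0 : ({π : G | (π, x) ∈ (∅ : Set (G × X))} ∩ V i) = ∅ := by
          ext π
          constructor
          · intro hπ
            exact absurd hπ.1 (Set.notMem_empty _)
          · intro hπ
            exact absurd hπ (Set.notMem_empty π)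
        rw [h0]
        exact IsMeagre.empty
      · intro hx
        exact absurd hx (Set.notMem_empty x)
    rw [this]
    exact MeasurableSet.empty
  · intro t ht ih i
    rw [generateFrom_prod] at ht
    have hset : {x | ¬ IsMeagre ({π | (π, x) ∈ tᶜ} ∩ V i)} =
        ⋃ j ∈ {j : ι | V j ⊆ V i ∧ (V j).Nonempty},
          {x | ¬ IsMeagre ({π | (π, x) ∈ t} ∩ V j)}ᶜ := by
      ext x
      simp only [Set.mem_iUnion]
      constructor
      · intro hx
        have hm : MeasurableSet {π : G | (π, x) ∈ tᶜ} := measurable_prodMk_right ht.compl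
        obtain ⟨j, hj1, hj2, hj3⟩ := F_vt_q V hbase _ hm (V i) (hV i) hx
        refine ⟨j, ⟨hj1, hj2⟩, fun hn => hn (hj3.mono ?_)⟩
        intro π hπ
        exact ⟨hπ.2, fun h => h hπ.1⟩
      · rintro ⟨j, ⟨hj1, hj2⟩, hj3⟩ hx
        have hj3' : IsMeagre ({π | (π, x) ∈ t} ∩ V j) := by
          by_contra hn
          exact hj3 hn
        have hVj : IsMeagre (V j) := by
          have h1 : IsMeagre (({π | (π, x) ∈ t} ∩ V j) ∪ ({π | (π, x) ∈ tᶜ} ∩ V i)) :=
            hj3'.union hx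
          refine h1.mono fun π hπ => ?_
          by_cases hπt : (π, x) ∈ t
          · exact Or.inl ⟨hπt, hπ⟩
          · exact Or.inr ⟨hπt, hj1 hπ⟩
        have hd : Dense (V j)ᶜ := dense_of_mem_residual hVj
        obtain ⟨π, hπ⟩ := hd.inter_open_nonempty (V j) (hV j) hj2
        exact hπ.2 hπ.1
    rw [hset]
    exact MeasurableSet.biUnion (Set.to_countable _) fun j _ => (ih j).compl
  · intro s hs ih i
    have hset : {x | ¬ IsMeagre ({π | (π, x) ∈ ⋃ n, s n} ∩ V i)} =
        ⋃ n, {x | ¬ IsMeagre ({π | (π, x) ∈ s n} ∩ V i)} := by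
      ext x
      rw [Set.mem_iUnion]
      constructor
      · intro hx
        by_contra hn
        push Not at hn
        apply hx
        have hall : ∀ n, IsMeagre ({π | (π, x) ∈ s n} ∩ V i) := by
          intro n
          by_contra h
          exact hn n h
        refine (isMeagre_iUnion hall).mono ?_
        rintro π ⟨hπ1, hπ2⟩
        obtain ⟨n, hn⟩ := Set.mem_iUnion.1 hπ1
        exact Set.mem_iUnion.2 ⟨n, hn, hπ2⟩
      · rintro ⟨n, hn⟩ hx
        apply hn
        refine hx.mono ?_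
        intro π hπ
        exact ⟨Set.mem_iUnion.2 ⟨n, hπ.1⟩, hπ.2⟩
    rw [hset]
    exact MeasurableSet.iUnion fun n => ih n i

theorem F_vt_sc : @SecondCountableTopology (Equiv.Perm ℕ) permTop := by
  refine @SecondCountableTopology.mk (Equiv.Perm ℕ) permTop
    ⟨{U | ∃ i j : ℕ, U = {π : Equiv.Perm ℕ | π i = j}}, ?_, rfl⟩
  have : {U | ∃ i j : ℕ, U = {π : Equiv.Perm ℕ | π i = j}} =
      Set.range (fun p : ℕ × ℕ => {π : Equiv.Perm ℕ | π p.1 = p.2}) := by
    ext U
    constructor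
    · rintro ⟨i, j, rfl⟩
      exact ⟨(i, j), rfl⟩
    · rintro ⟨⟨i, j⟩, rfl⟩
      exact ⟨i, j, rfl⟩
  rw [this]
  exact Set.countable_range _

theorem F_vt_borel : @BorelSpace (Equiv.Perm ℕ) permTop permMS := by
  refine @BorelSpace.mk (Equiv.Perm ℕ) permTop permMS ?_
  have h := @borel_eq_generateFrom_of_subbasis (Equiv.Perm ℕ)
    {U | ∃ i j : ℕ, U = {π : Equiv.Perm ℕ | π i = j}} permTop F_vt_sc rfl
  exact h.symm

theorem t_F_vt (h1 : F_top) : F_vt.{v} := by
  obtain ⟨hBaire, hopen, hbase, -⟩ := h1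
  intro X _ B hB m a
  have hbase' : ∀ O : Set (Equiv.Perm ℕ), @IsOpen _ permTop O → ∀ π ∈ O,
      ∃ i : (Σ m : ℕ, (Fin m → ℕ)), π ∈ Ub i.1 i.2 ∧ Ub i.1 i.2 ⊆ O := by
    intro O hO π hπ
    obtain ⟨m, a, h⟩ := hbase O hO π hπ
    exact ⟨⟨m, a⟩, h⟩
  constructor
  · exact @F_vt_gen (Equiv.Perm ℕ) permTop permMS F_vt_borel hBaire (Σ m : ℕ, (Fin m → ℕ)) _
      (fun i => Ub i.1 i.2) (fun i => hopen _ _) hbase' X _ B hB ⟨m, a⟩
  · intro x O hO hm
    have hsec : @MeasurableSet _ permMS {π | (π, x) ∈ B} :=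
      (@measurable_prodMk_right (Equiv.Perm ℕ) X permMS _ x) hB
    obtain ⟨i, hi⟩ := @F_vt_q (Equiv.Perm ℕ) permTop permMS F_vt_borel (Σ m : ℕ, (Fin m → ℕ))
      (fun i => Ub i.1 i.2) hbase' _ hsec O hO hm
    exact ⟨i.1, i.2, hi⟩

end Pool.Agent.H468R2.KA
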