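import Pool.Agent.H468R2.KA.Tasks2

/-!
# The lower half of the Kakutani family from its ingredients
-/

set_option autoImplicit false

open MeasureTheory Filter Topology
open Pool.H110K2

namespace Pool.Agent.H468R2.KA

theorem klow_nat_div (x y : ℕ) (hy : 0 < y) :
    (x : ENNReal) / (y : ENNReal) = ENNReal.ofReal ((x : ℝ) / (y : ℝ)) := by
  have hy' : (0 : ℝ) < (y : ℝ) := by exact_mod_cast hy
  rw [ENNReal.ofReal_div_of_pos hy', ENNReal.ofReal_natCast, ENNReal.ofReal_natCast]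

theorem klow_real (a β ε : ℝ) (V : ENNReal) (C n₀ e₀ NK H : ℕ) (I : ENNReal) (ha : 0 ≤ a)
    (hβ : 0 < β) (hε : 0 ≤ ε) (hC : 0 < C) (hNK : 0 < NK) (hH : 0 < H)
    (hI : I ≤ ENNReal.ofReal ε)
    (h1 : V ≤ ENNReal.ofReal a / ENNReal.ofReal β * (((C + 2 : ℕ) : ENNReal) / H))
    (h2 : ENNReal.ofReal a ≤ V + ((n₀ : ENNReal) / NK +
      ENNReal.ofReal a / ENNReal.ofReal β * ((n₀ : ENNReal) / NK) +
      (NK : ENNReal) * I / ((e₀ : ENNReal) + 1) + ENNReal.ofReal a / ENNReal.ofReal β / C)) :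
    a ≤ a / β * (((C : ℝ) + 2) / H) + ((n₀ : ℝ) / NK + a / β * ((n₀ : ℝ) / NK) +
      NK * ε / ((e₀ : ℝ) + 1) + a / β / C) := by
  have hC' : (0 : ℝ) < (C : ℝ) := by exact_mod_cast hC
  have hab : (0 : ℝ) ≤ a / β := div_nonneg ha hβ.le
  have hNK' : (0 : ℝ) < (NK : ℝ) := by exact_mod_cast hNK
  have hH' : (0 : ℝ) < (H : ℝ) := by exact_mod_cast hH
  have e1 : ENNReal.ofReal a / ENNReal.ofReal β = ENNReal.ofReal (a / β) :=
    (ENNReal.ofReal_div_of_pos hβ).symm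
  have he0 : (0 : ℝ) < (e₀ : ℝ) + 1 := by positivity
  have e2 : ((e₀ : ENNReal) + 1) = ENNReal.ofReal ((e₀ : ℝ) + 1) := by
    rw [ENNReal.ofReal_add (by positivity) (by norm_num), ENNReal.ofReal_natCast,
      ENNReal.ofReal_one]
  have e3 : (NK : ENNReal) * I / ((e₀ : ENNReal) + 1) ≤
      ENNReal.ofReal ((NK : ℝ) * ε / ((e₀ : ℝ) + 1)) := by
    rw [ENNReal.ofReal_div_of_pos he0, ← e2, ENNReal.ofReal_mul hNK'.le, ENNReal.ofReal_natCast]
    gcongr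
  have e4 : ENNReal.ofReal a / ENNReal.ofReal β / C = ENNReal.ofReal (a / β / C) := by
    rw [e1, ENNReal.ofReal_div_of_pos hC', ENNReal.ofReal_natCast]
  have e5 : (((C + 2 : ℕ) : ENNReal) / H) = ENNReal.ofReal (((C : ℝ) + 2) / H) := by
    rw [klow_nat_div _ _ hH]
    push_cast
    rfl
  have e6 : ((n₀ : ENNReal) / NK) = ENNReal.ofReal ((n₀ : ℝ) / NK) := klow_nat_div _ _ hNK
  have t1 : (0 : ℝ) ≤ a / β * (((C : ℝ) + 2) / H) := by positivity
  have t2 : (0 : ℝ) ≤ (n₀ : ℝ) / NK := by positivity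
  have t3 : (0 : ℝ) ≤ a / β * ((n₀ : ℝ) / NK) := by positivity
  have t4 : (0 : ℝ) ≤ (NK : ℝ) * ε / ((e₀ : ℝ) + 1) := by positivity
  have t5 : (0 : ℝ) ≤ a / β / C := by positivity
  have h3 : ENNReal.ofReal a ≤ ENNReal.ofReal (a / β * (((C : ℝ) + 2) / H) +
      ((n₀ : ℝ) / NK + a / β * ((n₀ : ℝ) / NK) +
      NK * ε / ((e₀ : ℝ) + 1) + a / β / C)) := by
    rw [ENNReal.ofReal_add t1 (by positivity), ENNReal.ofReal_add (by positivity) t5,
      ENNReal.ofReal_add (by positivity) t4, ENNReal.ofReal_add t2 t3]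
    refine h2.trans ?_
    refine add_le_add ?_ ?_
    · refine h1.trans (le_of_eq ?_)
      rw [e1, e5, ← ENNReal.ofReal_mul hab]
    · refine add_le_add (add_le_add (add_le_add (le_of_eq e6) (le_of_eq ?_)) e3) (le_of_eq e4)
      rw [e1, e6, ← ENNReal.ofReal_mul hab]
  exact (ENNReal.ofReal_le_ofReal_iff (by positivity)).1 h3

theorem t_K_low (h1 : A_count) (h2 : A_bad) (h3 : M_apx) (h4 : A_int) (h5 : A_num) : K_low := by
  intro ν hν c c' hcc hK
  obtain ⟨A, B, mA, mB, pA, pB, φ, ψ, mφ, mψ, ae1, ae2, sc⟩ := hK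
  have hKD : KD ν c c' A B φ ψ := ⟨mA, mB, pA, pB, mφ, mψ, ae1, ae2, sc⟩
  have := hν.prob
  have tA : ν A ≠ ⊤ := measure_ne_top ν A
  have tB : ν B ≠ ⊤ := measure_ne_top ν B
  have ha : 0 < (ν A).toReal := ENNReal.toReal_pos pA tA
  have hb : 0 < (ν B).toReal := ENNReal.toReal_pos pB tB
  have ha1 : (ν A).toReal ≤ 1 := by
    have := ENNReal.toReal_mono ENNReal.one_ne_top (prob_le_one (μ := ν) (s := A))
    simpa using this
  have hb1 : (ν B).toReal ≤ 1 := by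
    have := ENNReal.toReal_mono ENNReal.one_ne_top (prob_le_one (μ := ν) (s := B))
    simpa using this
  obtain ⟨C, ε, hC, hε, k₀, hk₀⟩ := h5 _ _ ha ha1 hb hb1
  obtain ⟨hm, hi⟩ := h4 ν hν c c' A B φ ψ hKD
  have hfin : ∫⁻ y, ((Ph c' A B φ y).length : ENNReal) ∂ν ≠ ⊤ :=
    ne_top_of_le_ne_top (ENNReal.div_ne_top tA pB) hi
  obtain ⟨m, F, hF, hFi⟩ := h3 ν hν (Ph c' A B φ) hm hfin (ENNReal.ofReal ε)
    (by simpa using hε)
  obtain ⟨k, hk, hck, hck'⟩ := hcc (max k₀ m)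
  obtain ⟨n₀, e₀, hn, hnum⟩ := hk₀ k (le_trans (le_max_left _ _) hk)
  have hmk : m ≤ k + 1 := le_trans (le_trans (le_max_right _ _) hk) (Nat.le_succ k)
  have hcount := h1 ν hν c c' A B φ ψ hKD F k m n₀ e₀ C hck hck' hmk hF hn
  have hbad := h2 ν hν c c' A B φ ψ hKD F (k + 1) m n₀ e₀ C hC hF
  have hI : ∫⁻ y, (er (Ph c' A B φ) F y : ENNReal) ∂ν ≤ ENNReal.ofReal ε := by
    refine le_trans (le_of_eq ?_) hFi
    refine lintegral_congr fun y => ?_
    unfold er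
    split_ifs
    · simp
    · push_cast
      rfl
  have eA : ν A = ENNReal.ofReal (ν A).toReal := (ENNReal.ofReal_toReal tA).symm
  have eB : ν B = ENNReal.ofReal (ν B).toReal := (ENNReal.ofReal_toReal tB).symm
  rw [eA, eB] at hcount hbad
  have := klow_real (ν A).toReal (ν B).toReal ε _ C n₀ e₀ (N (k + 1)) (h (k + 1)) _ ha.le hb
    hε.le hC (N_pos _) (h_pos _) hI hcount hbad
  exact absurd hnum (not_lt.2 this)

end Pool.Agent.H468R2.KA
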