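import Pool.Agent.H468R2.KA.Tasks2

set_option autoImplicit false

/-! Task K_up (helper408). -/

open MeasureTheory Filter Topology
open Pool.H110K2

namespace Pool.Agent.H468R2.KA

theorem t_K_up (hY : Y_ind) (hA : M_A) (hS : M_sum) (hG : M_Gd) : K_up := by
  intro ν hν x y hxy
  obtain ⟨K, hm, h0⟩ := hA ν hν (cc x) (cc y) (hS x y hxy)
  refine ⟨_, _, hm, hm, h0, h0, id, id, measurable_id, measurable_id, ?_, ?_, ?_⟩
  · have h1 : ∀ᵐ z ∂ν, z ∈ Gd := by
      rw [ae_iff]
      exact (hG ν hν).2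
    filter_upwards [ae_restrict_of_ae h1, ae_restrict_mem hm] with z hz hzA
    exact ⟨hzA, rfl, hY _ _ K _ rfl z hzA hz⟩
  · filter_upwards [ae_restrict_mem hm] with z hz
    exact ⟨hz, rfl⟩
  · intro E _
    rfl

end Pool.Agent.H468R2.KA
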