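import Pool.Agent.H468R2.KA.Tasks2

set_option autoImplicit false

/-! Task M_A (helper408). -/

open MeasureTheory Filter Topology
open Pool.H110K2

namespace Pool.Agent.H468R2.KA

namespace MAux

/-- the first `m` coordinates -/
def rs (m : ℕ) (y : Y) : (i : Fin m) → D i := fun i => y i

theorem rs_meas (m : ℕ) : Measurable (rs m) :=
  measurable_pi_lambda _ fun i => measurable_pi_apply (i : ℕ)

/-- extension of a finite word -/
def ext (m : ℕ) (t : (i : Fin m) → D i) : Y := fun l => if h : l < m then t ⟨l, h⟩ else zr l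

theorem rs_fiber (m : ℕ) (t : (i : Fin m) → D i) : rs m ⁻¹' {t} = cyl m (ext m t) := by
  ext y
  simp only [Set.mem_preimage, Set.mem_singleton_iff, cyl, Set.mem_ofPred_eq]
  constructor
  · rintro h l hl
    have := congrFun h ⟨l, hl⟩
    simp only [ext, dif_pos hl]
    exact this
  · intro h
    funext i
    have := h i i.2
    simp only [ext, dif_pos i.2] at this
    exact this

theorem rs_measure {ν : Measure Y} (hν : Unif ν) (m : ℕ) (Tt : Finset ((i : Fin m) → D i)) :
    ν (rs m ⁻¹' (Tt : Set ((i : Fin m) → D i))) = (Tt.card : ENNReal) * ((N m : ENNReal))⁻¹ := by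
  rw [← sum_measure_preimage_singleton Tt (fun t _ => rs_meas m (measurableSet_singleton t))]
  rw [Finset.sum_congr rfl (fun t _ => by rw [rs_fiber, hν.cyl])]
  rw [Finset.sum_const, nsmul_eq_mul]

theorem card_D (k : ℕ) : Fintype.card (D k) = L k := by
  unfold L
  simp only [Fintype.card_prod, Fintype.card_fin]
  ring

/-- product of the sizes -/
theorem prod_sizes (K : ℕ) : ∀ l, K ≤ l →
    (∏ i ∈ Finset.range l, (if i < K then 1 else L i)) * N K = N l := by
  intro l hl
  induction l, hl using Nat.le_induction with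
  | base =>
    rw [Finset.prod_congr rfl (fun i hi => if_pos (Finset.mem_range.mp hi)), Finset.prod_const_one,
      one_mul]
  | succ l hl ih =>
    rw [Finset.prod_range_succ, if_neg (by omega), mul_right_comm, ih, mul_comm]
    rfl

open Classical in
/-- the measure of a cylinder with one more coordinate constrained -/
theorem cyl_meas {ν : Measure Y} (hν : Unif ν) (K l : ℕ) (hl : K ≤ l) (q : D l → Prop) :
    ν {y | (∀ i < K, y i = zr i) ∧ q (y l)} =
      ENNReal.ofReal (((Finset.univ.filter q).card : ℝ) / L l / N K) := by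
  have hset : {y : Y | (∀ i < K, y i = zr i) ∧ q (y l)} =
      rs (l + 1) ⁻¹' (↑(Fintype.piFinset (fun i : Fin (l + 1) =>
        (if (i : ℕ) < K then {zr i} else if h : (i : ℕ) = l then
          Finset.univ.filter (fun d => q (h ▸ d)) else Finset.univ : Finset (D i)))) :
        Set ((i : Fin (l + 1)) → D i)) := by
    ext y
    simp only [Set.mem_ofPred_eq, Set.mem_preimage, Finset.mem_coe, Fintype.mem_piFinset]
    constructor
    · rintro ⟨h1, h2⟩ ⟨i, hi⟩
      by_cases hK : i < K
      · simp only [hK, if_true, Finset.mem_singleton]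
        exact h1 i hK
      · by_cases h : i = l
        · subst h
          simp only [hK, if_false, dif_pos, Finset.mem_filter, Finset.mem_univ, true_and]
          exact h2
        · simp only [hK, if_false, h, dif_neg, not_false_eq_true, Finset.mem_univ]
    · intro h
      refine ⟨fun i hi => ?_, ?_⟩
      · have := h ⟨i, by omega⟩
        simp only [hi, if_true, Finset.mem_singleton] at this
        exact this
      · have := h ⟨l, by omega⟩
        have hK : ¬ l < K := by omega
        simp only [hK, if_false, dif_pos, Finset.mem_filter, Finset.mem_univ, true_and] at this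
        exact this
  rw [hset, rs_measure hν, Fintype.card_piFinset]
  have hcard : ∏ i : Fin (l + 1), (if (i : ℕ) < K then {zr i} else if h : (i : ℕ) = l then
          Finset.univ.filter (fun d => q (h ▸ d)) else Finset.univ : Finset (D i)).card =
      (∏ i ∈ Finset.range l, (if i < K then 1 else L i)) * (Finset.univ.filter q).card := by
    rw [Fin.prod_univ_castSucc, Finset.prod_range]
    congr 1
    · refine Finset.prod_congr rfl fun i _ => ?_
      have hil : ¬ ((i.castSucc : Fin (l + 1)) : ℕ) = l := by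
        have := i.2
        simp only [Fin.val_castSucc]
        omega
      by_cases hK : (i : ℕ) < K
      · have hK' : ((i.castSucc : Fin (l + 1)) : ℕ) < K := hK
        rw [if_pos hK', if_pos hK, Finset.card_singleton]
      · have hK' : ¬ ((i.castSucc : Fin (l + 1)) : ℕ) < K := hK
        rw [if_neg hK', if_neg hK, dif_neg hil, Finset.card_univ, card_D]
        rfl
    · have hK' : ¬ ((Fin.last l : Fin (l + 1)) : ℕ) < K := by
        simp only [Fin.val_last]
        omega
      rw [if_neg hK', dif_pos (Fin.val_last l)]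
      rfl
  rw [hcard]
  have hN := prod_sizes K l hl
  have hNl : N (l + 1) = L l * N l := rfl
  have hK0 : (0 : ℝ) < N K := by exact_mod_cast N_pos K
  have hl0 : (0 : ℝ) < L l := by exact_mod_cast L_pos l
  have hP0 : (0 : ℝ) < ((∏ i ∈ Finset.range l, (if i < K then 1 else L i) : ℕ) : ℝ) := by
    have : 0 < ∏ i ∈ Finset.range l, (if i < K then 1 else L i) :=
      Finset.prod_pos fun i _ => by split_ifs <;> [exact one_pos; exact L_pos i]
    exact_mod_cast this
  have hNl0 : (0 : ℝ) < N (l + 1) := by exact_mod_cast N_pos (l + 1)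
  generalize hPdef : (∏ i ∈ Finset.range l, (if i < K then 1 else L i)) = Pp at hN hP0 ⊢
  have h1 : ((N (l + 1) : ENNReal))⁻¹ = ENNReal.ofReal ((N (l + 1) : ℝ)⁻¹) := by
    rw [ENNReal.ofReal_inv_of_pos hNl0, ENNReal.ofReal_natCast]
  have h2 : (((Pp * (Finset.univ.filter q).card : ℕ)) : ENNReal) =
      ENNReal.ofReal ((Pp * (Finset.univ.filter q).card : ℕ) : ℝ) := by
    rw [ENNReal.ofReal_natCast]
  rw [h1, h2, ← ENNReal.ofReal_mul (by positivity)]
  congr 1
  rw [hNl, ← hN]
  push_cast
  field_simp

end MAux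

open MAux

open Classical in
theorem t_M_A : M_A := by
  intro ν hν c c' hsum
  set bad : (k : ℕ) → D k → Prop := fun k d => ¬ (((d.2.1 : ℕ) < c k) ↔ ((d.2.1 : ℕ) < c' k))
    with hbad
  set dl : ℕ → ℝ := fun k =>
    (Nat.card {r : Fin (R k) // ¬ ((r : ℕ) < c k ↔ (r : ℕ) < c' k)} : ℝ) / R k with hdl
  have hd0 : ∀ k, 0 ≤ dl k := fun k => by rw [hdl]; positivity
  -- the proportion of bad coordinates
  have hcard : ∀ k, ((Finset.univ.filter (bad k)).card : ℝ) / L k = dl k := by
    intro k
    have h1 : Finset.univ.filter (bad k) = (Finset.univ : Finset (Fin (M k))) ×ˢ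
        ((Finset.univ.filter (fun r : Fin (R k) => ¬ ((r : ℕ) < c k ↔ (r : ℕ) < c' k))) ×ˢ
          (Finset.univ : Finset (Fin (Q k)))) := by
      ext ⟨a, r, o⟩
      simp [hbad]
    rw [h1, Finset.card_product, Finset.card_product, Finset.card_univ, Finset.card_univ,
      Fintype.card_fin, Fintype.card_fin, hdl]
    simp only
    rw [Nat.card_eq_fintype_card, Fintype.card_subtype]
    have hM : (0 : ℝ) < M k := by exact_mod_cast M_pos k
    have hQ : (0 : ℝ) < Q k := by exact_mod_cast Q_pos k
    have hR : (0 : ℝ) < R k := by exact_mod_cast R_pos k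
    unfold L
    push_cast
    field_simp
  -- the tail
  obtain ⟨K, hK⟩ : ∃ K, ∑' i, dl (i + K) < 1 := by
    have h1 := tendsto_sum_nat_add dl
    exact ((h1.eventually (gt_mem_nhds one_pos)).exists)
  have hmeas : MeasurableSet {y : Y | (∀ l < K, y l = zr l) ∧
      ∀ l, K ≤ l → (((y l).2.1 : ℕ) < c l ↔ ((y l).2.1 : ℕ) < c' l)} := by
    have e : {y : Y | (∀ l < K, y l = zr l) ∧
        ∀ l, K ≤ l → (((y l).2.1 : ℕ) < c l ↔ ((y l).2.1 : ℕ) < c' l)} =
        (⋂ l, ⋂ (_ : l < K), (fun y : Y => y l) ⁻¹' {zr l}) ∩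
        (⋂ l, ⋂ (_ : K ≤ l), (fun y : Y => y l) ⁻¹' {d : D l | ¬ bad l d}) := by
      ext y
      simp [hbad]
    rw [e]
    refine MeasurableSet.inter ?_ ?_
    · exact MeasurableSet.iInter fun l => MeasurableSet.iInter fun _ =>
        measurable_pi_apply l (MeasurableSet.of_discrete)
    · exact MeasurableSet.iInter fun l => MeasurableSet.iInter fun _ =>
        measurable_pi_apply l (MeasurableSet.of_discrete)
  refine ⟨K, hmeas, fun h0 => ?_⟩
  -- cover of the cylinder
  have hK0 : (0 : ℝ) < N K := by exact_mod_cast N_pos K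
  have hsub : cyl K (fun l => zr l) ⊆ {y : Y | (∀ l < K, y l = zr l) ∧
      ∀ l, K ≤ l → (((y l).2.1 : ℕ) < c l ↔ ((y l).2.1 : ℕ) < c' l)} ∪
      ⋃ i : ℕ, {y : Y | (∀ l < K, y l = zr l) ∧ bad (i + K) (y (i + K))} := by
    intro y hy
    by_cases h : ∀ l, K ≤ l → (((y l).2.1 : ℕ) < c l ↔ ((y l).2.1 : ℕ) < c' l)
    · exact Or.inl ⟨hy, h⟩
    · right
      push Not at h
      obtain ⟨l, hl, hb⟩ := h
      rw [Set.mem_iUnion]
      refine ⟨l - K, hy, ?_⟩
      have e : l - K + K = l := by omega
      rw [e]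
      rw [hbad]
      simp only
      intro hiff
      rcases hb with ⟨k1, k2⟩ | ⟨k1, k2⟩
      · have := hiff.mp k1
        omega
      · have := hiff.mpr k2
        omega
  have h1 : ν (cyl K (fun l => zr l)) ≤ ∑' i : ℕ, ENNReal.ofReal (dl (i + K) / N K) := by
    refine (measure_mono hsub).trans ((measure_union_le _ _).trans ?_)
    rw [h0, zero_add]
    refine (measure_iUnion_le _).trans (le_of_eq ?_)
    congr 1
    funext i
    rw [cyl_meas hν K (i + K) (by omega) (bad (i + K)), ← hcard (i + K)]
    congr!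
  have hs : Summable (fun i => dl (i + K) / N K) := ((summable_nat_add_iff K).mpr hsum).div_const _
  rw [← ENNReal.ofReal_tsum_of_nonneg (fun i => div_nonneg (hd0 _) hK0.le) hs, hν.cyl,
    tsum_div_const] at h1
  have h2 : ((N K : ENNReal))⁻¹ = ENNReal.ofReal ((N K : ℝ)⁻¹) := by
    rw [ENNReal.ofReal_inv_of_pos hK0, ENNReal.ofReal_natCast]
  rw [h2, ENNReal.ofReal_le_ofReal_iff (div_nonneg (tsum_nonneg fun i => hd0 _) hK0.le)] at h1
  rw [inv_eq_one_div, div_le_div_iff_of_pos_right hK0] at h1
  linarith

end Pool.Agent.H468R2.KA
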