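import Pool.Agent.H468R2.KA.Tasks2

/-!
# Task M_Gd: almost every point is good
-/

set_option autoImplicit false

open MeasureTheory Filter Topology

namespace Pool.Agent.H468R2.KA

namespace PMGd

theorem two_le_L (k : ℕ) : 2 ≤ L k := by
  have h1 : 2 ≤ g k := by
    unfold g
    calc 2 = 2 ^ 1 := by norm_num
      _ ≤ 2 ^ (k + 6) := Nat.pow_le_pow_right (by norm_num) (by omega)
  have h2 : g k ≤ M k := by
    unfold M
    exact Nat.le_mul_of_pos_right _ (h_pos k)
  have h3 : M k ≤ M k * Q k := Nat.le_mul_of_pos_right _ (Q_pos k)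
  have h4 : M k * Q k ≤ L k := by
    unfold L
    exact Nat.le_mul_of_pos_left _ (R_pos k)
  exact h1.trans (h2.trans (h3.trans h4))

theorem le_N (k : ℕ) : k ≤ N k := by
  induction k with
  | zero => exact Nat.zero_le _
  | succ k ih =>
    have h1 : N (k + 1) = L k * N k := rfl
    have h2 : 2 * N k ≤ L k * N k := Nat.mul_le_mul_right _ (two_le_L k)
    have h3 := N_pos k
    rw [h1]
    omega

theorem tendsto_inv_N : Tendsto (fun K : ℕ => ((N K : ENNReal))⁻¹) atTop (𝓝 0) :=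
  ENNReal.tendsto_inv_nat_nhds_zero.comp (tendsto_atTop_mono le_N tendsto_id)

theorem single (ν : Measure Y) (h : Unif ν) (x : Y) : ν {x} = 0 := by
  refine le_antisymm ?_ (by positivity)
  refine ge_of_tendsto' tendsto_inv_N (fun K => ?_)
  rw [← h.cyl K x]
  refine measure_mono ?_
  rintro y rfl
  intro l _
  rfl

theorem fin_tail (a : Y) (k : ℕ) : {y : Y | ∀ l, k ≤ l → y l = a l}.Finite := by
  refine Set.Finite.of_finite_image (f := fun (y : Y) (l : Fin k) => y l) (Set.toFinite _) ?_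
  intro y hy z hz hyz
  funext l
  rcases lt_or_ge l k with hl | hl
  · exact congrFun hyz ⟨l, hl⟩
  · rw [hy l hl, hz l hl]

theorem meas_ne (l : ℕ) (a : D l) : MeasurableSet {y : Y | y l ≠ a} :=
  ((measurable_pi_apply l) (measurableSet_singleton a)).compl

theorem meas_io (a : Y) : MeasurableSet {y : Y | ∀ k, ∃ l, k ≤ l ∧ y l ≠ a l} := by
  have e : {y : Y | ∀ k, ∃ l, k ≤ l ∧ y l ≠ a l} =
      ⋂ k : ℕ, ⋃ l : ℕ, ⋃ _ : k ≤ l, {y : Y | y l ≠ a l} := by
    ext y
    simp only [Set.mem_ofPred_eq, Set.mem_iInter, Set.mem_iUnion, exists_prop]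
  rw [e]
  exact MeasurableSet.iInter (fun k => MeasurableSet.iUnion (fun l =>
    MeasurableSet.iUnion (fun _ => meas_ne l (a l))))

theorem countable_io (a : Y) : {y : Y | ∀ k, ∃ l, k ≤ l ∧ y l ≠ a l}ᶜ.Countable := by
  have e : {y : Y | ∀ k, ∃ l, k ≤ l ∧ y l ≠ a l}ᶜ = ⋃ k : ℕ, {y : Y | ∀ l, k ≤ l → y l = a l} := by
    ext y
    simp only [Set.mem_compl_iff, Set.mem_ofPred_eq, Set.mem_iUnion]
    push Not
    rfl
  rw [e]
  exact Set.countable_iUnion (fun k => (fin_tail a k).countable)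

end PMGd

open PMGd in
theorem t_M_Gd : M_Gd := by
  intro ν h
  have e : Gd = {y : Y | ∀ k, ∃ l, k ≤ l ∧ y l ≠ la l} ∩ {y : Y | ∀ k, ∃ l, k ≤ l ∧ y l ≠ zr l} :=
    rfl
  refine ⟨?_, ?_⟩
  · rw [e]
    exact (meas_io la).inter (meas_io zr)
  · have hc : Gdᶜ.Countable := by
      rw [e, Set.compl_inter]
      exact (countable_io la).union (countable_io zr)
    rw [← Set.biUnion_of_singleton Gdᶜ, measure_biUnion_null_iff hc]
    exact fun x _ => single ν h x

end Pool.Agent.H468R2.KA
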