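import Pool.Agent.H468R2.KA.Tasks2

set_option autoImplicit false

/-! # Task M_P (helper890) -/

open MeasureTheory Filter Topology

namespace Pool.Agent.H468R2.KA

theorem card_late (m n : ℕ) :
    ((Finset.range m).filter (fun i => m < i + n)).card ≤ n := by
  have h : (Finset.range m).filter (fun i => m < i + n) ⊆ Finset.Ico (m - n) m := by
    intro i hi
    rw [Finset.mem_filter, Finset.mem_range] at hi
    rw [Finset.mem_Ico]
    omega
  refine (Finset.card_le_card h).trans ?_
  rw [Nat.card_Ico]
  omega

theorem t_M_P (h1 : M_av) (h2 : Y_bs) (h3 : M_mP) : M_P := by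
  intro ν hν c K n
  haveI := hν.prob
  have hmeas : MeasurableSet {y : Y | N K < P c K y + n} := by
    have hm : Measurable (P c K) := h3 c K
    have : {y : Y | N K < P c K y + n} = (P c K) ⁻¹' {a : ℕ | N K < a + n} := rfl
    rw [this]
    exact hm (MeasurableSet.of_discrete)
  have hav := h1 ν hν c K (Set.indicator {y : Y | N K < P c K y + n} (fun _ => (1 : ENNReal)))
    (measurable_const.indicator hmeas)
  have hint : ∫⁻ y, Set.indicator {y : Y | N K < P c K y + n} (fun _ => (1 : ENNReal)) y ∂ν
      = ν {y : Y | N K < P c K y + n} := by
    rw [lintegral_indicator hmeas]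
    simp
  rw [hint] at hav
  have hle : ∫⁻ y, ∑ i ∈ Finset.range (N K),
      Set.indicator {y : Y | N K < P c K y + n} (fun _ => (1 : ENNReal)) ((T c)^[i] (bs K y)) ∂ν
      ≤ (n : ENNReal) := by
    calc _ ≤ ∫⁻ _, (n : ENNReal) ∂ν := by
          apply lintegral_mono
          intro y
          have hs : ∑ i ∈ Finset.range (N K),
              Set.indicator {y : Y | N K < P c K y + n} (fun _ => (1 : ENNReal))
                ((T c)^[i] (bs K y))
              = (((Finset.range (N K)).filter (fun i => N K < i + n)).card : ENNReal) := by
            rw [Finset.card_filter]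
            push_cast
            apply Finset.sum_congr rfl
            intro i hi
            rw [Finset.mem_range] at hi
            have hP := ((h2 c K y).1 i hi).1
            by_cases hc : N K < i + n
            · rw [Set.indicator_of_mem, if_pos hc]
              rw [Set.mem_setOf_eq, hP]
              exact hc
            · rw [Set.indicator_of_notMem, if_neg hc]
              rw [Set.mem_setOf_eq, hP]
              exact hc
          show ∑ i ∈ Finset.range (N K),
              Set.indicator {y : Y | N K < P c K y + n} (fun _ => (1 : ENNReal))
                ((T c)^[i] (bs K y)) ≤ (n : ENNReal)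
          rw [hs]
          exact_mod_cast card_late (N K) n
      _ = (n : ENNReal) := by simp
  rw [hav] at hle
  rw [ENNReal.le_div_iff_mul_le (Or.inl (by exact_mod_cast (N_pos K).ne'))
    (Or.inl (ENNReal.natCast_ne_top _)), mul_comm]
  exact hle

end Pool.Agent.H468R2.KA
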