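import Pool.Agent.H468R2.KA.Tasks

/-!
# More statements of tasks (Kakutani equivalence)
-/

set_option autoImplicit false

open MeasureTheory Filter Topology
open Pool.H110K2

namespace Pool.Agent.H468R2.KA

universe u v

/-- topology of pointwise convergence on `S_∞` -/
@[reducible] def permTop : TopologicalSpace (Equiv.Perm ℕ) :=
  TopologicalSpace.generateFrom {U | ∃ i j : ℕ, U = {π : Equiv.Perm ℕ | π i = j}}

/-- basic open sets -/
def Ub (m : ℕ) (a : Fin m → ℕ) : Set (Equiv.Perm ℕ) := {π | ∀ i : Fin m, π (a i) = i}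

/-- `S_∞` is a Baire space, the sets `Ub m a` form a base, right translations are homeomorphisms -/
def F_top : Prop := @BaireSpace (Equiv.Perm ℕ) permTop ∧
  (∀ m a, @IsOpen _ permTop (Ub m a)) ∧
  (∀ O : Set (Equiv.Perm ℕ), @IsOpen _ permTop O → ∀ π ∈ O, ∃ m a, π ∈ Ub m a ∧ Ub m a ⊆ O) ∧
  (∀ (A : Set (Equiv.Perm ℕ)) (σ : Equiv.Perm ℕ),
    @IsMeagre _ permTop ((fun π => π * σ) ⁻¹' A) ↔ @IsMeagre _ permTop A)

/-- Vaught transforms preserve Borel sets -/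
def F_vt : Prop := ∀ (X : Type v) [MeasurableSpace X] (B : Set (Equiv.Perm ℕ × X)),
  @MeasurableSet _ (permMS.prod inferInstance) B → ∀ m a,
    MeasurableSet {x | ¬ @IsMeagre _ permTop ({π | (π, x) ∈ B} ∩ Ub m a)} ∧
    ∀ x, (∀ O : Set (Equiv.Perm ℕ), @IsOpen _ permTop O →
      ¬ @IsMeagre _ permTop ({π | (π, x) ∈ B} ∩ O) →
        ∃ m' a', Ub m' a' ⊆ O ∧ (Ub m' a').Nonempty ∧
          @IsMeagre _ permTop (Ub m' a' \ {π | (π, x) ∈ B}))

/-- measurability of `T` -/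
def M_mT : Prop := Measurable (fun p : (ℕ → ℕ) × Y => T p.1 p.2)
/-- measurability of `S` -/
def M_mS : Prop := Measurable (fun p : (ℕ → ℕ) × Y => S p.1 p.2)
/-- measurability of `P` -/
def M_mP : Prop := ∀ c K, Measurable (P c K)

/-- the base map pushes `ν` to the normalised restriction to the first level -/
def M_bs : Prop := ∀ ν : Measure Y, Unif ν → ∀ K, Measurable (bs K) ∧
  Measure.map (bs K) ν = (N K : ENNReal) • ν.restrict {y | ∀ l < K, y l = zr l}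

/-- segments, deterministic part -/
def A_seg : Prop := ∀ (c c' : ℕ → ℕ) (A B : Set Y) (φ : Y → Y) (z : Y),
  (∀ i, (T c)^[i] z ∈ A → φ ((T c)^[i] z) ∈ B ∧ 1 ≤ retTime (T c') B (φ ((T c)^[i] z)) ∧
    φ (induced (T c) A ((T c)^[i] z)) = induced (T c') B (φ ((T c)^[i] z))) →
  ∀ n, JJ c (Ph c' A B φ) z n ≠ [] → ∃ i < n, (T c)^[i] z ∈ A ∧ (z ∈ A → i = 0) ∧
      JJ c (Ph c' A B φ) z n = nm c' (φ ((T c)^[i] z)) (JJ c (Ph c' A B φ) z n).length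

/-- Kac inequality for `T c` -/
def A_kac : Prop := ∀ ν : Measure Y, Unif ν → ∀ c (B : Set Y), MeasurableSet B → ν B ≠ 0 →
  ∫⁻ y in B, (retTime (T c) B y : ENNReal) ∂ν ≤ 1 ∧ Measurable (retTime (T c) B) ∧
    ∀ᵐ y ∂(ν.restrict B), 1 ≤ retTime (T c) B y

/-- numerical part of the lower bound -/
def A_num : Prop := ∀ a β : ℝ, 0 < a → a ≤ 1 → 0 < β → β ≤ 1 → ∃ (C : ℕ) (ε : ℝ), 0 < C ∧ 0 < ε ∧
  ∃ k₀ : ℕ, ∀ k, k₀ ≤ k → ∃ n₀ e₀ : ℕ,
    (2 * (e₀ : ℝ) + (C + 2) * (eta (k + 1) * N (k + 1)) < 3 / 4 * n₀) ∧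
    a / β * ((C + 2) / h (k + 1)) + (n₀ / N (k + 1) + a / β * (n₀ / N (k + 1)) +
      N (k + 1) * ε / (e₀ + 1) + a / β / C) < a

/-- summary of the Borel family -/
def F_fam : Prop := ∀ (X : Type u) [MeasurableSpace X] [StandardBorelSpace X] (μ : Measure X)
  [IsProbabilityMeasure μ], (∀ x, μ {x} = 0) → ∃ f : (ℕ → ℝ) → ErgAut μ,
    @Measurable _ _ _ (borel (ErgAut μ)) f ∧
    (∀ x y : ℕ → ℝ, Summable (fun k => |x k - y k|) → KakutaniEquiv μ (f x).1 (f y).1) ∧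
    ∀ x y : ℕ → ℝ, (∀ n, ∃ k, n ≤ k ∧ cc x k = 0 ∧ R k ≤ cc y k) →
      ¬ KakutaniEquiv μ (f x).1 (f y).1

end Pool.Agent.H468R2.KA
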