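import Mathlib
import Pool.Agent.H468R2.KA.Tasks2

set_option autoImplicit false

open MeasureTheory Filter Topology

namespace Pool.Agent.H468R2.KA

namespace MAVh

theorem bs_Gd (K : ℕ) (y : Y) (h : y ∈ Gd) : bs K y ∈ Gd := by
  refine ⟨fun k => ?_, fun k => ?_⟩
  · obtain ⟨l, hl, hl2⟩ := h.1 (max k K)
    refine ⟨l, le_trans (le_max_left _ _) hl, ?_⟩
    have : ¬ l < K := not_lt.mpr (le_trans (le_max_right _ _) hl)
    simp only [bs, this, if_false]
    exact hl2
  · obtain ⟨l, hl, hl2⟩ := h.2 (max k K)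
    refine ⟨l, le_trans (le_max_left _ _) hl, ?_⟩
    have : ¬ l < K := not_lt.mpr (le_trans (le_max_right _ _) hl)
    simp only [bs, this, if_false]
    exact hl2

theorem iter_Gd (h9 : Y_Gd) (c : ℕ → ℕ) (i : ℕ) : ∀ y ∈ Gd, (T c)^[i] y ∈ Gd := by
  induction i with
  | zero => exact fun y hy => hy
  | succ i ih =>
    intro y hy
    rw [Function.iterate_succ_apply]
    exact ih _ (h9 c y hy).1

theorem iter_inj (h9 : Y_Gd) (c : ℕ → ℕ) (i : ℕ) :
    ∀ y ∈ Gd, ∀ z ∈ Gd, (T c)^[i] y = (T c)^[i] z → y = z := by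
  induction i with
  | zero => exact fun y _ z _ h => h
  | succ i ih =>
    intro y hy z hz h
    rw [Function.iterate_succ_apply, Function.iterate_succ_apply] at h
    have h1 := ih _ (h9 c y hy).1 _ (h9 c z hz).1 h
    rw [← (h9 c y hy).2.2.1, h1, (h9 c z hz).2.2.1]

end MAVh

open MAVh

theorem t_M_av (h1 : M_bs) (h2 : M_mp) (h3 : Y_bs) (h4 : Y_P) (_h5 : M_mT)
    (h6 : Y_iter) (h7 : M_mP) (h8 : M_Gd) (h9 : Y_Gd) : M_av := by
  intro ν hν c K f hf
  have hmp : MeasurePreserving (T c) ν ν := (h2 ν hν c).1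
  have hTi : ∀ i, MeasurePreserving ((T c)^[i]) ν ν := fun i => hmp.iterate i
  obtain ⟨hbm, hbmap⟩ := h1 ν hν K
  have hP : Measurable (P c K) := h7 c K
  have hPs : ∀ i, MeasurableSet {y | P c K y = i} := fun i => hP (measurableSet_singleton i)
  have hZ : {y : Y | ∀ l < K, y l = zr l} = {y | P c K y = 0} := by
    ext y
    exact ((h4 c K y).2.1).symm
  have hbP : ∀ y, P c K (bs K y) = 0 := by
    intro y
    rw [(h4 c K (bs K y)).2.1]
    intro l hl
    simp only [bs, hl, if_true]
  have step : ∀ i, i < N K → ∫⁻ y, f ((T c)^[i] (bs K y)) ∂ν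
      = N K * ∫⁻ y in {y | P c K y = i}, f y ∂ν := by
    intro i hi
    have e1 : ∫⁻ y, f ((T c)^[i] (bs K y)) ∂ν
        = ∫⁻ z, f ((T c)^[i] z) ∂(Measure.map (bs K) ν) :=
      (lintegral_map (hf.comp (hTi i).measurable) hbm).symm
    rw [e1, hbmap, lintegral_smul_measure, smul_eq_mul]
    congr 1
    have e2 : ∫⁻ y in {y | P c K y = i}, f y ∂ν
        = ∫⁻ z in (T c)^[i] ⁻¹' {y | P c K y = i}, f ((T c)^[i] z) ∂ν :=
      ((hTi i).setLIntegral_comp_preimage (hPs i) hf).symm
    rw [e2, hZ]
    refine setLIntegral_congr ?_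
    have hGd : ∀ᵐ y ∂ν, y ∈ Gd := by
      rw [ae_iff]
      exact (h8 ν hν).2
    filter_upwards [hGd] with z hz
    apply propext
    constructor
    · intro h0
      have h0' : P c K z = 0 := h0
      have := (h6 c z K i (by omega)).1
      show P c K ((T c)^[i] z) = i
      omega
    · intro h0
      have h0' : P c K ((T c)^[i] z) = i := h0
      have hw := (h3 c K ((T c)^[i] z)).2
      rw [h0'] at hw
      have hzi := iter_Gd h9 c i z hz
      have := iter_inj h9 c i _ (bs_Gd K _ hzi) _ hz hw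
      show P c K z = 0
      rw [← this]
      exact hbP _
  rw [lintegral_finsetSum]
  · rw [Finset.sum_congr rfl (fun i hi => step i (Finset.mem_range.mp hi)), ← Finset.mul_sum]
    congr 1
    have e3 : ∀ y, f y = ∑ i ∈ Finset.range (N K), ({y | P c K y = i} : Set Y).indicator f y := by
      intro y
      rw [Finset.sum_eq_single (P c K y)]
      · rw [Set.indicator_of_mem]
        rfl
      · intro i _ hi
        rw [Set.indicator_of_notMem]
        intro hm
        exact hi hm.symm
      · intro hn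
        exact absurd (Finset.mem_range.mpr (h4 c K y).1) hn
    rw [lintegral_congr e3, lintegral_finsetSum]
    · refine Finset.sum_congr rfl fun i _ => ?_
      rw [lintegral_indicator (hPs i)]
    · intro i _
      exact hf.indicator (hPs i)
  · intro i _
    exact hf.comp ((hTi i).measurable.comp hbm)

end Pool.Agent.H468R2.KA
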