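import Pool.Agent.H468R2.KA.Tasks2

/-!
# M_bs: the base map (helper511)
-/

set_option autoImplicit false

open MeasureTheory Filter Topology

namespace Pool.Agent.H468R2.KA

namespace MBS

theorem meas_cyl (n : ℕ) (a : Y) : MeasurableSet (cyl n a) := by
  have h : cyl n a = ⋂ l : ℕ, ⋂ _ : l < n, (fun y : Y => y l) ⁻¹' {a l} := by
    ext y
    simp [cyl]
  rw [h]
  exact MeasurableSet.iInter fun l => MeasurableSet.iInter fun _ =>
    measurable_pi_apply l (measurableSet_singleton _)

/-- a prefix of length `K`, continued by `a` -/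
def glue (K : ℕ) (p : ∀ l : Fin K, D l) (a : Y) : Y :=
  fun l => if h : l < K then p ⟨l, h⟩ else a l

theorem glue_lt {K : ℕ} (p : ∀ l : Fin K, D l) (a : Y) {l : ℕ} (h : l < K) :
    glue K p a l = p ⟨l, h⟩ := by
  unfold glue
  rw [dif_pos h]

theorem glue_ge {K : ℕ} (p : ∀ l : Fin K, D l) (a : Y) {l : ℕ} (h : K ≤ l) :
    glue K p a l = a l := by
  unfold glue
  rw [dif_neg (not_lt.2 h)]

theorem card_N : ∀ K : ℕ, N K = ∏ l ∈ Finset.range K, L l
  | 0 => rfl
  | K + 1 => by
    rw [Finset.prod_range_succ, ← card_N K, mul_comm]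
    rfl

theorem card_pre (K : ℕ) : Fintype.card (∀ l : Fin K, D l) = N K := by
  rw [Fintype.card_pi, card_N, ← Fin.prod_univ_eq_prod_range]
  refine Finset.prod_congr rfl fun l _ => ?_
  rw [Fintype.card_prod, Fintype.card_prod, Fintype.card_fin, Fintype.card_fin, Fintype.card_fin]
  unfold L
  ring

/-- the cylinders, as a family of sets -/
def CS : Set (Set Y) := {s | ∃ n a, s = cyl n a}

theorem cs_pi : IsPiSystem CS := by
  rintro _ ⟨n, a, rfl⟩ _ ⟨m, b', rfl⟩ ⟨y, hy1, hy2⟩
  rcases le_total n m with h | h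
  · refine ⟨m, b', ?_⟩
    ext z
    refine ⟨fun hz => hz.2, fun hz => ⟨fun l hl => ?_, hz⟩⟩
    rw [hz l (hl.trans_le h), ← hy2 l (hl.trans_le h), hy1 l hl]
  · refine ⟨n, a, ?_⟩
    ext z
    refine ⟨fun hz => hz.1, fun hz => ⟨hz, fun l hl => ?_⟩⟩
    rw [hz l (hl.trans_le h), ← hy1 l (hl.trans_le h), hy2 l hl]

theorem zrY_mem (n : ℕ) (y : Y) : y ∈ cyl n y := fun _ _ => rfl

theorem cs_gen : (MeasurableSpace.pi : MeasurableSpace Y) = MeasurableSpace.generateFrom CS := by
  apply le_antisymm
  · refine iSup_le fun k => ?_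
    have h : @Measurable Y (D k) (MeasurableSpace.generateFrom CS) _ (fun y : Y => y k) := by
      refine @measurable_to_countable' _ _ _ _ (MeasurableSpace.generateFrom CS) _ fun d => ?_
      have e : (fun y : Y => y k) ⁻¹' {d} =
          ⋃ p : {p : ∀ l : Fin (k + 1), D l // p ⟨k, Nat.lt_succ_self k⟩ = d},
            cyl (k + 1) (glue (k + 1) p.1 zr) := by
        ext y
        simp only [Set.mem_preimage, Set.mem_singleton_iff, Set.mem_iUnion]
        constructor
        · intro hy
          refine ⟨⟨fun l => y l, hy⟩, fun l hl => ?_⟩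
          rw [glue_lt _ _ hl]
        · rintro ⟨⟨p, hp⟩, hy⟩
          rw [hy k (Nat.lt_succ_self k), glue_lt _ _ (Nat.lt_succ_self k)]
          exact hp
      rw [e]
      exact MeasurableSet.iUnion fun p => MeasurableSpace.measurableSet_generateFrom ⟨_, _, rfl⟩
    exact h.comap_le
  · refine MeasurableSpace.generateFrom_le ?_
    rintro _ ⟨n, a, rfl⟩
    exact meas_cyl n a

theorem ext_cyl (μ₁ μ₂ : Measure Y) [IsFiniteMeasure μ₁]
    (h : ∀ n a, μ₁ (cyl n a) = μ₂ (cyl n a)) : μ₁ = μ₂ := by
  refine ext_of_generate_finite CS cs_gen cs_pi ?_ ?_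
  · rintro _ ⟨n, a, rfl⟩
    exact h n a
  · have : (Set.univ : Set Y) = cyl 0 zr := by
      ext y
      simp [cyl]
    rw [this]
    exact h 0 zr

/-- measure of the set given by the coordinates between `K` and `m` -/
theorem tail_meas (ν : Measure Y) (hν : Unif ν) (K m : ℕ) (hKm : K ≤ m) (a : Y) :
    ν {y | ∀ l < m, K ≤ l → y l = a l} = (N K : ENNReal) * (N m : ENNReal)⁻¹ := by
  have e : {y : Y | ∀ l < m, K ≤ l → y l = a l} =
      ⋃ p : (∀ l : Fin K, D l), cyl m (glue K p a) := by
    ext y
    simp only [Set.mem_setOf_eq, Set.mem_iUnion]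
    constructor
    · intro hy
      refine ⟨fun l => y l, fun l hl => ?_⟩
      rcases lt_or_ge l K with h | h
      · rw [glue_lt _ _ h]
      · rw [glue_ge _ _ h]
        exact hy l hl h
    · rintro ⟨p, hp⟩ l hl h
      rw [hp l hl, glue_ge _ _ h]
  rw [e, measure_iUnion ?_ (fun p => meas_cyl _ _)]
  · simp only [hν.cyl]
    rw [tsum_fintype, Finset.sum_const, Finset.card_univ, card_pre, nsmul_eq_mul]
  · intro p q hpq
    rw [Function.onFun, Set.disjoint_left]
    intro y hy1 hy2
    apply hpq
    funext l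
    have h1 := hy1 l (l.2.trans_le hKm)
    have h2 := hy2 l (l.2.trans_le hKm)
    rw [glue_lt _ _ l.2] at h1 h2
    rw [← h1, ← h2]

end MBS

theorem t_M_bs (_h : M_ext) : M_bs := by
  intro ν hν K
  haveI := hν.prob
  have hm : Measurable (bs K) := by
    rw [measurable_pi_iff]
    intro l
    unfold bs
    by_cases h : l < K
    · simp only [h, if_true]
      exact measurable_const
    · simp only [h, if_false]
      exact measurable_pi_apply l
  refine ⟨hm, ?_⟩
  haveI : IsProbabilityMeasure (Measure.map (bs K) ν) := Measure.isProbabilityMeasure_map hm.aemeasurable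
  refine MBS.ext_cyl _ _ fun n a => ?_
  rw [Measure.map_apply hm (MBS.meas_cyl n a), Measure.smul_apply, Measure.restrict_apply
    (MBS.meas_cyl n a), smul_eq_mul]
  by_cases hB : ∀ l < n, l < K → a l = zr l
  · obtain ⟨m, hm1, hm2, hm3⟩ : ∃ m, K ≤ m ∧ n ≤ m ∧ (m ≤ n ∨ m ≤ K) := by
      rcases le_total n K with h | h
      · exact ⟨K, le_rfl, h, Or.inr le_rfl⟩
      · exact ⟨n, h, le_rfl, Or.inl le_rfl⟩
    have e1 : bs K ⁻¹' cyl n a = {y : Y | ∀ l < m, K ≤ l → y l = a l} := by
      ext y
      simp only [Set.mem_preimage, cyl, Set.mem_setOf_eq, bs]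
      constructor
      · intro hy l hl hK
        have := hy l (by omega)
        rwa [if_neg (not_lt.2 hK)] at this
      · intro hy l hl
        by_cases h : l < K
        · rw [if_pos h]
          exact (hB l hl h).symm
        · rw [if_neg h]
          exact hy l (by omega) (not_lt.1 h)
    have e2 : cyl n a ∩ {y | ∀ l < K, y l = zr l} =
        cyl m (fun l => if l < K then zr l else a l) := by
      ext y
      simp only [cyl, Set.mem_inter_iff, Set.mem_setOf_eq]
      constructor
      · rintro ⟨h1, h2⟩ l hl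
        by_cases h : l < K
        · rw [if_pos h]
          exact h2 l h
        · rw [if_neg h]
          exact h1 l (by omega)
      · intro hy
        refine ⟨fun l hl => ?_, fun l hl => ?_⟩
        · have := hy l (by omega)
          by_cases h : l < K
          · rw [if_pos h] at this
            rw [this]
            exact (hB l hl h).symm
          · rwa [if_neg h] at this
        · have := hy l (by omega)
          rwa [if_pos hl] at this
    rw [e1, e2, MBS.tail_meas ν hν K m hm1 a, hν.cyl]
  · push Not at hB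
    obtain ⟨l, hl1, hl2, hl3⟩ := hB
    have e1 : bs K ⁻¹' cyl n a = ∅ := by
      rw [Set.eq_empty_iff_forall_notMem]
      intro y hy
      have := hy l hl1
      rw [bs, if_pos hl2] at this
      exact hl3 this.symm
    have e2 : cyl n a ∩ {y | ∀ l < K, y l = zr l} = ∅ := by
      rw [Set.eq_empty_iff_forall_notMem]
      rintro y ⟨h1, h2⟩
      exact hl3 ((h1 l hl1).symm.trans (h2 l hl2))
    rw [e1, e2, measure_empty, mul_zero]

end Pool.Agent.H468R2.KA
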