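import Pool.Agent.H468R2.KA.Tasks2

set_option autoImplicit false

namespace Pool.Agent.H468R2.KA

theorem t_M_cc : M_cc := by
  unfold M_cc
  refine measurable_pi_lambda _ (fun k => ?_)
  unfold cc
  refine Nat.measurable_floor.comp ?_
  refine Measurable.mul_const ?_ _
  exact measurable_const.max (measurable_const.min (measurable_pi_apply k))

end Pool.Agent.H468R2.KA
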