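import Pool.Agent.H468R2.KA.Tasks2

/-!
# Ergodicity of the transformations
-/

set_option autoImplicit false

open MeasureTheory Filter Topology
open Pool.H110K2

namespace Pool.Agent.H468R2.KA

/-- exchange two prefixes -/
private def mergSw (K : ℕ) (a : Y) (y : Y) : Y :=
  fun l => if l < K then Equiv.swap (zr l) (a l) (y l) else y l

private theorem mergSw_meas (K : ℕ) (a : Y) : Measurable (mergSw K a) := by
  rw [measurable_pi_iff]
  intro l
  unfold mergSw
  by_cases h : l < K
  · simp only [h, if_true]
    exact (measurable_of_countable (Equiv.swap (zr l) (a l))).comp (measurable_pi_apply l)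
  · simp only [h, if_false]
    exact measurable_pi_apply l

private theorem mergSw_cyl (K : ℕ) (a : Y) (k : ℕ) (b : Y) :
    mergSw K a ⁻¹' cyl k b = cyl k (mergSw K a b) := by
  ext y
  simp only [Set.mem_preimage, cyl, Set.mem_setOf_eq]
  refine forall₂_congr fun l hl => ?_
  unfold mergSw
  by_cases h : l < K
  · simp only [h, if_true]
    exact Equiv.swap_apply_eq_iff
  · simp only [h, if_false]

private theorem merg_cyl_meas (k : ℕ) (a : Y) : MeasurableSet (cyl k a) := by
  have e : cyl k a = ⋂ l : ℕ, ⋂ (_ : l < k), (fun y : Y => y l) ⁻¹' {a l} := by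
    ext y
    simp [cyl]
  rw [e]
  exact MeasurableSet.iInter fun l => MeasurableSet.iInter fun _ =>
    measurable_pi_apply l (measurableSet_singleton _)

theorem t_M_erg (hmp : M_mp) (hext : M_ext) (hbs : M_bs) (hY : Y_bs) : M_erg := by
  intro ν hν c
  refine { toMeasurePreserving := (hmp ν hν c).1, aeconst_set := ?_ }
  intro s hs hinv
  haveI := hν.prob
  have hit : ∀ n : ℕ, (T c)^[n] ⁻¹' s = s := by
    intro n
    induction n with
    | zero => rfl
    | succ n ih => rw [Function.iterate_succ, Set.preimage_comp, ih, hinv]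
  have hb : ∀ K (y : Y), y ∈ s ↔ bs K y ∈ s := by
    intro K y
    have h1 := (hY c K y).2
    have h2 : bs K y ∈ (T c)^[P c K y] ⁻¹' s ↔ bs K y ∈ s := by rw [hit]
    rw [Set.mem_preimage, h1] at h2
    exact h2
  have hsw : ∀ K (a y : Y), mergSw K a y ∈ s ↔ y ∈ s := by
    intro K a y
    have h1 : bs K (mergSw K a y) = bs K y := by
      funext l
      unfold bs mergSw
      by_cases h : l < K
      · simp only [h, if_true]
      · simp only [h, if_false]
    rw [hb K (mergSw K a y), h1, ← hb K y]
  have hmap : ∀ K (a : Y), ν.map (mergSw K a) = ν := by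
    intro K a
    refine hext _ _ ⟨Measure.isProbabilityMeasure_map (mergSw_meas K a).aemeasurable,
      fun k b => ?_⟩ hν
    rw [Measure.map_apply (mergSw_meas K a) (merg_cyl_meas k b), mergSw_cyl, hν.cyl]
  have hzr : ∀ K, ν s = (N K : ENNReal) * ν (s ∩ cyl K zr) := by
    intro K
    obtain ⟨m1, m2⟩ := hbs ν hν K
    have h1 : ν s = (Measure.map (bs K) ν) s := by
      rw [Measure.map_apply m1 hs]
      congr 1
      ext y
      exact hb K y
    rw [h1, m2, Measure.smul_apply, smul_eq_mul, Measure.restrict_apply hs]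
    rfl
  have hcy : ∀ K (a : Y), ν (s ∩ cyl K a) = ν (s ∩ cyl K zr) := by
    intro K a
    have h1 : ν (s ∩ cyl K a) = (ν.map (mergSw K a)) (s ∩ cyl K a) := by rw [hmap]
    rw [h1, Measure.map_apply (mergSw_meas K a) (hs.inter (merg_cyl_meas K a)),
      Set.preimage_inter, mergSw_cyl]
    congr 1
    ext y
    simp only [Set.mem_inter_iff, Set.mem_preimage, hsw]
    refine and_congr_right fun _ => ?_
    simp only [cyl, Set.mem_setOf_eq]
    refine forall₂_congr fun l hl => ?_
    have h2 : mergSw K a a l = zr l := by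
      unfold mergSw
      rw [if_pos hl, Equiv.swap_apply_right]
    rw [h2]
  rw [eventuallyConst_set']
  by_cases h0 : ν s = 0
  · left
    exact ae_eq_empty.2 h0
  · right
    have hU : Unif (ProbabilityTheory.cond ν s) := by
      refine ⟨ProbabilityTheory.cond_isProbabilityMeasure h0, fun K a => ?_⟩
      rw [ProbabilityTheory.cond_apply hs, hcy]
      have h1 := hzr K
      have hx0 : ν (s ∩ cyl K zr) ≠ 0 := by
        intro h2
        rw [h2, mul_zero] at h1
        exact h0 h1
      have hxt : ν (s ∩ cyl K zr) ≠ ⊤ := measure_ne_top _ _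
      rw [h1, ENNReal.mul_inv (Or.inr hxt) (Or.inr hx0), mul_assoc,
        ENNReal.inv_mul_cancel hx0 hxt, mul_one]
    have h2 := hext _ _ hU hν
    have h3 : ν s = 1 := by
      have h4 : ν s = (ProbabilityTheory.cond ν s) s := by rw [h2]
      rw [h4, ProbabilityTheory.cond_apply hs, Set.inter_self,
        ENNReal.inv_mul_cancel h0 (measure_ne_top _ _)]
    exact ae_eq_univ.2 ((prob_compl_eq_zero_iff hs).2 h3)

end Pool.Agent.H468R2.KA
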