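import Pool.Agent.H468R2.KA.Tasks2

set_option autoImplicit false

open MeasureTheory Filter Topology

namespace Pool.Agent.H468R2.KA

namespace MexAux

theorem card_D (k : ℕ) : Fintype.card (D k) = L k := by
  rw [Fintype.card_prod, Fintype.card_prod, Fintype.card_fin, Fintype.card_fin, Fintype.card_fin]
  unfold L
  ring

/-- the uniform measure on the coordinates -/
noncomputable def mu (k : ℕ) : Measure (D k) := ((L k : ℕ) : ENNReal)⁻¹ • Measure.count

theorem mu_single (k : ℕ) (d : D k) : mu k {d} = ((L k : ℕ) : ENNReal)⁻¹ := by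
  unfold mu
  rw [Measure.smul_apply, Measure.count_singleton, smul_eq_mul, mul_one]

theorem L_ne (k : ℕ) : ((L k : ℕ) : ENNReal) ≠ 0 := by
  exact_mod_cast (L_pos k).ne'

instance mu_prob (k : ℕ) : IsProbabilityMeasure (mu k) := by
  constructor
  unfold mu
  rw [Measure.smul_apply, smul_eq_mul]
  have h1 : (Measure.count : Measure (D k)) Set.univ = ((L k : ℕ) : ENNReal) := by
    rw [← card_D k, ← Finset.coe_univ, Measure.count_apply_finset]
    simp only [Finset.card_univ]
  rw [h1]
  exact ENNReal.inv_mul_cancel (L_ne k) (ENNReal.natCast_ne_top _)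

theorem prod_inv (k : ℕ) : ∏ l ∈ Finset.range k, ((L l : ℕ) : ENNReal)⁻¹ =
    ((N k : ℕ) : ENNReal)⁻¹ := by
  induction k with
  | zero =>
    rw [Finset.range_zero, Finset.prod_empty]
    show (1 : ENNReal) = (((1 : ℕ)) : ENNReal)⁻¹
    simp
  | succ k ih =>
    rw [Finset.prod_range_succ, ih]
    show _ = ((L k * N k : ℕ) : ENNReal)⁻¹
    rw [Nat.cast_mul, ENNReal.mul_inv (Or.inl (L_ne k)) (Or.inl (ENNReal.natCast_ne_top _)),
      mul_comm]

end MexAux

open MexAux in
theorem t_M_ex : M_ex := by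
  refine ⟨Measure.infinitePi mu, ⟨inferInstance, ?_⟩⟩
  intro k a
  have h1 : cyl k a = Set.pi (↑(Finset.range k)) (fun l => {a l}) := by
    ext y
    simp only [cyl, Set.mem_ofPred_eq, Set.mem_pi, Finset.coe_range, Set.mem_Iio,
      Set.mem_singleton_iff]
  rw [h1, Measure.infinitePi_pi mu (fun l _ => MeasurableSet.singleton _)]
  rw [Finset.prod_congr rfl (fun l _ => mu_single l (a l))]
  exact prod_inv k

end Pool.Agent.H468R2.KA
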