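import Pool.Agent.H468R2.KA.Tasks2

/-!
# Cylinders generate; uniqueness of the uniform measure
-/

set_option autoImplicit false

open MeasureTheory Filter Topology

namespace Pool.Agent.H468R2.KA

/-- extension of a finite prefix -/
noncomputable def mext_ext (k : ℕ) (p : ∀ l : Fin k, D l) : Y :=
  fun l => if hl : l < k then p ⟨l, hl⟩ else zr l

theorem mext_ext_lt (k : ℕ) (p : ∀ l : Fin k, D l) (l : ℕ) (hl : l < k) :
    mext_ext k p l = p ⟨l, hl⟩ := by
  unfold mext_ext; rw [dif_pos hl]

theorem mext_cyl_meas (k : ℕ) (a : Y) : MeasurableSet (cyl k a) := by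
  have : cyl k a = ⋂ l : Fin k, (fun y : Y => y l) ⁻¹' {a l} := by
    ext y
    simp only [cyl, Set.mem_iInter, Set.mem_preimage, Set.mem_singleton_iff]
    constructor
    · intro hy l; exact hy l l.2
    · intro hy l hl; exact hy ⟨l, hl⟩
  rw [this]
  exact MeasurableSet.iInter (fun l => (measurable_pi_apply _) (MeasurableSet.singleton _))

theorem mext_self (k : ℕ) (a : Y) : a ∈ cyl k a := fun _ _ => rfl

theorem mext_cyl_eq (k : ℕ) (a z : Y) (hz : z ∈ cyl k a) : cyl k a = cyl k z := by
  ext y
  constructor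
  · intro hy l hl
    exact (hy l hl).trans (hz l hl).symm
  · intro hy l hl
    exact (hy l hl).trans (hz l hl)

/-- a set depending on the first `k` coordinates is a countable union of cylinders -/
theorem mext_union (k : ℕ) (s : Set Y)
    (hs : ∀ y z : Y, (∀ l < k, y l = z l) → (y ∈ s ↔ z ∈ s)) :
    s = ⋃ p : (∀ l : Fin k, D l), ⋃ _ : mext_ext k p ∈ s, cyl k (mext_ext k p) := by
  ext y
  simp only [Set.mem_iUnion]
  constructor
  · intro hy
    have h1 : ∀ l < k, y l = mext_ext k (fun l => y l) l := by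
      intro l hl
      rw [mext_ext_lt k _ l hl]
    exact ⟨fun l => y l, (hs y _ h1).1 hy, h1⟩
  · rintro ⟨p, hp, hy⟩
    exact (hs y _ hy).2 hp

theorem mext_gen : (inferInstance : MeasurableSpace Y) =
    MeasurableSpace.generateFrom {s | ∃ k a, s = cyl k a} := by
  apply le_antisymm
  · have key : ∀ i : ℕ, @Measurable _ _
        (MeasurableSpace.generateFrom {s : Set Y | ∃ k a, s = cyl k a}) _
        (fun y : Y => y i) := by
      intro i
      refine @measurable_to_countable' _ _ _ _
        (MeasurableSpace.generateFrom {s : Set Y | ∃ k a, s = cyl k a}) _ ?_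
      intro d
      have h1 := mext_union (i + 1) ((fun y : Y => y i) ⁻¹' {d}) (by
        intro y z h
        simp only [Set.mem_preimage, Set.mem_singleton_iff]
        rw [h i (Nat.lt_succ_self i)])
      rw [h1]
      refine @MeasurableSet.iUnion _ _
        (MeasurableSpace.generateFrom {s : Set Y | ∃ k a, s = cyl k a}) _ _ ?_
      intro p
      refine @MeasurableSet.iUnion _ _
        (MeasurableSpace.generateFrom {s : Set Y | ∃ k a, s = cyl k a}) _ _ ?_
      intro _
      exact MeasurableSpace.measurableSet_generateFrom ⟨_, _, rfl⟩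
    exact iSup_le (fun i => (key i).comap_le)
  · apply MeasurableSpace.generateFrom_le
    rintro s ⟨k, a, rfl⟩
    exact mext_cyl_meas k a

theorem mext_pi : IsPiSystem {s : Set Y | ∃ k a, s = cyl k a} := by
  rintro s ⟨k, a, rfl⟩ t ⟨l, b, rfl⟩ ⟨z, hz1, hz2⟩
  rw [mext_cyl_eq k a z hz1, mext_cyl_eq l b z hz2]
  rcases le_total k l with hkl | hkl
  · refine ⟨l, z, ?_⟩
    ext y
    constructor
    · rintro ⟨_, h⟩; exact h
    · intro h
      exact ⟨fun j hj => h j (lt_of_lt_of_le hj hkl), h⟩
  · refine ⟨k, z, ?_⟩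
    ext y
    constructor
    · rintro ⟨h, _⟩; exact h
    · intro h
      exact ⟨h, fun j hj => h j (lt_of_lt_of_le hj hkl)⟩

theorem t_M_ext : M_ext := by
  intro ν ν' hν hν'
  haveI := hν.prob
  haveI := hν'.prob
  refine ext_of_generate_finite {s | ∃ k a, s = cyl k a} mext_gen mext_pi ?_ ?_
  · rintro s ⟨k, a, rfl⟩
    rw [hν.cyl, hν'.cyl]
  · rw [measure_univ, measure_univ]

end Pool.Agent.H468R2.KA
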