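import Pool.Agent.H468R2.KA.Tasks2

set_option autoImplicit false

open MeasureTheory Filter Topology

namespace Pool.Agent.H468R2.KA

theorem t_M_mP : M_mP := by
  intro c K
  induction K with
  | zero =>
    have : P c 0 = fun _ => 0 := by
      funext y
      rfl
    rw [this]
    exact measurable_const
  | succ k ih =>
    have h0 : P c (k + 1) = fun y =>
        pos k (c k) (ty (k + 1) y) (y k) * N k + P c k y := by
      funext y
      rfl
    rw [h0]
    have he : ∀ l, Measurable (fun y : Y => y l) := fun l => measurable_pi_apply l
    have h5 : Measurable (fun y : Y => (y (k + 1), y k)) := (he (k + 1)).prodMk (he k)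
    have h6 : Measurable (fun q : D (k + 1) × D k => pos k (c k) ((q.1).1 : ℕ) q.2 * N k) :=
      measurable_of_countable _
    exact (h6.comp h5).add ih

end Pool.Agent.H468R2.KA
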