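import Pool.Agent.H468R2.KA.Tasks2

set_option autoImplicit false

open MeasureTheory Filter Topology

namespace Pool.Agent.H468R2.KA

/-- auxiliary predicates (helper944) -/
def M_mS1 (y : Y) : Prop := ∀ k, y k = zr k
def M_mS2 (l : ℕ) (y : Y) : Prop := ∀ i, i ≤ l → y i = zr i
def M_mS3 (l : ℕ) (y : Y) : Prop := ∀ i, i < l → y i = zr i

open Classical in
theorem M_mS_eq (l : ℕ) (c : ℕ → ℕ) (y : Y) : S c y l =
    if M_mS1 y then y l else if M_mS2 l y then la l
      else if M_mS3 l y then prv l (c l) (ty (l + 1) y) (y l) else y l := by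
  unfold S
  by_cases H : ∃ k, y k ≠ zr k
  · have hne : ¬ M_mS1 y := by
      intro h
      obtain ⟨k, hk⟩ := H
      exact hk (h k)
    rw [dif_pos H, if_neg hne]
    have h1 : y (Nat.find H) ≠ zr (Nat.find H) := Nat.find_spec H
    have h2 : ∀ i, i < Nat.find H → y i = zr i := fun i hi => not_not.1 (Nat.find_min H hi)
    rcases lt_trichotomy l (Nat.find H) with hl | hl | hl
    · have a1 : M_mS2 l y := fun i hi => h2 i (lt_of_le_of_lt hi hl)
      rw [if_pos hl, if_pos a1]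
    · have a1 : ¬ M_mS2 l y := fun h => h1 (h _ hl.symm.le)
      have a2 : M_mS3 l y := fun i hi => h2 i (lt_of_lt_of_le hi hl.le)
      have a3 : ¬ l < Nat.find H := fun h => absurd hl h.ne
      rw [if_neg a3, if_pos hl, if_neg a1, if_pos a2]
    · have a1 : ¬ M_mS2 l y := fun h => h1 (h _ hl.le)
      have a2 : ¬ M_mS3 l y := fun h => h1 (h _ hl)
      have a3 : ¬ l < Nat.find H := fun h => lt_asymm h hl
      have a4 : ¬ l = Nat.find H := fun h => absurd h hl.ne'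
      rw [if_neg a3, if_neg a4, if_neg a1, if_neg a2]
  · have hall : M_mS1 y := fun k => not_not.1 fun h => H ⟨k, h⟩
    rw [dif_neg H, if_pos hall]

theorem M_mS_y (i : ℕ) : Measurable (fun p : (ℕ → ℕ) × Y => p.2 i) :=
  (measurable_pi_apply i).comp measurable_snd

theorem M_mS_c (i : ℕ) : Measurable (fun p : (ℕ → ℕ) × Y => p.1 i) :=
  (measurable_pi_apply i).comp measurable_fst

theorem M_mS_s (i : ℕ) : MeasurableSet {p : (ℕ → ℕ) × Y | p.2 i = zr i} :=
  (M_mS_y i) (measurableSet_singleton (zr i))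

theorem M_mS_1 : MeasurableSet {p : (ℕ → ℕ) × Y | M_mS1 p.2} := by
  have e : {p : (ℕ → ℕ) × Y | M_mS1 p.2} = ⋂ k, {p : (ℕ → ℕ) × Y | p.2 k = zr k} := by
    ext p
    rw [Set.mem_iInter]
    exact Iff.rfl
  rw [e]
  exact MeasurableSet.iInter M_mS_s

theorem M_mS_2 (l : ℕ) : MeasurableSet {p : (ℕ → ℕ) × Y | M_mS2 l p.2} := by
  have e : {p : (ℕ → ℕ) × Y | M_mS2 l p.2} =
      ⋂ i, ⋂ (_ : i ≤ l), {p : (ℕ → ℕ) × Y | p.2 i = zr i} := by
    ext p
    rw [Set.mem_iInter₂]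
    exact Iff.rfl
  rw [e]
  exact MeasurableSet.iInter fun i => MeasurableSet.iInter fun _ => M_mS_s i

theorem M_mS_3 (l : ℕ) : MeasurableSet {p : (ℕ → ℕ) × Y | M_mS3 l p.2} := by
  have e : {p : (ℕ → ℕ) × Y | M_mS3 l p.2} =
      ⋂ i, ⋂ (_ : i < l), {p : (ℕ → ℕ) × Y | p.2 i = zr i} := by
    ext p
    rw [Set.mem_iInter₂]
    exact Iff.rfl
  rw [e]
  exact MeasurableSet.iInter fun i => MeasurableSet.iInter fun _ => M_mS_s i

/-- auxiliary function -/
noncomputable def M_mSG (l : ℕ) (q : ℕ × (D (l + 1) × D l)) : D l := prv l q.1 (q.2.1.1 : ℕ) q.2.2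

theorem M_mS_4 (l : ℕ) :
    Measurable (fun p : (ℕ → ℕ) × Y => prv l (p.1 l) (ty (l + 1) p.2) (p.2 l)) := by
  have h5 : Measurable (M_mSG l) := measurable_of_countable _
  have h6 : Measurable (fun p : (ℕ → ℕ) × Y => (p.1 l, (p.2 (l + 1), p.2 l))) :=
    (M_mS_c l).prodMk ((M_mS_y (l + 1)).prodMk (M_mS_y l))
  have h7 : ∀ p : (ℕ → ℕ) × Y, prv l (p.1 l) (ty (l + 1) p.2) (p.2 l) =
      M_mSG l (p.1 l, (p.2 (l + 1), p.2 l)) := by
    intro p
    unfold M_mSG ty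
    dsimp only
  rw [funext h7]
  exact h5.comp h6

theorem t_M_mS : M_mS := by
  classical
  unfold M_mS
  rw [measurable_pi_iff]
  intro l
  rw [funext fun p : (ℕ → ℕ) × Y => M_mS_eq l p.1 p.2]
  refine Measurable.ite M_mS_1 (M_mS_y l) ?_
  refine Measurable.ite (M_mS_2 l) measurable_const ?_
  exact Measurable.ite (M_mS_3 l) (M_mS_4 l) (M_mS_y l)

end Pool.Agent.H468R2.KA
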