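import Pool.Agent.H468R2.KA.Tasks2

set_option autoImplicit false

open MeasureTheory Filter Topology

namespace Pool.Agent.H468R2.KA

attribute [local irreducible] M R Q b g h E L N

namespace MmT

open Classical in
lemma T_apply (c : ℕ → ℕ) (y : Y) (l : ℕ) :
    T c y l = if (∀ k, k ≤ l → y k = la k) then
      (if (∀ k, y k = la k) then y l else zr l) else
      if (∀ k, k < l → y k = la k) then nxt l (c l) (ty (l + 1) y) (y l) else y l := by
  unfold T
  split_ifs with H h1 h2 h3 h4 h5
  · exfalso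
    obtain ⟨k, hk⟩ := H
    exact hk (h2 k)
  · have h6 : l < Nat.find H := by
      by_contra hc
      push Not at hc
      exact Nat.find_spec H (h1 _ hc)
    simp only [h6, if_true]
  · have h6 : l = Nat.find H := by
      push Not at h1
      obtain ⟨k, hkl, hk⟩ := h1
      have hk' : k = l := by
        by_contra hne
        exact hk (h3 k (by omega))
      subst hk'
      symm
      rw [Nat.find_eq_iff]
      exact ⟨hk, fun m hm => by simpa using h3 m hm⟩
    have h7 : ¬ l < Nat.find H := by omega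
    beta_reduce
    rw [if_neg h7, if_pos h6]
  · have h6 : Nat.find H < l := by
      push Not at h3
      obtain ⟨k, hkl, hk⟩ := h3
      exact lt_of_le_of_lt (Nat.find_min' H hk) hkl
    have h7 : ¬ l < Nat.find H := by omega
    have h8 : ¬ l = Nat.find H := by omega
    beta_reduce
    rw [if_neg h7, if_neg h8]
  · rfl
  · exfalso
    push Not at H
    exact h5 H
  · exfalso
    push Not at H
    exact h4 (fun k _ => H k)
  · rfl

end MmT

open MmT in
open Classical in
theorem t_M_mT : M_mT := by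
  unfold M_mT
  rw [measurable_pi_iff]
  intro l
  have h0 : (fun p : (ℕ → ℕ) × Y => T p.1 p.2 l) = fun p : (ℕ → ℕ) × Y =>
      if (∀ k, k ≤ l → p.2 k = la k) then
      (if (∀ k, p.2 k = la k) then p.2 l else zr l) else
      if (∀ k, k < l → p.2 k = la k) then nxt l (p.1 l) (ty (l + 1) p.2) (p.2 l) else p.2 l := by
    funext p
    exact T_apply p.1 p.2 l
  rw [h0]
  have he : ∀ k, Measurable (fun p : (ℕ → ℕ) × Y => p.2 k) := fun k =>
    (measurable_pi_apply k).comp measurable_snd
  have hs : ∀ k, MeasurableSet {p : (ℕ → ℕ) × Y | p.2 k = la k} := fun k =>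
    (he k) (measurableSet_singleton (la k))
  have h1 : MeasurableSet {p : (ℕ → ℕ) × Y | ∀ k, k ≤ l → p.2 k = la k} := by
    have : {p : (ℕ → ℕ) × Y | ∀ k, k ≤ l → p.2 k = la k} =
        ⋂ k, ⋂ (_ : k ≤ l), {p : (ℕ → ℕ) × Y | p.2 k = la k} := by
      ext p; simp
    rw [this]
    exact MeasurableSet.iInter (fun k => MeasurableSet.iInter (fun _ => hs k))
  have h2 : MeasurableSet {p : (ℕ → ℕ) × Y | ∀ k, p.2 k = la k} := by
    have : {p : (ℕ → ℕ) × Y | ∀ k, p.2 k = la k} =
        ⋂ k, {p : (ℕ → ℕ) × Y | p.2 k = la k} := by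
      ext p; simp
    rw [this]
    exact MeasurableSet.iInter (fun k => hs k)
  have h3 : MeasurableSet {p : (ℕ → ℕ) × Y | ∀ k, k < l → p.2 k = la k} := by
    have : {p : (ℕ → ℕ) × Y | ∀ k, k < l → p.2 k = la k} =
        ⋂ k, ⋂ (_ : k < l), {p : (ℕ → ℕ) × Y | p.2 k = la k} := by
      ext p; simp
    rw [this]
    exact MeasurableSet.iInter (fun k => MeasurableSet.iInter (fun _ => hs k))
  have h4 : Measurable (fun p : (ℕ → ℕ) × Y => nxt l (p.1 l) (ty (l + 1) p.2) (p.2 l)) := by
    have h5 : Measurable (fun p : (ℕ → ℕ) × Y => (p.1 l, p.2 (l + 1), p.2 l)) :=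
      ((measurable_pi_apply l).comp measurable_fst).prodMk ((he (l + 1)).prodMk (he l))
    obtain ⟨F, hF⟩ : ∃ F : ℕ × D (l + 1) × D l → D l,
        ∀ p : (ℕ → ℕ) × Y, nxt l (p.1 l) (ty (l + 1) p.2) (p.2 l) =
          F (p.1 l, p.2 (l + 1), p.2 l) :=
      ⟨fun q => nxt l q.1 ((q.2.1).1 : ℕ) q.2.2, fun _ => rfl⟩
    have h6 : Measurable F := measurable_of_countable _
    have h7 : (fun p : (ℕ → ℕ) × Y => nxt l (p.1 l) (ty (l + 1) p.2) (p.2 l)) =
        fun p => F (p.1 l, p.2 (l + 1), p.2 l) := funext hF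
    rw [h7]
    exact h6.comp h5
  exact Measurable.ite h1 (Measurable.ite h2 (he l) measurable_const)
    (Measurable.ite h3 h4 (he l))

end Pool.Agent.H468R2.KA
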