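import Pool.Agent.H468R2.KA.Tasks2

set_option autoImplicit false

open MeasureTheory Filter Topology

namespace Pool.Agent.H468R2.KA

theorem mpb_P_congr (c : ℕ → ℕ) : ∀ (n : ℕ) (y z : Y), (∀ l, l ≤ n → y l = z l) →
    P c n y = P c n z
  | 0, _, _, _ => rfl
  | k + 1, y, z, h => by
    have h1 := mpb_P_congr c k y z (fun l hl => h l (by omega))
    have h2 : y k = z k := h k (by omega)
    have h3 : ty (k + 1) y = ty (k + 1) z := by unfold ty; rw [h (k + 1) le_rfl]
    show pos k (c k) (ty (k + 1) y) (y k) * N k + P c k y =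
      pos k (c k) (ty (k + 1) z) (z k) * N k + P c k z
    rw [h1, h2, h3]

theorem mpb_mem (h1 : Y_P) (c : ℕ → ℕ) (n k : ℕ) (hnk : n < k) (y a : Y) :
    y ∈ cyl k a ↔ P c n y = P c n a ∧ ∀ l, n ≤ l → l < k → y l = a l := by
  constructor
  · intro h
    exact ⟨mpb_P_congr c n y a (fun l hl => h l (by omega)), fun l _ hl => h l hl⟩
  · rintro ⟨hp, hr⟩ l hl
    by_cases hln : n ≤ l
    · exact hr l hln hl
    · obtain ⟨z, hz⟩ : ∃ z : Y, z = fun l => if l < n then a l else y l := ⟨_, rfl⟩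
      have hz1 : ∀ i, i < n → z i = a i := fun i hi => by rw [hz]; exact if_pos hi
      have hz2 : ∀ i, n ≤ i → z i = y i := fun i hi => by rw [hz]; exact if_neg (by omega)
      have h2 : P c n z = P c n a := by
        apply mpb_P_congr
        intro i hi
        by_cases hc : i < n
        · exact hz1 i hc
        · have : i = n := by omega
          subst this
          rw [hz2 i le_rfl]
          exact hr i le_rfl hnk
      have h3 := (h1 c n y).2.2.2.1 z (fun i hi => (hz2 i hi).symm) (by rw [h2, hp])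
      rw [congrFun h3 l]
      exact hz1 l (by omega)

open Classical in
/-- finite approximation of the transformation -/
noncomputable def mpb_e (c : ℕ → ℕ) (n : ℕ) (y : Y) : Y :=
  if ∀ l, l < n → y l = la l then bs n y else T c y

theorem mpb_e_spec (h1 : Y_P) (h2 : Y_step) (c : ℕ → ℕ) (n : ℕ) (y : Y) :
    P c n (mpb_e c n y) = (P c n y + 1) % N n ∧ ∀ l, n ≤ l → mpb_e c n y l = y l := by
  unfold mpb_e
  split_ifs with hc
  · have h3 := ((h1 c n y).2.2.1).2 hc
    have h4 : P c n (bs n y) = 0 :=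
      ((h1 c n (bs n y)).2.1).2 (fun l hl => by unfold bs; rw [if_pos hl])
    refine ⟨by rw [h4, h3, Nat.mod_self], fun l hl => ?_⟩
    unfold bs
    rw [if_neg (by omega)]
  · have h3 : P c n y + 1 ≠ N n := fun h => hc ((h1 c n y).2.2.1.1 h)
    have h4 := (h1 c n y).1
    have h5 := h2 c y n (by omega)
    exact ⟨by rw [h5.1, Nat.mod_eq_of_lt (by omega)], h5.2⟩

theorem mpb_pre (h1 : Y_P) (h2 : Y_step) (c : ℕ → ℕ) (n k : ℕ) (hnk : n < k) (a : Y) :
    ∃ a', mpb_e c n ⁻¹' cyl k a = cyl k a' := by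
  have hN := N_pos n
  obtain ⟨p, hp⟩ : ∃ p, p = P c n a := ⟨_, rfl⟩
  obtain ⟨NN, hNN⟩ : ∃ NN, NN = N n := ⟨_, rfl⟩
  have ha : p < NN := by rw [hp, hNN]; exact (h1 c n a).1
  obtain ⟨a', ha', hP⟩ := (h1 c n a).2.2.2.2 (if p = 0 then NN - 1 else p - 1)
    (by rw [← hNN]; split_ifs <;> omega)
  refine ⟨a', ?_⟩
  ext y
  rw [Set.mem_preimage, mpb_mem h1 c n k hnk, mpb_mem h1 c n k hnk]
  obtain ⟨e1, e2⟩ := mpb_e_spec h1 h2 c n y
  have hy : P c n y < NN := by rw [hNN]; exact (h1 c n y).1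
  have key : (P c n y + 1) % NN = p ↔ P c n y = P c n a' := by
    rw [hP]
    by_cases hl : P c n y + 1 = NN
    · rw [hl, Nat.mod_self]
      split_ifs <;> omega
    · rw [Nat.mod_eq_of_lt (by omega)]
      split_ifs <;> omega
  rw [e1, ← hNN, ← hp, key]
  constructor
  · rintro ⟨h, h'⟩
    exact ⟨h, fun l hl hk => by rw [ha' l hl, ← h' l hl hk, e2 l hl]⟩
  · rintro ⟨h, h'⟩
    exact ⟨h, fun l hl hk => by rw [e2 l hl, h' l hl hk, ha' l hl]⟩

theorem mpb_meas_cyl (k : ℕ) (a : Y) : MeasurableSet (cyl k a) := by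
  have : cyl k a = ⋂ l ∈ Finset.range k, (fun y : Y => y l) ⁻¹' {a l} := by
    ext y
    simp [cyl]
  rw [this]
  exact Finset.measurableSet_biInter _
    (fun l _ => (measurable_pi_apply l) (measurableSet_singleton _))

theorem mpb_down (μ : Measure Y) (k : ℕ)
    (h : ∀ a, μ (cyl (k + 1) a) = ((N (k + 1) : ENNReal))⁻¹) (a : Y) :
    μ (cyl k a) = ((N k : ENNReal))⁻¹ := by
  have h1 : cyl k a = ⋃ d : D k, cyl (k + 1) (Function.update a k d) := by
    ext y
    simp only [cyl, Set.mem_ofPred_eq, Set.mem_iUnion]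
    constructor
    · intro hy
      refine ⟨y k, fun l hl => ?_⟩
      by_cases hlk : l = k
      · subst hlk
        rw [Function.update_self]
      · rw [Function.update_of_ne hlk]
        exact hy l (by omega)
    · rintro ⟨d, hd⟩ l hl
      have := hd l (by omega)
      rwa [Function.update_of_ne (by omega)] at this
  obtain ⟨C, hC⟩ : ∃ C, C = M k * (R k * Q k) := ⟨_, rfl⟩
  have hC0 : C ≠ 0 := by
    rw [hC]
    exact (Nat.mul_pos (M_pos k) (Nat.mul_pos (R_pos k) (Q_pos k))).ne'
  have hN : N (k + 1) = C * N k := by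
    show L k * N k = C * N k
    rw [hC]
    unfold L
    ring
  have hcard : Fintype.card (D k) = C := by
    rw [hC, Fintype.card_prod, Fintype.card_prod, Fintype.card_fin, Fintype.card_fin,
      Fintype.card_fin]
  rw [h1, measure_iUnion]
  · simp only [h, tsum_fintype, Finset.sum_const, Finset.card_univ, nsmul_eq_mul]
    rw [hcard, hN, Nat.cast_mul, ENNReal.mul_inv (Or.inl (by exact_mod_cast hC0))
      (Or.inl (ENNReal.natCast_ne_top C)), ← mul_assoc,
      ENNReal.mul_inv_cancel (by exact_mod_cast hC0) (ENNReal.natCast_ne_top C), one_mul]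
  · intro d d' hdd
    rw [Function.onFun, Set.disjoint_left]
    intro y hy hy'
    apply hdd
    have e1 := hy k (by omega)
    have e2 := hy' k (by omega)
    rw [Function.update_self] at e1 e2
    rw [← e1, e2]
  · exact fun d => mpb_meas_cyl _ _

theorem mpb_meas_bs (n : ℕ) : Measurable (bs n) := by
  refine measurable_pi_iff.2 (fun l => ?_)
  unfold bs
  by_cases hl : l < n
  · simp only [if_pos hl]
    exact measurable_const
  · simp only [if_neg hl]
    exact measurable_pi_apply l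

theorem mpb_meas_e (c : ℕ → ℕ) (n : ℕ) (mT : Measurable (T c)) : Measurable (mpb_e c n) := by
  unfold mpb_e
  refine Measurable.ite ?_ (mpb_meas_bs n) mT
  exact mpb_meas_cyl n (fun l => la l)

theorem mpb_e_map (hext : M_ext) (h1 : Y_P) (h2 : Y_step) (ν : Measure Y) (hν : Unif ν)
    (c : ℕ → ℕ) (n : ℕ) (mT : Measurable (T c)) : Measure.map (mpb_e c n) ν = ν := by
  have := hν.prob
  have me := mpb_meas_e c n mT
  refine hext _ _ ⟨Measure.isProbabilityMeasure_map me.aemeasurable, ?_⟩ hν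
  have all : ∀ j k, n + 1 ≤ k + j → ∀ a, Measure.map (mpb_e c n) ν (cyl k a) =
      ((N k : ENNReal))⁻¹ := by
    intro j
    induction j with
    | zero =>
      intro k hk a
      rw [Measure.map_apply me (mpb_meas_cyl k a)]
      obtain ⟨a', ha'⟩ := mpb_pre h1 h2 c n k (by omega) a
      rw [ha', hν.cyl]
    | succ j ih =>
      intro k hk a
      exact mpb_down _ k (ih (k + 1) (by omega)) a
  intro k a
  exact all (n + 1) k (by omega) a

theorem mpb_N_ge : ∀ n, n ≤ N n
  | 0 => Nat.zero_le _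
  | n + 1 => by
    have ih := mpb_N_ge n
    have hp := N_pos n
    have hg : 2 ≤ g n := by
      unfold g
      calc 2 = 2 ^ 1 := rfl
        _ ≤ 2 ^ (n + 6) := Nat.pow_le_pow_right (by norm_num) (by omega)
    have hL : 2 ≤ L n := by
      unfold L M
      calc 2 = 1 * ((2 * 1) * 1) := rfl
        _ ≤ R n * (g n * h n * Q n) := Nat.mul_le_mul (R_pos n)
          (Nat.mul_le_mul (Nat.mul_le_mul hg (h_pos n)) (Q_pos n))
    have : 2 * N n ≤ N (n + 1) := Nat.mul_le_mul_right _ hL
    omega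

theorem mpb_T (hext : M_ext) (hT : M_mT) (h1 : Y_P) (h2 : Y_step) (ν : Measure Y)
    (hν : Unif ν) (c : ℕ → ℕ) : MeasurePreserving (T c) ν ν := by
  have := hν.prob
  have mT : Measurable (T c) := hT.comp (measurable_const.prodMk measurable_id)
  have hle : ∀ A, MeasurableSet A → ν (T c ⁻¹' A) ≤ ν A := by
    intro A hA
    have hn : ∀ n, ν (T c ⁻¹' A) ≤ ν A + ((N n : ENNReal))⁻¹ := by
      intro n
      have hsub : T c ⁻¹' A ⊆ (mpb_e c n ⁻¹' A) ∪ cyl n (fun l => la l) := by
        intro y hy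
        by_cases hc : ∀ l, l < n → y l = la l
        · exact Or.inr hc
        · left
          show mpb_e c n y ∈ A
          unfold mpb_e
          rw [if_neg hc]
          exact hy
      calc ν (T c ⁻¹' A) ≤ ν ((mpb_e c n ⁻¹' A) ∪ cyl n (fun l => la l)) := measure_mono hsub
        _ ≤ ν (mpb_e c n ⁻¹' A) + ν (cyl n (fun l => la l)) := measure_union_le _ _
        _ = ν A + ((N n : ENNReal))⁻¹ := by
          rw [← Measure.map_apply (mpb_meas_e c n mT) hA, mpb_e_map hext h1 h2 ν hν c n mT,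
            hν.cyl]
    have hlim : Tendsto (fun n => ν A + ((N n : ENNReal))⁻¹) atTop (𝓝 (ν A + 0)) := by
      refine Tendsto.const_add _ ?_
      exact ENNReal.tendsto_inv_nat_nhds_zero.comp (tendsto_atTop_mono mpb_N_ge tendsto_id)
    rw [add_zero] at hlim
    exact ge_of_tendsto' hlim hn
  refine ⟨mT, ?_⟩
  ext A hA
  rw [Measure.map_apply mT hA]
  refine le_antisymm (hle A hA) ?_
  have h3 := hle Aᶜ hA.compl
  have h4 : ν A + ν Aᶜ = 1 := by rw [measure_add_measure_compl hA, measure_univ]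
  have h5 : ν (T c ⁻¹' A) + ν (T c ⁻¹' Aᶜ) = 1 := by
    rw [Set.preimage_compl, measure_add_measure_compl (mT hA), measure_univ]
  have h6 : ν A + ν Aᶜ ≤ ν (T c ⁻¹' A) + ν Aᶜ := by
    rw [h4, ← h5]
    exact add_le_add_right h3 _
  exact ENNReal.le_of_add_le_add_right (measure_ne_top _ _) h6

theorem t_M_mp_b (hext : M_ext) (hT : M_mT) (hS : M_mS) (h1 : Y_P) (h2 : Y_step) (hG : Y_Gd)
    (hMG : M_Gd) : M_mp := by
  intro ν hν c
  have hTp := mpb_T hext hT h1 h2 ν hν c
  refine ⟨hTp, ?_⟩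
  have mS : Measurable (S c) := hS.comp (measurable_const.prodMk measurable_id)
  refine ⟨mS, ?_⟩
  obtain ⟨mG, hG0⟩ := hMG ν hν
  have hae : (S c ∘ T c) =ᵐ[ν] id := by
    have : ∀ᵐ y ∂ν, y ∈ Gd := by
      rw [ae_iff]
      exact hG0
    filter_upwards [this] with y hy
    exact (hG c y hy).2.2.1
  calc Measure.map (S c) ν = Measure.map (S c) (Measure.map (T c) ν) := by rw [hTp.map_eq]
    _ = Measure.map (S c ∘ T c) ν := Measure.map_map mS hTp.measurable
    _ = Measure.map id ν := Measure.map_congr hae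
    _ = ν := Measure.map_id

end Pool.Agent.H468R2.KA
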