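import Pool.Agent.H468R2.KA.Tasks2

set_option autoImplicit false

open MeasureTheory Filter Topology

namespace Pool.Agent.H468R2.KA

namespace Msum

lemma card_le (n a b : ℕ) :
    Nat.card {r : Fin n // ¬ ((r : ℕ) < a ↔ (r : ℕ) < b)} ≤ max a b - min a b := by
  have h1 : Nat.card (Finset.Ico (min a b) (max a b)) = max a b - min a b := by
    rw [Nat.card_eq_fintype_card, Fintype.card_coe, Nat.card_Ico]
  rw [← h1]
  refine Nat.card_le_card_of_injective
    (fun r : {r : Fin n // ¬ ((r : ℕ) < a ↔ (r : ℕ) < b)} =>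
      (⟨(r.1 : ℕ), ?_⟩ : Finset.Ico (min a b) (max a b))) ?_
  · have := r.2
    rw [Finset.mem_Ico]
    rcases le_total a b with h | h
    · rw [min_eq_left h, max_eq_right h]
      by_contra hc
      apply this
      omega
    · rw [min_eq_right h, max_eq_left h]
      by_contra hc
      apply this
      omega
  · intro r s hrs
    simp only [Subtype.mk.injEq] at hrs
    exact Subtype.ext (Fin.ext hrs)

lemma floor_le (u v : ℝ) (hu : 0 ≤ u) (hv : 0 ≤ v) :
    ((max ⌊u⌋₊ ⌊v⌋₊ - min ⌊u⌋₊ ⌊v⌋₊ : ℕ) : ℝ) ≤ |u - v| + 1 := by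
  have h1 := Nat.floor_le hu
  have h2 := Nat.lt_floor_add_one u
  have h3 := Nat.floor_le hv
  have h4 := Nat.lt_floor_add_one v
  rw [Nat.cast_sub (le_trans (min_le_left _ _) (le_max_left _ _)), Nat.cast_max, Nat.cast_min]
  rcases le_total (⌊u⌋₊ : ℝ) (⌊v⌋₊ : ℝ) with h | h
  · rw [max_eq_right h, min_eq_left h]
    have := neg_abs_le (u - v)
    linarith
  · rw [max_eq_left h, min_eq_right h]
    have := le_abs_self (u - v)
    linarith

lemma clip_le (u v : ℝ) : |max 0 (min 1 u) - max 0 (min 1 v)| ≤ |u - v| := by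
  have h1 : |max (min 1 u) 0 - max (min 1 v) 0| ≤ |min 1 u - min 1 v| :=
    abs_max_sub_max_le_abs _ _ _
  have h2 : |min u 1 - min v 1| ≤ |u - v| := by
    refine (abs_min_sub_min_le_max _ _ _ _).trans ?_
    rw [sub_self, abs_zero, max_eq_left (abs_nonneg _)]
  rw [max_comm 0 (min 1 u), max_comm 0 (min 1 v)]
  refine h1.trans ?_
  rw [min_comm 1 u, min_comm 1 v]
  exact h2

end Msum

open Msum in
theorem t_M_sum : M_sum := by
  intro x y hxy
  have hR : ∀ k, (0 : ℝ) < R k := fun k => by exact_mod_cast R_pos k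
  have hs : Summable (fun k => |x k - y k| + (1 / 2 : ℝ) ^ k) :=
    hxy.add (summable_geometric_of_lt_one (by norm_num) (by norm_num))
  refine Summable.of_nonneg_of_le (fun k => by positivity) (fun k => ?_) hs
  rw [div_le_iff₀ (hR k)]
  have h1 : (Nat.card {r : Fin (R k) // ¬ ((r : ℕ) < cc x k ↔ (r : ℕ) < cc y k)} : ℝ) ≤
      ((max (cc x k) (cc y k) - min (cc x k) (cc y k) : ℕ) : ℝ) := by
    exact_mod_cast card_le (R k) (cc x k) (cc y k)
  refine h1.trans ?_
  have h2 := floor_le (max 0 (min 1 (x k)) * R k) (max 0 (min 1 (y k)) * R k)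
    (mul_nonneg (le_max_left _ _) (hR k).le) (mul_nonneg (le_max_left _ _) (hR k).le)
  refine (show _ ≤ _ from h2).trans ?_
  rw [← sub_mul, abs_mul, abs_of_pos (hR k), add_mul]
  have h3 := clip_le (x k) (y k)
  have h4 : (1 / 2 : ℝ) ^ k * (R k : ℝ) = 1 := by
    unfold R
    push_cast
    rw [← mul_pow]
    norm_num
  rw [h4]
  have h5 := mul_le_mul_of_nonneg_right h3 (hR k).le
  linarith

end Pool.Agent.H468R2.KA
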