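import Pool.Agent.H468R2.KA.Tasks2

/-! M_ty: the distribution of the types. -/

set_option autoImplicit false

open MeasureTheory Filter Topology

namespace Pool.Agent.H468R2.KA

namespace Mtyb

theorem prodL (K : ℕ) : ∏ l ∈ Finset.range K, L l = N K := by
  induction K with
  | zero => rfl
  | succ K ih => rw [Finset.prod_range_succ, ih, N, mul_comm]

theorem cardD (l : ℕ) : Fintype.card (D l) = L l := by
  rw [Fintype.card_prod, Fintype.card_prod, Fintype.card_fin, Fintype.card_fin, Fintype.card_fin,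
    L]
  ring

theorem cardpi (K : ℕ) : Fintype.card (∀ l : Fin K, D l) = N K := by
  rw [Fintype.card_pi, Finset.prod_congr rfl (fun (l : Fin K) _ => cardD (l : ℕ)),
    Fin.prod_univ_eq_prod_range (fun l => L l) K, prodL]

/-- the representatives -/
noncomputable def rp (K j : ℕ) (hj : j < M K) (e : (∀ l : Fin K, D l) × (Fin (R K) × Fin (Q K))) : Y :=
  Function.update (fun l => if h : l < K then e.1 ⟨l, h⟩ else zr l) K (⟨j, hj⟩, e.2.1, e.2.2)

theorem sub (K j : ℕ) (hj : j < M K) :
    {y : Y | ty K y = j} ⊆ ⋃ e, cyl (K + 1) (rp K j hj e) := by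
  intro y hy
  rw [Set.mem_iUnion]
  refine ⟨(fun l => y l, ((y K).2.1, (y K).2.2)), ?_⟩
  intro l hl
  have hy' : ty K y = j := hy
  rcases Nat.lt_or_ge l K with h | h
  · unfold rp
    rw [Function.update_of_ne (by omega), dif_pos h]
  · have hlK : l = K := by omega
    subst hlK
    unfold rp
    rw [Function.update_self]
    apply Prod.ext
    · exact Fin.ext hy'
    · rfl

theorem one (ν : Measure Y) (hν : Unif ν) (K j : ℕ) :
    ν {y : Y | ty K y = j} ≤ ((M K : ℕ) : ENNReal)⁻¹ := by
  by_cases hj : j < M K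
  · have h1 : ν {y : Y | ty K y = j} ≤
        ∑ e : (∀ l : Fin K, D l) × (Fin (R K) × Fin (Q K)), ν (cyl (K + 1) (rp K j hj e)) :=
      (measure_mono (sub K j hj)).trans (measure_iUnion_fintype_le _ _)
    refine h1.trans (le_of_eq ?_)
    rw [Finset.sum_congr rfl (fun e _ => hν.cyl (K + 1) (rp K j hj e)), Finset.sum_const,
      Finset.card_univ, Fintype.card_prod, Fintype.card_prod, cardpi, Fintype.card_fin,
      Fintype.card_fin, nsmul_eq_mul]
    have e1 : N (K + 1) = (N K * (R K * Q K)) * M K := by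
      rw [N, L]; ring
    have hpos : 0 < N K * (R K * Q K) :=
      Nat.mul_pos (N_pos K) (Nat.mul_pos (R_pos K) (Q_pos K))
    generalize N K * (R K * Q K) = a at e1 hpos
    rw [e1, Nat.cast_mul]
    have ha0 : ((a : ℕ) : ENNReal) ≠ 0 := by exact_mod_cast hpos.ne'
    have hat : ((a : ℕ) : ENNReal) ≠ ⊤ := ENNReal.natCast_ne_top a
    rw [ENNReal.mul_inv (Or.inl ha0) (Or.inl hat), ← mul_assoc, ENNReal.mul_inv_cancel ha0 hat,
      one_mul]
  · have : {y : Y | ty K y = j} = ∅ := by
      ext y
      constructor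
      · intro hy
        have hy' : ((y K).1 : ℕ) = j := hy
        exact absurd (hy' ▸ (y K).1.isLt) hj
      · intro hy; exact absurd hy (Set.notMem_empty y)
    rw [this, measure_empty]
    exact zero_le

end Mtyb

theorem t_M_ty_b : M_ty := by
  intro ν hν K I
  have h1 : {y : Y | ty K y ∈ I} ⊆ ⋃ j ∈ I, {y : Y | ty K y = j} := by
    intro y hy
    rw [Set.mem_iUnion₂]
    exact ⟨ty K y, hy, rfl⟩
  refine (measure_mono h1).trans ((measure_biUnion_finset_le I _).trans ?_)
  refine (Finset.sum_le_sum (fun j _ => Mtyb.one ν hν K j)).trans (le_of_eq ?_)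
  rw [Finset.sum_const, nsmul_eq_mul, div_eq_mul_inv]

end Pool.Agent.H468R2.KA
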