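import Pool.Agent.H468R2.KA.Tasks2

/-!
# Common subwords of concatenations
-/

set_option autoImplicit false

namespace Pool.Agent.H468R2.KA

open Pool.H110K2

namespace WdpAux

lemma Sp_right {ρ η : ℝ} {u v v' : List ℕ} (h : Sp ρ η u v) (hv : v' <:+: v) : Sp ρ η u v' :=
  fun U V w hU hV h1 h2 => h U V w hU (hV.trans hv) h1 h2

lemma Sp_left {ρ η : ℝ} {u v u' : List ℕ} (h : Sp ρ η u v) (hu : u' <:+: u) : Sp ρ η u' v :=
  fun U V w hU hV h1 h2 => h U V w (hU.trans hu) hV h1 h2

/-- two splittings of a list -/
lemma split_le {w1 w2 w1' w2' : List ℕ} (h : w1 ++ w2 = w1' ++ w2') (hl : w1.length ≤ w1'.length) :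
    ∃ w3, w1' = w1 ++ w3 ∧ w2 = w3 ++ w2' := by
  rcases List.append_eq_append_iff.1 h with ⟨c, h1, h2⟩ | ⟨c, h1, h2⟩
  · exact ⟨c, h1, h2⟩
  · have hc : c = [] := by
      have : w1.length = w1'.length + c.length := by rw [h1, List.length_append]
      exact List.eq_nil_of_length_eq_zero (by omega)
    subst hc
    exact ⟨[], by simpa using h1.symm, by simpa using h2.symm⟩

lemma main (n : ℕ) (ρ η : ℝ) (hρ : 0 ≤ ρ) (hη : 0 ≤ η) (N : ℕ) : ∀ (Us Vs : List (ℕ × List ℕ)),
    Us.length + Vs.length ≤ N →
    (∀ p ∈ Us, p.2.length ≤ n) → (∀ q ∈ Vs, q.2.length ≤ n) →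
    (∀ p ∈ Us, ∀ q ∈ Vs, p.1 ≠ q.1 → Sp ρ η p.2 q.2) →
    ∀ K : ℕ, (∀ z : List ℕ, z.Sublist (Us.map Prod.fst) → z.Sublist (Vs.map Prod.fst) →
      z.length ≤ K) →
    ∀ w : List ℕ, w.Sublist (Us.map Prod.snd).flatten → w.Sublist (Vs.map Prod.snd).flatten →
      (w.length : ℝ) ≤ ρ / 2 * (((Us.map Prod.snd).flatten.length : ℝ) +
        (Vs.map Prod.snd).flatten.length) + η * ((Us.length : ℝ) + Vs.length) + n * K := by
  induction N with
  | zero =>
    intro Us Vs hN _ _ _ K _ w h1 _
    have : Us = [] := List.eq_nil_of_length_eq_zero (by omega)
    subst this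
    simp only [List.map_nil, List.flatten_nil, List.sublist_nil] at h1
    subst h1
    simp only [List.length_nil, Nat.cast_zero]
    positivity
  | succ N ih =>
    intro Us Vs hN hUn hVn hSp K hK w h1 h2
    rcases Us with _ | ⟨⟨a, U1⟩, Us'⟩
    · simp only [List.map_nil, List.flatten_nil, List.sublist_nil] at h1
      subst h1
      simp only [List.length_nil, Nat.cast_zero]
      positivity
    rcases Vs with _ | ⟨⟨b, V1⟩, Vs'⟩
    · simp only [List.map_nil, List.flatten_nil, List.sublist_nil] at h2
      subst h2
      simp only [List.length_nil, Nat.cast_zero]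
      positivity
    have hU1 : U1.length ≤ n := hUn (a, U1) (List.mem_cons_self ..)
    have hV1 : V1.length ≤ n := hVn (b, V1) (List.mem_cons_self ..)
    have hUn' : ∀ p ∈ Us', p.2.length ≤ n := fun p hp => hUn p (List.mem_cons_of_mem _ hp)
    have hVn' : ∀ p ∈ Vs', p.2.length ≤ n := fun p hp => hVn p (List.mem_cons_of_mem _ hp)
    simp only [List.map_cons, List.flatten_cons] at h1 h2 hK
    obtain ⟨w1, w2, hw, hw1, hw2⟩ := List.sublist_append_iff.1 h1
    obtain ⟨w1', w2', hw', hw1', hw2'⟩ := List.sublist_append_iff.1 h2
    have hww : w1 ++ w2 = w1' ++ w2' := hw.symm.trans hw'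
    simp only [List.length_cons] at hN
    simp only [List.map_cons, List.flatten_cons, List.length_append, List.length_cons]
    push_cast
    by_cases hab : a = b
    · subst hab
      have hK1 : 1 ≤ K := by
        have := hK [a] (List.Sublist.cons_cons a (List.nil_sublist _))
          (List.Sublist.cons_cons a (List.nil_sublist _))
        simpa using this
      have hK' : ∀ z : List ℕ, z.Sublist (Us'.map Prod.fst) → z.Sublist (Vs'.map Prod.fst) →
          z.length ≤ K - 1 := by
        intro z hz hz'
        have := hK (a :: z) (List.Sublist.cons_cons a hz) (List.Sublist.cons_cons a hz')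
        rw [List.length_cons] at this
        omega
      have hSp' : ∀ p ∈ Us', ∀ q ∈ Vs', p.1 ≠ q.1 → Sp ρ η p.2 q.2 := fun p hp q hq =>
        hSp p (List.mem_cons_of_mem _ hp) q (List.mem_cons_of_mem _ hq)
      have hcast : ((K - 1 : ℕ) : ℝ) = (K : ℝ) - 1 := by
        rw [Nat.cast_sub hK1, Nat.cast_one]
      -- a common tail of length at least `|w| - n`
      obtain ⟨t, ht1, ht2, ht3⟩ : ∃ t : List ℕ, t.Sublist (Us'.map Prod.snd).flatten ∧
          t.Sublist (Vs'.map Prod.snd).flatten ∧ w.length ≤ n + t.length := by
        rcases le_total w1.length w1'.length with hl | hl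
        · obtain ⟨w3, e1, e2⟩ := split_le hww hl
          refine ⟨w2', ?_, hw2', ?_⟩
          · refine List.Sublist.trans ?_ hw2
            rw [e2]; exact List.sublist_append_right _ _
          · rw [hw', List.length_append]
            have := hw1'.length_le
            omega
        · obtain ⟨w3, e1, e2⟩ := split_le hww.symm hl
          refine ⟨w2, hw2, ?_, ?_⟩
          · refine List.Sublist.trans ?_ hw2'
            rw [e2]; exact List.sublist_append_right _ _
          · rw [hw, List.length_append]
            have := hw1.length_le
            omega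
      have hI := ih Us' Vs' (by omega) hUn' hVn' hSp' (K - 1) hK' t ht1 ht2
      rw [hcast] at hI
      have ht3' : (w.length : ℝ) ≤ n + t.length := by exact_mod_cast ht3
      have p1 : 0 ≤ ρ / 2 * ((U1.length : ℝ) + V1.length) := by positivity
      nlinarith
    · rcases le_total w1.length w1'.length with hl | hl
      · obtain ⟨w3, e1, e2⟩ := split_le hww hl
        rw [e1] at hw1'
        obtain ⟨V11, V12, hV, hV11, hV12⟩ := List.append_sublist_iff.1 hw1'
        have hS := hSp (a, U1) (List.mem_cons_self ..) (b, V1) (List.mem_cons_self ..) hab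
        have hb := hS U1 V11 w1 List.infix_rfl (by rw [hV]; exact (List.prefix_append _ _).isInfix)
          hw1 hV11
        have hinf : V12 <:+: V1 := by rw [hV]; exact (List.suffix_append _ _).isInfix
        have hI := ih Us' ((b, V12) :: Vs') (by simp only [List.length_cons]; omega) hUn'
          (by
            intro q hq
            rcases List.mem_cons.1 hq with rfl | hq
            · exact hinf.length_le.trans hV1
            · exact hVn' q hq)
          (by
            intro p hp q hq hne
            rcases List.mem_cons.1 hq with rfl | hq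
            · exact Sp_right (hSp p (List.mem_cons_of_mem _ hp) (b, V1) (List.mem_cons_self ..) hne) hinf
            · exact hSp p (List.mem_cons_of_mem _ hp) q (List.mem_cons_of_mem _ hq) hne)
          K (by
            intro z hz hz'
            exact hK z (hz.trans (List.sublist_cons_self _ _)) hz') w2 hw2
          (by
            simp only [List.map_cons, List.flatten_cons]
            rw [e2]
            exact hV12.append hw2')
        simp only [List.map_cons, List.flatten_cons, List.length_append, List.length_cons] at hI
        push_cast at hI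
        have hwl : (w.length : ℝ) = w1.length + w2.length := by
          rw [hw, List.length_append]; push_cast; ring
        have hVl : (V1.length : ℝ) = V11.length + V12.length := by
          rw [hV, List.length_append]; push_cast; ring
        rw [hwl, hVl]
        nlinarith
      · obtain ⟨w3, e1, e2⟩ := split_le hww.symm hl
        rw [e1] at hw1
        obtain ⟨U11, U12, hU, hU11, hU12⟩ := List.append_sublist_iff.1 hw1
        have hS := hSp (a, U1) (List.mem_cons_self ..) (b, V1) (List.mem_cons_self ..) hab
        have hb := hS U11 V1 w1' (by rw [hU]; exact (List.prefix_append _ _).isInfix) List.infix_rfl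
          hU11 hw1'
        have hinf : U12 <:+: U1 := by rw [hU]; exact (List.suffix_append _ _).isInfix
        have hI := ih ((a, U12) :: Us') Vs' (by simp only [List.length_cons]; omega)
          (by
            intro q hq
            rcases List.mem_cons.1 hq with rfl | hq
            · exact hinf.length_le.trans hU1
            · exact hUn' q hq) hVn'
          (by
            intro p hp q hq hne
            rcases List.mem_cons.1 hp with rfl | hp
            · exact Sp_left (hSp (a, U1) (List.mem_cons_self ..) q (List.mem_cons_of_mem _ hq) hne) hinf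
            · exact hSp p (List.mem_cons_of_mem _ hp) q (List.mem_cons_of_mem _ hq) hne)
          K (by
            intro z hz hz'
            exact hK z hz (hz'.trans (List.sublist_cons_self _ _))) w2'
          (by
            simp only [List.map_cons, List.flatten_cons]
            rw [e2]
            exact hU12.append hw2) hw2'
        simp only [List.map_cons, List.flatten_cons, List.length_append, List.length_cons] at hI
        push_cast at hI
        have hwl : (w.length : ℝ) = w1'.length + w2'.length := by
          rw [hw', List.length_append]; push_cast; ring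
        have hUl : (U1.length : ℝ) = U11.length + U12.length := by
          rw [hU, List.length_append]; push_cast; ring
        rw [hwl, hUl]
        nlinarith

end WdpAux

theorem t_W_dp : W_dp := by
  intro n ρ η hρ hη Us Vs hU hV hSp K hK w h1 h2
  exact WdpAux.main n ρ η hρ hη _ Us Vs le_rfl hU hV hSp K hK w h1 h2

end Pool.Agent.H468R2.KA
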