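import Pool.Agent.H468R2.KA.Tasks2

/-! Task `W_len`: lengths of the words. -/

set_option autoImplicit false

namespace Pool.Agent.H468R2.KA

theorem W_len_flatMap (f : ℕ → List ℕ) (n : ℕ) (hf : ∀ a, (f a).length = n) (l : List ℕ) :
    (l.flatMap f).length = l.length * n := by
  induction l with
  | nil => simp
  | cons a l ih =>
    rw [List.flatMap_cons, List.length_append, ih, hf, List.length_cons]
    ring

theorem W_len_pat (k c j : ℕ) : (pat k c j).length = L k := by
  unfold pat
  rw [List.length_map, List.length_range]

theorem t_W_len : W_len := by
  intro c k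
  induction k with
  | zero => intro j; rfl
  | succ k ih =>
    intro j
    change ((pat k (c k) j).flatMap (W c k)).length = L k * N k
    rw [W_len_flatMap (W c k) (N k) ih, W_len_pat]

end Pool.Agent.H468R2.KA
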