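import Pool.Agent.H468R2.KA.Tasks2

/-! Task W_pat of helper468's project KA (by helper747): patterns with different exponents. -/

set_option autoImplicit false

namespace Pool.Agent.H468R2.KA

namespace WPat

theorem infix_map_range {α : Type} {f : ℕ → α} {n : ℕ} {r : List α}
    (hr : r <:+: (List.range n).map f) :
    ∃ a, a + r.length ≤ n ∧ r = (List.range r.length).map (fun i => f (a + i)) := by
  obtain ⟨x, y, hxy⟩ := hr
  have hlen := congrArg List.length hxy
  simp only [List.length_append, List.length_map, List.length_range] at hlen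
  refine ⟨x.length, by omega, ?_⟩
  apply List.ext_getElem
  · simp
  · intro i h1 h2
    rw [List.getElem_map, List.getElem_range]
    have h3 : x.length + i < (x ++ r ++ y).length := by
      simp only [List.length_append]; omega
    have h4 : (x ++ r ++ y)[x.length + i]'h3 = r[i] := by
      rw [List.getElem_append_left (by simp only [List.length_append]; omega),
        List.getElem_append_right (by omega)]
      simp
    have h5 : x.length + i < ((List.range n).map f).length := by rw [← hxy]; exact h3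
    have h6 : ((List.range n).map f)[x.length + i]'h5 = f (x.length + i) := by
      rw [List.getElem_map, List.getElem_range]
    rw [← h4, ← h6]
    simp only [hxy]

/-- windows of the cyclic word with exponent `e` -/
def C (k e : ℕ) (x : List ℕ) : Prop := ∃ n s, x = cyc (g k) (h k * b k ^ e) n s

theorem C_infix {k e : ℕ} {x r : List ℕ} (hx : C k e x) (hr : r <:+: x) : C k e r := by
  obtain ⟨n, s, rfl⟩ := hx
  obtain ⟨a, -, ha⟩ := infix_map_range hr
  refine ⟨r.length, s + a, ?_⟩
  rw [ha]
  unfold cyc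
  simp only [List.length_map, List.length_range]
  refine List.map_congr_left fun i _ => ?_
  rw [Nat.add_assoc]

/-- common subwords are short -/
def Pr (k : ℕ) (x y : List ℕ) : Prop := ∀ r r' w : List ℕ, r <:+: x → r' <:+: y →
  w.Sublist r → w.Sublist r' →
    (w.length : ℝ) ≤ ((r.length : ℝ) + r'.length) / g k + 2 * h k * (b k : ℝ) ^ (E k - 1)

theorem pair_lt (hc : W_cyc) {k e e' n n' s s' : ℕ} (he : e < e') (he' : e' < E k)
    {w : List ℕ} (h1 : w.Sublist (cyc (g k) (h k * b k ^ e) n s))
    (h2 : w.Sublist (cyc (g k) (h k * b k ^ e') n' s')) :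
    (w.length : ℝ) ≤ ((n : ℝ) + n') / g k + 2 * h k * (b k : ℝ) ^ (E k - 1) := by
  have hg : (0 : ℝ) < g k := by exact_mod_cast g_pos k
  have hh : (0 : ℝ) < h k := by exact_mod_cast h_pos k
  have hb : (0 : ℝ) < b k := by exact_mod_cast b_pos k
  have hb1 : (1 : ℝ) ≤ b k := by exact_mod_cast b_pos k
  have hgb : (g k : ℝ) = b k := rfl
  have h3 := hc (g k) (h k * b k ^ e) (h k * b k ^ e') n n' s s' (g_pos k)
    (Nat.mul_pos (h_pos k) (Nat.pow_pos (b_pos k))) (Nat.mul_pos (h_pos k) (Nat.pow_pos (b_pos k)))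
    w h1 h2
  push_cast at h3
  have h4 : (n' : ℝ) * (h k * (b k : ℝ) ^ e) / (h k * (b k : ℝ) ^ e') ≤ (n' : ℝ) / g k := by
    rw [div_le_div_iff₀ (by positivity) hg]
    have h5 : (b k : ℝ) ^ e * b k ≤ (b k : ℝ) ^ e' := by
      rw [← pow_succ]
      exact pow_le_pow_right₀ hb1 he
    calc (n' : ℝ) * (h k * (b k : ℝ) ^ e) * g k = n' * h k * ((b k : ℝ) ^ e * b k) := by
          rw [hgb]; ring
      _ ≤ n' * h k * (b k : ℝ) ^ e' := mul_le_mul_of_nonneg_left h5 (by positivity)
      _ = n' * (h k * (b k : ℝ) ^ e') := by ring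
  have h6 : (b k : ℝ) ^ e ≤ (b k : ℝ) ^ (E k - 1) := pow_le_pow_right₀ hb1 (by omega)
  have h7 : 2 * ((h k : ℝ) * (b k : ℝ) ^ e) ≤ 2 * h k * (b k : ℝ) ^ (E k - 1) := by
    have := mul_le_mul_of_nonneg_left h6 hh.le
    linarith
  rw [add_div]
  linarith

theorem pair (hc : W_cyc) {k e e' : ℕ} (hne : e ≠ e') (he : e < E k) (he' : e' < E k)
    {x y : List ℕ} (hx : C k e x) (hy : C k e' y) : Pr k x y := by
  intro r r' w hr hr' hw hw'
  obtain ⟨n, s, hrn⟩ := C_infix hx hr
  obtain ⟨n', s', hrn'⟩ := C_infix hy hr'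
  have l1 : r.length = n := by rw [hrn]; simp [cyc]
  have l2 : r'.length = n' := by rw [hrn']; simp [cyc]
  rw [l1, l2]
  rw [hrn] at hw
  rw [hrn'] at hw'
  rcases lt_or_gt_of_ne hne with h | h
  · exact pair_lt hc h he' hw hw'
  · have := pair_lt hc h he hw' hw
    rw [add_comm (n : ℝ) n']
    exact this

theorem pair_nil_left {k : ℕ} {y : List ℕ} : Pr k [] y := by
  intro r r' w hr _ hw _
  have h1 : r = [] := List.infix_nil.1 hr
  rw [h1] at hw
  have h2 : w = [] := List.sublist_nil.1 hw
  rw [h2]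
  have hg : (0 : ℝ) < g k := by exact_mod_cast g_pos k
  simp only [List.length_nil, Nat.cast_zero]
  positivity

theorem pair_nil_right {k : ℕ} {x : List ℕ} : Pr k x [] := by
  intro r r' w _ hr _ hw
  have h1 : r' = [] := List.infix_nil.1 hr
  rw [h1] at hw
  have h2 : w = [] := List.sublist_nil.1 hw
  rw [h2]
  have hg : (0 : ℝ) < g k := by exact_mod_cast g_pos k
  simp only [List.length_nil, Nat.cast_zero]
  positivity

theorem combine {k : ℕ} {u1 u2 v1 v2 w : List ℕ} (h11 : Pr k u1 v1) (h12 : Pr k u1 v2)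
    (h21 : Pr k u2 v1) (h22 : Pr k u2 v2) (hw : w.Sublist (u1 ++ u2))
    (hw' : w.Sublist (v1 ++ v2)) :
    (w.length : ℝ) ≤ (((u1 ++ u2).length : ℝ) + (v1 ++ v2).length) / g k +
      6 * h k * (b k : ℝ) ^ (E k - 1) := by
  have hg : (0 : ℝ) < g k := by exact_mod_cast g_pos k
  obtain ⟨w1, w2, rfl, a1, a2⟩ := List.sublist_append_iff.1 hw
  obtain ⟨w1', w2', heq, a1', a2'⟩ := List.sublist_append_iff.1 hw'
  rcases List.append_eq_append_iff.1 heq with ⟨a, e1, e2⟩ | ⟨a, e1, e2⟩
  · -- `w1' = w1 ++ a`, `w2 = a ++ w2'`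
    rw [e1] at a1'
    rw [e2] at a2
    obtain ⟨p1, p2, hp, q1, q2⟩ := List.append_sublist_iff.1 a1'
    obtain ⟨r1, r2, hr, s1, s2⟩ := List.append_sublist_iff.1 a2
    have b1 := h11 u1 p1 w1 List.infix_rfl (by rw [hp]; exact (List.prefix_append _ _).isInfix)
      a1 q1
    have b2 := h21 r1 p2 a (by rw [hr]; exact (List.prefix_append _ _).isInfix)
      (by rw [hp]; exact (List.suffix_append _ _).isInfix) s1 q2
    have b3 := h22 r2 v2 w2' (by rw [hr]; exact (List.suffix_append _ _).isInfix)
      List.infix_rfl s2 a2'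
    rw [e2, hp, hr]
    simp only [List.length_append]
    push_cast
    have e : ((u1.length : ℝ) + (r1.length + r2.length) + (p1.length + p2.length + v2.length)) /
        g k = ((u1.length : ℝ) + p1.length) / g k + ((r1.length : ℝ) + p2.length) / g k +
        ((r2.length : ℝ) + v2.length) / g k := by ring
    rw [e]
    linarith
  · -- `w1 = w1' ++ a`, `w2' = a ++ w2`
    rw [e1] at a1
    rw [e2] at a2'
    obtain ⟨p1, p2, hp, q1, q2⟩ := List.append_sublist_iff.1 a1
    obtain ⟨r1, r2, hr, s1, s2⟩ := List.append_sublist_iff.1 a2'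
    have b1 := h11 p1 v1 w1' (by rw [hp]; exact (List.prefix_append _ _).isInfix)
      List.infix_rfl q1 a1'
    have b2 := h12 p2 r1 a (by rw [hp]; exact (List.suffix_append _ _).isInfix)
      (by rw [hr]; exact (List.prefix_append _ _).isInfix) q2 s1
    have b3 := h22 u2 r2 w2 List.infix_rfl (by rw [hr]; exact (List.suffix_append _ _).isInfix)
      a2 s2
    rw [e1, hp, hr]
    simp only [List.length_append]
    push_cast
    have e : ((p1.length : ℝ) + p2.length + u2.length + (v1.length + (r1.length + r2.length))) /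
        g k = ((p1.length : ℝ) + v1.length) / g k + ((p2.length : ℝ) + r1.length) / g k +
        ((u2.length : ℝ) + r2.length) / g k := by ring
    rw [e]
    linarith

theorem letter {k e : ℕ} (he : e ≤ E k) (s : ℕ) :
    s % (M k * Q k) / b k ^ e % M k / h k = s / (h k * b k ^ e) % g k := by
  have h1 : M k = g k * h k := rfl
  have h2 : M k * Q k = (b k ^ e * h k) * (g k * b k ^ (E k - e)) := by
    have h3 : Q k = b k ^ e * b k ^ (E k - e) := by
      rw [← pow_add]
      have : e + (E k - e) = E k := by omega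
      rw [this]; rfl
    rw [h1, h3]; ring
  have h4 : s % (M k * Q k) / b k ^ e % M k / h k
      = (s % (M k * Q k) / b k ^ e) / h k % g k := by
    rw [h1, Nat.mod_mul_left_div_self]
  rw [h4, Nat.div_div_eq_div_mul, h2, Nat.mod_mul_right_div_self, Nat.mod_mul_right_mod,
    Nat.mul_comm (b k ^ e) (h k)]

theorem split_pat {k c j : ℕ} (hj : j < M (k + 1)) {u : List ℕ} (hu : u <:+: pat k c j) :
    ∃ u1 u2 : List ℕ, u.map (fun a => a / h k) = u1 ++ u2 ∧ C k (g (k + 1) + j) u1 ∧
      C k (j / h (k + 1)) u2 ∧ (R k ≤ c → u2 = []) := by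
  obtain ⟨s0, hs0, hus⟩ := infix_map_range hu
  set n := u.length with hn
  set n1 := min n (c * (M k * Q k) - s0) with hn1
  have hE1 : g (k + 1) + j ≤ E k := by unfold E; omega
  have hE2 : j / h (k + 1) ≤ E k := by
    have := Nat.div_le_self j (h (k + 1))
    unfold E; omega
  have hMQ : 0 < M k * Q k := Nat.mul_pos (M_pos k) (Q_pos k)
  refine ⟨cyc (g k) (h k * b k ^ (g (k + 1) + j)) n1 s0,
    cyc (g k) (h k * b k ^ (j / h (k + 1))) (n - n1) (s0 + n1), ?_, ⟨_, _, rfl⟩, ⟨_, _, rfl⟩, ?_⟩
  · have e0 : u.map (fun a => a / h k) = (List.range (n1 + (n - n1))).map (fun i =>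
        (s0 + i) % (M k * Q k) / b k ^ ex k c j ((s0 + i) / (M k * Q k)) % M k / h k) := by
      have e1 : n1 + (n - n1) = n := by omega
      rw [e1, hus, List.map_map]
      rfl
    rw [e0, List.range_add, List.map_append]
    congr 1
    · unfold cyc
      refine List.map_congr_left fun i hi => ?_
      rw [List.mem_range] at hi
      have h1 : s0 + i < c * (M k * Q k) := by omega
      have h2 : (s0 + i) / (M k * Q k) < c := (Nat.div_lt_iff_lt_mul hMQ).2 h1
      unfold ex
      rw [if_pos h2, letter hE1]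
    · unfold cyc
      rw [List.map_map]
      refine List.map_congr_left fun i hi => ?_
      rw [List.mem_range] at hi
      have h1 : c * (M k * Q k) ≤ s0 + (n1 + i) := by omega
      have h2 : ¬ (s0 + (n1 + i)) / (M k * Q k) < c := by
        rw [not_lt]
        exact (Nat.le_div_iff_mul_le hMQ).2 h1
      simp only [Function.comp_apply]
      unfold ex
      rw [if_neg h2, letter hE2, Nat.add_assoc]
  · intro hRc
    have h1 : L k ≤ c * (M k * Q k) := by
      unfold L
      exact Nat.mul_le_mul_right _ hRc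
    have h2 : n1 = n := by omega
    rw [h2, Nat.sub_self]
    simp [cyc]

end WPat

open WPat in
theorem t_W_pat (hc : W_cyc) : W_pat := by
  intro k c j j' hj hj' hcase u v w hu hv hwu hwv
  obtain ⟨u1, u2, hu12, hu1, hu2, hu3⟩ := split_pat hj hu
  obtain ⟨v1, v2, hv12, hv1, hv2, hv3⟩ := split_pat hj' hv
  have hjd : j / h (k + 1) < g (k + 1) := (Nat.div_lt_iff_lt_mul (h_pos _)).2 hj
  have hjd' : j' / h (k + 1) < g (k + 1) := (Nat.div_lt_iff_lt_mul (h_pos _)).2 hj'
  have hE : E k = g (k + 1) + M (k + 1) := rfl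
  have hM : 0 < M (k + 1) := M_pos _
  have hne : j ≠ j' := by
    rcases hcase with h1 | h1
    · rintro rfl; exact h1 rfl
    · exact h1.1
  have h11 : Pr k u1 v1 := pair hc (e := g (k + 1) + j) (e' := g (k + 1) + j') (by omega)
    (by omega) (by omega) hu1 hv1
  have h12 : Pr k u1 v2 := pair hc (e := g (k + 1) + j) (e' := j' / h (k + 1)) (by omega)
    (by omega) (by omega) hu1 hv2
  have h21 : Pr k u2 v1 := pair hc (e := j / h (k + 1)) (e' := g (k + 1) + j') (by omega)
    (by omega) (by omega) hu2 hv1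
  have h22 : Pr k u2 v2 := by
    rcases hcase with h1 | h1
    · exact pair hc h1 (by omega) (by omega) hu2 hv2
    · rw [hu3 h1.2]
      exact pair_nil_left
  rw [hu12] at hwu
  rw [hv12] at hwv
  have main := combine h11 h12 h21 h22 hwu hwv
  rw [← hu12, ← hv12, List.length_map, List.length_map] at main
  exact main

end Pool.Agent.H468R2.KA
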