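import Pool.Agent.H468R2.KA.Tasks2

namespace Pool.Agent.H468R2.KA

theorem W_pieces_prefix (f : ℕ → List ℕ) (n : ℕ) (hf : ∀ a, (f a).length = n) :
    ∀ l Z : List ℕ, Z <+: l.flatMap f → ∃ Us : List (ℕ × List ℕ),
      Us.map Prod.fst <+: l ∧ (∀ p ∈ Us, p.2 <:+: f p.1) ∧ (Us.map Prod.snd).flatten = Z ∧
      Us.length * n ≤ Z.length + n := by
  intro l
  induction l with
  | nil =>
    intro Z hZ
    have hZ' : Z = [] := by simpa using hZ
    subst hZ'
    exact ⟨[], by simp, by simp, by simp, by simp⟩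
  | cons a l ih =>
    intro Z hZ
    rw [List.flatMap_cons] at hZ
    obtain ⟨t, ht⟩ := hZ
    rcases List.append_eq_append_iff.1 ht with ⟨a', h1, h2⟩ | ⟨c', h1, h2⟩
    · -- f a = Z ++ a'
      refine ⟨[(a, Z)], ?_, ?_, ?_, ?_⟩
      · exact ⟨l, by simp⟩
      · intro p hp
        have hp' : p = (a, Z) := by simpa using hp
        subst hp'
        exact ⟨[], a', by simp [h1]⟩
      · simp
      · simp
    · -- Z = f a ++ c', flatMap = c' ++ t
      obtain ⟨Us, u1, u2, u3, u4⟩ := ih c' ⟨t, h2.symm⟩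
      refine ⟨(a, f a) :: Us, ?_, ?_, ?_, ?_⟩
      · obtain ⟨r, hr⟩ := u1
        exact ⟨r, by simp [← hr]⟩
      · intro p hp
        rcases List.mem_cons.1 hp with rfl | hp
        · exact List.infix_rfl
        · exact u2 p hp
      · simp [u3, h1]
      · rw [h1, List.length_append, hf a, List.length_cons]
        nlinarith

theorem t_W_pieces : W_pieces := by
  intro f n _ hf l
  induction l with
  | nil =>
    intro U hU
    have hU' : U = [] := by simpa using hU
    subst hU'
    exact ⟨[], by simp, by simp, by simp, by simp⟩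
  | cons a l ih =>
    intro U hU
    rw [List.flatMap_cons] at hU
    obtain ⟨s, t, hst⟩ := hU
    rw [List.append_assoc] at hst
    rcases List.append_eq_append_iff.1 hst with ⟨a', h1, h2⟩ | ⟨c', h1, h2⟩
    · -- f a = s ++ a', U ++ t = a' ++ B
      rcases List.append_eq_append_iff.1 h2 with ⟨a'', h3, h4⟩ | ⟨c'', h3, h4⟩
      · -- a' = U ++ a''
        refine ⟨[(a, U)], ?_, ?_, ?_, ?_⟩
        · exact ⟨[], l, by simp⟩
        · intro p hp
          have hp' : p = (a, U) := by simpa using hp
          subst hp'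
          exact ⟨s, a'', by simp [h1, h3]⟩
        · simp
        · simp only [List.length_cons, List.length_nil]
          omega
      · -- U = a' ++ c'', B = c'' ++ t
        obtain ⟨Us, u1, u2, u3, u4⟩ := W_pieces_prefix f n hf l c'' ⟨t, h4.symm⟩
        refine ⟨(a, a') :: Us, ?_, ?_, ?_, ?_⟩
        · obtain ⟨r, hr⟩ := u1
          exact ⟨[], r, by simp [← hr]⟩
        · intro p hp
          rcases List.mem_cons.1 hp with rfl | hp
          · exact ⟨s, [], by simp [h1]⟩
          · exact u2 p hp
        · simp [u3, h3]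
        · rw [h3, List.length_append, List.length_cons]
          nlinarith
    · -- s = f a ++ c', B = c' ++ (U ++ t)
      obtain ⟨Us, ⟨r, r', hr⟩, u2, u3, u4⟩ := ih U ⟨c', t, by rw [h2]; simp⟩
      exact ⟨Us, ⟨a :: r, r', by simp [← hr]⟩, u2, u3, u4⟩

end Pool.Agent.H468R2.KA
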