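import Pool.Agent.H468R2.KA.Tasks2

set_option autoImplicit false

open MeasureTheory Filter Topology
open Pool.H110K2

namespace Pool.Agent.H468R2.KA

theorem t_W_sep (h1 : W_step) : W_sep := by
  intro c k
  induction k with
  | zero =>
    intro j j' _ _ hne U V w hU hV hwU hwV
    have hjj : j ≠ j' := by
      rcases hne with hh | ⟨hh, _⟩
      · intro e
        exact hh (by rw [e])
      · exact hh
    have hw : w = [] := by
      by_contra hw
      obtain ⟨x, hx⟩ := List.exists_mem_of_ne_nil w hw
      have e1 : x ∈ W c 0 j := hU.subset (hwU.subset hx)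
      have e2 : x ∈ W c 0 j' := hV.subset (hwV.subset hx)
      simp only [W, List.mem_singleton] at e1 e2
      exact hjj (e1.symm.trans e2)
    subst hw
    have hr : (0 : ℝ) ≤ rho 0 := by unfold rho; norm_num
    have he : (0 : ℝ) ≤ eta 0 := by unfold eta; positivity
    simp only [List.length_nil, Nat.cast_zero]
    positivity
  | succ k ih =>
    intro j j' hj hj' hne
    refine h1 c k (fun i i' hi hi' hii => ih i i' hi hi' (Or.inl hii)) j j' hj hj' ?_
    rcases hne with hh | ⟨hh, l, hl, hc⟩
    · exact Or.inl hh
    · obtain rfl : k = l := by omega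
      exact Or.inr ⟨hh, hc⟩

end Pool.Agent.H468R2.KA
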