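import Pool.Agent.H468R2.KA.Tasks2

/-! Task W_step (helper347): the induction step of the separation of words. -/

set_option autoImplicit false

namespace Pool.Agent.H468R2.KA

namespace TWstep

theorem Sp_infix {ρ η : ℝ} {w₁ w₂ u v : List ℕ} (hs : Sp ρ η w₁ w₂) (hu : u <:+: w₁)
    (hv : v <:+: w₂) : Sp ρ η u v := fun U V w hU hV h1 h2 =>
  hs U V w (hU.trans hu) (hV.trans hv) h1 h2

theorem mem_pat_lt {k c j a : ℕ} (ha : a ∈ pat k c j) : a < M k := by
  unfold pat at ha
  rw [List.mem_map] at ha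
  obtain ⟨s, _, rfl⟩ := ha
  exact Nat.mod_lt _ (M_pos k)

theorem rho_nonneg (k : ℕ) : 0 ≤ rho k := by
  unfold rho
  have h1 : (1:ℝ) / 2 ^ (k + 3) ≤ 1 / 2 ^ 2 := by
    apply one_div_le_one_div_of_le (by positivity)
    exact pow_le_pow_right₀ (by norm_num) (by omega)
  have h2 : (1:ℝ) / 2 ^ 2 = 1 / 4 := by norm_num
  linarith

theorem eta_pos (k : ℕ) : 0 < eta k := by unfold eta; positivity

theorem rho_succ (k : ℕ) : rho (k + 1) / 2 = rho k / 2 + (eta k + 1 / (g k : ℝ)) := by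
  unfold rho eta g
  have h2 : (2:ℝ) ^ k ≠ 0 := by positivity
  push_cast
  rw [show k + 1 + 3 = k + 4 by ring, pow_add, pow_add, pow_add]
  field_simp
  ring

theorem num (k : ℕ) (B : ℝ) (hB : 1 ≤ B) :
    4 * (eta k + 1 / (g k : ℝ)) + 6 * h k * B ≤
      eta (k + 1) * (R k * (M k * (b k * B))) := by
  have h1 : (1:ℝ) ≤ (2:ℝ) ^ k := one_le_pow₀ (by norm_num)
  have e1 : eta k = 1 / (64 * 2 ^ k) := by unfold eta; rw [pow_add]; congr 1; ring
  have e2 : eta (k + 1) = 1 / (128 * 2 ^ k) := by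
    unfold eta; rw [show k + 1 + 6 = k + 7 by ring, pow_add]; congr 1; ring
  have e3 : (g k : ℝ) = 64 * 2 ^ k := by unfold g; push_cast; rw [pow_add]; ring
  have e4 : (h k : ℝ) = 2 ^ k := by unfold h; push_cast; rfl
  have e5 : (b k : ℝ) = 64 * 2 ^ k := by unfold b; push_cast; rw [pow_add]; ring
  have e6 : (R k : ℝ) = 2 ^ k := by unfold R; push_cast; rfl
  have e7 : (M k : ℝ) = 64 * 2 ^ k * 2 ^ k := by unfold M; push_cast; rw [e3, e4]
  rw [e1, e2, e3, e4, e5, e6, e7]
  set x : ℝ := (2:ℝ) ^ k with hx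
  have hx0 : 0 < x := by linarith
  have a1 : 1 / (128 * x) * (x * (64 * x * x * (64 * x * B))) = 32 * (x * x) * (x * B) := by
    field_simp; ring
  have a2 : 4 * (1 / (64 * x) + 1 / (64 * x)) = 1 / (8 * x) := by field_simp; ring
  have a3 : 1 / (8 * x) ≤ 1 := by
    rw [div_le_one (by positivity)]; linarith
  have a4 : 1 ≤ x * B := by nlinarith
  have a5 : 1 ≤ x * x := by nlinarith
  rw [a1, a2]
  nlinarith

end TWstep

open TWstep

theorem t_W_step (hl : W_len) (hp : W_pieces) (hd : W_dp) (ht : W_pat) : W_step := by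
  intro c k hsep j j' hj hj' hne U V w hU hV hwU hwV
  obtain ⟨Us, hU1, hU2, hU3, hU4⟩ := hp (W c k) (N k) (N_pos k) (hl c k) (pat k (c k) j) U hU
  obtain ⟨Vs, hV1, hV2, hV3, hV4⟩ := hp (W c k) (N k) (N_pos k) (hl c k) (pat k (c k) j') V hV
  set fr : ℕ × List ℕ → ℕ × List ℕ := fun p => (p.1 / h k, p.2) with hfr
  have hUf : (Us.map fr).map Prod.fst = (Us.map Prod.fst).map (fun a => a / h k) := by
    rw [List.map_map, List.map_map]; rfl
  have hVf : (Vs.map fr).map Prod.fst = (Vs.map Prod.fst).map (fun a => a / h k) := by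
    rw [List.map_map, List.map_map]; rfl
  have hUs : (Us.map fr).map Prod.snd = Us.map Prod.snd := by
    rw [List.map_map]; rfl
  have hVs : (Vs.map fr).map Prod.snd = Vs.map Prod.snd := by
    rw [List.map_map]; rfl
  have hKnn : (0:ℝ) ≤ ((Us.length : ℝ) + Vs.length) / g k + 6 * h k * (b k : ℝ) ^ (E k - 1) := by
    positivity
  have key := hd (N k) (rho k) (eta k * N k) (rho_nonneg k)
    (mul_nonneg (eta_pos k).le (Nat.cast_nonneg _)) (Us.map fr) (Vs.map fr)
    (by
      intro p hpm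
      rw [List.mem_map] at hpm
      obtain ⟨p0, hp0, rfl⟩ := hpm
      have := (hU2 p0 hp0).length_le
      rw [hl] at this
      exact this)
    (by
      intro p hpm
      rw [List.mem_map] at hpm
      obtain ⟨p0, hp0, rfl⟩ := hpm
      have := (hV2 p0 hp0).length_le
      rw [hl] at this
      exact this)
    (by
      intro p hpm q hqm hpq
      rw [List.mem_map] at hpm hqm
      obtain ⟨p0, hp0, rfl⟩ := hpm
      obtain ⟨q0, hq0, rfl⟩ := hqm
      have h1 : p0.1 < M k := mem_pat_lt (hU1.subset (List.mem_map_of_mem hp0))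
      have h2 : q0.1 < M k := mem_pat_lt (hV1.subset (List.mem_map_of_mem hq0))
      exact Sp_infix (hsep p0.1 q0.1 h1 h2 hpq) (hU2 p0 hp0) (hV2 q0 hq0))
    ⌊((Us.length : ℝ) + Vs.length) / g k + 6 * h k * (b k : ℝ) ^ (E k - 1)⌋₊
    (by
      intro z hz1 hz2
      rw [hUf] at hz1
      rw [hVf] at hz2
      have := ht k (c k) j j' hj hj' hne _ _ z hU1 hV1 hz1 hz2
      rw [List.length_map, List.length_map] at this
      exact Nat.le_floor this)
    w (by rw [hUs, hU3]; exact hwU) (by rw [hVs, hV3]; exact hwV)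
  rw [hUs, hVs, hU3, hV3, List.length_map, List.length_map] at key
  have hfl : ((⌊((Us.length : ℝ) + Vs.length) / g k + 6 * h k * (b k : ℝ) ^ (E k - 1)⌋₊ : ℕ) : ℝ) ≤
      ((Us.length : ℝ) + Vs.length) / g k + 6 * h k * (b k : ℝ) ^ (E k - 1) := Nat.floor_le hKnn
  have hU4' : (Us.length : ℝ) * N k ≤ U.length + 2 * N k := by exact_mod_cast hU4
  have hV4' : (Vs.length : ℝ) * N k ≤ V.length + 2 * N k := by exact_mod_cast hV4
  have hN : (0:ℝ) < N k := by exact_mod_cast N_pos k
  have hB : (1:ℝ) ≤ (b k : ℝ) ^ (E k - 1) := by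
    apply one_le_pow₀
    exact_mod_cast b_pos k
  have hE : 0 < E k := by unfold E; exact Nat.add_pos_left (g_pos _) _
  have hQ : (Q k : ℝ) = b k * (b k : ℝ) ^ (E k - 1) := by
    unfold Q
    push_cast
    rw [← pow_succ', Nat.sub_add_cancel hE]
  have hNk : ((N (k + 1) : ℕ) : ℝ) = (R k * (M k * (b k * (b k : ℝ) ^ (E k - 1)))) * N k := by
    have : N (k + 1) = L k * N k := rfl
    rw [this, ← hQ]
    unfold L
    push_cast
    ring
  have hnum := num k _ hB
  rw [rho_succ, hNk]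
  set B : ℝ := (b k : ℝ) ^ (E k - 1) with hBdef
  set G : ℝ := eta k + 1 / (g k : ℝ) with hG
  have hGpos : 0 < G := by
    have := eta_pos k
    have h2 : (0:ℝ) ≤ 1 / (g k : ℝ) := by positivity
    linarith
  have h1 : (N k : ℝ) * ((⌊((Us.length : ℝ) + Vs.length) / g k + 6 * h k * B⌋₊ : ℕ) : ℝ) ≤
      N k * (((Us.length : ℝ) + Vs.length) / g k + 6 * h k * B) :=
    mul_le_mul_of_nonneg_left hfl hN.le
  have h2 : eta k * N k * ((Us.length : ℝ) + Vs.length) +
      N k * (((Us.length : ℝ) + Vs.length) / g k + 6 * h k * B) =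
      G * (Us.length * N k + Vs.length * N k) + 6 * h k * B * N k := by
    rw [hG]; ring
  have h3 : G * ((Us.length : ℝ) * N k + Vs.length * N k) ≤
      G * ((U.length + 2 * N k) + (V.length + 2 * N k)) :=
    mul_le_mul_of_nonneg_left (add_le_add hU4' hV4') hGpos.le
  have h4 : (4 * G + 6 * h k * B) * N k ≤ eta (k + 1) * (R k * (M k * (b k * B))) * N k :=
    mul_le_mul_of_nonneg_right hnum hN.le
  have h5 : eta (k + 1) * ((R k : ℝ) * (M k * (b k * B)) * N k) =
    eta (k + 1) * (R k * (M k * (b k * B))) * N k := by ring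
  rw [h5]
  linarith

end Pool.Agent.H468R2.KA
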