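import Pool.Agent.H468R2.KA.Tasks2

/-! Y_Gd (helper873) -/

set_option autoImplicit false

open MeasureTheory Filter Topology

namespace Pool.Agent.H468R2.KA

open Classical in
theorem Y_Gd_T_eq (c : ℕ → ℕ) (y : Y) (κ : ℕ) (h1 : y κ ≠ la κ) (h2 : ∀ l < κ, y l = la l) :
    T c y = fun l => if l < κ then zr l
      else if l = κ then nxt l (c l) (ty (l + 1) y) (y l) else y l := by
  have H : ∃ k, y k ≠ la k := ⟨κ, h1⟩
  have hf : Nat.find H = κ := by
    rw [Nat.find_eq_iff]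
    exact ⟨h1, fun n hn => not_not.2 (h2 n hn)⟩
  unfold T
  rw [dif_pos H]
  simp only [hf]

open Classical in
theorem Y_Gd_S_eq (c : ℕ → ℕ) (y : Y) (κ : ℕ) (h1 : y κ ≠ zr κ) (h2 : ∀ l < κ, y l = zr l) :
    S c y = fun l => if l < κ then la l
      else if l = κ then prv l (c l) (ty (l + 1) y) (y l) else y l := by
  have H : ∃ k, y k ≠ zr k := ⟨κ, h1⟩
  have hf : Nat.find H = κ := by
    rw [Nat.find_eq_iff]
    exact ⟨h1, fun n hn => not_not.2 (h2 n hn)⟩
  unfold S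
  rw [dif_pos H]
  simp only [hf]

theorem Y_Gd_nxt (hp : Y_pos) (k c j : ℕ) (hj : j < M (k + 1)) (d : D k) (hd : d ≠ la k) :
    pos k c j (nxt k c j d) = pos k c j d + 1 := by
  obtain ⟨h1, h2, h3, h4, h5, -⟩ := hp k c j hj
  have h6 : pos k c j d ≠ L k - 1 := fun h => hd (h2 (h.trans h5.symm))
  have h7 := h1 d
  have H : ∃ d' : D k, pos k c j d' = pos k c j d + 1 := h3 _ (by omega)
  unfold nxt
  rw [dif_pos H]
  exact H.choose_spec

theorem Y_Gd_prv (hp : Y_pos) (k c j : ℕ) (hj : j < M (k + 1)) (d : D k) (hd : d ≠ zr k) :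
    pos k c j (prv k c j d) + 1 = pos k c j d := by
  obtain ⟨h1, h2, h3, h4, h5, -⟩ := hp k c j hj
  have h6 : pos k c j d ≠ 0 := fun h => hd (h2 (h.trans h4.symm))
  have h7 := h1 d
  have H : ∃ d' : D k, pos k c j d' + 1 = pos k c j d := by
    obtain ⟨d', hd'⟩ := h3 (pos k c j d - 1) (by omega)
    exact ⟨d', by omega⟩
  unfold prv
  rw [dif_pos H]
  exact H.choose_spec

theorem t_Y_Gd (hp : Y_pos) : Y_Gd := by
  classical
  intro c y hy
  obtain ⟨hy1, hy2⟩ := hy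
  have hty : ∀ k, ty k y < M k := fun k => (y k).1.2
  -- the first coordinates
  have H1 : ∃ k, y k ≠ la k := (hy1 0).imp fun l hl => hl.2
  have H2 : ∃ k, y k ≠ zr k := (hy2 0).imp fun l hl => hl.2
  obtain ⟨κ, hκ, hκm⟩ : ∃ κ, y κ ≠ la κ ∧ ∀ l < κ, y l = la l :=
    ⟨Nat.find H1, Nat.find_spec H1, fun l hl => not_not.1 (Nat.find_min H1 hl)⟩
  obtain ⟨μ, hμ, hμm⟩ : ∃ κ, y κ ≠ zr κ ∧ ∀ l < κ, y l = zr l :=
    ⟨Nat.find H2, Nat.find_spec H2, fun l hl => not_not.1 (Nat.find_min H2 hl)⟩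
  have eT := Y_Gd_T_eq c y κ hκ hκm
  have eS := Y_Gd_S_eq c y μ hμ hμm
  have T1 : ∀ l < κ, T c y l = zr l := fun l hl => by rw [eT]; simp only [if_pos hl]
  have T2 : T c y κ = nxt κ (c κ) (ty (κ + 1) y) (y κ) := by
    rw [eT]; simp only [lt_irrefl, if_false, if_true]
  have T3 : ∀ l, κ < l → T c y l = y l := fun l hl => by
    rw [eT]; simp only [if_neg (not_lt.2 hl.le), if_neg hl.ne']
  have S1 : ∀ l < μ, S c y l = la l := fun l hl => by rw [eS]; simp only [if_pos hl]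
  have S2 : S c y μ = prv μ (c μ) (ty (μ + 1) y) (y μ) := by
    rw [eS]; simp only [lt_irrefl, if_false, if_true]
  have S3 : ∀ l, μ < l → S c y l = y l := fun l hl => by
    rw [eS]; simp only [if_neg (not_lt.2 hl.le), if_neg hl.ne']
  refine ⟨⟨fun k => ?_, fun k => ?_⟩, ⟨fun k => ?_, fun k => ?_⟩, ?_, ?_⟩
  · obtain ⟨l, hl, hl'⟩ := hy1 (max k (κ + 1))
    exact ⟨l, (le_max_left _ _).trans hl, by rw [T3 l (by omega)]; exact hl'⟩
  · obtain ⟨l, hl, hl'⟩ := hy2 (max k (κ + 1))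
    exact ⟨l, (le_max_left _ _).trans hl, by rw [T3 l (by omega)]; exact hl'⟩
  · obtain ⟨l, hl, hl'⟩ := hy1 (max k (μ + 1))
    exact ⟨l, (le_max_left _ _).trans hl, by rw [S3 l (by omega)]; exact hl'⟩
  · obtain ⟨l, hl, hl'⟩ := hy2 (max k (μ + 1))
    exact ⟨l, (le_max_left _ _).trans hl, by rw [S3 l (by omega)]; exact hl'⟩
  · have hj := hty (κ + 1)
    have hn := Y_Gd_nxt hp κ (c κ) (ty (κ + 1) y) hj (y κ) hκ
    obtain ⟨h1, h2, h3, h4, h5, -⟩ := hp κ (c κ) (ty (κ + 1) y) hj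
    have hz : T c y κ ≠ zr κ := by
      intro h
      rw [T2] at h
      rw [h, h4] at hn
      omega
    have hty' : ty (κ + 1) (T c y) = ty (κ + 1) y := by
      unfold ty
      rw [T3 (κ + 1) (by omega)]
    have hp2 := Y_Gd_prv hp κ (c κ) (ty (κ + 1) y) hj (T c y κ) hz
    rw [Y_Gd_S_eq c (T c y) κ hz T1]
    funext l
    rcases lt_trichotomy l κ with hl | hl | hl
    · simp only [if_pos hl]
      exact (hκm l hl).symm
    · subst hl
      simp only [lt_irrefl, if_false, if_true]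
      rw [hty']
      apply h2
      rw [← T2] at hn
      omega
    · simp only [if_neg (not_lt.2 hl.le), if_neg hl.ne']
      exact T3 l hl
  · have hj := hty (μ + 1)
    have hn := Y_Gd_prv hp μ (c μ) (ty (μ + 1) y) hj (y μ) hμ
    obtain ⟨h1, h2, h3, h4, h5, -⟩ := hp μ (c μ) (ty (μ + 1) y) hj
    have hz : S c y μ ≠ la μ := by
      intro h
      rw [S2] at h
      rw [h, h5] at hn
      have := h1 (y μ)
      omega
    have hty' : ty (μ + 1) (S c y) = ty (μ + 1) y := by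
      unfold ty
      rw [S3 (μ + 1) (by omega)]
    have hp2 := Y_Gd_nxt hp μ (c μ) (ty (μ + 1) y) hj (S c y μ) hz
    rw [Y_Gd_T_eq c (S c y) μ hz S1]
    funext l
    rcases lt_trichotomy l μ with hl | hl | hl
    · simp only [if_pos hl]
      exact (hμm l hl).symm
    · subst hl
      simp only [lt_irrefl, if_false, if_true]
      rw [hty']
      apply h2
      rw [← S2] at hn
      omega
    · simp only [if_neg (not_lt.2 hl.le), if_neg hl.ne']
      exact S3 l hl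

end Pool.Agent.H468R2.KA
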