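import Pool.Agent.H468R2.KA.Tasks2

/-! Y_P: the position `P` (from `Y_pos`). -/

set_option autoImplicit false

namespace Pool.Agent.H468R2.KA

namespace YPaux

lemma arith1 {q r l n : ℕ} (hr : r < n) (hq : q < l) : q * n + r < l * n := by
  have h1 : (q + 1) * n ≤ l * n := Nat.mul_le_mul_right n hq
  rw [Nat.add_mul, one_mul] at h1
  omega

lemma arith2 {q r l n : ℕ} (hr : r < n) (hq : q < l) :
    q * n + r + 1 = l * n ↔ q + 1 = l ∧ r + 1 = n := by
  constructor
  · intro h
    have h1 : (q + 1) * n ≤ l * n := Nat.mul_le_mul_right n hq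
    rw [Nat.add_mul, one_mul] at h1
    have h2 : r + 1 = n := by omega
    refine ⟨?_, h2⟩
    have h3 : (q + 1) * n = l * n := by
      rw [Nat.add_mul, one_mul]
      omega
    exact Nat.eq_of_mul_eq_mul_right (by omega) h3
  · rintro ⟨rfl, rfl⟩
    rw [Nat.add_mul, one_mul]
    omega

lemma arith3 {q r q' r' n : ℕ} (hr : r < n) (hr' : r' < n) (h : q * n + r = q' * n + r') :
    q = q' ∧ r = r' := by
  have h1 : (q * n + r) / n = q := by
    rw [mul_comm, Nat.mul_add_div (by omega), Nat.div_eq_of_lt hr, add_zero]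
  have h2 : (q' * n + r') / n = q' := by
    rw [mul_comm, Nat.mul_add_div (by omega), Nat.div_eq_of_lt hr', add_zero]
  have h3 : q = q' := by rw [← h1, ← h2, h]
  subst h3
  exact ⟨rfl, by omega⟩

end YPaux

open YPaux in
theorem t_Y_P (h : Y_pos) : Y_P := by
  intro c K
  induction K with
  | zero =>
    intro y
    refine ⟨one_pos, ⟨fun _ l hl => absurd hl (Nat.not_lt_zero l), fun _ => rfl⟩,
      ⟨fun _ l hl => absurd hl (Nat.not_lt_zero l), fun _ => rfl⟩, ?_, ?_⟩
    · intro z hz _
      funext l
      exact hz l (Nat.zero_le l)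
    · intro n hn
      have hn' : n < 1 := hn
      refine ⟨y, fun _ _ => rfl, ?_⟩
      show 0 = n
      omega
  | succ K ih =>
    intro y
    have hty : ∀ y : Y, ty (K + 1) y < M (K + 1) := fun y => (y (K + 1)).1.2
    have hPs : ∀ y : Y, P c (K + 1) y =
        pos K (c K) (ty (K + 1) y) (y K) * N K + P c K y := fun _ => rfl
    have hNs : N (K + 1) = L K * N K := rfl
    have hL : 0 < L K := L_pos K
    obtain ⟨p1, p2, p3, p4, p5, -⟩ := h K (c K) (ty (K + 1) y) (hty y)
    obtain ⟨i1, i2, i3, i4, i5⟩ := ih y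
    rw [hPs y, hNs]
    refine ⟨arith1 i1 (p1 (y K)), ?_, ?_, ?_, ?_⟩
    · constructor
      · intro h0
        rw [Nat.add_eq_zero_iff] at h0
        have h1 : pos K (c K) (ty (K + 1) y) (y K) = 0 := by
          rcases Nat.mul_eq_zero.1 h0.1 with h1 | h1
          · exact h1
          · exact absurd h1 (N_pos K).ne'
        have h2 : y K = zr K := p2 (by rw [h1, p4])
        intro l hl
        rcases Nat.lt_succ_iff_lt_or_eq.1 hl with h3 | h3
        · exact i2.1 h0.2 l h3
        · rw [h3]; exact h2
      · intro h0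
        rw [h0 K (Nat.lt_succ_self K), p4, zero_mul, zero_add]
        exact i2.2 fun l hl => h0 l (Nat.lt_succ_of_lt hl)
    · rw [arith2 i1 (p1 (y K)), i3]
      constructor
      · rintro ⟨h1, h2⟩ l hl
        rcases Nat.lt_succ_iff_lt_or_eq.1 hl with h3 | h3
        · exact h2 l h3
        · rw [h3]
          exact p2 (by rw [p5]; omega)
      · intro h0
        refine ⟨?_, fun l hl => h0 l (Nat.lt_succ_of_lt hl)⟩
        rw [h0 K (Nat.lt_succ_self K), p5]
        omega
    · intro z hz heq
      rw [hPs z] at heq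
      have ht : ty (K + 1) z = ty (K + 1) y := by
        unfold ty
        rw [hz (K + 1) le_rfl]
      rw [ht] at heq
      obtain ⟨h1, h2⟩ := arith3 i1 (ih z).1 heq
      have h3 : y K = z K := p2 h1
      refine i4 z (fun l hl => ?_) h2
      rcases hl.eq_or_lt with h4 | h4
      · rw [← h4]; exact h3
      · exact hz l h4
    · intro n hn
      have hq : n / N K < L K := by
        rw [Nat.div_lt_iff_lt_mul (N_pos K)]
        exact hn
      obtain ⟨d, hd⟩ := p3 _ hq
      obtain ⟨z, hz1, hz2⟩ := (ih (Function.update y K d)).2.2.2.2 (n % N K)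
        (Nat.mod_lt _ (N_pos K))
      have hzl : ∀ l, K + 1 ≤ l → z l = y l := by
        intro l hl
        rw [hz1 l (by omega), Function.update_of_ne (by omega)]
      refine ⟨z, hzl, ?_⟩
      have ht : ty (K + 1) z = ty (K + 1) y := by
        unfold ty
        rw [hzl (K + 1) le_rfl]
      have hzK : z K = d := by
        rw [hz1 K le_rfl, Function.update_self]
      rw [hPs z, ht, hzK, hd, hz2]
      exact Nat.div_add_mod' n (N K)

end Pool.Agent.H468R2.KA
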