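import Pool.Agent.H468R2.KA.Tasks2

/-!
# Iterates of the first point of a word
-/

set_option autoImplicit false

open MeasureTheory Filter Topology
open Pool.H110K2

namespace Pool.Agent.H468R2.KA

theorem t_Y_bs (h1 : Y_P) (h2 : Y_iter) : Y_bs := by
  intro c K y
  have h3 : P c K (bs K y) = 0 := by
    rw [(h1 c K (bs K y)).2.1]
    intro l hl
    unfold bs
    rw [if_pos hl]
  have h4 : ∀ i, i < N K → P c K ((T c)^[i] (bs K y)) = i ∧
      ∀ l, K ≤ l → (T c)^[i] (bs K y) l = y l := by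
    intro i hi
    obtain ⟨h5, h6⟩ := h2 c (bs K y) K i (by rw [h3, Nat.zero_add]; exact hi)
    refine ⟨by rw [h5, h3, Nat.zero_add], fun l hl => ?_⟩
    rw [h6 l hl]
    unfold bs
    rw [if_neg (Nat.not_lt.2 hl)]
  refine ⟨h4, ?_⟩
  obtain ⟨h5, h6⟩ := h4 (P c K y) (h1 c K y).1
  exact ((h1 c K y).2.2.2.1 _ (fun l hl => (h6 l hl).symm) h5.symm).symm

end Pool.Agent.H468R2.KA
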