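import Pool.Agent.H468R2.KA.Tasks2

set_option autoImplicit false

open MeasureTheory Filter Topology
open Pool.H110K2

namespace Pool.Agent.H468R2.KA

theorem Y_cover_gd (hGd : Y_Gd) (c : ℕ → ℕ) (y : Y) (hy : y ∈ Gd) (n : ℕ) :
    (T c)^[n] y ∈ Gd := by
  induction n with
  | zero => exact hy
  | succ n ih =>
    rw [Function.iterate_succ_apply']
    exact (hGd c _ ih).1

theorem Y_cover_zero (hP : Y_P) (c : ℕ → ℕ) (K : ℕ) (y : Y) (hy : y ∈ Gd)
    (h : P c K y + 1 = N K) : P c K (T c y) = 0 := by
  have hla : ∀ l < K, y l = la l := ((hP c K y).2.2.1).1 h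
  refine ((hP c K (T c y)).2.1).2 ?_
  intro l hl
  have H : ∃ k, y k ≠ la k := by
    obtain ⟨l, _, h⟩ := hy.1 0
    exact ⟨l, h⟩
  unfold T
  rw [dif_pos H]
  have hf : l < Nat.find H := by
    by_contra hcon
    have h1 : Nat.find H < K := by omega
    exact Nat.find_spec H (hla _ h1)
  simp only [hf, if_true]

theorem Y_cover_next (hP : Y_P) (hI : Y_iter) (hGd : Y_Gd) (c : ℕ → ℕ) (K : ℕ) (y : Y)
    (hy : y ∈ Gd) : P c K ((T c)^[N K - P c K y] y) = 0 := by
  have hlt := (hP c K y).1
  obtain ⟨m, hm⟩ : ∃ m, N K - P c K y = m + 1 := ⟨N K - P c K y - 1, by omega⟩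
  rw [hm, Function.iterate_succ_apply']
  refine Y_cover_zero hP c K _ (Y_cover_gd hGd c y hy m) ?_
  have := (hI c y K m (by omega)).1
  omega

theorem Y_cover_add (c : ℕ → ℕ) (y : Y) (m n : ℕ) :
    nm c y (m + n) = nm c y m ++ nm c ((T c)^[m] y) n := by
  unfold nm
  rw [List.range_add, List.map_append, List.map_map]
  congr 1
  apply List.map_congr_left
  intro i _
  simp only [Function.comp]
  rw [← Function.iterate_add_apply, Nat.add_comm]

theorem Y_cover_len (c : ℕ → ℕ) (y : Y) (n : ℕ) : (nm c y n).length = n := by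
  unfold nm; simp

theorem Y_cover_full (hN : Y_name) (hlen : W_len) (c : ℕ → ℕ) (K : ℕ) (z : Y)
    (hz : P c K z = 0) : nm c z (N K) = W c K (ty K z) := by
  have h := hN c K z (N K) (by omega)
  apply h.eq_of_length
  rw [Y_cover_len, hlen]

theorem Y_cover_ty (K : ℕ) (y : Y) : ty K y < M K := (y K).1.isLt

theorem Y_cover_pre (hN : Y_name) (hP : Y_P) (hI : Y_iter) (hGd : Y_Gd) (hlen : W_len)
    (c : ℕ → ℕ) (K : ℕ) : ∀ (n : ℕ) (z : Y), z ∈ Gd → P c K z = 0 → ∃ l : List ℕ,
      nm c z n <+: l.flatMap (W c K) ∧ (∀ a ∈ l, a < M K) ∧ l.length * N K ≤ n + N K := by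
  intro n
  induction n using Nat.strong_induction_on with
  | _ n ih =>
    intro z hz hz0
    by_cases hn : n < N K
    · refine ⟨[ty K z], ?_, ?_, ?_⟩
      · have h1 := Y_cover_full hN hlen c K z hz0
        obtain ⟨m, hm⟩ : ∃ m, N K = n + m := ⟨N K - n, by omega⟩
        have h2 := Y_cover_add c z n m
        rw [← hm, h1] at h2
        simp only [List.flatMap_cons, List.flatMap_nil, List.append_nil]
        rw [h2]
        exact List.prefix_append _ _
      · intro a ha
        rw [List.mem_singleton] at ha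
        rw [ha]
        exact Y_cover_ty K z
      · simp
    · push Not at hn
      have hNpos := N_pos K
      have hnext := Y_cover_next hP hI hGd c K z hz
      rw [hz0, Nat.sub_zero] at hnext
      obtain ⟨l, h1, h2, h3⟩ := ih (n - N K) (by omega) ((T c)^[N K] z)
        (Y_cover_gd hGd c z hz _) hnext
      refine ⟨ty K z :: l, ?_, ?_, ?_⟩
      · obtain ⟨m, hm⟩ : ∃ m, n = N K + m := ⟨n - N K, by omega⟩
        have e : n - N K = m := by omega
        rw [e] at h1
        rw [hm, Y_cover_add, Y_cover_full hN hlen c K z hz0, List.flatMap_cons]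
        obtain ⟨t, ht⟩ := h1
        exact ⟨t, by rw [List.append_assoc, ht]⟩
      · intro a ha
        rcases List.mem_cons.1 ha with rfl | ha
        · exact Y_cover_ty K z
        · exact h2 a ha
      · rw [List.length_cons, Nat.add_mul, one_mul]
        omega

theorem t_Y_cover (hN : Y_name) (hP : Y_P) (hI : Y_iter) (_hU : Y_up) (hGd : Y_Gd)
    (_hS : Y_step) (hlen : W_len) : Y_cover := by
  intro c K y n hy
  by_cases hn : P c K y + n ≤ N K
  · refine ⟨[ty K y], ?_, ?_, ?_⟩
    · simp only [List.flatMap_cons, List.flatMap_nil, List.append_nil]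
      exact hN c K y n hn
    · intro a ha
      rw [List.mem_singleton] at ha
      rw [ha]
      exact Y_cover_ty K y
    · rw [List.length_singleton]
      omega
  · push Not at hn
    have hlt := (hP c K y).1
    obtain ⟨z, hz1, hz2⟩ := (hP c K y).2.2.2.2 0 (N_pos K)
    have hit := hI c z K (P c K y) (by omega)
    have hyz : y = (T c)^[P c K y] z := by
      refine (hP c K y).2.2.2.1 _ ?_ ?_
      · intro l hl
        rw [hit.2 l hl, hz1 l hl]
      · rw [hit.1, hz2, Nat.zero_add]
    have hty : ty K z = ty K y := by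
      unfold ty
      rw [hz1 K le_rfl]
    obtain ⟨m, hm⟩ : ∃ m, N K = P c K y + m := ⟨N K - P c K y, by omega⟩
    have hm' : N K - P c K y = m := by omega
    have hfull : W c K (ty K y) = nm c z (P c K y) ++ nm c y m := by
      rw [← hty, ← Y_cover_full hN hlen c K z hz2]
      have := Y_cover_add c z (P c K y) m
      rw [← hm, ← hyz] at this
      exact this
    have hnext := Y_cover_next hP hI hGd c K y hy
    rw [hm'] at hnext
    obtain ⟨l, h1, h2, h3⟩ := Y_cover_pre hN hP hI hGd hlen c K (n - m) ((T c)^[m] y)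
      (Y_cover_gd hGd c y hy _) hnext
    refine ⟨ty K y :: l, ?_, ?_, ?_⟩
    · obtain ⟨n', hn'⟩ : ∃ n', n = m + n' := ⟨n - m, by omega⟩
      have e : n - m = n' := by omega
      rw [e] at h1
      rw [hn', Y_cover_add, List.flatMap_cons, hfull]
      obtain ⟨t, ht⟩ := h1
      refine ⟨nm c z (P c K y), t, ?_⟩
      rw [← ht]
      simp only [List.append_assoc]
    · intro a ha
      rcases List.mem_cons.1 ha with rfl | ha
      · exact Y_cover_ty K y
      · exact h2 a ha
    · rw [List.length_cons, Nat.add_mul, one_mul]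
      omega

end Pool.Agent.H468R2.KA
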