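import Pool.Agent.H468R2.KA.Tasks2

set_option autoImplicit false

open MeasureTheory Filter Topology
open Pool.H110K2

namespace Pool.Agent.H468R2.KA

theorem Y_ind_gd (y z : Y) (hy : y ∈ Gd) (K : ℕ) (h : ∀ l, K ≤ l → z l = y l) : z ∈ Gd := by
  refine ⟨fun k => ?_, fun k => ?_⟩
  · obtain ⟨l, hl, hne⟩ := hy.1 (max k K)
    refine ⟨l, le_trans (le_max_left _ _) hl, ?_⟩
    rw [h l (le_trans (le_max_right _ _) hl)]
    exact hne
  · obtain ⟨l, hl, hne⟩ := hy.2 (max k K)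
    refine ⟨l, le_trans (le_max_left _ _) hl, ?_⟩
    rw [h l (le_trans (le_max_right _ _) hl)]
    exact hne

/-- the set of points where the two parameter sequences agree -/
def Y_ind_A (c c' : ℕ → ℕ) (K : ℕ) : Set Y :=
  {y | (∀ l < K, y l = zr l) ∧
    ∀ l, K ≤ l → (((y l).2.1 : ℕ) < c l ↔ ((y l).2.1 : ℕ) < c' l)}

theorem Y_ind_pos (c c' : ℕ → ℕ) (k j : ℕ) (d : D k)
    (h : ((d.2.1 : ℕ) < c k ↔ (d.2.1 : ℕ) < c' k)) :
    pos k (c k) j d = pos k (c' k) j d := by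
  have he : ex k (c k) j d.2.1 = ex k (c' k) j d.2.1 := by
    unfold ex
    by_cases h1 : (d.2.1 : ℕ) < c k
    · rw [if_pos h1, if_pos (h.1 h1)]
    · rw [if_neg h1, if_neg (fun h2 => h1 (h.2 h2))]
  unfold pos
  rw [he]

theorem Y_ind_lt (c c' : ℕ → ℕ) (K : ℕ) (y z : Y) (hy : y ∈ Y_ind_A c c' K)
    (hz : z ∈ Y_ind_A c c' K) (h : lt c y z) : lt c' y z := by
  obtain ⟨k, h1, h2⟩ := h
  have hk : K ≤ k := by
    by_contra hcon
    push Not at hcon
    rw [hy.1 k hcon, hz.1 k hcon] at h2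
    exact lt_irrefl _ h2
  refine ⟨k, h1, ?_⟩
  rw [← Y_ind_pos c c' k _ (y k) (hy.2 k hk), ← Y_ind_pos c c' k _ (z k) (hz.2 k hk)]
  exact h2

theorem Y_ind_symm (c c' : ℕ → ℕ) (K : ℕ) : Y_ind_A c c' K = Y_ind_A c' c K := by
  ext y
  exact ⟨fun h => ⟨h.1, fun l hl => (h.2 l hl).symm⟩, fun h => ⟨h.1, fun l hl => (h.2 l hl).symm⟩⟩

theorem Y_ind_orb (hL : Y_lt) (hI : Y_iter) (hU : Y_up) (c : ℕ → ℕ) (y : Y) (hy : y ∈ Gd)
    (n : ℕ) (hn : 1 ≤ n) : lt c y ((T c)^[n] y) ∧ (T c)^[n] y ∈ Gd := by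
  obtain ⟨K, hK⟩ := hU c y hy n
  obtain ⟨h1, h2⟩ := hI c y K n hK
  refine ⟨?_, Y_ind_gd y _ hy K h2⟩
  rw [hL c K y _ (fun l hl => (h2 l hl).symm), h1]
  omega

theorem Y_ind_asymm (hL : Y_lt) (c : ℕ → ℕ) (y z : Y) (h1 : lt c y z) (h2 : lt c z y) :
    False := by
  have h1' := h1
  obtain ⟨k, hk, _⟩ := h1
  have a1 := (hL c (k + 1) y z (fun l hl => hk l hl)).1 h1'
  have a2 := (hL c (k + 1) z y (fun l hl => (hk l hl).symm)).1 h2
  omega

/-- a return for `c` is a return for `c'` -/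
theorem Y_ind_ret (hL : Y_lt) (hI : Y_iter) (hU : Y_up) (hR : Y_reach) (c c' : ℕ → ℕ) (K : ℕ)
    (y : Y) (hy : y ∈ Y_ind_A c c' K) (hg : y ∈ Gd) (n : ℕ) (hn : 1 ≤ n)
    (hz : (T c)^[n] y ∈ Y_ind_A c c' K) : ∃ m, 1 ≤ m ∧ (T c')^[m] y = (T c)^[n] y :=
  hR c' y _ (Y_ind_lt c c' K y _ hy hz (Y_ind_orb hL hI hU c y hg n hn).1)

theorem t_Y_ind (_h1 : Y_pos) (_h2 : Y_P) (hL : Y_lt) (hI : Y_iter) (hU : Y_up)
    (hR : Y_reach) : Y_ind := by
  intro c c' K A hA y hyA hg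
  have hA1 : A = Y_ind_A c c' K := hA
  have hA2 : A = Y_ind_A c' c K := by rw [hA1, Y_ind_symm]
  subst hA1
  have hyA' : y ∈ Y_ind_A c' c K := by rw [← hA2]; exact hyA
  by_cases hne : ({n | 1 ≤ n ∧ (T c)^[n] y ∈ Y_ind_A c c' K} : Set ℕ).Nonempty
  · have hne' : ({n | 1 ≤ n ∧ (T c')^[n] y ∈ Y_ind_A c c' K} : Set ℕ).Nonempty := by
      obtain ⟨n, hn, hz⟩ := hne
      obtain ⟨m, hm, he⟩ := Y_ind_ret hL hI hU hR c c' K y hyA hg n hn hz
      exact ⟨m, hm, by rw [he]; exact hz⟩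
    have hn := Nat.sInf_mem hne
    have hm := Nat.sInf_mem hne'
    unfold induced
    have en : retTime (T c) (Y_ind_A c c' K) y =
      sInf {n | 1 ≤ n ∧ (T c)^[n] y ∈ Y_ind_A c c' K} := rfl
    have em : retTime (T c') (Y_ind_A c c' K) y =
      sInf {n | 1 ≤ n ∧ (T c')^[n] y ∈ Y_ind_A c c' K} := rfl
    rw [← en] at hn
    rw [← em] at hm
    set n := retTime (T c) (Y_ind_A c c' K) y with hndef
    set m := retTime (T c') (Y_ind_A c c' K) y with hmdef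
    obtain ⟨hn1, hnz⟩ := hn
    obtain ⟨hm1, hmz⟩ := hm
    obtain ⟨m', hm', hem⟩ := Y_ind_ret hL hI hU hR c c' K y hyA hg n hn1 hnz
    have hmz' : (T c')^[m] y ∈ Y_ind_A c' c K := by rw [← hA2]; exact hmz
    obtain ⟨n', hn', hen⟩ := Y_ind_ret hL hI hU hR c' c K y hyA' hg m hm1 hmz'
    have hmm : m ≤ m' := by
      rw [em]
      exact Nat.sInf_le ⟨hm', by rw [hem]; exact hnz⟩
    have hnn : n ≤ n' := by
      rw [en]
      exact Nat.sInf_le ⟨hn', by rw [hen]; exact hmz⟩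
    by_contra hcon
    have hmm2 : m < m' := by
      rcases lt_or_eq_of_le hmm with h | h
      · exact h
      · exfalso
        apply hcon
        rw [← hem, h]
    have hnn2 : n < n' := by
      rcases lt_or_eq_of_le hnn with h | h
      · exact h
      · exfalso
        apply hcon
        rw [← hen, h]
    have g1 := (Y_ind_orb hL hI hU c y hg n hn1).2
    have g2 := (Y_ind_orb hL hI hU c' y hg m hm1).2
    -- z' after z for c
    have l1 : lt c ((T c)^[n] y) ((T c')^[m] y) := by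
      have := (Y_ind_orb hL hI hU c _ g1 (n' - n) (by omega)).1
      rw [← Function.iterate_add_apply, Nat.sub_add_cancel hnn, hen] at this
      exact this
    have l2 : lt c' ((T c')^[m] y) ((T c)^[n] y) := by
      have := (Y_ind_orb hL hI hU c' _ g2 (m' - m) (by omega)).1
      rw [← Function.iterate_add_apply, Nat.sub_add_cancel hmm, hem] at this
      exact this
    have hnz' : (T c)^[n] y ∈ Y_ind_A c' c K := by rw [← hA2]; exact hnz
    have l3 := Y_ind_lt c' c K _ _ hmz' hnz' l2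
    exact Y_ind_asymm hL c _ _ l1 l3
  · have hne' : ¬ ({n | 1 ≤ n ∧ (T c')^[n] y ∈ Y_ind_A c c' K} : Set ℕ).Nonempty := by
      rintro ⟨m, hm, hz⟩
      apply hne
      have hz' : (T c')^[m] y ∈ Y_ind_A c' c K := by rw [← hA2]; exact hz
      obtain ⟨n, hn, he⟩ := Y_ind_ret hL hI hU hR c' c K y hyA' hg m hm hz'
      exact ⟨n, hn, by rw [he]; exact hz⟩
    rw [Set.not_nonempty_iff_eq_empty] at hne hne'
    have en : retTime (T c) (Y_ind_A c c' K) y = 0 := by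
      unfold retTime
      rw [hne, Nat.sInf_empty]
    have em : retTime (T c') (Y_ind_A c c' K) y = 0 := by
      unfold retTime
      rw [hne', Nat.sInf_empty]
    unfold induced
    rw [en, em]
    rfl

end Pool.Agent.H468R2.KA
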