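import Pool.Agent.H468R2.KA.Tasks2

set_option autoImplicit false

namespace Pool.Agent.H468R2.KA

theorem t_Y_iter (h : Y_step) : Y_iter := by
  intro c y K n
  induction n with
  | zero =>
    intro _
    exact ⟨rfl, fun l _ => rfl⟩
  | succ n ih =>
    intro hn
    obtain ⟨h1, h2⟩ := ih (by omega)
    rw [Function.iterate_succ_apply']
    have h3 := h c ((T c)^[n] y) K (by rw [h1]; omega)
    refine ⟨?_, fun l hl => (h3.2 l hl).trans (h2 l hl)⟩
    rw [h3.1, h1]
    omega

end Pool.Agent.H468R2.KA
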