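import Pool.Agent.H468R2.KA.Tasks2

/-!
# Names of orbit segments are subwords of the words `W`
-/

set_option autoImplicit false

open MeasureTheory Filter Topology
open Pool.H110K2

namespace Pool.Agent.H468R2.KA

/-- entries of a concatenation of words of the same length -/
theorem nameAux_flatMap (f : ℕ → List ℕ) (n : ℕ) (hf : ∀ a, (f a).length = n) :
    ∀ (l : List ℕ) (i a r : ℕ), r < n → l[i]? = some a →
      (l.flatMap f)[i * n + r]? = (f a)[r]? := by
  intro l
  induction l with
  | nil => intro i a r _ h; simp at h
  | cons x l ih =>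
    intro i a r hr h
    cases i with
    | zero =>
      simp only [List.getElem?_cons_zero, Option.some.injEq] at h
      subst h
      rw [List.flatMap_cons, List.getElem?_append_left (by rw [hf]; omega)]
      simp
    | succ i =>
      rw [List.getElem?_cons_succ] at h
      rw [List.flatMap_cons, List.getElem?_append_right (by rw [hf, Nat.succ_mul]; omega), hf]
      have e : (i + 1) * n + r - n = i * n + r := by rw [Nat.succ_mul]; omega
      rw [e]
      exact ih i a r hr h

/-- the entry number `P c K y` of the word of `y` is the letter of `y` -/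
theorem nameAux_entry (h1 : Y_P) (h3 : Y_pos) (h4 : W_len) (c : ℕ → ℕ) :
    ∀ (K : ℕ) (y : Y), (W c K (ty K y))[P c K y]? = some (ty 0 y) := by
  intro K
  induction K with
  | zero => intro y; simp [W, P]
  | succ K ih =>
    intro y
    have hj : ty (K + 1) y < M (K + 1) := (y (K + 1)).1.isLt
    have hp := (h3 K (c K) (ty (K + 1) y) hj).2.2.2.2.2 (y K)
    have e := nameAux_flatMap (W c K) (N K) (h4 c K) (pat K (c K) (ty (K + 1) y))
      (pos K (c K) (ty (K + 1) y) (y K)) ((y K).1 : ℕ) (P c K y) (h1 c K y).1 hp
    show ((pat K (c K) (ty (K + 1) y)).flatMap (W c K))[pos K (c K) (ty (K + 1) y) (y K) * N K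
      + P c K y]? = some (ty 0 y)
    rw [e]
    exact ih y

theorem t_Y_name (h1 : Y_P) (h2 : Y_iter) (h3 : Y_pos) (h4 : W_len) : Y_name := by
  intro c K y n hn
  have key : nm c y n = ((W c K (ty K y)).drop (P c K y)).take n := by
    apply List.ext_getElem?
    intro i
    by_cases hi : i < n
    · rw [List.getElem?_take_of_lt hi, List.getElem?_drop]
      have hlt : P c K y + i < N K := by omega
      obtain ⟨e1, e2⟩ := h2 c y K i hlt
      have e3 : ty K ((T c)^[i] y) = ty K y := by
        unfold ty
        rw [e2 K le_rfl]
      have e4 := nameAux_entry h1 h3 h4 c K ((T c)^[i] y)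
      rw [e3, e1] at e4
      rw [e4]
      unfold nm
      rw [List.getElem?_map, List.getElem?_range hi]
      rfl
    · rw [List.getElem?_eq_none (by unfold nm; simp; omega),
        List.getElem?_eq_none (by rw [List.length_take]; omega)]
  rw [key]
  exact ((List.take_prefix _ _).isInfix).trans ((List.drop_suffix _ _).isInfix)

end Pool.Agent.H468R2.KA
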