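import Pool.Agent.H468R2.KA.Tasks2

set_option autoImplicit false

open MeasureTheory Filter Topology

namespace Pool.Agent.H468R2.KA

theorem Y_off_ex (k j j' r : ℕ) (h0 : j / h (k + 1) = j' / h (k + 1)) :
    ex k 0 j r = ex k 0 j' r := by
  unfold ex
  rw [if_neg (Nat.not_lt_zero r), if_neg (Nat.not_lt_zero r), h0]

theorem Y_off_pos (k j j' : ℕ) (h0 : j / h (k + 1) = j' / h (k + 1)) :
    pos k 0 j = pos k 0 j' := by
  funext d
  unfold pos
  rw [Y_off_ex k j j' d.2.1 h0]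

theorem Y_off_nxt (k j j' : ℕ) (h0 : j / h (k + 1) = j' / h (k + 1)) :
    nxt k 0 j = nxt k 0 j' := by
  funext d
  unfold nxt
  rw [Y_off_pos k j j' h0]

theorem Y_off_bs_lt (K : ℕ) (y : Y) (l : ℕ) (hl : l < K) : bs K y l = zr l := by
  unfold bs
  rw [if_pos hl]

theorem Y_off_bs_ge (K : ℕ) (y : Y) (l : ℕ) (hl : K ≤ l) : bs K y l = y l := by
  unfold bs
  rw [if_neg (not_lt.2 hl)]

/-- one step of the transformation, for two points which agree up to `K` -/
theorem Y_off_step (c : ℕ → ℕ) (K : ℕ) (y z : Y) (hc : c K = 0)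
    (hty : ty (K + 1) y / h (K + 1) = ty (K + 1) z / h (K + 1))
    (hyz : ∀ l, l ≤ K → y l = z l) (hy : ∃ l, l ≤ K ∧ y l ≠ la l) :
    ∀ l, l ≤ K → T c y l = T c z l := by
  classical
  obtain ⟨l0, hl0, hl0'⟩ := hy
  have Hy : ∃ k, y k ≠ la k := ⟨l0, hl0'⟩
  have Hz : ∃ k, z k ≠ la k := ⟨l0, by rw [← hyz l0 hl0]; exact hl0'⟩
  have hfy : Nat.find Hy ≤ K := (Nat.find_min' Hy hl0').trans hl0
  have hfz : Nat.find Hz ≤ K := by
    refine (Nat.find_min' Hz ?_).trans hl0
    rw [← hyz l0 hl0]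
    exact hl0'
  have hf : Nat.find Hy = Nat.find Hz := by
    apply le_antisymm
    · apply Nat.find_min' Hy
      rw [hyz _ hfz]
      exact Nat.find_spec Hz
    · apply Nat.find_min' Hz
      rw [← hyz _ hfy]
      exact Nat.find_spec Hy
  intro l hl
  have eT : ∀ (w : Y) (H : ∃ k, w k ≠ la k), T c w l = if l < Nat.find H then zr l
      else if l = Nat.find H then nxt l (c l) (ty (l + 1) w) (w l) else w l := by
    intro w H
    unfold T
    rw [dif_pos H]
  rw [eT y Hy, eT z Hz, ← hf, ← hyz l hl]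
  by_cases h1 : l < Nat.find Hy
  · rw [if_pos h1, if_pos h1]
  · rw [if_neg h1, if_neg h1]
    by_cases h2 : l = Nat.find Hy
    · rw [if_pos h2, if_pos h2]
      rcases lt_or_eq_of_le hl with h3 | h3
      · have e1 : ty (l + 1) y = ty (l + 1) z := by
          unfold ty
          rw [hyz (l + 1) h3]
        rw [e1]
      · subst h3
        rw [hc, Y_off_nxt l (ty (l + 1) y) (ty (l + 1) z) hty]
    · rw [if_neg h2, if_neg h2]

theorem t_Y_off (hI : Y_iter) (hP : Y_P) : Y_off := by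
  intro c K y z hc hty i
  have base : ∀ (y : Y) (n : ℕ), n < N (K + 1) →
      P c (K + 1) ((T c)^[n] (bs (K + 1) y)) = n ∧
        ∀ l, K + 1 ≤ l → (T c)^[n] (bs (K + 1) y) l = y l := by
    intro y n hn
    have h0 : P c (K + 1) (bs (K + 1) y) = 0 :=
      (hP c (K + 1) (bs (K + 1) y)).2.1.2 fun l hl => Y_off_bs_lt (K + 1) y l hl
    have h1 := hI c (bs (K + 1) y) (K + 1) n (by rw [h0, zero_add]; exact hn)
    rw [h0, zero_add] at h1
    refine ⟨h1.1, fun l hl => ?_⟩
    rw [h1.2 l hl, Y_off_bs_ge (K + 1) y l hl]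
  induction i with
  | zero =>
    intro _ l hl
    rw [Function.iterate_zero, id_eq, id_eq, Y_off_bs_lt _ _ _ (Nat.lt_succ_of_le hl),
      Y_off_bs_lt _ _ _ (Nat.lt_succ_of_le hl)]
  | succ i ih =>
    intro hi l hl
    have hi' : i < N (K + 1) := lt_of_le_of_lt (Nat.le_succ i) hi
    obtain ⟨by1, by2⟩ := base y i hi'
    obtain ⟨_, bz2⟩ := base z i hi'
    rw [Function.iterate_succ_apply', Function.iterate_succ_apply']
    refine Y_off_step c K _ _ hc ?_ (fun l hl => ih hi' l hl) ?_ l hl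
    · unfold ty
      rw [by2 (K + 1) le_rfl, bz2 (K + 1) le_rfl]
      exact hty
    · by_contra hcon
      push Not at hcon
      have h2 : ∀ l < K + 1, (T c)^[i] (bs (K + 1) y) l = la l :=
        fun l hl => hcon l (Nat.le_of_lt_succ hl)
      have h3 := (hP c (K + 1) ((T c)^[i] (bs (K + 1) y))).2.2.1.2 h2
      rw [by1] at h3
      exact absurd h3 (Nat.ne_of_lt hi)

end Pool.Agent.H468R2.KA
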