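import Pool.Agent.H468R2.KA.Tasks2

set_option autoImplicit false

open MeasureTheory Filter Topology
open Pool.H110K2

namespace Pool.Agent.H468R2.KA

namespace YposAux

theorem core {m Q p q r a o : ℕ} (hp : 0 < p) (hQ : Q = q * p) (ha : a < m) (ho : o < Q) :
    r * (m * Q) + o / p * (p * m) + a * p + o % p < (r + 1) * (m * Q) ∧
    (r * (m * Q) + o / p * (p * m) + a * p + o % p) / (m * Q) = r ∧
    (r * (m * Q) + o / p * (p * m) + a * p + o % p) % (m * Q) / p % m = a ∧
    (r * (m * Q) + o / p * (p * m) + a * p + o % p) % (m * Q) / (p * m) = o / p ∧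
    (r * (m * Q) + o / p * (p * m) + a * p + o % p) % (m * Q) % p = o % p := by
  have hm : 0 < m := by omega
  have hop : o % p < p := Nat.mod_lt _ hp
  have hoq : o / p < q := by
    rw [Nat.div_lt_iff_lt_mul hp, ← hQ]; exact ho
  obtain ⟨u, hu⟩ : ∃ u, u = o / p * (p * m) + a * p + o % p := ⟨_, rfl⟩
  have hlt : u < m * Q := by
    have h1 : a * p + o % p < m * p := by
      have : (a + 1) * p ≤ m * p := Nat.mul_le_mul_right _ ha
      have e : (a + 1) * p = a * p + p := by ring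
      omega
    have h2 : (o / p + 1) * (p * m) ≤ q * (p * m) := Nat.mul_le_mul_right _ hoq
    have e : (o / p + 1) * (p * m) = o / p * (p * m) + m * p := by ring
    have e2 : q * (p * m) = m * Q := by rw [hQ]; ring
    omega
  have hs : r * (m * Q) + o / p * (p * m) + a * p + o % p = u + r * (m * Q) := by
    rw [hu]; ring
  have hmQ : 0 < m * Q := by omega
  rw [hs]
  have hmod : (u + r * (m * Q)) % (m * Q) = u := by
    rw [Nat.add_mul_mod_self_right, Nat.mod_eq_of_lt hlt]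
  have hdiv : (u + r * (m * Q)) / (m * Q) = r := by
    rw [Nat.add_mul_div_right _ _ hmQ, Nat.div_eq_of_lt hlt, zero_add]
  have hu2 : u = o % p + p * (o / p * m + a) := by rw [hu]; ring
  have hup : u / p = o / p * m + a := by
    rw [hu2, Nat.add_mul_div_left _ _ hp, Nat.div_eq_of_lt hop, zero_add]
  refine ⟨?_, hdiv, ?_, ?_, ?_⟩
  · have e : (r + 1) * (m * Q) = m * Q + r * (m * Q) := by ring
    omega
  · rw [hmod, hup, add_comm, Nat.add_mul_mod_self_right, Nat.mod_eq_of_lt ha]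
  · rw [hmod, ← Nat.div_div_eq_div_mul, hup, add_comm, Nat.add_mul_div_right _ _ hm,
      Nat.div_eq_of_lt ha, zero_add]
  · rw [hmod, hu2, Nat.add_mul_mod_self_left, Nat.mod_eq_of_lt hop]

theorem core2 {m Q p q s : ℕ} (hp : 0 < p) (hm : 0 < m) (hQ : Q = q * p) (hQ0 : 0 < Q) :
    s % (m * Q) / (p * m) * p + s % (m * Q) % p < Q ∧
    s / (m * Q) * (m * Q) + (s % (m * Q) / (p * m) * p + s % (m * Q) % p) / p * (p * m) +
      s % (m * Q) / p % m * p + (s % (m * Q) / (p * m) * p + s % (m * Q) % p) % p = s := by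
  obtain ⟨u, hu⟩ : ∃ u, u = s % (m * Q) := ⟨_, rfl⟩
  have hlt : u < m * Q := by rw [hu]; exact Nat.mod_lt _ (Nat.mul_pos hm hQ0)
  have hsu : s / (m * Q) * (m * Q) + u = s := by rw [hu]; exact Nat.div_add_mod' s _
  rw [← hu]
  have hup : u % p < p := Nat.mod_lt _ hp
  have hq : u / (p * m) < q := by
    rw [Nat.div_lt_iff_lt_mul (Nat.mul_pos hp hm)]
    have e2 : q * (p * m) = m * Q := by rw [hQ]; ring
    omega
  have e1 : (u / (p * m) * p + u % p) / p = u / (p * m) := by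
    rw [add_comm, Nat.add_mul_div_right _ _ hp, Nat.div_eq_of_lt hup, zero_add]
  have e2 : (u / (p * m) * p + u % p) % p = u % p := by
    rw [add_comm, Nat.add_mul_mod_self_right, Nat.mod_mod]
  constructor
  · have h1 : (u / (p * m) + 1) * p ≤ q * p := Nat.mul_le_mul_right _ hq
    have e : (u / (p * m) + 1) * p = u / (p * m) * p + p := by ring
    rw [hQ]; omega
  · rw [e1, e2]
    have h3 : u % (p * m) = u % p + p * (u / p % m) := Nat.mod_mul
    have h4 : u / (p * m) * (p * m) + u % (p * m) = u := Nat.div_add_mod' u _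
    have h5 : u / (p * m) * (p * m) + u / p % m * p + u % p = u := by
      rw [h3] at h4
      calc u / (p * m) * (p * m) + u / p % m * p + u % p
          = u / (p * m) * (p * m) + (u % p + p * (u / p % m)) := by ring
        _ = u := h4
    omega

theorem ex_lt {k c j r : ℕ} (hj : j < M (k + 1)) : ex k c j r < E k := by
  have h0 : j / h (k + 1) ≤ j := Nat.div_le_self _ _
  have h1 := g_pos (k + 1)
  unfold ex E
  split_ifs <;> omega

theorem dvdQ {k c j r : ℕ} (hj : j < M (k + 1)) :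
    ∃ q, Q k = q * b k ^ ex k c j r := by
  refine ⟨b k ^ (E k - ex k c j r), ?_⟩
  have := ex_lt (c := c) (r := r) hj
  unfold Q
  rw [← pow_add]
  congr 1
  omega

end YposAux

open YposAux

theorem t_Y_pos : Y_pos := by
  intro k c j hj
  have hM := M_pos k
  have hR := R_pos k
  have hQ := Q_pos k
  have hb : ∀ e, 0 < b k ^ e := fun e => Nat.pow_pos (b_pos k)
  have hL : L k = R k * (M k * Q k) := rfl
  have hlt : ∀ d, pos k c j d < L k := by
    intro d
    obtain ⟨q, hq⟩ := dvdQ (c := c) (r := (d.2.1 : ℕ)) hj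
    have h1 := (core (r := (d.2.1 : ℕ)) (hb _) hq d.1.2 d.2.2.2).1
    have h2 : ((d.2.1 : ℕ) + 1) * (M k * Q k) ≤ R k * (M k * Q k) :=
      Nat.mul_le_mul_right _ d.2.1.2
    rw [hL]
    exact lt_of_lt_of_le h1 h2
  refine ⟨hlt, ?_, ?_, ?_, ?_, ?_⟩
  · intro d d' hdd
    obtain ⟨q, hq⟩ := dvdQ (c := c) (r := (d.2.1 : ℕ)) hj
    obtain ⟨q', hq'⟩ := dvdQ (c := c) (r := (d'.2.1 : ℕ)) hj
    obtain ⟨-, a1, a2, a3, a4⟩ := core (r := (d.2.1 : ℕ)) (hb _) hq d.1.2 d.2.2.2
    obtain ⟨-, b1, b2, b3, b4⟩ := core (r := (d'.2.1 : ℕ)) (hb _) hq' d'.1.2 d'.2.2.2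
    change pos k c j d / (M k * Q k) = _ at a1
    change pos k c j d % (M k * Q k) / _ % M k = _ at a2
    change pos k c j d % (M k * Q k) / _ = _ at a3
    change pos k c j d % (M k * Q k) % _ = _ at a4
    change pos k c j d' / (M k * Q k) = _ at b1
    change pos k c j d' % (M k * Q k) / _ % M k = _ at b2
    change pos k c j d' % (M k * Q k) / _ = _ at b3
    change pos k c j d' % (M k * Q k) % _ = _ at b4
    have hr : (d.2.1 : ℕ) = d'.2.1 := by rw [← a1, ← b1, hdd]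
    rw [hdd, hr, b2] at a2
    rw [hdd, hr, b3] at a3
    rw [hdd, hr, b4] at a4
    have ho : (d.2.2 : ℕ) = d'.2.2 := by
      rw [← Nat.div_add_mod' (d.2.2 : ℕ) (b k ^ ex k c j (d'.2.1 : ℕ)), ← a3, ← a4,
        Nat.div_add_mod']
    exact Prod.ext (Fin.ext a2.symm) (Prod.ext (Fin.ext hr) (Fin.ext ho))
  · intro s hs
    obtain ⟨q, hq⟩ := dvdQ (c := c) (r := s / (M k * Q k)) hj
    obtain ⟨h1, h2⟩ := core2 (s := s) (hb (ex k c j (s / (M k * Q k)))) hM hq hQ
    refine ⟨(⟨_, Nat.mod_lt (s % (M k * Q k) / b k ^ ex k c j (s / (M k * Q k))) hM⟩,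
      ⟨s / (M k * Q k), ?_⟩, ⟨_, h1⟩), h2⟩
    rw [Nat.div_lt_iff_lt_mul (Nat.mul_pos hM hQ)]
    exact hs
  · simp [pos, zr]
  · obtain ⟨q, hq⟩ := dvdQ (c := c) (r := R k - 1) hj
    have hp := hb (ex k c j (R k - 1))
    change (R k - 1) * (M k * Q k) + (Q k - 1) / b k ^ ex k c j (R k - 1) *
      (b k ^ ex k c j (R k - 1) * M k) + (M k - 1) * b k ^ ex k c j (R k - 1) +
      (Q k - 1) % b k ^ ex k c j (R k - 1) = L k - 1
    rw [hL]
    generalize b k ^ ex k c j (R k - 1) = p at hp hq ⊢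
    have hq0 : 0 < q := by
      rcases Nat.eq_zero_or_pos q with h0 | h0
      · rw [h0, zero_mul] at hq; omega
      · exact h0
    obtain ⟨q', rfl⟩ : ∃ q', q = q' + 1 := ⟨q - 1, by omega⟩
    have hQ1 : Q k - 1 = (p - 1) + q' * p := by
      rw [hq]
      have e : (q' + 1) * p = q' * p + p := by ring
      omega
    have e1 : (Q k - 1) / p = q' := by
      rw [hQ1, Nat.add_mul_div_right _ _ hp, Nat.div_eq_of_lt (by omega), zero_add]
    have e2 : (Q k - 1) % p = p - 1 := by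
      rw [hQ1, Nat.add_mul_mod_self_right, Nat.mod_eq_of_lt (by omega)]
    rw [e1, e2]
    obtain ⟨R', hR'⟩ : ∃ R', R k = R' + 1 := ⟨R k - 1, by omega⟩
    obtain ⟨M', hM'⟩ : ∃ M', M k = M' + 1 := ⟨M k - 1, by omega⟩
    obtain ⟨p', hp'⟩ : ∃ p', p = p' + 1 := ⟨p - 1, by omega⟩
    rw [hR', hM', hq, hp']
    simp only [Nat.add_sub_cancel]
    have e : (R' + 1) * ((M' + 1) * ((q' + 1) * (p' + 1))) =
      R' * ((M' + 1) * ((q' + 1) * (p' + 1))) + q' * ((p' + 1) * (M' + 1)) + M' * (p' + 1) +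
        p' + 1 := by ring
    rw [e, Nat.add_sub_cancel]
  · intro d
    obtain ⟨q, hq⟩ := dvdQ (c := c) (r := (d.2.1 : ℕ)) hj
    obtain ⟨-, a1, a2, a3, a4⟩ := core (r := (d.2.1 : ℕ)) (hb _) hq d.1.2 d.2.2.2
    change pos k c j d / (M k * Q k) = _ at a1
    change pos k c j d % (M k * Q k) / _ % M k = _ at a2
    unfold pat
    rw [List.getElem?_map, List.getElem?_range (hlt d), Option.map_some, a1, a2]

end Pool.Agent.H468R2.KA
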