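import Pool.Agent.H468R2.KA.Tasks2

/-!
# Smaller points reach larger points
-/

set_option autoImplicit false

open MeasureTheory Filter Topology
open Pool.H110K2

namespace Pool.Agent.H468R2.KA

theorem t_Y_reach (h1 : Y_lt) (h2 : Y_iter) (h3 : Y_P) : Y_reach := by
  intro c y z hyz
  obtain ⟨k, hk, -⟩ := id hyz
  have hk' : ∀ l, k + 1 ≤ l → y l = z l := fun l hl => hk l (by omega)
  have h4 : P c (k + 1) y < P c (k + 1) z := (h1 c (k + 1) y z hk').1 hyz
  have h5 : P c (k + 1) z < N (k + 1) := (h3 c (k + 1) z).1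
  refine ⟨P c (k + 1) z - P c (k + 1) y, by omega, ?_⟩
  obtain ⟨h6, h7⟩ := h2 c y (k + 1) (P c (k + 1) z - P c (k + 1) y) (by omega)
  refine ((h3 c (k + 1) z).2.2.2.1 _ (fun l hl => ?_) ?_).symm
  · rw [h7 l hl, hk' l hl]
  · rw [h6]
    omega

end Pool.Agent.H468R2.KA
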