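import Pool.Agent.H468R2.KA.Tasks2

set_option autoImplicit false

namespace Pool.Agent.H468R2.KA

theorem Y_step_aux (h1 : Y_pos) (h2 : Y_P) (c : ℕ → ℕ) (y z : Y) (κ : ℕ)
    (hlo : ∀ l, l < κ → y l = la l) (hne : y κ ≠ la κ) (hz0 : ∀ l, l < κ → z l = zr l)
    (hz1 : z κ = nxt κ (c κ) (ty (κ + 1) y) (y κ)) (hz2 : ∀ l, κ < l → z l = y l) :
    ∀ n, P c (κ + 1 + n) z = P c (κ + 1 + n) y + 1 := by
  classical
  have hty : ∀ l, κ < l → ty l z = ty l y := by
    intro l hl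
    unfold ty
    rw [hz2 l hl]
  intro n
  induction n with
  | zero =>
    have hj : ty (κ + 1) y < M (κ + 1) := (y (κ + 1)).1.2
    obtain ⟨p1, p2, p3, p4, p5, p6⟩ := h1 κ (c κ) (ty (κ + 1) y) hj
    have hlt : pos κ (c κ) (ty (κ + 1) y) (y κ) + 1 < L κ := by
      have h3 := p1 (y κ)
      have h4 : pos κ (c κ) (ty (κ + 1) y) (y κ) ≠ L κ - 1 := by
        intro h
        rw [← p5] at h
        exact hne (p2 h)
      omega
    have hex : ∃ d' : D κ, pos κ (c κ) (ty (κ + 1) y) d'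
        = pos κ (c κ) (ty (κ + 1) y) (y κ) + 1 := p3 _ hlt
    have hnx : pos κ (c κ) (ty (κ + 1) y) (z κ) = pos κ (c κ) (ty (κ + 1) y) (y κ) + 1 := by
      rw [hz1]
      unfold nxt
      rw [dif_pos hex]
      exact hex.choose_spec
    have e1 : P c κ z = 0 := ((h2 c κ z).2.1).2 hz0
    have e2 : P c κ y + 1 = N κ := ((h2 c κ y).2.2.1).2 hlo
    show P c (κ + 1) z = P c (κ + 1) y + 1
    show pos κ (c κ) (ty (κ + 1) z) (z κ) * N κ + P c κ z
      = pos κ (c κ) (ty (κ + 1) y) (y κ) * N κ + P c κ y + 1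
    rw [hty (κ + 1) (Nat.lt_succ_self κ), hnx, e1, Nat.add_mul, Nat.one_mul]
    generalize pos κ (c κ) (ty (κ + 1) y) (y κ) * N κ = A
    generalize P c κ y = B at e2 ⊢
    generalize N κ = C at e2 ⊢
    omega
  | succ n ih =>
    show pos (κ + 1 + n) (c (κ + 1 + n)) (ty (κ + 1 + n + 1) z) (z (κ + 1 + n)) * N (κ + 1 + n)
        + P c (κ + 1 + n) z
      = pos (κ + 1 + n) (c (κ + 1 + n)) (ty (κ + 1 + n + 1) y) (y (κ + 1 + n)) * N (κ + 1 + n)
        + P c (κ + 1 + n) y + 1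
    rw [hty (κ + 1 + n + 1) (by omega), hz2 (κ + 1 + n) (by omega), ih]
    exact (Nat.add_assoc _ _ _).symm

theorem t_Y_step (h1 : Y_pos) (h2 : Y_P) : Y_step := by
  classical
  intro c y K hK
  have hex : ∃ l, l < K ∧ y l ≠ la l := by
    by_contra hcon
    push Not at hcon
    have := ((h2 c K y).2.2.1).2 hcon
    rw [this] at hK
    exact lt_irrefl _ hK
  obtain ⟨l0, hl0, hl0'⟩ := hex
  have H : ∃ k, y k ≠ la k := ⟨l0, hl0'⟩
  have hκ : Nat.find H < K := lt_of_le_of_lt (Nat.find_min' H hl0') hl0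
  have hT : ∀ l, T c y l = (if l < Nat.find H then zr l
      else if l = Nat.find H then nxt l (c l) (ty (l + 1) y) (y l) else y l) := by
    intro l
    unfold T
    rw [dif_pos H]
  have hlo : ∀ l, l < Nat.find H → y l = la l := by
    intro l hl
    have := Nat.find_min H hl
    push Not at this
    exact this
  have hz0 : ∀ l, l < Nat.find H → T c y l = zr l := by
    intro l hl
    rw [hT, if_pos hl]
  have hz1 : T c y (Nat.find H) = nxt (Nat.find H) (c (Nat.find H))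
      (ty (Nat.find H + 1) y) (y (Nat.find H)) := by
    rw [hT, if_neg (lt_irrefl _), if_pos rfl]
  have hz2 : ∀ l, Nat.find H < l → T c y l = y l := by
    intro l hl
    rw [hT, if_neg (by omega), if_neg (by omega)]
  refine ⟨?_, fun l hl => hz2 l (lt_of_lt_of_le hκ hl)⟩
  obtain ⟨n, hn⟩ := Nat.exists_eq_add_of_le (Nat.succ_le_of_lt hκ)
  have := Y_step_aux h1 h2 c y (T c y) (Nat.find H) hlo (Nat.find_spec H) hz0 hz1 hz2 n
  rw [hn]
  exact this

end Pool.Agent.H468R2.KA
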