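import Pool.Agent.H468R2.KA.Tasks2

/-!
# Task `Y_up`: good points are not too close to the end of their words
-/

set_option autoImplicit false

namespace Pool.Agent.H468R2.KA

private theorem upN_succ (k : ℕ) : N (k + 1) = L k * N k := rfl

private theorem upP_succ (c : ℕ → ℕ) (k : ℕ) (y : Y) :
    P c (k + 1) y = pos k (c k) (ty (k + 1) y) (y k) * N k + P c k y := rfl

private theorem up_two_le_L (k : ℕ) : 2 ≤ L k := by
  have h1 : 2 ≤ M k := by
    have hg : 2 ≤ g k := by
      unfold g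
      calc 2 = 2 ^ 1 := (pow_one 2).symm
        _ ≤ 2 ^ (k + 6) := Nat.pow_le_pow_right (by norm_num) (by omega)
    calc 2 = 2 * 1 := (mul_one 2).symm
      _ ≤ g k * h k := Nat.mul_le_mul hg (h_pos k)
  calc 2 = 1 * (2 * 1) := by norm_num
    _ ≤ R k * (M k * Q k) := Nat.mul_le_mul (R_pos k) (Nat.mul_le_mul h1 (Q_pos k))

private theorem up_lt_N : ∀ k : ℕ, k < N k
  | 0 => one_pos
  | k + 1 => by
    have ih := up_lt_N k
    have h2 := up_two_le_L k
    rw [upN_succ]
    calc k + 1 < 2 * N k := by omega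
      _ ≤ L k * N k := Nat.mul_le_mul_right _ h2

private theorem up_key (h1 : Y_P) (c : ℕ → ℕ) (K : ℕ) (y : Y) (hy : y K ≠ la K) :
    P c (K + 1) y + N K < N (K + 1) := by
  obtain ⟨-, -, -, -, h5⟩ := h1 c K y
  have hN := N_pos K
  obtain ⟨z, hz, hPz⟩ := h5 (N K - 1) (Nat.sub_lt hN one_pos)
  obtain ⟨hzlt, -, hzla, -, -⟩ := h1 c (K + 1) z
  have hyK : P c K y < N K := (h1 c K y).1
  have hty : ty (K + 1) z = ty (K + 1) y := by
    unfold ty
    rw [hz (K + 1) (Nat.le_succ K)]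
  have hPz1 : P c (K + 1) z = pos K (c K) (ty (K + 1) y) (y K) * N K + (N K - 1) := by
    rw [upP_succ, hty, hz K le_rfl, hPz]
  have hPy := upP_succ c K y
  generalize pos K (c K) (ty (K + 1) y) (y K) = q at hPz1 hPy
  have hne : P c (K + 1) z + 1 ≠ N (K + 1) := by
    intro h
    have h' := hzla.1 h K (Nat.lt_succ_self K)
    rw [hz K le_rfl] at h'
    exact hy h'
  have hlt : P c (K + 1) z + 1 < N (K + 1) := lt_of_le_of_ne hzlt hne
  have h6 : (q + 1) * N K < N (K + 1) := by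
    have : (q + 1) * N K = P c (K + 1) z + 1 := by
      rw [hPz1, add_mul, one_mul]
      omega
    rw [this]
    exact hlt
  rw [upN_succ] at h6
  have h7 : q + 1 < L K := lt_of_mul_lt_mul_right h6 (Nat.zero_le _)
  have h8 : (q + 1 + 1) * N K ≤ L K * N K := Nat.mul_le_mul_right _ h7
  rw [hPy, upN_succ]
  have h9 : (q + 1 + 1) * N K = q * N K + N K + N K := by ring
  omega

theorem t_Y_up (h1 : Y_P) : Y_up := by
  intro c y hy n
  obtain ⟨l, hnl, hl⟩ := hy.1 n
  refine ⟨l + 1, ?_⟩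
  have h2 := up_key h1 c l y hl
  have h3 := up_lt_N l
  omega

end Pool.Agent.H468R2.KA
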