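import Pool.Agent.H468R2.KA.Main
import Pool.Agent.H468R2.KA.P_A_align
import Pool.Agent.H468R2.KA.P_A_bad
import Pool.Agent.H468R2.KA.P_A_common
import Pool.Agent.H468R2.KA.P_A_count
import Pool.Agent.H468R2.KA.P_A_int
import Pool.Agent.H468R2.KA.P_A_kac
import Pool.Agent.H468R2.KA.P_A_num
import Pool.Agent.H468R2.KA.P_A_ok
import Pool.Agent.H468R2.KA.P_A_seg
import Pool.Agent.H468R2.KA.P_A_type
import Pool.Agent.H468R2.KA.P_F_bor
import Pool.Agent.H468R2.KA.P_F_eqv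
import Pool.Agent.H468R2.KA.P_F_fam
import Pool.Agent.H468R2.KA.P_F_gen
import Pool.Agent.H468R2.KA.P_F_iso
import Pool.Agent.H468R2.KA.P_F_perm
import Pool.Agent.H468R2.KA.P_F_top
import Pool.Agent.H468R2.KA.P_F_tr
import Pool.Agent.H468R2.KA.P_F_vt
import Pool.Agent.H468R2.KA.P_K_low
import Pool.Agent.H468R2.KA.P_K_up
import Pool.Agent.H468R2.KA.P_M_A
import Pool.Agent.H468R2.KA.P_M_Gd
import Pool.Agent.H468R2.KA.P_M_P
import Pool.Agent.H468R2.KA.P_M_apx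
import Pool.Agent.H468R2.KA.P_M_av
import Pool.Agent.H468R2.KA.P_M_bs
import Pool.Agent.H468R2.KA.P_M_cc
import Pool.Agent.H468R2.KA.P_M_erg
import Pool.Agent.H468R2.KA.P_M_ex
import Pool.Agent.H468R2.KA.P_M_ext
import Pool.Agent.H468R2.KA.P_M_mP
import Pool.Agent.H468R2.KA.P_M_mS
import Pool.Agent.H468R2.KA.P_M_mT
import Pool.Agent.H468R2.KA.P_M_mp_b
import Pool.Agent.H468R2.KA.P_M_sum
import Pool.Agent.H468R2.KA.P_M_ty_b
import Pool.Agent.H468R2.KA.P_W_cyc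
import Pool.Agent.H468R2.KA.P_W_dp
import Pool.Agent.H468R2.KA.P_W_len
import Pool.Agent.H468R2.KA.P_W_pat
import Pool.Agent.H468R2.KA.P_W_pieces
import Pool.Agent.H468R2.KA.P_W_sep
import Pool.Agent.H468R2.KA.P_W_step
import Pool.Agent.H468R2.KA.P_Y_Gd
import Pool.Agent.H468R2.KA.P_Y_P
import Pool.Agent.H468R2.KA.P_Y_bs
import Pool.Agent.H468R2.KA.P_Y_cover
import Pool.Agent.H468R2.KA.P_Y_ind
import Pool.Agent.H468R2.KA.P_Y_iter
import Pool.Agent.H468R2.KA.P_Y_lt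
import Pool.Agent.H468R2.KA.P_Y_name
import Pool.Agent.H468R2.KA.P_Y_off
import Pool.Agent.H468R2.KA.P_Y_pos
import Pool.Agent.H468R2.KA.P_Y_reach
import Pool.Agent.H468R2.KA.P_Y_step
import Pool.Agent.H468R2.KA.P_Y_up
import Pool.Agent.H468R2.MA.P_T_BF
import Pool.Agent.H468R2.MA.P_T_C
import Pool.Agent.H468R2.MA.P_T_CH
import Pool.Agent.H468R2.MA.P_T_LOC
import Pool.Agent.H468R2.MA.P_T_LOC1
import Pool.Agent.H468R2.MA.P_T_SC

/-!
# Final assembly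
-/

set_option autoImplicit false

open MeasureTheory Filter Topology
open Pool.H110K2

namespace Pool.Agent.H468R2.KA

universe u v

theorem t_erg : MA.T_ERG :=
  MA.t_T_ERG (MA.t_T_C MA.t_T_SC (MA.t_T_LOC MA.t_T_SC (MA.t_T_LOC1 MA.t_T_SC))) MA.t_T_CH

theorem p_M_ex : M_ex := t_M_ex
theorem p_M_mT : M_mT := t_M_mT
theorem p_M_cc : M_cc := t_M_cc
theorem p_M_Gd : M_Gd := t_M_Gd
theorem p_M_ext : M_ext := t_M_ext
theorem p_M_mS : M_mS := t_M_mS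
theorem p_Y_pos : Y_pos := t_Y_pos
theorem p_Y_P : Y_P := t_Y_P p_Y_pos
theorem p_Y_step : Y_step := t_Y_step p_Y_pos p_Y_P
theorem p_Y_Gd : Y_Gd := t_Y_Gd p_Y_pos
theorem p_M_mp : M_mp := t_M_mp_b p_M_ext p_M_mT p_M_mS p_Y_P p_Y_step p_Y_Gd p_M_Gd
theorem p_M_bs : M_bs := t_M_bs p_M_ext
theorem p_Y_iter : Y_iter := t_Y_iter p_Y_step
theorem p_Y_bs : Y_bs := t_Y_bs p_Y_P p_Y_iter
theorem p_M_erg : M_erg := t_M_erg p_M_mp p_M_ext p_M_bs p_Y_bs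
theorem p_Y_lt : Y_lt := t_Y_lt p_Y_pos p_Y_P
theorem p_Y_up : Y_up := t_Y_up p_Y_P
theorem p_Y_reach : Y_reach := t_Y_reach p_Y_lt p_Y_iter p_Y_P
theorem p_Y_ind : Y_ind := t_Y_ind p_Y_pos p_Y_P p_Y_lt p_Y_iter p_Y_up p_Y_reach
theorem p_M_A : M_A := t_M_A
theorem p_M_sum : M_sum := t_M_sum
theorem p_K_up : K_up := t_K_up p_Y_ind p_M_A p_M_sum p_M_Gd
theorem p_W_len : W_len := t_W_len
theorem p_W_pieces : W_pieces := t_W_pieces
theorem p_W_dp : W_dp := t_W_dp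
theorem p_W_cyc : W_cyc := t_W_cyc
theorem p_W_pat : W_pat := t_W_pat p_W_cyc
theorem p_W_step : W_step := t_W_step p_W_len p_W_pieces p_W_dp p_W_pat
theorem p_W_sep : W_sep := t_W_sep p_W_step
theorem p_Y_name : Y_name := t_Y_name p_Y_P p_Y_iter p_Y_pos p_W_len
theorem p_Y_cover : Y_cover := t_Y_cover p_Y_name p_Y_P p_Y_iter p_Y_up p_Y_Gd p_Y_step p_W_len
theorem p_Y_off : Y_off := t_Y_off p_Y_iter p_Y_P
theorem p_A_align : A_align := t_A_align p_W_pieces p_W_len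
theorem p_A_common : A_common := t_A_common
theorem p_A_type : A_type := t_A_type p_W_sep p_Y_name p_Y_cover p_Y_off p_Y_bs p_A_align p_A_common
theorem p_M_ty : M_ty := t_M_ty_b
theorem p_A_count : A_count := t_A_count p_A_type p_M_ty
theorem p_A_seg : A_seg := t_A_seg
theorem p_A_kac : A_kac := t_A_kac p_M_mp p_M_erg p_Y_Gd p_M_Gd p_M_mT p_M_mS t_F_eqv
theorem p_A_ok : A_ok := t_A_ok p_A_seg p_A_kac p_M_mp p_M_Gd p_Y_Gd
theorem p_A_int : A_int := t_A_int p_A_kac p_M_mT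
theorem p_M_mP : M_mP := t_M_mP
theorem p_M_av : M_av := t_M_av p_M_bs p_M_mp p_Y_bs p_Y_P p_M_mT p_Y_iter p_M_mP p_M_Gd p_Y_Gd
theorem p_M_P : M_P := t_M_P p_M_av p_Y_bs p_M_mP
theorem p_A_bad : A_bad := t_A_bad p_A_ok p_A_int p_M_av p_M_P p_M_mT p_M_mP p_Y_bs
theorem p_M_apx : M_apx := t_M_apx
theorem p_A_num : A_num := t_A_num
theorem p_K_low : K_low := t_K_low p_A_count p_A_bad p_M_apx p_A_int p_A_num
theorem p_F_top : F_top := t_F_top
theorem p_F_gen : F_gen := t_F_gen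
theorem p_F_fam : F_fam.{u} := t_F_fam p_M_ex t_F_iso p_M_mT p_M_cc p_M_Gd p_M_mp p_Y_Gd p_M_erg t_F_eqv t_F_bor t_F_tr t_F_tr p_K_up p_K_low
theorem p_F_perm : F_perm.{v} := t_F_perm p_F_top (t_F_vt p_F_top) t_erg

theorem final {X : Type u} [MeasurableSpace X] [StandardBorelSpace X] (μ : Measure X)
    [IsProbabilityMeasure μ] (hμ : ∀ x, μ {x} = 0)
    (Z : Type v) [MeasurableSpace Z] [StandardBorelSpace Z] [MulAction (Equiv.Perm ℕ) Z]
    (hZ : @Measurable _ _ (permMS.prod inferInstance) _ (fun p : Equiv.Perm ℕ × Z => p.1 • p.2)) :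
    ¬ ∃ f : SeparationQuotient (ErgAut μ) → Z,
      @Measurable _ _ (borel (SeparationQuotient (ErgAut μ))) _ f ∧
      ∀ S T : ErgAut μ, KakutaniEquiv μ S.1 T.1 ↔ ∃ π : Equiv.Perm ℕ,
        π • f (SeparationQuotient.mk S) = f (SeparationQuotient.mk T) :=
  main p_F_fam p_F_perm p_F_gen μ hμ Z hZ

end Pool.Agent.H468R2.KA
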