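import Pool.Agent.H468R2.KA.Tasks2

/-!
# Assembly
-/

set_option autoImplicit false

open MeasureTheory Filter Topology
open Pool.H110K2

namespace Pool.Agent.H468R2.KA

universe u v

theorem main (hF : F_fam.{u}) (hP : F_perm.{v}) (hG : F_gen)
    {X : Type u} [MeasurableSpace X] [StandardBorelSpace X] (μ : Measure X)
    [IsProbabilityMeasure μ] (hμ : ∀ x, μ {x} = 0)
    (Z : Type v) [MeasurableSpace Z] [StandardBorelSpace Z] [MulAction (Equiv.Perm ℕ) Z]
    (hZ : @Measurable _ _ (permMS.prod inferInstance) _ (fun p : Equiv.Perm ℕ × Z => p.1 • p.2)) :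
    ¬ ∃ f : SeparationQuotient (ErgAut μ) → Z,
      @Measurable _ _ (borel (SeparationQuotient (ErgAut μ))) _ f ∧
      ∀ S T : ErgAut μ, KakutaniEquiv μ S.1 T.1 ↔ ∃ π : Equiv.Perm ℕ,
        π • f (SeparationQuotient.mk S) = f (SeparationQuotient.mk T) := by
  rintro ⟨f, hf, hred⟩
  obtain ⟨e, he, hup, hlow⟩ := hF X μ hμ
  have hmk : @Measurable _ _ (borel (ErgAut μ)) (borel (SeparationQuotient (ErgAut μ)))
      (SeparationQuotient.mk : ErgAut μ → SeparationQuotient (ErgAut μ)) := by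
    letI : MeasurableSpace (ErgAut μ) := borel (ErgAut μ)
    haveI : BorelSpace (ErgAut μ) := ⟨rfl⟩
    letI : MeasurableSpace (SeparationQuotient (ErgAut μ)) := borel _
    haveI : BorelSpace (SeparationQuotient (ErgAut μ)) := ⟨rfl⟩
    exact SeparationQuotient.continuous_mk.measurable
  have hm : Measurable (fun x : ℕ → ℝ => f (SeparationQuotient.mk (e x))) := by
    letI m1 : MeasurableSpace (ErgAut μ) := borel (ErgAut μ)
    letI m2 : MeasurableSpace (SeparationQuotient (ErgAut μ)) := borel _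
    exact hf.comp (hmk.comp he)
  obtain ⟨C, hC, hCi⟩ := hP Z hZ _ hm (fun x y hxy => (hred _ _).1 (hup x y hxy))
  obtain ⟨x, hx, y, hy, hxy⟩ := hG C hC
  exact hlow x y hxy ((hred _ _).2 (hCi x hx y hy))

end Pool.Agent.H468R2.KA
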