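import Pool.Agent.H468R2.KA.Tasks2

set_option autoImplicit false

namespace Pool.Agent.H468R2.KA

theorem N_ge_two_pow (k : ℕ) : 2 ^ k ≤ N (k + 1) := by
  have h1 : N (k + 1) = L k * N k := rfl
  have h2 : R k ≤ L k := by
    unfold L
    exact Nat.le_mul_of_pos_right _ (Nat.mul_pos (M_pos k) (Q_pos k))
  calc 2 ^ k = R k := rfl
    _ ≤ L k := h2
    _ ≤ L k * N k := Nat.le_mul_of_pos_right _ (N_pos k)
    _ = N (k + 1) := h1.symm

theorem t_A_num : A_num := by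
  intro a β ha ha1 hβ hβ1
  have hC0 : 0 < ⌈8 / β⌉₊ := Nat.ceil_pos.mpr (by positivity)
  obtain ⟨C, hC⟩ : ∃ C : ℕ, C = ⌈8 / β⌉₊ := ⟨_, rfl⟩
  rw [← hC] at hC0
  have hC8 : 8 / β ≤ C := by rw [hC]; exact Nat.le_ceil _
  clear hC
  obtain ⟨d, hd⟩ : ∃ d : ℝ, d = a * β / 16 := ⟨_, rfl⟩
  have hd0 : 0 < d := by rw [hd]; positivity
  have hd1 : d ≤ a / 16 := by rw [hd]; nlinarith
  have hdβ : d ≤ β := by rw [hd]; nlinarith
  have hCr : (0 : ℝ) < C := by exact_mod_cast hC0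
  refine ⟨C, d * a / 64, hC0, by positivity, ?_⟩
  obtain ⟨T, hT⟩ : ∃ T : ℝ, T = 8 * (C + 2) / d := ⟨_, rfl⟩
  obtain ⟨k₀, hk₀⟩ := pow_unbounded_of_one_lt T (one_lt_two)
  refine ⟨k₀, fun k hk => ?_⟩
  have hp : T ≤ (2 : ℝ) ^ k := hk₀.le.trans (pow_le_pow_right₀ (by norm_num) hk)
  have hTd : T * d = 8 * (C + 2) := by rw [hT]; field_simp
  have hT0 : 0 < T := by rw [hT]; positivity
  have hpk : (0 : ℝ) < (2 : ℝ) ^ k := by positivity
  obtain ⟨x, hx⟩ : ∃ x : ℝ, x = (N (k + 1) : ℝ) := ⟨_, rfl⟩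
  have hx2 : (2 : ℝ) ^ k ≤ x := by
    rw [hx]; exact_mod_cast N_ge_two_pow k
  have hx0 : 0 < x := by linarith
  have hdx : 8 * ((C : ℝ) + 2) ≤ d * x := by
    calc 8 * ((C : ℝ) + 2) = d * T := by rw [mul_comm d T, hTd]
      _ ≤ d * x := mul_le_mul_of_nonneg_left (hp.trans hx2) hd0.le
  rw [← hx]
  refine ⟨⌊d * x⌋₊, ⌊d * x / 8⌋₊, ?_, ?_⟩
  · have h1 : ((⌊d * x / 8⌋₊ : ℕ) : ℝ) ≤ d * x / 8 := Nat.floor_le (by positivity)
    have h2 : d * x - 1 < (⌊d * x⌋₊ : ℕ) := Nat.sub_one_lt_floor _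
    have h3 : ((C : ℝ) + 2) * (eta (k + 1) * x) ≤ d * x / 8 := by
      have e1 : eta (k + 1) ≤ 1 / (2 : ℝ) ^ k := by
        unfold eta
        exact one_div_le_one_div_of_le hpk (pow_le_pow_right₀ (by norm_num) (by omega))
      have e2 : ((C : ℝ) + 2) * eta (k + 1) ≤ d / 8 := by
        have e3 : ((C : ℝ) + 2) * (1 / (2 : ℝ) ^ k) ≤ d / 8 := by
          rw [mul_one_div, div_le_iff₀ hpk]
          have : d * T ≤ d * (2 : ℝ) ^ k := mul_le_mul_of_nonneg_left hp hd0.le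
          nlinarith
        exact (mul_le_mul_of_nonneg_left e1 (by positivity)).trans e3
      calc ((C : ℝ) + 2) * (eta (k + 1) * x) = ((C : ℝ) + 2) * eta (k + 1) * x := by ring
        _ ≤ d / 8 * x := mul_le_mul_of_nonneg_right e2 hx0.le
        _ = d * x / 8 := by ring
    linarith
  · have t1 : a / β * (((C : ℝ) + 2) / h (k + 1)) ≤ a / 8 := by
      have e0 : ((h (k + 1) : ℕ) : ℝ) = 2 ^ (k + 1) := by simp [h]
      rw [e0]
      have e1 : ((C : ℝ) + 2) / 2 ^ (k + 1) ≤ β / 8 := by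
        rw [div_le_iff₀ (by positivity)]
        have e2 : d * T ≤ d * (2 : ℝ) ^ k := mul_le_mul_of_nonneg_left hp hd0.le
        have e3 : d * (2 : ℝ) ^ k ≤ β * (2 : ℝ) ^ k := mul_le_mul_of_nonneg_right hdβ hpk.le
        rw [pow_succ]
        nlinarith
      calc a / β * (((C : ℝ) + 2) / 2 ^ (k + 1)) ≤ a / β * (β / 8) :=
            mul_le_mul_of_nonneg_left e1 (by positivity)
        _ = a / 8 := by field_simp
    have h1 : ((⌊d * x⌋₊ : ℕ) : ℝ) / x ≤ d := by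
      rw [div_le_iff₀ hx0]; exact Nat.floor_le (by positivity)
    have t2 : a / β * (((⌊d * x⌋₊ : ℕ) : ℝ) / x) ≤ a / 16 := by
      calc a / β * (((⌊d * x⌋₊ : ℕ) : ℝ) / x) ≤ a / β * d :=
            mul_le_mul_of_nonneg_left h1 (by positivity)
        _ = a * a / 16 := by rw [hd]; field_simp
        _ ≤ a / 16 := by nlinarith
    have t3 : x * (d * a / 64) / (((⌊d * x / 8⌋₊ : ℕ) : ℝ) + 1) ≤ a / 8 := by
      rw [div_le_iff₀ (by positivity)]
      have h3 : d * x / 8 < ((⌊d * x / 8⌋₊ : ℕ) : ℝ) + 1 := Nat.lt_floor_add_one _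
      nlinarith
    have t4 : a / β / C ≤ a / 8 := by
      rw [div_le_iff₀ hCr]
      have : a / 8 * (8 / β) ≤ a / 8 * C := mul_le_mul_of_nonneg_left hC8 (by positivity)
      calc a / β = a / 8 * (8 / β) := by field_simp
        _ ≤ _ := this
    linarith
end Pool.Agent.H468R2.KA
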