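import Pool.Agent.H468R2.KA.Tasks2

set_option autoImplicit false

open MeasureTheory Filter Topology
open Pool.H110K2

namespace Pool.Agent.H468R2.KA

universe u

namespace F_eqvAux

variable {X : Type u}

/-- apply a finite word in the letters `t` (true) and `s` (false) -/
def ap (t s : X → X) : List Bool → X → X
  | [], x => x
  | b :: w, x => ap t s w (if b then t x else s x)

theorem ap_mp [MeasurableSpace X] (μ : Measure X) (t s : X → X) (ht : MeasurePreserving t μ μ)
    (hs : MeasurePreserving s μ μ) (w : List Bool) : MeasurePreserving (ap t s w) μ μ := by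
  induction w with
  | nil => exact MeasurePreserving.id μ
  | cons b w ih =>
    cases b
    · have : ap t s (false :: w) = ap t s w ∘ s := by
        funext x; simp [ap]
      rw [this]; exact ih.comp hs
    · have : ap t s (true :: w) = ap t s w ∘ t := by
        funext x; simp [ap]
      rw [this]; exact ih.comp ht

end F_eqvAux

open F_eqvAux in
theorem t_F_eqv : F_eqv.{u} := by
  intro X _ _ μ _ t s h
  classical
  have ht := h.mpφ.measurable
  have hs := h.mpψ.measurable
  set G0 : Set X := {x | s (t x) = x} ∩ {x | t (s x) = x} with hG0
  have mG0 : MeasurableSet G0 := by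
    letI := upgradeStandardBorel X
    exact (measurableSet_eq_fun (hs.comp ht) measurable_id).inter
      (measurableSet_eq_fun (ht.comp hs) measurable_id)
  have aG0 : ∀ᵐ x ∂μ, x ∈ G0 := by
    filter_upwards [h.l, h.r] with x h1 h2
    exact ⟨h1, h2⟩
  set G : Set X := ⋂ w : List Bool, (ap t s w) ⁻¹' G0 with hG
  have mG : MeasurableSet G :=
    MeasurableSet.iInter fun w => (ap_mp μ t s h.mpφ h.mpψ w).measurable mG0
  have aG : ∀ᵐ x ∂μ, x ∈ G := by
    rw [hG]
    simp only [Set.mem_iInter]
    rw [ae_all_iff]
    intro w
    exact (ap_mp μ t s h.mpφ h.mpψ w).quasiMeasurePreserving.ae aG0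
  have gt : ∀ x ∈ G, t x ∈ G := by
    intro x hx
    rw [hG, Set.mem_iInter] at hx ⊢
    intro w
    have := hx (true :: w)
    simpa [ap] using this
  have gs : ∀ x ∈ G, s x ∈ G := by
    intro x hx
    rw [hG, Set.mem_iInter] at hx ⊢
    intro w
    have := hx (false :: w)
    simpa [ap] using this
  have g0 : ∀ x ∈ G, x ∈ G0 := by
    intro x hx
    rw [hG, Set.mem_iInter] at hx
    exact hx []
  refine ⟨{ toFun := fun x => if x ∈ G then t x else x
            invFun := fun x => if x ∈ G then s x else x
            left_inv := ?_
            right_inv := ?_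
            measurable_toFun := ?_
            measurable_invFun := ?_ }, ?_, ?_⟩
  · intro x
    by_cases hx : x ∈ G
    · simp only [if_pos hx, if_pos (gt x hx)]
      exact (g0 x hx).1
    · simp only [if_neg hx]
  · intro x
    by_cases hx : x ∈ G
    · simp only [if_pos hx, if_pos (gs x hx)]
      exact (g0 x hx).2
    · simp only [if_neg hx]
  · exact Measurable.ite mG ht measurable_id
  · exact Measurable.ite mG hs measurable_id
  · filter_upwards [aG] with x hx
    exact if_pos hx
  · filter_upwards [aG] with x hx
    exact if_pos hx

end Pool.Agent.H468R2.KA
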