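import Pool.Agent.H468R2.KA.P_M_ext

/-!
# Approximation by functions of finitely many coordinates
-/

set_option autoImplicit false

open MeasureTheory Filter Topology
open scoped ENNReal symmDiff

namespace Pool.Agent.H468R2.KA

/-- the algebra of sets depending on finitely many coordinates -/
def mapx_alg : Set (Set Y) :=
  {s | ∃ k : ℕ, ∀ y z : Y, (∀ l < k, y l = z l) → (y ∈ s ↔ z ∈ s)}

theorem mapx_meas (s : Set Y) (hs : s ∈ mapx_alg) : MeasurableSet s := by
  obtain ⟨k, hk⟩ := hs
  rw [mext_union k s hk]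
  exact MeasurableSet.iUnion (fun p => MeasurableSet.iUnion (fun _ => mext_cyl_meas k _))

theorem mapx_isAlg : IsSetAlgebra mapx_alg where
  empty_mem := ⟨0, fun _ _ _ => Iff.rfl⟩
  compl_mem := by
    rintro s ⟨k, hk⟩
    exact ⟨k, fun y z h => not_congr (hk y z h)⟩
  union_mem := by
    rintro s t ⟨k, hk⟩ ⟨l, hl⟩
    refine ⟨max k l, fun y z h => ?_⟩
    exact or_congr (hk y z (fun j hj => h j (lt_of_lt_of_le hj (le_max_left _ _))))
      (hl y z (fun j hj => h j (lt_of_lt_of_le hj (le_max_right _ _))))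

theorem mapx_gen : (inferInstance : MeasurableSpace Y) = MeasurableSpace.generateFrom mapx_alg := by
  apply le_antisymm
  · rw [mext_gen]
    apply MeasurableSpace.generateFrom_mono
    rintro s ⟨k, a, rfl⟩
    refine ⟨k, fun y z h => ?_⟩
    constructor
    · intro hy l hl
      exact (h l hl).symm.trans (hy l hl)
    · intro hy l hl
      exact (h l hl).trans (hy l hl)
  · apply MeasurableSpace.generateFrom_le
    intro s hs
    exact mapx_meas s hs

theorem mapx_dense (ν : Measure Y) [IsFiniteMeasure ν] : ν.MeasureDense mapx_alg :=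
  Measure.MeasureDense.of_generateFrom_isSetAlgebra_finite _ mapx_isAlg mapx_gen

theorem mapx_comp (Φ : Y → List ℕ) (hΦ : ∀ l, MeasurableSet (Φ ⁻¹' {l})) (g : List ℕ → ENNReal) :
    Measurable (fun y => g (Φ y)) := by
  intro t _
  have h1 : (fun y => g (Φ y)) ⁻¹' t = ⋃ l ∈ g ⁻¹' t, Φ ⁻¹' {l} := by
    ext y
    simp
  rw [h1]
  exact MeasurableSet.biUnion (Set.to_countable _) (fun l _ => hΦ l)

open Classical in
/-- choice of an element of a set of lists -/
noncomputable def mapx_pick (s : Set (List ℕ)) : List ℕ := if h : s.Nonempty then h.some else []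

theorem mapx_pick_mem (s : Set (List ℕ)) (h : s.Nonempty) : mapx_pick s ∈ s := by
  unfold mapx_pick; rw [dif_pos h]; exact h.some_mem

theorem mapx_pick_empty (s : Set (List ℕ)) (h : ¬ s.Nonempty) : mapx_pick s = [] := by
  unfold mapx_pick; rw [dif_neg h]

open Classical in
theorem mapx_tail (ν : Measure Y) (Φ : Y → List ℕ) (hΦ : ∀ l, MeasurableSet (Φ ⁻¹' {l}))
    (hfin : ∫⁻ y, ((Φ y).length : ENNReal) ∂ν ≠ ⊤) (ε : ENNReal) (hε : ε ≠ 0) :
    ∃ A : Finset (List ℕ), ∫⁻ y, (if Φ y ∈ A then (0 : ENNReal) else (Φ y).length) ∂ν < ε := by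
  let An : ℕ → Finset (List ℕ) := fun n =>
    ((Set.finite_lt_nat n).preimage (Encodable.encode_injective (α := List ℕ)).injOn).toFinset
  have hAn : ∀ n l, l ∈ An n ↔ Encodable.encode l < n := by
    intro n l
    simp [An]
  have hlim : Tendsto (fun n => ∫⁻ y, (if Φ y ∈ An n then (0 : ENNReal) else (Φ y).length) ∂ν) atTop
      (𝓝 (∫⁻ _, (0 : ENNReal) ∂ν)) := by
    refine tendsto_lintegral_of_dominated_convergence (fun y => ((Φ y).length : ENNReal)) ?_ ?_
      hfin ?_
    · intro n
      exact mapx_comp Φ hΦ (fun l => if l ∈ An n then 0 else l.length)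
    · intro n
      refine Eventually.of_forall (fun y => ?_)
      show (if Φ y ∈ An n then (0 : ENNReal) else (Φ y).length) ≤ (Φ y).length
      split_ifs
      · exact zero_le
      · exact le_rfl
    · refine Eventually.of_forall (fun y => ?_)
      apply tendsto_const_nhds.congr'
      filter_upwards [eventually_gt_atTop (Encodable.encode (Φ y))] with n hn
      rw [if_pos ((hAn n _).2 hn)]
  rw [lintegral_zero] at hlim
  obtain ⟨n, hn⟩ := ((tendsto_order.1 hlim).2 ε (pos_iff_ne_zero.2 hε)).exists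
  exact ⟨An n, hn⟩

theorem t_M_apx : M_apx := by
  classical
  intro ν hν Φ hΦ hfin ε hε
  have := hν.prob
  obtain ⟨A, hA⟩ := mapx_tail ν Φ hΦ hfin (ε / 2) (by simpa using hε)
  -- bound for the lengths
  obtain ⟨R, hR⟩ : ∃ R : ℕ, ∀ l ∈ A, l.length ≤ R :=
    ⟨A.sup List.length, fun l hl => Finset.le_sup (f := List.length) hl⟩
  obtain ⟨δ, hδ, hδ2⟩ := ENNReal.exists_nnreal_pos_mul_lt (a := (A.card : ENNReal) * (2 * R : ℕ))
    (b := ε / 2) (by
      apply ENNReal.mul_ne_top (ENNReal.natCast_ne_top _) (ENNReal.natCast_ne_top _))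
    (by simpa using hε)
  have happ : ∀ l : List ℕ, ∃ t ∈ mapx_alg, ν ((Φ ⁻¹' {l}) ∆ t) < ENNReal.ofReal (δ : ℝ) :=
    fun l => (mapx_dense ν).approx _ (hΦ l) (measure_ne_top _ _) _ hδ
  choose B hB hBd using happ
  choose mm hmm using hB
  let F : Y → List ℕ := fun y => mapx_pick {l | l ∈ A ∧ y ∈ B l}
  have hFA : ∀ y, (F y).length ≤ R := by
    intro y
    by_cases h : ({l | l ∈ A ∧ y ∈ B l} : Set (List ℕ)).Nonempty
    · exact hR _ (mapx_pick_mem _ h).1
    · show (mapx_pick _).length ≤ R
      rw [mapx_pick_empty _ h]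
      exact Nat.zero_le _
  refine ⟨A.sup mm, F, ?_, ?_⟩
  · intro y z hyz
    show mapx_pick _ = mapx_pick _
    congr 1
    ext l
    simp only [Set.mem_ofPred_eq]
    constructor
    · rintro ⟨h1, h2⟩
      exact ⟨h1, (hmm l y z (fun j hj => hyz j
        (lt_of_lt_of_le hj (Finset.le_sup (f := mm) h1)))).1 h2⟩
    · rintro ⟨h1, h2⟩
      exact ⟨h1, (hmm l y z (fun j hj => hyz j
        (lt_of_lt_of_le hj (Finset.le_sup (f := mm) h1)))).2 h2⟩
  · -- pointwise bound
    have hpt : ∀ y, (if Φ y = F y then (0 : ENNReal) else (Φ y).length + (F y).length) ≤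
        (if Φ y ∈ A then (0 : ENNReal) else (Φ y).length) +
          ∑ l ∈ A, ((Φ ⁻¹' {l}) ∆ (B l)).indicator (fun _ => ((2 * R : ℕ) : ENNReal)) y := by
      intro y
      by_cases h0 : Φ y = F y
      · rw [if_pos h0]; exact zero_le
      · rw [if_neg h0]
        by_cases h1 : Φ y ∈ A
        · rw [if_pos h1, zero_add]
          -- there is `l ∈ A` with `y ∈ A_l Δ B_l`
          have h2 : ∃ l ∈ A, y ∈ (Φ ⁻¹' {l}) ∆ (B l) := by
            by_cases h3 : y ∈ B (Φ y)
            · have h4 : ({l | l ∈ A ∧ y ∈ B l} : Set (List ℕ)).Nonempty := ⟨Φ y, h1, h3⟩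
              have h5 := mapx_pick_mem _ h4
              exact ⟨F y, h5.1, Or.inr ⟨h5.2, fun h => h0 h⟩⟩
            · exact ⟨Φ y, h1, Or.inl ⟨rfl, h3⟩⟩
          obtain ⟨l, hl, hyl⟩ := h2
          have h6 : ((Φ y).length : ENNReal) + (F y).length ≤ ((2 * R : ℕ) : ENNReal) := by
            have := hR _ h1
            have h8 := hFA y
            have h9 : (Φ y).length + (F y).length ≤ 2 * R := by omega
            exact_mod_cast h9
          refine h6.trans ?_
          have h7 : ((2 * R : ℕ) : ENNReal) =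
              ((Φ ⁻¹' {l}) ∆ (B l)).indicator (fun _ => ((2 * R : ℕ) : ENNReal)) y := by
            rw [Set.indicator_of_mem hyl]
          refine (le_of_eq h7).trans ?_
          exact Finset.single_le_sum (f := fun l =>
            ((Φ ⁻¹' {l}) ∆ (B l)).indicator (fun _ => ((2 * R : ℕ) : ENNReal)) y)
            (fun _ _ => zero_le) hl
        · rw [if_neg h1]
          gcongr
          by_cases h4 : ({l | l ∈ A ∧ y ∈ B l} : Set (List ℕ)).Nonempty
          · have h5 := mapx_pick_mem _ h4
            have hyl : y ∈ (Φ ⁻¹' {F y}) ∆ (B (F y)) := Or.inr ⟨h5.2, fun h => h0 h⟩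
            have h6 : ((F y).length : ENNReal) ≤ ((2 * R : ℕ) : ENNReal) := by
              have h8 := hFA y
              have h9 : (F y).length ≤ 2 * R := by omega
              exact_mod_cast h9
            refine h6.trans ?_
            have h7 : ((2 * R : ℕ) : ENNReal) =
                ((Φ ⁻¹' {F y}) ∆ (B (F y))).indicator (fun _ => ((2 * R : ℕ) : ENNReal)) y := by
              rw [Set.indicator_of_mem hyl]
            refine (le_of_eq h7).trans ?_
            exact Finset.single_le_sum (f := fun l =>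
              ((Φ ⁻¹' {l}) ∆ (B l)).indicator (fun _ => ((2 * R : ℕ) : ENNReal)) y)
              (fun _ _ => zero_le) h5.1
          · have h5 : F y = [] := mapx_pick_empty _ h4
            rw [h5]
            simp
    have hmeas : ∀ l, MeasurableSet ((Φ ⁻¹' {l}) ∆ (B l)) := fun l =>
      (hΦ l).symmDiff (mapx_meas _ ⟨mm l, hmm l⟩)
    calc ∫⁻ y, (if Φ y = F y then (0 : ENNReal) else (Φ y).length + (F y).length) ∂ν
        ≤ ∫⁻ y, ((if Φ y ∈ A then (0 : ENNReal) else (Φ y).length) +
          ∑ l ∈ A, ((Φ ⁻¹' {l}) ∆ (B l)).indicator (fun _ => ((2 * R : ℕ) : ENNReal)) y) ∂ν :=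
          lintegral_mono hpt
      _ = ∫⁻ y, (if Φ y ∈ A then (0 : ENNReal) else (Φ y).length) ∂ν +
          ∑ l ∈ A, ((2 * R : ℕ) : ENNReal) * ν ((Φ ⁻¹' {l}) ∆ (B l)) := by
          rw [lintegral_add_left
            (mapx_comp Φ hΦ (fun l => if l ∈ A then (0 : ENNReal) else l.length))]
          congr 1
          rw [lintegral_finsetSum A (fun l _ => measurable_const.indicator (hmeas l))]
          refine Finset.sum_congr rfl (fun l _ => ?_)
          rw [lintegral_indicator_const (hmeas l)]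
      _ ≤ ε / 2 + ∑ l ∈ A, ((2 * R : ℕ) : ENNReal) * δ := by
          gcongr with l hl
          have := (hBd l).le
          rwa [ENNReal.ofReal_coe_nnreal] at this
      _ ≤ ε / 2 + ε / 2 := by
          gcongr
          rw [Finset.sum_const, nsmul_eq_mul]
          calc (A.card : ENNReal) * (((2 * R : ℕ) : ENNReal) * δ)
              = δ * ((A.card : ENNReal) * (2 * R : ℕ)) := by ring
            _ ≤ ε / 2 := hδ2.le
      _ = ε := ENNReal.add_halves ε

end Pool.Agent.H468R2.KA
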