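import Pool.Agent.H468R2.KA.Tasks2

/-! Task M_mP (helper73). -/

set_option autoImplicit false

open MeasureTheory Filter Topology

namespace Pool.Agent.H468R2.KA

theorem t_M_mP : M_mP := by
  intro c K
  induction K with
  | zero =>
    show Measurable (fun _ : Y => (0 : ℕ))
    exact measurable_const
  | succ k ih =>
    have h1 : Measurable (fun y : Y => (y (k + 1), y k)) :=
      (measurable_pi_apply (k + 1)).prodMk (measurable_pi_apply k)
    have h2 : Measurable (fun q : D (k + 1) × D k => pos k (c k) (q.1.1 : ℕ) q.2 * N k) :=
      Measurable.of_discrete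
    have h3 : P c (k + 1) = fun y : Y =>
        (fun q : D (k + 1) × D k => pos k (c k) (q.1.1 : ℕ) q.2 * N k) (y (k + 1), y k) +
          P c k y := by
      funext y
      rw [P]
      rfl
    rw [h3]
    exact (h2.comp h1).add ih

end Pool.Agent.H468R2.KA

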