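import Pool.Agent.H468R2.KA.Tasks2

/-!
# M_mS: the inverse transformation is jointly measurable
-/

set_option autoImplicit false

open MeasureTheory Filter Topology

namespace Pool.Agent.H468R2.KA

namespace MmSb

open Classical in
theorem S_coord (c : ℕ → ℕ) (y : Y) (l : ℕ) : S c y l =
    if (∀ k ≤ l, y k = zr k) then (if (∃ k, y k ≠ zr k) then la l else y l)
    else (if (∀ k < l, y k = zr k) then prv l (c l) (ty (l + 1) y) (y l) else y l) := by
  unfold S
  by_cases H : ∃ k, y k ≠ zr k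
  · rw [dif_pos H]
    have hspec := Nat.find_spec H
    have hmin : ∀ m, m < Nat.find H → y m = zr m := fun m hm => by
      by_contra h
      exact Nat.find_min H hm h
    rcases lt_trichotomy l (Nat.find H) with h | h | h
    · rw [if_pos h, if_pos (fun k hk => hmin k (lt_of_le_of_lt hk h)), if_pos H]
    · have h1 : ¬ l < Nat.find H := by omega
      have h2 : ¬ ∀ k ≤ l, y k = zr k := fun h3 => hspec (h3 _ h.ge)
      have h3 : ∀ k < l, y k = zr k := fun k hk => hmin k (lt_of_lt_of_eq hk h)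
      rw [if_neg h1, if_pos h, if_neg h2, if_pos h3]
    · have h1 : ¬ l < Nat.find H := by omega
      have h1' : ¬ l = Nat.find H := by omega
      have h2 : ¬ ∀ k ≤ l, y k = zr k := fun h3 => hspec (h3 _ h.le)
      have h3 : ¬ ∀ k < l, y k = zr k := fun h3 => hspec (h3 _ h)
      rw [if_neg h1, if_neg h1', if_neg h2, if_neg h3]
  · rw [dif_neg H]
    have h1 : ∀ k ≤ l, y k = zr k := fun k _ => by
      by_contra h
      exact H ⟨k, h⟩
    rw [if_pos h1, if_neg H]

theorem meas_coord (l : ℕ) : Measurable (fun p : (ℕ → ℕ) × Y => p.2 l) :=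
  (measurable_pi_apply l).comp measurable_snd

theorem meas_eq (k : ℕ) : MeasurableSet {p : (ℕ → ℕ) × Y | p.2 k = zr k} :=
  measurableSet_eq_fun (meas_coord k) measurable_const

theorem meas_ty (l : ℕ) : Measurable (fun p : (ℕ → ℕ) × Y => ty l p.2) := by
  have h : Measurable (fun d : D l => ((d.1 : Fin (M l)) : ℕ)) := Measurable.of_discrete
  exact h.comp (meas_coord l)

theorem meas_gen {Ω α : Type*} [MeasurableSpace Ω] [MeasurableSpace α] [Countable α]
    [DiscreteMeasurableSpace α] (f : ℕ → ℕ → α → α) {u v : Ω → ℕ} {w : Ω → α}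
    (hu : Measurable u) (hv : Measurable v) (hw : Measurable w) :
    Measurable (fun p : Ω => f (u p) (v p) (w p)) := by
  have h : Measurable (fun t : ℕ × ℕ × α => f t.1 t.2.1 t.2.2) := Measurable.of_discrete
  exact h.comp (hu.prodMk (hv.prodMk hw))

theorem meas_prv (l : ℕ) : Measurable (fun p : (ℕ → ℕ) × Y =>
    prv l (p.1 l) (ty (l + 1) p.2) (p.2 l)) :=
  meas_gen (prv l) ((measurable_pi_apply l).comp measurable_fst) (meas_ty (l + 1)) (meas_coord l)

end MmSb

open MmSb in
theorem t_M_mS_b : M_mS := by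
  classical
  unfold M_mS
  rw [measurable_pi_iff]
  intro l
  have key : (fun p : (ℕ → ℕ) × Y => S p.1 p.2 l) = fun p : (ℕ → ℕ) × Y =>
      if (∀ k ≤ l, p.2 k = zr k) then (if (∃ k, p.2 k ≠ zr k) then la l else p.2 l)
      else (if (∀ k < l, p.2 k = zr k) then prv l (p.1 l) (ty (l + 1) p.2) (p.2 l)
        else p.2 l) := by
    funext p
    rw [S_coord]
  rw [key]
  have hs1 : MeasurableSet {p : (ℕ → ℕ) × Y | ∀ k ≤ l, p.2 k = zr k} := by
    have : {p : (ℕ → ℕ) × Y | ∀ k ≤ l, p.2 k = zr k} =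
        ⋂ k, ⋂ _ : k ≤ l, {p : (ℕ → ℕ) × Y | p.2 k = zr k} := by
      ext p
      simp only [Set.mem_ofPred_eq, Set.mem_iInter]
    rw [this]
    exact MeasurableSet.iInter fun k => MeasurableSet.iInter fun _ => meas_eq k
  have hs2 : MeasurableSet {p : (ℕ → ℕ) × Y | ∃ k, p.2 k ≠ zr k} := by
    have : {p : (ℕ → ℕ) × Y | ∃ k, p.2 k ≠ zr k} =
        ⋃ k, {p : (ℕ → ℕ) × Y | p.2 k = zr k}ᶜ := by
      ext p
      simp only [Set.mem_ofPred_eq, Set.mem_iUnion, Set.mem_compl_iff, ne_eq]
    rw [this]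
    exact MeasurableSet.iUnion fun k => (meas_eq k).compl
  have hs3 : MeasurableSet {p : (ℕ → ℕ) × Y | ∀ k < l, p.2 k = zr k} := by
    have : {p : (ℕ → ℕ) × Y | ∀ k < l, p.2 k = zr k} =
        ⋂ k, ⋂ _ : k < l, {p : (ℕ → ℕ) × Y | p.2 k = zr k} := by
      ext p
      simp only [Set.mem_ofPred_eq, Set.mem_iInter]
    rw [this]
    exact MeasurableSet.iInter fun k => MeasurableSet.iInter fun _ => meas_eq k
  exact Measurable.ite hs1 (Measurable.ite hs2 measurable_const (meas_coord l))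
    (Measurable.ite hs3 (meas_prv l) (meas_coord l))

end Pool.Agent.H468R2.KA
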