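import Pool.Agent.H468R2.KA.Tasks2

set_option autoImplicit false

open MeasureTheory Filter Topology
open Pool.H110K2

namespace Pool.Agent.H468R2.KA

theorem mp_two_le_L (k : ℕ) : 2 ≤ L k := by
  have h1 : 2 ≤ M k := by
    unfold M g h
    have h1 : 2 ≤ 2 ^ (k + 6) := by
      calc 2 = 2 ^ 1 := by norm_num
        _ ≤ 2 ^ (k + 6) := Nat.pow_le_pow_right (by norm_num) (by omega)
    have h2 : 1 ≤ 2 ^ k := Nat.one_le_two_pow
    nlinarith
  have h2 := R_pos k
  have h3 := Q_pos k
  unfold L
  calc 2 ≤ M k := h1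
    _ ≤ M k * Q k := Nat.le_mul_of_pos_right _ h3
    _ ≤ R k * (M k * Q k) := Nat.le_mul_of_pos_left _ h2

theorem mp_le_N (k : ℕ) : k < N k := by
  induction k with
  | zero => simp [N]
  | succ k ih =>
    rw [N]
    have := mp_two_le_L k
    have h2 : 2 * N k ≤ L k * N k := Nat.mul_le_mul_right _ this
    omega

theorem mp_P_congr (c : ℕ → ℕ) (K : ℕ) (y z : Y) (h : ∀ l ≤ K, y l = z l) :
    P c K y = P c K z := by
  induction K with
  | zero => rfl
  | succ k ih =>
    have h1 := ih (fun l hl => h l (by omega))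
    have h2 := h (k + 1) le_rfl
    have h3 := h k (by omega)
    simp only [P, ty, h1, h2, h3]

theorem mp_cyl_meas (n : ℕ) (a : Y) : MeasurableSet (cyl n a) := by
  have : cyl n a = ⋂ l, ⋂ (_ : l < n), (fun y : Y => y l) ⁻¹' {a l} := by
    ext y; simp [cyl]
  rw [this]
  exact MeasurableSet.iInter fun l => MeasurableSet.iInter fun _ =>
    (measurable_pi_apply l) (measurableSet_singleton _)

theorem mp_down (ν' : Measure Y) (k : ℕ)
    (H : ∀ a, ν' (cyl (k + 1) a) = ((N (k + 1) : ENNReal))⁻¹) (a : Y) :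
    ν' (cyl k a) = ((N k : ENNReal))⁻¹ := by
  have h1 : cyl k a = ⋃ d : D k, cyl (k + 1) (Function.update a k d) := by
    ext y
    simp only [cyl, Set.mem_setOf_eq, Set.mem_iUnion]
    constructor
    · intro hy
      refine ⟨y k, fun l hl => ?_⟩
      rcases Nat.lt_succ_iff_lt_or_eq.mp hl with h | h
      · rw [Function.update_of_ne (by omega)]; exact hy l h
      · subst h; rw [Function.update_self]
    · rintro ⟨d, hd⟩ l hl
      have := hd l (by omega)
      rw [Function.update_of_ne (by omega)] at this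
      exact this
  have h2 : Pairwise (Function.onFun Disjoint
      (fun d : D k => cyl (k + 1) (Function.update a k d))) := by
    intro d d' hdd'
    rw [Function.onFun, Set.disjoint_left]
    intro y hy hy'
    apply hdd'
    have e1 := hy k (Nat.lt_succ_self k)
    have e2 := hy' k (Nat.lt_succ_self k)
    rw [Function.update_self] at e1 e2
    rw [← e1, ← e2]
  rw [h1, measure_iUnion h2 (fun d => mp_cyl_meas _ _), tsum_fintype]
  simp only [H]
  rw [Finset.sum_const, Finset.card_univ, Fintype.card_prod, Fintype.card_prod, Fintype.card_fin,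
    Fintype.card_fin, Fintype.card_fin, nsmul_eq_mul]
  have h3 : M k * (R k * Q k) = L k := by unfold L; ring
  rw [h3, N, Nat.cast_mul]
  have hL : (L k : ENNReal) ≠ 0 := by
    have := L_pos k; exact_mod_cast this.ne'
  have hL' : (L k : ENNReal) ≠ ⊤ := ENNReal.natCast_ne_top _
  rw [ENNReal.mul_inv (Or.inl hL) (Or.inl hL'), ← mul_assoc, ENNReal.mul_inv_cancel hL hL',
    one_mul]

theorem mp_down' (ν' : Measure Y) (k₀ : ℕ)
    (H : ∀ k, k₀ ≤ k → ∀ a, ν' (cyl k a) = ((N k : ENNReal))⁻¹) (k : ℕ) (a : Y) :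
    ν' (cyl k a) = ((N k : ENNReal))⁻¹ := by
  induction k₀ generalizing k a with
  | zero => exact H k (Nat.zero_le k) a
  | succ k₀ ih =>
    apply ih
    intro k hk a
    rcases Nat.eq_or_lt_of_le hk with h | h
    · subst h
      exact mp_down ν' _ (fun a => H _ le_rfl a) a
    · exact H k h a

theorem mp_glue (c : ℕ → ℕ) (hP : Y_P) (n m : ℕ) (hnm : n + 1 ≤ m) (a y : Y)
    (h : ∀ l, n ≤ l → l < m → y l = a l) (hPy : P c n y = P c n a) : ∀ l < m, y l = a l := by
  have h1 := (hP c n y).2.2.2.1 (fun l => if l < m then a l else y l) ?_ ?_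
  · intro l hl
    rw [h1]
    simp [hl]
  · intro l hl
    by_cases hlm : l < m
    · simp [hlm, h l hl hlm]
    · simp [hlm]
  · rw [hPy]
    apply mp_P_congr
    intro l hl
    simp [show l < m by omega]

theorem mp_key (c : ℕ → ℕ) (hP : Y_P) (hstep : Y_step) (ν : Measure Y) (hν : Unif ν) (n m : ℕ)
    (hnm : n + 1 ≤ m) (a : Y) :
    ν ({y | P c n y + 1 < N n} ∩ T c ⁻¹' cyl m a) + ν (cyl m a ∩ cyl n (fun l => zr l)) =
      ((N m : ENNReal))⁻¹ := by
  by_cases h0 : P c n a = 0
  · have h1 := (hP c n a).2.1.mp h0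
    have e1 : {y | P c n y + 1 < N n} ∩ T c ⁻¹' cyl m a = ∅ := by
      ext y
      simp only [Set.mem_inter_iff, Set.mem_setOf_eq, Set.mem_preimage, Set.mem_empty_iff_false,
        iff_false, not_and]
      intro hy hTy
      have h2 := (hstep c y n hy).1
      have h3 : P c n (T c y) = P c n a := mp_P_congr c n _ _ (fun l hl => hTy l (by omega))
      omega
    have e2 : cyl m a ∩ cyl n (fun l => zr l) = cyl m a := by
      apply Set.inter_eq_left.mpr
      intro y hy l hl
      rw [hy l (by omega), h1 l hl]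
    rw [e1, e2, measure_empty, zero_add, hν.cyl]
  · have e2 : cyl m a ∩ cyl n (fun l => zr l) = ∅ := by
      ext y
      simp only [Set.mem_inter_iff, Set.mem_empty_iff_false, iff_false, not_and]
      intro hy hy'
      apply h0
      rw [(hP c n a).2.1]
      intro l hl
      rw [← hy l (by omega)]
      exact hy' l hl
    obtain ⟨a', ha1, ha2⟩ := (hP c n a).2.2.2.2 (P c n a - 1) (by
      have := (hP c n a).1; omega)
    have e1 : {y | P c n y + 1 < N n} ∩ T c ⁻¹' cyl m a = cyl m a' := by
      ext y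
      simp only [Set.mem_inter_iff, Set.mem_setOf_eq, Set.mem_preimage]
      constructor
      · rintro ⟨hy, hTy⟩
        obtain ⟨h2, h3⟩ := hstep c y n hy
        have h4 : P c n (T c y) = P c n a := mp_P_congr c n _ _ (fun l hl => hTy l (by omega))
        apply mp_glue c hP n m hnm
        · intro l hl hlm
          rw [ha1 l hl, ← hTy l hlm, h3 l hl]
        · rw [ha2]; omega
      · intro hy
        have h2 : P c n y = P c n a' := mp_P_congr c n _ _ (fun l hl => hy l (by omega))
        have h3 := (hP c n a).1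
        have h4 : P c n y + 1 < N n := by omega
        refine ⟨h4, ?_⟩
        obtain ⟨h5, h6⟩ := hstep c y n h4
        apply mp_glue c hP n m hnm
        · intro l hl hlm
          rw [h6 l hl, hy l hlm, ha1 l hl]
        · omega
    rw [e1, e2, measure_empty, add_zero, hν.cyl]

theorem t_M_mp (hext : M_ext) (hT : M_mT) (hS : M_mS) (hP : Y_P) (hstep : Y_step) (hGd : Y_Gd)
    (hMGd : M_Gd) : M_mp := by
  intro ν hν c
  haveI := hν.prob
  have mT : Measurable (T c) := by
    have : T c = (fun p : (ℕ → ℕ) × Y => T p.1 p.2) ∘ (fun y => (c, y)) := rfl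
    rw [this]
    exact hT.comp (measurable_const.prodMk measurable_id)
  have mS : Measurable (S c) := by
    have : S c = (fun p : (ℕ → ℕ) × Y => S p.1 p.2) ∘ (fun y => (c, y)) := rfl
    rw [this]
    exact hS.comp (measurable_const.prodMk measurable_id)
  have mA : ∀ n, MeasurableSet {y | P c n y + 1 < N n} := by
    intro n
    have : {y | P c n y + 1 < N n} = (cyl n (fun l => la l))ᶜ := by
      ext y
      simp only [Set.mem_setOf_eq, Set.mem_compl_iff, cyl]
      rw [← (hP c n y).2.2.1]
      have := (hP c n y).1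
      omega
    rw [this]
    exact (mp_cyl_meas _ _).compl
  have key : ∀ n, (ν.restrict {y | P c n y + 1 < N n}).map (T c) +
      ν.restrict (cyl n (fun l => zr l)) = ν := by
    intro n
    have hc : ∀ m, n + 1 ≤ m → ∀ a, ((ν.restrict {y | P c n y + 1 < N n}).map (T c) +
        ν.restrict (cyl n (fun l => zr l))) (cyl m a) = ((N m : ENNReal))⁻¹ := by
      intro m hm a
      rw [Measure.add_apply, Measure.map_apply mT (mp_cyl_meas _ _),
        Measure.restrict_apply (mT (mp_cyl_meas _ _)), Measure.restrict_apply (mp_cyl_meas _ _),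
        Set.inter_comm (T c ⁻¹' _)]
      exact mp_key c hP hstep ν hν n m hm a
    have hc' := mp_down' _ (n + 1) hc
    apply hext
    · refine ⟨⟨?_⟩, hc'⟩
      have := hc' 0 (fun l => zr l)
      have e : cyl 0 (fun l => zr l) = Set.univ := by
        ext y; simp [cyl]
      rw [e] at this
      rw [this]
      simp [N]
    · exact hν
  have hle : ∀ E, MeasurableSet E → ν E ≤ ν (T c ⁻¹' E) := by
    intro E hE
    have h1 : ∀ n, ν E ≤ ν (T c ⁻¹' E) + ((n : ℕ) : ENNReal)⁻¹ := by
      intro n
      calc ν E = ((ν.restrict {y | P c n y + 1 < N n}).map (T c) +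
            ν.restrict (cyl n (fun l => zr l))) E := by rw [key n]
        _ = ν (T c ⁻¹' E ∩ {y | P c n y + 1 < N n}) + ν (E ∩ cyl n (fun l => zr l)) := by
            rw [Measure.add_apply, Measure.map_apply mT hE,
              Measure.restrict_apply (mT hE), Measure.restrict_apply hE]
        _ ≤ ν (T c ⁻¹' E) + ν (cyl n (fun l => zr l)) :=
            add_le_add (measure_mono Set.inter_subset_left) (measure_mono Set.inter_subset_right)
        _ ≤ ν (T c ⁻¹' E) + ((n : ℕ) : ENNReal)⁻¹ := by
            rw [hν.cyl]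
            gcongr
            exact_mod_cast (mp_le_N n).le
    have h2 : Tendsto (fun n : ℕ => ν (T c ⁻¹' E) + ((n : ℕ) : ENNReal)⁻¹) atTop
        (𝓝 (ν (T c ⁻¹' E) + 0)) :=
      tendsto_const_nhds.add ENNReal.tendsto_inv_nat_nhds_zero
    rw [add_zero] at h2
    exact ge_of_tendsto' h2 h1
  have hmp : MeasurePreserving (T c) ν ν := by
    refine ⟨mT, ?_⟩
    ext E hE
    rw [Measure.map_apply mT hE]
    apply le_antisymm
    · have h1 := hle Eᶜ hE.compl
      rw [Set.preimage_compl, prob_compl_eq_one_sub hE, prob_compl_eq_one_sub (mT hE)] at h1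
      have h2 : ν (T c ⁻¹' E) ≤ 1 := prob_le_one
      have h3 : ν E ≤ 1 := prob_le_one
      exact (ENNReal.sub_le_sub_iff_left h2 ENNReal.one_ne_top).mp h1
    · exact hle E hE
  refine ⟨hmp, ⟨mS, ?_⟩⟩
  have hae : S c ∘ T c =ᵐ[ν] id := by
    have h1 := (hMGd ν hν).2
    have h2 : ∀ᵐ y ∂ν, y ∈ Gd := by
      rw [ae_iff]
      exact h1
    filter_upwards [h2] with y hy
    exact (hGd c y hy).2.2.1
  calc Measure.map (S c) ν = Measure.map (S c) (Measure.map (T c) ν) := by rw [hmp.map_eq]
    _ = Measure.map (S c ∘ T c) ν := Measure.map_map mS mT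
    _ = Measure.map id ν := Measure.map_congr hae
    _ = ν := Measure.map_id

end Pool.Agent.H468R2.KA
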