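import Pool.Agent.H468R2.KA.Tasks2

/-!
# Task `M_ty`: the types of the `K`-words are uniformly distributed
-/

set_option autoImplicit false

open MeasureTheory

namespace Pool.Agent.H468R2.KA

theorem mty_N_succ (k : ℕ) : N (k + 1) = L k * N k := rfl

theorem mty_L (k : ℕ) : L k = R k * (M k * Q k) := rfl

theorem mty_card_D (k : ℕ) : Fintype.card (D k) = L k := by
  rw [Fintype.card_prod, Fintype.card_prod, Fintype.card_fin, Fintype.card_fin, Fintype.card_fin,
    mty_L]
  ring

theorem mty_prod (K : ℕ) : ∏ l : Fin K, L (l : ℕ) = N K := by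
  induction K with
  | zero => rfl
  | succ K ih =>
    rw [Fin.prod_univ_castSucc, mty_N_succ]
    simp only [Fin.val_castSucc, Fin.val_last]
    rw [ih, Nat.mul_comm]

theorem mty_card (K : ℕ) :
    Fintype.card ((∀ l : Fin K, D l) × (Fin (R K) × Fin (Q K))) = N K * (R K * Q K) := by
  rw [Fintype.card_prod, Fintype.card_prod, Fintype.card_fin, Fintype.card_fin, Fintype.card_pi]
  simp only [mty_card_D]
  rw [mty_prod]

/-- extension of a finite sequence -/
def mtyExt (K : ℕ) (j : Fin (M K)) (p : (∀ l : Fin K, D l) × (Fin (R K) × Fin (Q K))) : Y :=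
  fun l => if h : l < K then p.1 ⟨l, h⟩ else
    if h' : K = l then h' ▸ ((j, p.2.1, p.2.2) : D K) else zr l

theorem mty_one (ν : Measure Y) (hν : Unif ν) (K : ℕ) (j : Fin (M K)) :
    ν {y | (y K).1 = j} ≤ ((M K : ENNReal))⁻¹ := by
  have hsub : {y : Y | (y K).1 = j} ⊆
      ⋃ p : (∀ l : Fin K, D l) × (Fin (R K) × Fin (Q K)), cyl (K + 1) (mtyExt K j p) := by
    intro y hy
    have hy' : (y K).1 = j := hy
    refine Set.mem_iUnion.2 ⟨(fun l => y l, ((y K).2.1, (y K).2.2)), ?_⟩
    intro l hl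
    rcases Nat.lt_or_ge l K with h | h
    · simp only [mtyExt, dif_pos h]
    · have hlK : K = l := by omega
      subst hlK
      simp only [mtyExt, dif_neg (lt_irrefl K), dif_pos]
      rw [← hy']
  have hle : ν {y | (y K).1 = j} ≤
      ∑ p : (∀ l : Fin K, D l) × (Fin (R K) × Fin (Q K)), ν (cyl (K + 1) (mtyExt K j p)) :=
    (measure_mono hsub).trans (measure_iUnion_fintype_le ν _)
  refine hle.trans ?_
  simp only [hν.cyl]
  rw [Finset.sum_const, Finset.card_univ, mty_card, nsmul_eq_mul, ← div_eq_mul_inv]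
  have hN : ((N (K + 1) : ℕ) : ENNReal) = (M K : ENNReal) * ((N K * (R K * Q K) : ℕ) : ENNReal) := by
    rw [← Nat.cast_mul, mty_N_succ, mty_L]
    congr 1
    ring
  have hM0 : (M K : ENNReal) ≠ 0 := by
    have := M_pos K
    exact_mod_cast this.ne'
  rw [hN, div_eq_mul_inv, ENNReal.mul_inv (Or.inl hM0) (Or.inl (ENNReal.natCast_ne_top _)),
    mul_comm ((M K : ENNReal))⁻¹, ← mul_assoc]
  have hx0 : ((N K * (R K * Q K) : ℕ) : ENNReal) ≠ 0 := by
    have := Nat.mul_pos (N_pos K) (Nat.mul_pos (R_pos K) (Q_pos K))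
    exact_mod_cast this.ne'
  rw [ENNReal.mul_inv_cancel hx0 (ENNReal.natCast_ne_top _), one_mul]

theorem t_M_ty : M_ty := by
  intro ν hν K I
  have hsub : {y : Y | ty K y ∈ I} ⊆ ⋃ j ∈ I, {y : Y | ty K y = j} := by
    intro y hy
    exact Set.mem_biUnion (x := ty K y) hy rfl
  have h1 : ∀ j ∈ I, ν {y : Y | ty K y = j} ≤ ((M K : ENNReal))⁻¹ := by
    intro j _
    rcases Nat.lt_or_ge j (M K) with h | h
    · have he : {y : Y | ty K y = j} ⊆ {y : Y | (y K).1 = ⟨j, h⟩} := by
        intro y hy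
        exact Fin.ext hy
      exact (measure_mono he).trans (mty_one ν hν K ⟨j, h⟩)
    · have he : {y : Y | ty K y = j} = ∅ := by
        ext y
        simp only [Set.mem_ofPred_eq, Set.mem_empty_iff_false, iff_false]
        intro hy
        have := (y K).1.2
        have h2 : ((y K).1 : ℕ) = j := hy
        omega
      rw [he, measure_empty]
      exact zero_le
  calc ν {y : Y | ty K y ∈ I} ≤ ν (⋃ j ∈ I, {y : Y | ty K y = j}) := measure_mono hsub
    _ ≤ ∑ j ∈ I, ν {y : Y | ty K y = j} := measure_biUnion_finset_le I _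
    _ ≤ ∑ _j ∈ I, ((M K : ENNReal))⁻¹ := Finset.sum_le_sum h1
    _ = (I.card : ENNReal) / M K := by
        rw [Finset.sum_const, nsmul_eq_mul, div_eq_mul_inv]

end Pool.Agent.H468R2.KA
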