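import Pool.Agent.H468R2.KA.Tasks2

/-!
Task W_cyc: two cyclic words with different run lengths.
-/

namespace Pool.Agent.H468R2.KA

namespace Wcyc

theorem cyc_length (m p n s : ℕ) : (cyc m p n s).length = n := by
  simp [cyc]

theorem cyc_add (m p a b s : ℕ) : cyc m p (a + b) s = cyc m p a s ++ cyc m p b (s + a) := by
  unfold cyc
  rw [List.range_add, List.map_append, List.map_map]
  congr 1
  apply List.map_congr_left
  intro i _
  simp only [Function.comp, add_assoc]

theorem countA (m p n s G : ℕ) (hm : 0 < m) (hp : 0 < p) (w : List ℕ)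
    (hw : w.Sublist (cyc m p n s)) (hG : ∀ a ∈ w, a = G) :
    (w.length : ℝ) ≤ (n : ℝ) / m + p := by
  unfold cyc at hw
  obtain ⟨l', hl', rfl⟩ := List.sublist_map_iff.mp hw
  rw [List.length_map]
  have nd : l'.Nodup := hl'.nodup List.nodup_range
  rw [← List.toFinset_card_of_nodup nd]
  have hc : l'.toFinset.card ≤ (n / (p * m) + 1) * p := by
    have h1 : l'.toFinset.card
        ≤ (Finset.range (n / (p * m) + 1) ×ˢ Finset.range p).card := by
      refine Finset.card_le_card_of_injOn (fun i => (i / (p * m), (s + i) % p)) ?_ ?_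
      · intro i hi
        have hi' : i ∈ l' := by simpa using hi
        have hin : i < n := List.mem_range.mp (hl'.subset hi')
        have : i / (p * m) ≤ n / (p * m) := Nat.div_le_div_right hin.le
        simp only [Finset.coe_product, Finset.coe_range, Set.mem_prod, Set.mem_Iio]
        exact ⟨by omega, Nat.mod_lt _ hp⟩
      · intro i hi i' hi' e
        have hi1 : i ∈ l' := by simpa using hi
        have hi2 : i' ∈ l' := by simpa using hi'
        have g1 : (s + i) / p % m = G := hG _ (List.mem_map_of_mem hi1)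
        have g2 : (s + i') / p % m = G := hG _ (List.mem_map_of_mem hi2)
        simp only [Prod.mk.injEq] at e
        obtain ⟨e1, e2⟩ := e
        have e3 : (s + i) % (p * m) = (s + i') % (p * m) := by
          rw [Nat.mod_mul, Nat.mod_mul, e2, g1, g2]
        have e4 : i ≡ i' [MOD (p * m)] := Nat.ModEq.add_left_cancel' s e3
        have e5 : i % (p * m) = i' % (p * m) := e4
        rw [← Nat.div_add_mod i (p * m), ← Nat.div_add_mod i' (p * m), e1, e5]
    rwa [Finset.card_product, Finset.card_range, Finset.card_range] at h1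
  have hm' : (0 : ℝ) < m := by exact_mod_cast hm
  have hp' : (0 : ℝ) < p := by exact_mod_cast hp
  have h2 : (l'.toFinset.card : ℝ) ≤ (((n / (p * m) : ℕ) : ℝ) + 1) * p := by exact_mod_cast hc
  have h3 : ((n / (p * m) : ℕ) : ℝ) ≤ (n : ℝ) / (p * m) := by
    have := @Nat.cast_div_le ℝ _ _ _ n (p * m)
    push_cast at this
    exact this
  calc (l'.toFinset.card : ℝ) ≤ (((n / (p * m) : ℕ) : ℝ) + 1) * p := h2
    _ ≤ ((n : ℝ) / (p * m) + 1) * p := by gcongr
    _ = (n : ℝ) / m + p := by field_simp

theorem main (m p p' : ℕ) (hm : 0 < m) (hp : 0 < p) (hp' : 0 < p') (N : ℕ) :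
    ∀ (n n' s s' : ℕ) (w : List ℕ), s' + n' ≤ (s' / p' + N) * p' →
    w.Sublist (cyc m p n s) → w.Sublist (cyc m p' n' s') →
    (w.length : ℝ) ≤ (n : ℝ) / m + (p : ℝ) * N := by
  induction N with
  | zero =>
    intro n n' s s' w h _ h2
    have h3 : s' / p' * p' ≤ s' := Nat.div_mul_le_self s' p'
    have h4 : n' = 0 := by
      rw [Nat.add_zero] at h
      omega
    subst h4
    have h5 : w.length ≤ 0 := by
      have := h2.length_le
      rwa [cyc_length] at this
    have h6 : w.length = 0 := by omega
    rw [h6]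
    push_cast
    positivity
  | succ N ih =>
    intro n n' s s' w h h1 h2
    -- the first run
    have hlt : s' < (s' / p' + 1) * p' := by
      have := Nat.lt_div_mul_add (a := s') hp'
      rw [Nat.add_mul, Nat.one_mul]
      exact this
    have hconst : ∀ t, s' + t ≤ (s' / p' + 1) * p' → ∀ a ∈ cyc m p' t s', a = s' / p' % m := by
      intro t ht a ha
      unfold cyc at ha
      obtain ⟨i, hi, rfl⟩ := List.mem_map.mp ha
      have hi' := List.mem_range.mp hi
      have e : (s' + i) / p' = s' / p' := by
        apply le_antisymm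
        · have : (s' + i) / p' < s' / p' + 1 := by
            rw [Nat.div_lt_iff_lt_mul hp']
            omega
          omega
        · exact Nat.div_le_div_right (by omega)
      rw [e]
    by_cases hc : s' + n' ≤ (s' / p' + 1) * p'
    · have h3 := countA m p n s (s' / p' % m) hm hp w h1
        (fun a ha => hconst n' hc a (h2.subset ha))
      push_cast
      have h4 : (0 : ℝ) ≤ (p : ℝ) * N := by positivity
      linarith
    · push Not at hc
      obtain ⟨t, ht⟩ : ∃ t, s' + t = (s' / p' + 1) * p' := ⟨_, Nat.add_sub_cancel' hlt.le⟩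
      obtain ⟨r, hr⟩ : ∃ r, n' = t + r := ⟨n' - t, by omega⟩
      subst hr
      rw [cyc_add] at h2
      obtain ⟨w1, w2, rfl, k1, k2⟩ := List.sublist_append_iff.mp h2
      obtain ⟨r1, r2, er, k3, k4⟩ := List.append_sublist_iff.mp h1
      have hlen : n = r1.length + r2.length := by
        have := congrArg List.length er
        rwa [cyc_length, List.length_append] at this
      rw [hlen, cyc_add] at er
      obtain ⟨er1, er2⟩ := List.append_inj er (by rw [cyc_length])
      have l1 : (w1.length : ℝ) ≤ (r1.length : ℝ) / m + p := by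
        refine countA m p r1.length s (s' / p' % m) hm hp w1 ?_ ?_
        · rw [er1]; exact k3
        · exact fun a ha => hconst t ht.le a (k1.subset ha)
      have hdiv : (s' + t) / p' = s' / p' + 1 := by
        rw [ht, Nat.mul_div_cancel _ hp']
      have l2 : (w2.length : ℝ) ≤ (r2.length : ℝ) / m + (p : ℝ) * N := by
        refine ih r2.length r (s + r1.length) (s' + t) w2 ?_ ?_ k2
        · rw [hdiv, add_assoc, add_assoc, add_comm 1 N]
          exact h
        · rw [er2]; exact k4
      rw [List.length_append, hlen]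
      push_cast
      have : ((r1.length : ℝ) + r2.length) / m = (r1.length : ℝ) / m + (r2.length : ℝ) / m :=
        add_div _ _ _
      rw [this]
      linarith

end Wcyc

open Wcyc in
theorem t_W_cyc : W_cyc := by
  intro m p p' n n' s s' hm hp hp' w h1 h2
  have hN : s' + n' ≤ (s' / p' + (n' / p' + 2)) * p' := by
    have a1 := Nat.lt_div_mul_add (a := s') hp'
    have a2 := Nat.lt_div_mul_add (a := n') hp'
    have : (s' / p' + (n' / p' + 2)) * p' = s' / p' * p' + p' + (n' / p' * p' + p') := by ring
    rw [this]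
    omega
  have h3 := main m p p' hm hp hp' (n' / p' + 2) n n' s s' w hN h1 h2
  have h4 : ((n' / p' : ℕ) : ℝ) ≤ (n' : ℝ) / p' := Nat.cast_div_le
  have h5 : (p : ℝ) * ((n' / p' + 2 : ℕ) : ℝ) ≤ (n' : ℝ) * p / p' + 2 * p := by
    push_cast
    have h6 : (p : ℝ) * (((n' / p' : ℕ) : ℝ) + 2) ≤ (p : ℝ) * ((n' : ℝ) / p' + 2) := by gcongr
    have h7 : (p : ℝ) * ((n' : ℝ) / p' + 2) = (n' : ℝ) * p / p' + 2 * p := by ring
    linarith
  linarith

end Pool.Agent.H468R2.KA
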