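import Pool.Agent.H468R2.KA.Tasks2

/-! The order by positions. -/

set_option autoImplicit false

open MeasureTheory Filter Topology

namespace Pool.Agent.H468R2.KA

theorem Y_lt_aux (hP : Y_P) (c : ℕ → ℕ) (y z : Y) (k : ℕ) (hk : ∀ l, k < l → y l = z l)
    (hlt : pos k (c k) (ty (k + 1) y) (y k) < pos k (c k) (ty (k + 1) y) (z k)) (m : ℕ) :
    P c (k + 1 + m) y < P c (k + 1 + m) z := by
  induction m with
  | zero =>
    have h1 := (hP c k y).1
    have hty : ty (k + 1) z = ty (k + 1) y := by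
      unfold ty
      rw [hk (k + 1) (Nat.lt_succ_self k)]
    show pos k (c k) (ty (k + 1) y) (y k) * N k + P c k y <
      pos k (c k) (ty (k + 1) z) (z k) * N k + P c k z
    rw [hty]
    calc pos k (c k) (ty (k + 1) y) (y k) * N k + P c k y
        < pos k (c k) (ty (k + 1) y) (y k) * N k + N k := Nat.add_lt_add_left h1 _
      _ = (pos k (c k) (ty (k + 1) y) (y k) + 1) * N k := (Nat.succ_mul _ _).symm
      _ ≤ pos k (c k) (ty (k + 1) y) (z k) * N k := Nat.mul_le_mul_right _ hlt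
      _ ≤ pos k (c k) (ty (k + 1) y) (z k) * N k + P c k z := Nat.le_add_right _ _
  | succ m ih =>
    have h1 : ty (k + 1 + m + 1) z = ty (k + 1 + m + 1) y := by
      unfold ty
      rw [hk (k + 1 + m + 1) (by omega)]
    have h2 : z (k + 1 + m) = y (k + 1 + m) := (hk _ (by omega)).symm
    show pos (k + 1 + m) (c (k + 1 + m)) (ty (k + 1 + m + 1) y) (y (k + 1 + m)) * N (k + 1 + m) +
        P c (k + 1 + m) y <
      pos (k + 1 + m) (c (k + 1 + m)) (ty (k + 1 + m + 1) z) (z (k + 1 + m)) * N (k + 1 + m) +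
        P c (k + 1 + m) z
    rw [h1, h2]
    exact Nat.add_lt_add_left ih _

theorem Y_lt_mp (hP : Y_P) (c : ℕ → ℕ) (K : ℕ) (y z : Y) (hyz : ∀ l, K ≤ l → y l = z l)
    (h : lt c y z) : P c K y < P c K z := by
  obtain ⟨k, hk, hlt⟩ := h
  have hkK : k < K := by
    by_contra hc
    rw [hyz k (not_lt.1 hc)] at hlt
    exact lt_irrefl _ hlt
  obtain ⟨m, rfl⟩ : ∃ m, K = k + 1 + m := ⟨K - (k + 1), by omega⟩
  exact Y_lt_aux hP c y z k hk hlt m

theorem t_Y_lt (h1 : Y_pos) (h2 : Y_P) : Y_lt := by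
  classical
  intro c K y z hyz
  refine ⟨Y_lt_mp h2 c K y z hyz, fun h => ?_⟩
  have hex : ∃ l, l < K ∧ y l ≠ z l := by
    by_contra hc
    push Not at hc
    have h3 : y = z := by
      funext l
      by_cases hl : l < K
      · exact hc l hl
      · exact hyz l (not_lt.1 hl)
    rw [h3] at h
    exact lt_irrefl _ h
  obtain ⟨l0, hl0, hl0'⟩ := hex
  have hne : ((Finset.range K).filter (fun l => y l ≠ z l)).Nonempty :=
    ⟨l0, Finset.mem_filter.2 ⟨Finset.mem_range.2 hl0, hl0'⟩⟩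
  obtain ⟨k, hk, hmax⟩ := Finset.exists_max_image _ (fun l : ℕ => l) hne
  have hk' := Finset.mem_filter.1 hk
  have hagree : ∀ l, k < l → y l = z l := by
    intro l hl
    by_cases hlK : l < K
    · by_contra hc
      have := hmax l (Finset.mem_filter.2 ⟨Finset.mem_range.2 hlK, hc⟩)
      exact absurd this (not_le.2 hl)
    · exact hyz l (not_lt.1 hlK)
  have hty : ty (k + 1) z = ty (k + 1) y := by
    unfold ty
    rw [hagree (k + 1) (Nat.lt_succ_self k)]
  have hM : ty (k + 1) y < M (k + 1) := (y (k + 1)).1.2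
  have hinj := (h1 k (c k) (ty (k + 1) y) hM).2.1
  rcases Nat.lt_trichotomy (pos k (c k) (ty (k + 1) y) (y k))
    (pos k (c k) (ty (k + 1) y) (z k)) with h3 | h3 | h3
  · exact ⟨k, hagree, h3⟩
  · exact absurd (hinj h3) hk'.2
  · have h4 : lt c z y := by
      refine ⟨k, fun l hl => (hagree l hl).symm, ?_⟩
      rw [hty]
      exact h3
    have h5 := Y_lt_mp h2 c K z y (fun l hl => (hyz l hl).symm) h4
    exact absurd h (not_lt.2 h5.le)

end Pool.Agent.H468R2.KA
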