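import Pool.Agent.H468R2.KA.Defs
import Pool.Agent.H468R2.MA.Defs

/-!
# Statements of the tasks (Kakutani equivalence)
-/

set_option autoImplicit false

open MeasureTheory Filter Topology
open Pool.H110K2

namespace Pool.Agent.H468R2.KA

universe u v

/-! ### words -/

def W_len : Prop := ∀ c k j, (W c k j).length = N k

def W_pieces : Prop := ∀ (f : ℕ → List ℕ) (n : ℕ), 0 < n → (∀ a, (f a).length = n) →
  ∀ l U : List ℕ, U <:+: l.flatMap f → ∃ Us : List (ℕ × List ℕ),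
    Us.map Prod.fst <:+: l ∧ (∀ p ∈ Us, p.2 <:+: f p.1) ∧ (Us.map Prod.snd).flatten = U ∧
      Us.length * n ≤ U.length + 2 * n

def W_dp : Prop := ∀ (n : ℕ) (ρ η : ℝ), 0 ≤ ρ → 0 ≤ η → ∀ (Us Vs : List (ℕ × List ℕ)),
  (∀ p ∈ Us, p.2.length ≤ n) → (∀ q ∈ Vs, q.2.length ≤ n) →
  (∀ p ∈ Us, ∀ q ∈ Vs, p.1 ≠ q.1 → Sp ρ η p.2 q.2) →
  ∀ K : ℕ, (∀ z : List ℕ, z.Sublist (Us.map Prod.fst) → z.Sublist (Vs.map Prod.fst) →
    z.length ≤ K) →
  ∀ w : List ℕ, w.Sublist (Us.map Prod.snd).flatten → w.Sublist (Vs.map Prod.snd).flatten →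
    (w.length : ℝ) ≤ ρ / 2 * (((Us.map Prod.snd).flatten.length : ℝ) +
      (Vs.map Prod.snd).flatten.length) + η * ((Us.length : ℝ) + Vs.length) + n * K

def W_cyc : Prop := ∀ (m p p' n n' s s' : ℕ), 0 < m → 0 < p → 0 < p' → ∀ w : List ℕ,
  w.Sublist (cyc m p n s) → w.Sublist (cyc m p' n' s') →
    (w.length : ℝ) ≤ (n : ℝ) / m + (n' : ℝ) * p / p' + 2 * p

def W_pat : Prop := ∀ k c j j' : ℕ, j < M (k + 1) → j' < M (k + 1) →
  (j / h (k + 1) ≠ j' / h (k + 1) ∨ (j ≠ j' ∧ R k ≤ c)) →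
  ∀ u v w : List ℕ, u <:+: pat k c j → v <:+: pat k c j' →
    w.Sublist (u.map (fun a => a / h k)) → w.Sublist (v.map (fun a => a / h k)) →
    (w.length : ℝ) ≤ ((u.length : ℝ) + v.length) / g k + 6 * h k * (b k : ℝ) ^ (E k - 1)

def W_step : Prop := ∀ (c : ℕ → ℕ) (k : ℕ),
  (∀ i i', i < M k → i' < M k → i / h k ≠ i' / h k →
    Sp (rho k) (eta k * N k) (W c k i) (W c k i')) →
  ∀ j j', j < M (k + 1) → j' < M (k + 1) →
    (j / h (k + 1) ≠ j' / h (k + 1) ∨ (j ≠ j' ∧ R k ≤ c k)) →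
    Sp (rho (k + 1)) (eta (k + 1) * N (k + 1)) (W c (k + 1) j) (W c (k + 1) j')

/-- separation of all words: different groups are always separated; different types at level
`l + 1` are separated if level `l` is on -/
def W_sep : Prop := ∀ (c : ℕ → ℕ) (k j j' : ℕ), j < M k → j' < M k →
  (j / h k ≠ j' / h k ∨ (j ≠ j' ∧ ∃ l, k = l + 1 ∧ R l ≤ c l)) →
  Sp (rho k) (eta k * N k) (W c k j) (W c k j')

/-! ### orbits -/

def Y_pos : Prop := ∀ k c j : ℕ, j < M (k + 1) →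
  (∀ d, pos k c j d < L k) ∧ Function.Injective (pos k c j) ∧
    (∀ s, s < L k → ∃ d, pos k c j d = s) ∧ pos k c j (zr k) = 0 ∧
      pos k c j (la k) = L k - 1 ∧ ∀ d, (pat k c j)[pos k c j d]? = some (d.1 : ℕ)

def Y_P : Prop := ∀ c K y, P c K y < N K ∧ (P c K y = 0 ↔ ∀ l < K, y l = zr l) ∧
  (P c K y + 1 = N K ↔ ∀ l < K, y l = la l) ∧
  (∀ z : Y, (∀ l, K ≤ l → y l = z l) → P c K y = P c K z → y = z) ∧
  (∀ n, n < N K → ∃ z : Y, (∀ l, K ≤ l → z l = y l) ∧ P c K z = n)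

def Y_step : Prop := ∀ c y K, P c K y + 1 < N K →
  P c K (T c y) = P c K y + 1 ∧ ∀ l, K ≤ l → T c y l = y l

def Y_iter : Prop := ∀ c y K n, P c K y + n < N K →
  P c K ((T c)^[n] y) = P c K y + n ∧ ∀ l, K ≤ l → (T c)^[n] y l = y l

def Y_bs : Prop := ∀ c K y, (∀ i, i < N K → P c K ((T c)^[i] (bs K y)) = i ∧
    ∀ l, K ≤ l → (T c)^[i] (bs K y) l = y l) ∧ (T c)^[P c K y] (bs K y) = y

def Y_lt : Prop := ∀ c K (y z : Y), (∀ l, K ≤ l → y l = z l) → (lt c y z ↔ P c K y < P c K z)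

def Y_reach : Prop := ∀ c (y z : Y), lt c y z → ∃ n, 1 ≤ n ∧ (T c)^[n] y = z

/-- orbits of good points increase and stay in the tail class -/
def Y_up : Prop := ∀ c (y : Y), y ∈ Gd → ∀ n, ∃ K, P c K y + n < N K

def Y_Gd : Prop := ∀ c (y : Y), y ∈ Gd → T c y ∈ Gd ∧ S c y ∈ Gd ∧ S c (T c y) = y ∧
  T c (S c y) = y

def Y_name : Prop := ∀ c K (y : Y) n, P c K y + n ≤ N K → nm c y n <:+: W c K (ty K y)

def Y_cover : Prop := ∀ c K (y : Y) n, y ∈ Gd → ∃ l : List ℕ,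
  nm c y n <:+: l.flatMap (W c K) ∧ (∀ a ∈ l, a < M K) ∧ l.length * N K ≤ n + 2 * N K

def Y_off : Prop := ∀ c K (y z : Y), c K = 0 → ty (K + 1) y / h (K + 1) = ty (K + 1) z / h (K + 1) →
  ∀ i, i < N (K + 1) → ∀ l, l ≤ K →
    (T c)^[i] (bs (K + 1) y) l = (T c)^[i] (bs (K + 1) z) l

/-- two parameter sequences give the same induced map on `A` -/
def Y_ind : Prop := ∀ (c c' : ℕ → ℕ) (K : ℕ) (A : Set Y),
  A = {y | (∀ l < K, y l = zr l) ∧
    ∀ l, K ≤ l → (((y l).2.1 : ℕ) < c l ↔ ((y l).2.1 : ℕ) < c' l)} →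
  ∀ y ∈ A, y ∈ Gd → induced (T c) A y = induced (T c') A y

/-! ### measure -/

def M_ex : Prop := ∃ ν : Measure Y, Unif ν

def M_ext : Prop := ∀ ν ν' : Measure Y, Unif ν → Unif ν' → ν = ν'

def M_meas : Prop := Measurable (fun p : (ℕ → ℕ) × Y => T p.1 p.2) ∧
  Measurable (fun p : (ℕ → ℕ) × Y => S p.1 p.2) ∧ ∀ c K, Measurable (P c K)

def M_cc : Prop := Measurable cc

def M_Gd : Prop := ∀ ν : Measure Y, Unif ν → MeasurableSet Gd ∧ ν Gdᶜ = 0

def M_mp : Prop := ∀ ν : Measure Y, Unif ν → ∀ c, MeasurePreserving (T c) ν ν ∧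
  MeasurePreserving (S c) ν ν

def M_av : Prop := ∀ ν : Measure Y, Unif ν → ∀ c K (f : Y → ENNReal), Measurable f →
  ∫⁻ y, ∑ i ∈ Finset.range (N K), f ((T c)^[i] (bs K y)) ∂ν = N K * ∫⁻ y, f y ∂ν

def M_ty : Prop := ∀ ν : Measure Y, Unif ν → ∀ K, ∀ I : Finset ℕ,
  ν {y | ty K y ∈ I} ≤ (I.card : ENNReal) / M K

def M_P : Prop := ∀ ν : Measure Y, Unif ν → ∀ c K n,
  ν {y | N K < P c K y + n} ≤ (n : ENNReal) / N K

def M_erg : Prop := ∀ ν : Measure Y, Unif ν → ∀ c, Ergodic (T c) ν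

def M_apx : Prop := ∀ ν : Measure Y, Unif ν → ∀ Φ : Y → List ℕ, (∀ l, MeasurableSet (Φ ⁻¹' {l})) →
  ∫⁻ y, ((Φ y).length : ENNReal) ∂ν ≠ ⊤ → ∀ ε : ENNReal, ε ≠ 0 → ∃ (m : ℕ) (F : Y → List ℕ),
    (∀ y z : Y, (∀ l < m, y l = z l) → F y = F z) ∧
    ∫⁻ y, (if Φ y = F y then (0 : ENNReal) else (Φ y).length + (F y).length) ∂ν ≤ ε

/-- `cc` of summably close sequences differ in a summable proportion of blocks -/
def M_sum : Prop := ∀ x y : ℕ → ℝ, Summable (fun k => |x k - y k|) →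
  Summable (fun k => (Nat.card {r : Fin (R k) // ¬ ((r : ℕ) < cc x k ↔ (r : ℕ) < cc y k)} : ℝ) / R k)

def M_A : Prop := ∀ ν : Measure Y, Unif ν → ∀ c c' : ℕ → ℕ,
  Summable (fun k => (Nat.card {r : Fin (R k) // ¬ ((r : ℕ) < c k ↔ (r : ℕ) < c' k)} : ℝ) / R k) →
  ∃ K, MeasurableSet {y : Y | (∀ l < K, y l = zr l) ∧
      ∀ l, K ≤ l → (((y l).2.1 : ℕ) < c l ↔ ((y l).2.1 : ℕ) < c' l)} ∧
    ν {y : Y | (∀ l < K, y l = zr l) ∧
      ∀ l, K ≤ l → (((y l).2.1 : ℕ) < c l ↔ ((y l).2.1 : ℕ) < c' l)} ≠ 0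

/-- upper half: summably close parameters give Kakutani equivalent transformations -/
def K_up : Prop := ∀ ν : Measure Y, Unif ν → ∀ x y : ℕ → ℝ, Summable (fun k => |x k - y k|) →
  KakutaniEquiv ν (T (cc x)) (T (cc y))

/-! ### lower bound -/

/-- data of a Kakutani equivalence of `T c` and `T c'` -/
structure KD (ν : Measure Y) (c c' : ℕ → ℕ) (A B : Set Y) (φ ψ : Y → Y) : Prop where
  mA : MeasurableSet A
  mB : MeasurableSet B
  pA : ν A ≠ 0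
  pB : ν B ≠ 0
  mφ : Measurable φ
  mψ : Measurable ψ
  ae1 : ∀ᵐ x ∂(ν.restrict A), φ x ∈ B ∧ ψ (φ x) = x ∧
    φ (induced (T c) A x) = induced (T c') B (φ x)
  ae2 : ∀ᵐ y ∂(ν.restrict B), ψ y ∈ A ∧ φ (ψ y) = y
  sc : ∀ F, MeasurableSet F → ν (A ∩ φ ⁻¹' F) / ν A = ν (B ∩ F) / ν B

open Classical in
/-- the `T c'`-name of `φ z` until its return to `B` -/
noncomputable def Ph (c' : ℕ → ℕ) (A B : Set Y) (φ : Y → Y) (z : Y) : List ℕ :=
  if z ∈ A then nm c' (φ z) (retTime (T c') B (φ z)) else []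

/-- concatenation of the words `Φ` along the orbit -/
noncomputable def JJ (c : ℕ → ℕ) (Φ : Y → List ℕ) (z : Y) (n : ℕ) : List ℕ :=
  (List.range n).flatMap (fun i => Φ ((T c)^[i] z))

/-- error -/
noncomputable def er (Φ F : Y → List ℕ) (y : Y) : ℕ :=
  if Φ y = F y then 0 else (Φ y).length + (F y).length

/-- a good point for the data -/
structure Ok (c c' : ℕ → ℕ) (A B : Set Y) (φ : Y → Y) (z : Y) : Prop where
  gd : z ∈ Gd
  gdA : z ∈ A → φ z ∈ Gd ∧ φ z ∈ B ∧ 1 ≤ retTime (T c') B (φ z)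
  seg : ∀ n, JJ c (Ph c' A B φ) z n ≠ [] → ∃ i < n, (T c)^[i] z ∈ A ∧ φ ((T c)^[i] z) ∈ Gd ∧
    (z ∈ A → i = 0) ∧
      JJ c (Ph c' A B φ) z n = nm c' (φ ((T c)^[i] z)) (JJ c (Ph c' A B φ) z n).length

def A_ok : Prop := ∀ ν : Measure Y, Unif ν → ∀ c c' A B φ ψ, KD ν c c' A B φ ψ →
  ∀ᵐ z ∂ν, Ok c c' A B φ z

/-- measurability and integral of `Φ` -/
def A_int : Prop := ∀ ν : Measure Y, Unif ν → ∀ c c' A B φ ψ, KD ν c c' A B φ ψ →
  (∀ l, MeasurableSet (Ph c' A B φ ⁻¹' {l})) ∧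
    ∫⁻ y, ((Ph c' A B φ y).length : ENNReal) ∂ν ≤ ν A / ν B

/-- alignment -/
def A_align : Prop := ∀ (c' : ℕ → ℕ) (K j : ℕ) (l U X₁ X₂ J₂ w : List ℕ) (e : ℝ),
  (∀ a ∈ l, Sp (rho K) (eta K * N K) (W c' K j) (W c' K a)) →
  U <:+: W c' K j → J₂ <:+: l.flatMap (W c' K) →
  w.Sublist (X₁ ++ U ++ X₂) → w.Sublist J₂ →
  ((X₁ ++ U ++ X₂).length : ℝ) ≤ w.length + e → (J₂.length : ℝ) ≤ w.length + e →
  3 / 4 * (U.length : ℝ) ≤ e + l.length * (eta K * N K)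

/-- common subword of two concatenations close to a third one -/
def A_common : Prop := ∀ (n : ℕ) (f f' G : ℕ → List ℕ), ∃ w : List ℕ,
  w.Sublist ((List.range n).flatMap f) ∧ w.Sublist ((List.range n).flatMap f') ∧
  ((List.range n).flatMap f).length ≤ w.length +
    ((∑ i ∈ Finset.range n, if f i = G i then 0 else (f i).length + (G i).length) +
    ∑ i ∈ Finset.range n, if f' i = G i then 0 else (f' i).length + (G i).length) ∧
  ((List.range n).flatMap f').length ≤ w.length +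
    ((∑ i ∈ Finset.range n, if f i = G i then 0 else (f i).length + (G i).length) +
    ∑ i ∈ Finset.range n, if f' i = G i then 0 else (f' i).length + (G i).length)

/-- a very good point at level `K` -/
structure Vg (c c' : ℕ → ℕ) (A B : Set Y) (φ : Y → Y) (F : Y → List ℕ) (K n₀ e₀ C : ℕ) (z : Y) :
    Prop where
  mem : z ∈ A
  ok : Ok c c' A B φ z
  okb : Ok c c' A B φ (bs K z)
  err : ∑ i ∈ Finset.range (N K), er (Ph c' A B φ) F ((T c)^[i] (bs K z)) ≤ e₀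
  len : (JJ c (Ph c' A B φ) (bs K z) (N K)).length ≤ C * N K
  long : n₀ ≤ (JJ c (Ph c' A B φ) z (N K - P c K z)).length
  room : P c' K (φ z) + n₀ ≤ N K

/-- two very good points in words of the same group: the type of `φ z` belongs to a short list
depending only on `z'` -/
def A_type : Prop := ∀ (c c' : ℕ → ℕ) (A B : Set Y) (φ : Y → Y) (F : Y → List ℕ)
  (k m n₀ e₀ C : ℕ), c k = 0 → R k ≤ c' k → m ≤ k + 1 →
  (∀ y z : Y, (∀ l < m, y l = z l) → F y = F z) →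
  (2 * (e₀ : ℝ) + (C + 2) * (eta (k + 1) * N (k + 1)) < 3 / 4 * n₀) →
  ∀ z', Vg c c' A B φ F (k + 1) n₀ e₀ C z' → ∃ l : List ℕ, l.length ≤ C + 2 ∧
    ∀ z, Vg c c' A B φ F (k + 1) n₀ e₀ C z →
      ty (k + 1) z / h (k + 1) = ty (k + 1) z' / h (k + 1) → ty (k + 1) (φ z) ∈ l

/-- counting of types: the very good points have small measure -/
def A_count : Prop := ∀ ν : Measure Y, Unif ν → ∀ c c' A B φ ψ, KD ν c c' A B φ ψ →
  ∀ (F : Y → List ℕ) (k m n₀ e₀ C : ℕ), c k = 0 → R k ≤ c' k → m ≤ k + 1 →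
  (∀ y z : Y, (∀ l < m, y l = z l) → F y = F z) →
  (2 * (e₀ : ℝ) + (C + 2) * (eta (k + 1) * N (k + 1)) < 3 / 4 * n₀) →
  ν {z | Vg c c' A B φ F (k + 1) n₀ e₀ C z} ≤ ν A / ν B * (((C + 2 : ℕ) : ENNReal) / h (k + 1))

/-- the complement of the very good points in `A` has small measure -/
def A_bad : Prop := ∀ ν : Measure Y, Unif ν → ∀ c c' A B φ ψ, KD ν c c' A B φ ψ →
  ∀ (F : Y → List ℕ) (K m n₀ e₀ C : ℕ), 0 < C →
  (∀ y z : Y, (∀ l < m, y l = z l) → F y = F z) →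
  ν A ≤ ν {z | Vg c c' A B φ F K n₀ e₀ C z} + ((n₀ : ENNReal) / N K +
    ν A / ν B * ((n₀ : ENNReal) / N K) +
    (N K : ENNReal) * (∫⁻ y, (er (Ph c' A B φ) F y : ENNReal) ∂ν) / ((e₀ : ENNReal) + 1) +
    ν A / ν B / C)

/-- lower half -/
def K_low : Prop := ∀ ν : Measure Y, Unif ν → ∀ c c' : ℕ → ℕ,
  (∀ n, ∃ k, n ≤ k ∧ c k = 0 ∧ R k ≤ c' k) → ¬ KakutaniEquiv ν (T c) (T c')

/-! ### transfer and `S_∞` -/

/-- isomorphism modulo null sets -/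
structure Mi {X : Type u} {X' : Type v} [MeasurableSpace X] [MeasurableSpace X'] (μ : Measure X)
    (ν : Measure X') (φ : X → X') (ψ : X' → X) : Prop where
  mpφ : MeasurePreserving φ μ ν
  mpψ : MeasurePreserving ψ ν μ
  l : ∀ᵐ x ∂μ, ψ (φ x) = x
  r : ∀ᵐ y ∂ν, φ (ψ y) = y

/-- isomorphism of standard non-atomic probability spaces -/
def F_iso : Prop := ∀ (X : Type u) (X' : Type v) [MeasurableSpace X] [StandardBorelSpace X]
  [MeasurableSpace X'] [StandardBorelSpace X'] (μ : Measure X) (ν : Measure X')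
  [IsProbabilityMeasure μ] [IsProbabilityMeasure ν], (∀ x, μ {x} = 0) → (∀ y, ν {y} = 0) →
  ∃ φ ψ, Mi μ ν φ ψ

/-- invertible modulo null sets implies a.e. equal to a measurable equivalence -/
def F_eqv : Prop := ∀ (X : Type u) [MeasurableSpace X] [StandardBorelSpace X] (μ : Measure X)
  [IsProbabilityMeasure μ] (t s : X → X), Mi μ μ t s →
  ∃ e : X ≃ᵐ X, (∀ᵐ x ∂μ, e x = t x) ∧ ∀ᵐ x ∂μ, e.symm x = s x

/-- transfer of Kakutani equivalence -/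
def F_tr : Prop := ∀ (X : Type u) (X' : Type v) [MeasurableSpace X] [StandardBorelSpace X]
  [MeasurableSpace X'] [StandardBorelSpace X'] (μ : Measure X) (ν : Measure X')
  [IsProbabilityMeasure μ] [IsProbabilityMeasure ν] (φ : X → X') (ψ : X' → X), Mi μ ν φ ψ →
  ∀ (t s : X → X) (t' s' : X' → X'), MeasurePreserving t μ μ → MeasurePreserving s μ μ →
    MeasurePreserving t' ν ν → MeasurePreserving s' ν ν →
    (∀ᵐ x ∂μ, φ (t x) = t' (φ x)) → (∀ᵐ x ∂μ, φ (s x) = s' (φ x)) →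
    KakutaniEquiv ν t' s' → KakutaniEquiv μ t s

/-- Borel maps into the space of ergodic automorphisms -/
def F_bor : Prop := ∀ (X : Type u) [MeasurableSpace X] [StandardBorelSpace X] (μ : Measure X)
  [IsProbabilityMeasure μ] (f : (ℕ → ℝ) → ErgAut μ),
  (∀ A B : Set X, MeasurableSet A → MeasurableSet B →
    Measurable (fun x => μ ((f x).1 ⁻¹' A ∩ B))) →
  @Measurable _ _ _ (borel (ErgAut μ)) f

/-- the Borel structure of `S_∞` (topology of pointwise convergence) -/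
def permMS : MeasurableSpace (Equiv.Perm ℕ) :=
  MeasurableSpace.generateFrom {U | ∃ i j : ℕ, U = {π : Equiv.Perm ℕ | π i = j}}

/-- generic ergodicity of `ℓ¹` against Borel actions of `S_∞` -/
def F_perm : Prop := ∀ (Z : Type v) [MeasurableSpace Z] [StandardBorelSpace Z]
  [MulAction (Equiv.Perm ℕ) Z],
  @Measurable _ _ (permMS.prod inferInstance) _ (fun p : Equiv.Perm ℕ × Z => p.1 • p.2) →
  ∀ f : (ℕ → ℝ) → Z, Measurable f →
    (∀ x y : ℕ → ℝ, Summable (fun n => |x n - y n|) → ∃ π : Equiv.Perm ℕ, π • f x = f y) →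
    ∃ C ∈ residual (ℕ → ℝ), ∀ x ∈ C, ∀ y ∈ C, ∃ π : Equiv.Perm ℕ, π • f x = f y

/-- every comeager set contains a pair which is generic for the construction -/
def F_gen : Prop := ∀ C ∈ residual (ℕ → ℝ), ∃ x ∈ C, ∃ y ∈ C, ∀ n, ∃ k, n ≤ k ∧ cc x k = 0 ∧
  R k ≤ cc y k

end Pool.Agent.H468R2.KA
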